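import Mathlib
import Pool.Agent.Lib.MP_7c08ba_nt.Glob.Final2
import Pool.Agent.Lib.MP_7c08ba_nt.BK.CanLoc

set_option autoImplicit false

/-!
The local condition `H¹_f` is the whole group if `D_dR / Fil⁰` has the full dimension, `p = 2`.
-/

noncomputable section

namespace BKR.FLoc

open BKGen BKGen.Genus NumberField Pool.Agent.Lib.MP_7c08ba_nt Matrix MP_7c08ba.Crys TensorProduct
  BKGlob

section

variable {F : Type} [Field F] [NumberField F] {q : ℕ} {s : F}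
variable {L : Type} [NormedField L] [NormedAlgebra ℚ_[2] L] [FiniteDimensional ℚ_[2] L] {n : ℕ}

/-- **`H¹_f` is the whole group at the place `ι`** -/
theorem local_full (hq : BKPar.FieldHyp q F s)
    (ι : AlgebraicClosure F →+* PadicAlgCl 2)
    (c : AlgebraicClosure F ≃+* AlgebraicClosure F) (σ : F ≃+* F) (hcs : BKOdd.ConjHyp c σ)
    (hcs' : BKPar.ConjHyp s c σ)
    (ρ : AbsGal F →* GL (Fin n) L) (hρ : Continuous ρ) (hres : BKPar.ResUni ρ)
    (b : GL (Fin n) L)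
    (hpair : ∀ g, (ρ g : Matrix (Fin n) (Fin n) L)ᵀ * (b : Matrix (Fin n) (Fin n) L) *
      (ρ (BKPar.conj c σ hcs.h g) : Matrix (Fin n) (Fin n) L) =
        BKOdd.chL (BKOdd.cyc 2 F) L g • (b : Matrix (Fin n) (Fin n) L))
    (hDR : BKOdd.DeRhamAt ι ρ) (hF : BKOdd.FrobAt ⊤ ι ρ)
    (hF' : BKOdd.FrobAt ⊤ (ι.comp (c : AlgebraicClosure F →+* AlgebraicClosure F)) ρ)
    (hn : 0 < n) (h0 : BKOdd.tdim ι ρ = n) :
    BKOdd.Z1 (ρ.comp (BKPar.D F ι).subtype) ≤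
      MP_7c08ba.Crys.Zf (lift F ι) (ρ.comp (BKPar.D F ι).subtype) := by
  have hAdm := BKPar.stAdm
  have hs0 : s ≠ 0 := s_ne_zero hq
  obtain ⟨hτc, hτ2, hτR, hτχ, hi⟩ := BKPar.stConj hAdm F s c σ hcs' hs0
  have hpair' : ∀ g, (ρ g : Matrix (Fin n) (Fin n) L)ᵀ * (b : Matrix (Fin n) (Fin n) L) *
      (ρ (BKPar.conj c σ hcs'.h g) : Matrix (Fin n) (Fin n) L) =
        BKPar.chi (BKPar.cyc F) L g • (b : Matrix (Fin n) (Fin n) L) := hpair
  have hσc : Continuous (ρ.comp (BKPar.D F ι).subtype) := hρ.comp continuous_subtype_val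
  have hσc' : Continuous (BKND.Pol.cj b (rhoT ι hcs' ρ)) :=
    BKND.Pol.cj_continuous b ((hρ.comp hτc).comp continuous_subtype_val)
  have hdual := dual_cj ι c σ hcs' ρ b hpair'
  have hP := pure_dec ι ρ hF
  have hP' := pure_cj ι hcs hcs' ρ b hF'
  have hχ : ∀ g, BKOdd.chL (cycD F ι) L g = algebraMap ℚ_[2] L (chiQ (lift F ι g)) := by
    intro g
    have h1 := (BKOdd.stCycL 2).2.2 F ι (g : AbsGal F) (lift F ι g) (lift_spec ι g)
    have h2 : BKOdd.chL (cycD F ι) L g = algebraMap ℚ_[2] L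
      (((BKOdd.cyc 2 F (g : AbsGal F) : ℤ_[2]ˣ) : ℤ_[2]) : ℚ_[2]) := rfl
    rw [h2, h1]
    rfl
  have hχc : Continuous (BKOdd.chL (cycD F ι) L) :=
    BKOdd.continuous_chL' (cycD F ι)
      ((BKPar.stCycR hAdm (BKPar.stSq hAdm) F).1.comp continuous_subtype_val) L
  obtain ⟨r, r', hH, hr1, hr2, hr1', hr2'⟩ := hodgePair (lift F ι) (continuous_lift ι)
    (ρ.comp (BKPar.D F ι).subtype) (BKND.Pol.cj b (rhoT ι hcs' ρ)) hσc hσc'
    (BKOdd.chL (cycD F ι) L) hχ hχc hdual (isDR_dec ι ρ hDR) hP hP'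
  have hinv : ∀ v : Fin n → L, (∀ g : BKPar.D F ι,
      ((ρ.comp (BKPar.D F ι).subtype) g : Matrix (Fin n) (Fin n) L) *ᵥ v = v) → v = 0 :=
    fun v hv => BKOdd.eq_zero_of_phSub (lift F ι) (rp (ρ.comp (BKPar.D F ι).subtype)) hP v hv
  have hinv' : ∀ v : Fin n → L, (∀ g : BKPar.D F ι,
      (BKND.Pol.cj b (rhoT ι hcs' ρ) g : Matrix (Fin n) (Fin n) L) *ᵥ v = v) → v = 0 :=
    fun v hv => BKOdd.eq_zero_of_phSub (lift F ι) (rp (BKND.Pol.cj b (rhoT ι hcs' ρ))) hP' v hv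
  have hu : BKPar.ResUni (ρ.comp (BKPar.D F ι).subtype) := fun g i => hres g i
  have hu' : BKPar.ResUni (BKND.Pol.cj b (rhoT ι hcs' ρ)) :=
    BKND.Pol.cj_resUni b fun g i => hres _ i
  obtain ⟨hZ, hd, -⟩ := BKND.final q F s hq ι L n _ _ hσc hσc' hu hu' hdual hinv'
  have hZ' : FiniteDimensional L (BKOdd.Z1 (ρ.comp (BKPar.D F ι).subtype)) := hZ
  obtain ⟨hf1, hf2⟩ := finrank_H1_le hσc hZ hd hinv
  rw [tdim_dec] at h0
  have hrk : rkdR (lift F ι) (ρ.comp (BKPar.D F ι).subtype) = (n : Cardinal) := by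
    have h1 : Cardinal.toNat (rkdR (lift F ι) (ρ.comp (BKPar.D F ι).subtype)) ≠ 0 := by omega
    have h2 : rkdR (lift F ι) (ρ.comp (BKPar.D F ι).subtype) < Cardinal.aleph0 := by
      by_contra h
      exact h1 (Cardinal.toNat_apply_of_aleph0_le (not_lt.1 h))
    rw [← Cardinal.cast_toNat_of_lt_aleph0 h2, h0]
  rw [hrk, ← Module.finrank_eq_rank] at hr2
  have hr3 : n ≤ Module.finrank L (BKOdd.cls (ρ.comp (BKPar.D F ι).subtype)
      (MP_7c08ba.Crys.Zf (lift F ι) (ρ.comp (BKPar.D F ι).subtype))) := by exact_mod_cast hr2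
  have htop : BKOdd.cls (ρ.comp (BKPar.D F ι).subtype)
      (MP_7c08ba.Crys.Zf (lift F ι) (ρ.comp (BKPar.D F ι).subtype)) = ⊤ := by
    apply Submodule.eq_top_of_finrank_eq
    have h4 := Submodule.finrank_le (BKOdd.cls (ρ.comp (BKPar.D F ι).subtype)
      (MP_7c08ba.Crys.Zf (lift F ι) (ρ.comp (BKPar.D F ι).subtype)))
    omega
  intro x hx
  rw [← BKOdd.mem_cls_mk hH.bz hx, htop]
  exact Submodule.mem_top

end

end BKR.FLoc
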