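import Pool.Agent.Lib.MP_7c08ba_nt.R1.HSt
import Pool.Agent.Lib.MP_7c08ba_nt.BK.Can
import Pool.Agent.Lib.MP_7c08ba_nt.Met.StL

set_option autoImplicit false

/-!
The Selmer groups of the canonical Hecke characters in rank one: statements of the modules.
-/

noncomputable section

namespace BKR

open NumberField IsDedekindDomain BKGen BKGen.SUnits Matrix
open BKLoc2 (im cy cyL Sys IsKP IsHom)
open BKMet (QZ actA GF GQ cycF RS GS pb1 pb2)
open BKPar (Loc1 Loc2)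
open BKGlob2 (Cp fs sn LC dc SP Prin CC0)
open BKOdd (chL chZ)

/-! ### Existence of a class -/

/-- Module EUN: a group whose homomorphisms to `ℤ/2` form a space of dimension `d`, and for which
`H²(G, 𝔽₂)` has dimension at most `d - 2`, has a nontrivial class in `H¹(G, ℚ₂(ρ))`. Proof: `ρ` has
values in `ℤ₂ˣ`; from `0 → 𝔽₂ → T_(k+1) → T_k → 0`, `T_k = ℤ/2 ^ k (ρ)`, the group `Z¹(G, T_k)` is
finite of order at least `4 ^ k`; by LIMG of `StL` (one place, with trivial local group) the order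
of `Z¹(G, T_k)` is a constant times `2 ^ (k s)`, `s` the dimension of `Z¹(G, ℚ₂(ρ))`. -/
def StEUN : Prop :=
  ∀ (G : Type) [Group G] [TopologicalSpace G] [IsTopologicalGroup G] [CompactSpace G]
    [NonarchimedeanGroup G] (ρ : G →* GL (Fin 1) ℚ_[2]), Continuous ρ → ∀ d r : ℕ,
    Nat.card (CC.Z1 (1 : G →* ZMod 2)) = 2 ^ d →
    (CC.B2 (1 : G →* ZMod 2)).toAddSubgroup.relIndex
      (CC.Z2 (1 : G →* ZMod 2)).toAddSubgroup ≠ 0 →
    (CC.B2 (1 : G →* ZMod 2)).toAddSubgroup.relIndex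
      (CC.Z2 (1 : G →* ZMod 2)).toAddSubgroup ≤ 2 ^ r → r + 2 ≤ d →
    ∃ x ∈ BKOdd.Z1 ρ, x ∉ BKOdd.B1 ρ

/-! ### The places which do not divide `2` -/

/-- Module TAM: homomorphisms from an open subgroup of the inertia group at `l ≠ 2` to `ℚ₂`: they
are multiples of the Kummer cocycle `κ` of `l`. Proof: let `G` be the group of automorphisms over
`Lf (SV V j)` of `Met/HTI.lean`, which maps onto `V ∩ I`; by Z1A of `LocStmts` the homomorphism
`x / 2 ^ n` modulo `ℤ₂` is a Kummer cocycle of an element `a`, and a power of `a` is a power of `l`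
times a unit, whose Kummer cocycle is trivial. -/
def StTAM : Prop :=
  ∀ (F : Type) [Field F] [NumberField F] (l : ℕ) [Fact l.Prime], l ≠ 2 →
    ∀ (j : AlgebraicClosure F →+* PadicAlgCl l) (V : Subgroup (GF F)), IsOpen (V : Set (GF F)) →
    ∀ x : GF F → ℚ_[2], Continuous x →
    (∀ g ∈ Inert F (AlgebraicClosure F) j, ∀ h ∈ Inert F (AlgebraicClosure F) j,
      g ∈ V → h ∈ V → x (g * h) = x g + x h) →
    ∀ z : ℕ → AlgebraicClosure F, Sys 2 z → ∀ κ : GF F → ℤ_[2],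
    IsKP (MonoidHom.id (GF F)) z (l : AlgebraicClosure F) κ →
    ∃ c : ℚ_[2], ∀ g ∈ Inert F (AlgebraicClosure F) j, g ∈ V → x g = c * (κ g : ℚ_[2])

/-- Module VAN: vanishing of `H¹` at `l ≠ 2`. Proof: let `W₀` be the open subgroup of the `g` with
`‖V g - 1‖ < ‖2‖`; inertia in `W₀` acts trivially, `x = c κ` there by TAM, and
`x (φ i φ⁻¹) = V(φ) x(i)`, `κ (φ i φ⁻¹) = χ(φ) κ(i)` give `x = 0` there; by FRB of `HStmts` (applied
to an open subgroup of the decomposition group) the group is generated by inertia and a Frobenius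
element, which gives a coboundary on an open subgroup, hence on the whole group. -/
def StVAN : Prop :=
  ∀ (F : Type) [Field F] [NumberField F] (l : ℕ) [Fact l.Prime], l ≠ 2 →
    ∀ (j : AlgebraicClosure F →+* PadicAlgCl l) (L : Type) [NormedField L] [NormedAlgebra ℚ_[2] L]
    [FiniteDimensional ℚ_[2] L] (V : GF F →* GL (Fin 1) L), Continuous V →
    (∀ g ∈ Inert F (AlgebraicClosure F) j, V g = 1 ∨ V g = -1) →
    (∀ W : Subgroup (Cp (MonoidHom.id (GF F)) j), IsOpen (W : Set (Cp (MonoidHom.id (GF F)) j)) →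
      (∃ w ∈ W, V (fs (MonoidHom.id (GF F)) j w) ≠ 1) ∧
      ∃ w ∈ W, (V (fs (MonoidHom.id (GF F)) j w) : Matrix (Fin 1) (Fin 1) L) 0 0 ≠
        chL (cycF 2 F) L (fs (MonoidHom.id (GF F)) j w)) →
    ∀ x ∈ BKOdd.Z1 V, (fun d => x (fs (MonoidHom.id (GF F)) j d)) ∈
      BKOdd.B1 (V.comp (fs (MonoidHom.id (GF F)) j))

/-- Module NIN: the hypothesis of VAN for the places which do not split. Proof: `cc` maps the
decomposition group to a conjugate, hence `V = 1` on an open subgroup of it implies `V ∘ cc = 1`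
and `χ = 1` on an open subgroup; but the Frobenius elements have `χ = l ^ f` of infinite order. -/
def StNIN : Prop :=
  ∀ (F : Type) [Field F] [NumberField F] (c₀ : AlgebraicClosure F ≃+* AlgebraicClosure F)
    (cc : GF F →* GF F), CC0 c₀ cc → ∀ (l : ℕ) [Fact l.Prime], l ≠ 2 →
    ∀ (j : AlgebraicClosure F →+* PadicAlgCl l),
    pl (j.comp (algebraMap F (AlgebraicClosure F))) =
      pl ((j.comp (c₀ : AlgebraicClosure F →+* AlgebraicClosure F)).comp
        (algebraMap F (AlgebraicClosure F))) →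
    ∀ (L : Type) [NormedField L] [NormedAlgebra ℚ_[2] L]
    [FiniteDimensional ℚ_[2] L] (V : GF F →* GL (Fin 1) L), Continuous V →
    (∀ g, (V g : Matrix (Fin 1) (Fin 1) L) 0 0 * (V (cc g) : Matrix (Fin 1) (Fin 1) L) 0 0 =
      chL (cycF 2 F) L g) →
    ∀ W : Subgroup (Cp (MonoidHom.id (GF F)) j), IsOpen (W : Set (Cp (MonoidHom.id (GF F)) j)) →
      (∃ w ∈ W, V (fs (MonoidHom.id (GF F)) j w) ≠ 1) ∧
      ∃ w ∈ W, (V (fs (MonoidHom.id (GF F)) j w) : Matrix (Fin 1) (Fin 1) L) 0 0 ≠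
        chL (cycF 2 F) L (fs (MonoidHom.id (GF F)) j w)

/-- Module NSP: the odd primes which divide `q D` do not split. -/
def StNSP : Prop :=
  ∀ (q : ℕ) (F : Type) [Field F] [NumberField F] (s : F), q.Prime → q % 8 = 7 →
    Module.finrank ℚ F = 2 → s ^ 2 = -(q : F) → ∀ (l : ℕ) [Fact l.Prime], l ≠ 2 →
    (l = q ∨ ¬ IsSquare (((-q : ℤ)) : ZMod l)) → ∀ j j' : F →+* PadicAlgCl l, pl j = pl j'

/-! ### The reciprocity law -/

/-- Module Z1E: a global class which is unramified outside `2`, invariant under complex conjugation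
and not trivial at the place `e`. Proof: `BKPar` library. Take a homomorphism
`x : D F e → ℚ₂`, `x ≠ 0` (a logarithm of the cyclotomic character); by `BKND.final` for `σ = 1`,
`σ' = χ` there is `y ∈ Z¹(D F e, χ)` with `x ∪ y` not a coboundary; by `BKPar.StExt` both extend to
cocycles which vanish on `BKPar.R F`; `z₁` is the product; the invariance is `BKPar.h2part`. -/
def StZ1E : Prop :=
  ∀ (q : ℕ) (F : Type) [Field F] [NumberField F] (s : F), BKPar.FieldHyp q F s →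
    ∀ (c₀ : AlgebraicClosure F ≃+* AlgebraicClosure F) (cc : GF F →* GF F), CC0 c₀ cc →
    ∀ e : AlgebraicClosure F →+* PadicAlgCl 2,
    ∃ z₁ ∈ CC.Z2 (chL (cycF 2 F) ℚ_[2]),
      (∀ g h : GF F, ∀ r ∈ BKPar.R F, ∀ r' ∈ BKPar.R F, z₁ (g * r) (h * r') = z₁ g h) ∧
      pb2 (fs (MonoidHom.id (GF F)) e) z₁ ∉
        CC.B2 (chL ((cycF 2 F).comp (fs (MonoidHom.id (GF F)) e)) ℚ_[2]) ∧
      (fun g h => z₁ (cc g) (cc h) - z₁ g h) ∈ CC.B2 (chL (cycF 2 F) ℚ_[2])

/-- Module LOQ: `H²(D, ℚ₂(χ))` for an open subgroup `D` of the Galois group of `ℚ₂` (from LNX2, PA,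
Z1A; compare LINEL). (1) A nontrivial class generates it. (2) A class is trivial if its images with
coefficients `ℚ₂ / ℤ₂(χ)`, divided by `2 ^ m`, are trivial. Proof: if `z` is not a coboundary, then
`z = c z₀ + d β`, where `z₀` is integral and its reduction is not trivial. -/
def StLOQ : Prop :=
  ∀ (D : Type) [Group D] [TopologicalSpace D] [IsTopologicalGroup D] [CompactSpace D]
    [NonarchimedeanGroup D] (e : D →* GQ 2), Topology.IsOpenEmbedding e →
    (∀ z ∈ CC.Z2 (chL ((cyL 2 2).comp e) ℚ_[2]), z ∉ CC.B2 (chL ((cyL 2 2).comp e) ℚ_[2]) →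
      ∀ z' ∈ CC.Z2 (chL ((cyL 2 2).comp e) ℚ_[2]), ∃ a : ℚ_[2],
        z' - a • z ∈ CC.B2 (chL ((cyL 2 2).comp e) ℚ_[2])) ∧
    ∀ z ∈ CC.Z2 (chL ((cyL 2 2).comp e) ℚ_[2]),
      (∀ m : ℕ, (fun g h => BKLoc2.cl 2 (z g h / 2 ^ m)) ∈ BKND.B2 (actA ((cyL 2 2).comp e))) →
      z ∈ CC.B2 (chL ((cyL 2 2).comp e) ℚ_[2])

/-- Module RCQ: the reciprocity law with coefficients `ℚ₂(χ)` (from RA2, Z1E, LOQ, UN2, CP, CY).
Proof: let `z - a z₁` be trivial at `e`; it is trivial outside `2`, hence the classes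
`(z - a z₁) / 2 ^ m` modulo `ℤ₂` are trivial by RA2; by LOQ `z ∘ cc - a z₁ ∘ cc` is trivial at `e`,
and `z₁ ∘ cc - z₁` is trivial. -/
def StRCQ : Prop :=
  ∀ (q : ℕ) (F : Type) [Field F] [NumberField F] (s : F), BKPar.FieldHyp q F s → Base F →
    ∀ (c₀ : AlgebraicClosure F ≃+* AlgebraicClosure F) (cc : GF F →* GF F), CC0 c₀ cc →
    ∀ e : AlgebraicClosure F →+* PadicAlgCl 2, ∀ z ∈ CC.Z2 (chL (cycF 2 F) ℚ_[2]),
    (∀ (l : ℕ) [Fact l.Prime], l ≠ 2 → ∀ j : AlgebraicClosure F →+* PadicAlgCl l, ∀ m : ℕ,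
      pb2 (fs (MonoidHom.id (GF F)) j) (fun g h => BKLoc2.cl 2 (z g h / 2 ^ m)) ∈
        BKND.B2 (actA ((cycF 2 F).comp (fs (MonoidHom.id (GF F)) j)))) →
    pb2 (fs (MonoidHom.id (GF F)) e) z - pb2 (cc.comp (fs (MonoidHom.id (GF F)) e)) z ∈
      CC.B2 (chL ((cycF 2 F).comp (fs (MonoidHom.id (GF F)) e)) ℚ_[2])

/-- Module ISO: the restriction of a global cocycle at `e` and its conjugate are orthogonal. Proof:
the product `z g h = x(g) V(cc g) x(cc h)` with coefficients `L(χ)` satisfies `z ∘ cc ~ - z`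
(`BKPar.StAlt`, or directly: `CC` cup products of one dimensional cocycles anticommute); for a
`ℚ₂`-linear form `λ` on `L` the cocycle `λ ∘ z` satisfies the hypothesis of RCQ: at `l ∉ P` by UN2
for the group `GS F P`, at `l ∈ P` since `x` is a coboundary there; hence `2 z` is trivial at `e`
(coordinates of `L` over `ℚ₂`). -/
def StISO : Prop :=
  ∀ (q : ℕ) (F : Type) [Field F] [NumberField F] (s : F), BKPar.FieldHyp q F s → Base F →
    ∀ (c₀ : AlgebraicClosure F ≃+* AlgebraicClosure F) (cc : GF F →* GF F), CC0 c₀ cc →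
    ∀ (P : Set ℕ), P.Finite → (∀ l ∈ P, l.Prime) → 2 ∈ P →
    ∀ (L : Type) [NormedField L] [NormedAlgebra ℚ_[2] L]
    [FiniteDimensional ℚ_[2] L] (V : GF F →* GL (Fin 1) L), Continuous V →
    (∀ r ∈ RS F P, V r = 1) →
    (∀ g, (V g : Matrix (Fin 1) (Fin 1) L) 0 0 * (V (cc g) : Matrix (Fin 1) (Fin 1) L) 0 0 =
      chL (cycF 2 F) L g) →
    ∀ x ∈ BKOdd.Z1 V, (∀ r ∈ RS F P, x r = 0) →
    (∀ (l : ℕ) [Fact l.Prime], l ∈ P → l ≠ 2 → ∀ j : AlgebraicClosure F →+* PadicAlgCl l,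
      (fun d => x (fs (MonoidHom.id (GF F)) j d)) ∈
        BKOdd.B1 (V.comp (fs (MonoidHom.id (GF F)) j))) →
    ∀ e : AlgebraicClosure F →+* PadicAlgCl 2,
    pb2 (fs (MonoidHom.id (GF F)) e)
        (fun g h => x g 0 * ((V (cc g) : Matrix (Fin 1) (Fin 1) L) 0 0 * x (cc h) 0)) ∈
      CC.B2 (chL ((cycF 2 F).comp (fs (MonoidHom.id (GF F)) e)) L)

/-! ### The place `e` -/

/-- Module BRI: the groups `Cp` and `BKPar.D F e`. -/
def StBRI : Prop :=
  ∀ (F : Type) [Field F] [NumberField F] (e : AlgebraicClosure F →+* PadicAlgCl 2),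
    (∀ d, fs (MonoidHom.id (GF F)) e d ∈ BKPar.D F e) ∧
    (∀ g ∈ BKPar.D F e, ∃ d, fs (MonoidHom.id (GF F)) e d = g) ∧
    ∀ (L : Type) [NormedField L] (ψ : GF F →* L) (z : GF F → GF F → L),
      pb2 (fs (MonoidHom.id (GF F)) e) z ∈ CC.B2 (ψ.comp (fs (MonoidHom.id (GF F)) e)) ↔
      (fun g h : BKPar.D F e => z g h) ∈ CC.B2 (ψ.comp (BKPar.D F e).subtype)

/-- Module DUA: local duality in dimension one (from `BKND.final`, compare
`BKS.Can.vanish_of_pair`). -/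
def StDUA : Prop :=
  ∀ (q : ℕ) (F : Type) [Field F] [NumberField F] (s : F), BKPar.FieldHyp q F s →
    ∀ e : AlgebraicClosure F →+* PadicAlgCl 2,
    ∀ (L : Type) [NormedField L] [NormedAlgebra ℚ_[2] L]
    [FiniteDimensional ℚ_[2] L] (σ σ' : BKPar.D F e →* GL (Fin 1) L), Continuous σ →
    Continuous σ' → BKPar.ResUni σ → BKPar.ResUni σ' →
    (∀ g, (σ g : Matrix (Fin 1) (Fin 1) L) 0 0 * (σ' g : Matrix (Fin 1) (Fin 1) L) 0 0 =
      chL (BKPar.cyc F) L g) →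
    (∃ g, σ g ≠ 1) → (∃ g, σ' g ≠ 1) →
    ∀ x ∈ BKOdd.Z1 σ, ∀ y ∈ BKOdd.Z1 σ',
    (fun g h => x g 0 * ((σ' g : Matrix (Fin 1) (Fin 1) L) 0 0 * y h 0)) ∈
      CC.B2 ((chL (BKPar.cyc F) L).comp (BKPar.D F e).subtype) →
    y ∉ BKOdd.B1 σ' → x ∈ BKOdd.B1 σ

/-- **The Selmer groups have dimension one**, if the root number is `-1` and `b(D) = 0`. -/
def StOne : Prop :=
  ∀ (q : ℕ) (F : Type) [Field F] [NumberField F], q.Prime → q % 16 = 7 → BKS.IsQuad F q →
    ∀ (φ : BKS.Hec F q) (ι : ℂ →+* PadicAlgCl 2), BKS.ResOne ι φ.ψ → BKS.rootNo φ = -1 →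
    BKS.bnd φ.D = 0 → ∀ (L : Type) [NormedField L] [NormedAlgebra ℚ_[2] L]
    [FiniteDimensional ℚ_[2] L] [NormedAlgebra L (PadicAlgCl 2)] (V : BKS.GRep F L 1),
    BKS.IsRealHec ι φ V → BKS.SelDim 2 V 1

end BKR
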