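import Mathlib
import Pool.Agent.Lib.MP_7c08ba_nt.R1.St
import Pool.Agent.Lib.MP_7c08ba_nt.Par.Desc
import Pool.Agent.Lib.MP_7c08ba_nt.Met.HOQ
import Pool.Agent.Lib.MP_7c08ba_nt.Met.HRQ
import Pool.Agent.Lib.MP_7c08ba_nt.BK.CanRho

set_option autoImplicit false
set_option linter.unusedSectionVars false

/-!
Existence of a class of the realisation, from the numbers of classes with coefficients `𝔽₂`.
-/

noncomputable section

namespace BKR.Fin

open NumberField IsDedekindDomain BKGen BKGen.SUnits Matrix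
open BKMet (QZ actA GF GQ cycF RS GS pb1 pb2)
open BKGlob2 (Cp fs sn LC dc SP Prin CC0)
open BKS.Can (scl scl_mul scl_one scl_inv scl_continuous ext_scl mulVec_scl)

section

variable {F : Type} [Field F] [NumberField F]

theorem nonarchGS (P : Set ℕ) : NonarchimedeanGroup (GS F P) :=
  BKPar.nonarch_quot NonarchimedeanGroup.is_nonarchimedean

/-- the number of places above `P` -/
theorem card_pos {P : Set ℕ} (hfin : P.Finite) (hpr : ∀ l ∈ P, l.Prime) (h2 : 2 ∈ P)
    (e : F →+* PadicAlgCl 2) : 1 ≤ Nat.card (SP F P) := by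
  have h1 : (SP F P).Finite := BKGlob2.OQAux.finite_SP F P hfin hpr
  have h3 : Finite (SP F P) := h1.to_subtype
  have h4 : Nonempty (SP F P) := ⟨⟨pl e, 2, h2, l_mem_plI e⟩⟩
  exact Nat.one_le_iff_ne_zero.2 (Nat.card_ne_zero.2 ⟨h4, h3⟩)

theorem exists_class (hH1 : StH1N) (hH2 : StH2N) (hEUN : StEUN) (hB : Base F)
    {P : Set ℕ} (hfin : P.Finite) (hpr : ∀ l ∈ P, l.Prime) (h2 : 2 ∈ P) (hO : OPrin (SP F P))
    {ρ : GF F →* GL (Fin 1) ℚ_[2]} (hρ : Continuous ρ) (hr : ∀ r ∈ RS F P, ρ r = 1) :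
    ∃ x ∈ BKOdd.Z1 ρ, (∀ r ∈ RS F P, x r = 0) ∧ x ∉ BKOdd.B1 ρ := by
  have hna := nonarchGS (F := F) P
  have hcomp : CompactSpace (GS F P) := inferInstance
  let ρb : GS F P →* GL (Fin 1) ℚ_[2] := QuotientGroup.lift (RS F P) ρ hr
  have hρb : ∀ g : GF F, ρb (QuotientGroup.mk g) = ρ g := fun g => QuotientGroup.lift_mk' _ _ _
  have hρbc : Continuous ρb := by
    rw [(QuotientGroup.isOpenQuotientMap_mk (N := RS F P)).isQuotientMap.continuous_iff]
    exact hρ
  obtain ⟨j0⟩ := hB.split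
  have hpos := card_pos (F := F) hfin hpr h2 ((algebraMap ℚ_[2] (PadicAlgCl 2)).comp j0)
  obtain ⟨h3, h4⟩ := hH2 F hB P hfin hpr h2 hO
  obtain ⟨x, hx, hxB⟩ := hEUN (GS F P) ρb hρbc _ _ (hH1 F hB.quad hB.imag P hfin hpr h2 hO) h3 h4
    (by omega)
  have hx1 : x 1 = 0 := by
    have h := hx.2 1 1
    rw [mul_one, map_one, Units.val_one, one_mulVec] at h
    exact left_eq_add.1 h
  refine ⟨fun g => x (QuotientGroup.mk g), ⟨hx.1.comp QuotientGroup.continuous_mk, fun g h => ?_⟩,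
    fun r hr' => ?_, ?_⟩
  · have h5 := hx.2 (QuotientGroup.mk g) (QuotientGroup.mk h)
    rw [hρb] at h5
    exact h5
  · have h5 : (QuotientGroup.mk r : GS F P) = 1 := (QuotientGroup.eq_one_iff r).2 hr'
    change x (QuotientGroup.mk r) = 0
    rw [h5, hx1]
  · rintro ⟨v, hv⟩
    apply hxB
    refine ⟨v, ?_⟩
    funext g
    obtain ⟨g, rfl⟩ := QuotientGroup.mk_surjective g
    have h5 := congrFun hv g
    rw [BKOdd.cob_apply] at h5 ⊢
    rw [hρb]
    exact h5

end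

section

variable {F : Type} [Field F] [NumberField F] {L : Type} [NormedField L] [NormedAlgebra ℚ_[2] L]

/-- the same over `L` -/
theorem to_L {ρ : GF F →* GL (Fin 1) ℚ_[2]} {V : GF F →* GL (Fin 1) L}
    (hρ : ∀ g, algebraMap ℚ_[2] L (scl ρ g) = scl V g) {x : GF F → Fin 1 → ℚ_[2]}
    (hx : x ∈ BKOdd.Z1 ρ) (hxB : x ∉ BKOdd.B1 ρ) :
    (fun g (_ : Fin 1) => algebraMap ℚ_[2] L (x g 0)) ∈ BKOdd.Z1 V ∧
      (fun g (_ : Fin 1) => algebraMap ℚ_[2] L (x g 0)) ∉ BKOdd.B1 V := by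
  have hcont : Continuous (algebraMap ℚ_[2] L) := continuous_algebraMap ℚ_[2] L
  refine ⟨⟨?_, fun g h => ?_⟩, ?_⟩
  · refine continuous_pi fun _ => hcont.comp ?_
    exact (continuous_apply 0).comp hx.1
  · have h1 := congrFun (hx.2 g h) 0
    rw [mulVec_scl] at h1
    rw [mulVec_scl]
    funext i
    change algebraMap ℚ_[2] L (x (g * h) 0) = algebraMap ℚ_[2] L (x g 0) +
      scl V g * algebraMap ℚ_[2] L (x h 0)
    rw [h1, Pi.add_apply, Pi.smul_apply, smul_eq_mul, map_add, map_mul, hρ]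
  · rintro ⟨v, hv⟩
    have h1 : ∀ g, algebraMap ℚ_[2] L (x g 0) = (scl V g - 1) * v 0 := by
      intro g
      have h2 := congrFun (congrFun hv g) 0
      rw [BKOdd.cob_apply, mulVec_scl, Pi.sub_apply, Pi.smul_apply, smul_eq_mul] at h2
      rw [← h2]
      ring
    apply hxB
    by_cases hall : ∀ g, scl ρ g = 1
    · refine ⟨0, ?_⟩
      funext g
      rw [BKOdd.cob_apply, mulVec_zero, sub_zero]
      funext i
      rw [Subsingleton.elim i 0, Pi.zero_apply]
      have h2 := h1 g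
      rw [← hρ, hall, map_one, sub_self, zero_mul] at h2
      exact ((map_eq_zero (algebraMap ℚ_[2] L)).1 h2).symm
    · push Not at hall
      obtain ⟨g₀, hg₀⟩ := hall
      have h3 : scl ρ g₀ - 1 ≠ 0 := sub_ne_zero.2 hg₀
      have h4 : v 0 = algebraMap ℚ_[2] L (x g₀ 0 / (scl ρ g₀ - 1)) := by
        rw [map_div₀, h1, map_sub, map_one, hρ]
        have h5 : scl V g₀ - 1 ≠ 0 := by
          rw [← hρ, ← map_one (algebraMap ℚ_[2] L), ← map_sub]
          exact (map_ne_zero _).2 h3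
        field_simp
      refine ⟨fun _ => x g₀ 0 / (scl ρ g₀ - 1), ?_⟩
      funext g
      rw [BKOdd.cob_apply, mulVec_scl]
      funext i
      rw [Subsingleton.elim i 0]
      apply (algebraMap ℚ_[2] L).injective
      rw [h1, h4, Pi.sub_apply, Pi.smul_apply, smul_eq_mul, map_sub, map_mul, hρ]
      ring

end

end BKR.Fin
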