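import Mathlib
import Pool.Agent.Lib.MP_7c08ba_nt.R1.FinA
import Pool.Agent.Lib.MP_7c08ba_nt.R1.FLoc
import Pool.Agent.Lib.MP_7c08ba_nt.BK.CanSel
import Pool.Agent.Lib.MP_7c08ba_nt.Par.Conj

set_option autoImplicit false
set_option linter.unusedSectionVars false

/-!
The Selmer group has dimension one: assembly.
-/

noncomputable section

namespace BKR.Fin

open NumberField IsDedekindDomain Matrix Module BKGen BKGen.Genus Pool.Agent.Lib.MP_7c08ba_nt
open BKMet (cycF RS GS pb1 pb2)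
open BKGlob2 (Cp fs sn LC dc SP Prin CC0)
open BKS (Hec IsRealHec GRep Emb Same rootNo bnd ResOne H1f Z1f SelDim)
open BKS.Can

section

variable {F : Type} [Field F] [NumberField F] {L : Type} [NormedField L] [NormedAlgebra ℚ_[2] L]

theorem resUni {V : AbsGal F →* GL (Fin 1) L} (hone : ∀ g, One (scl V g)) : BKPar.ResUni V := by
  intro g i
  have h1 : (V g : Matrix (Fin 1) (Fin 1) L).charpoly - (Polynomial.X - 1) ^ 1 =
      Polynomial.C (1 - scl V g) := by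
    rw [Matrix.charpoly, Matrix.det_unique, pow_one, Fin.default_eq_zero,
      Matrix.charmatrix_apply_eq]
    unfold scl
    rw [_root_.map_sub, _root_.map_one]
    ring
  rw [h1, Polynomial.coeff_C]
  split_ifs
  · rw [← norm_neg, neg_sub]
    exact hone g
  · simp

/-- the duality for the scalars -/
theorem dual_scl {V : AbsGal F →* GL (Fin 1) L}
    {c : AlgebraicClosure F ≃+* AlgebraicClosure F} {B : Matrix (Fin 1) (Fin 1) L}
    (hB : BKS.IsPol 2 V c B) {σ : F ≃+* F} (hcs : BKOdd.ConjHyp c σ) (g : AbsGal F) :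
    scl V g * scl V (BKPar.conj c σ hcs.h g) = BKOdd.chL (cycF 2 F) L g := by
  have hpair : (V g : Matrix (Fin 1) (Fin 1) L)ᵀ *
      ((Matrix.nonsingInvUnit B hB.2.1 : GL (Fin 1) L) : Matrix (Fin 1) (Fin 1) L) *
      (V (BKPar.conj c σ hcs.h g) : Matrix (Fin 1) (Fin 1) L) =
        BKOdd.chL (BKOdd.cyc 2 F) L g •
          ((Matrix.nonsingInvUnit B hB.2.1 : GL (Fin 1) L) : Matrix (Fin 1) (Fin 1) L) := by
    rw [← BKS.chi_eq]
    refine hB.matrix fun z => ?_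
    change c (g (c.symm (c z))) = c (g z)
    rw [RingEquiv.symm_apply_apply]
  have hb : B 0 0 ≠ 0 := by
    have h := hB.2.1
    rw [Matrix.det_unique, Fin.default_eq_zero] at h
    exact h.ne_zero
  have h1 := congrFun (congrFun hpair 0) 0
  change ((V g : Matrix (Fin 1) (Fin 1) L)ᵀ * B *
      (V (BKPar.conj c σ hcs.h g) : Matrix (Fin 1) (Fin 1) L)) 0 0 =
        (BKOdd.chL (BKOdd.cyc 2 F) L g • B) 0 0 at h1
  rw [Matrix.mul_apply, Fin.sum_univ_one, Matrix.mul_apply, Fin.sum_univ_one,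
    Matrix.transpose_apply, Matrix.smul_apply, smul_eq_mul] at h1
  change scl V g * B 0 0 * scl V (BKPar.conj c σ hcs.h g) =
    BKOdd.chL (BKOdd.cyc 2 F) L g * B 0 0 at h1
  change scl V g * scl V (BKPar.conj c σ hcs.h g) = BKOdd.chL (BKOdd.cyc 2 F) L g
  apply mul_right_cancel₀ hb
  rw [← h1]
  ring

theorem cc0 {c : AlgebraicClosure F ≃+* AlgebraicClosure F} (hc : BKS.IsConj c) {σ : F ≃+* F}
    (hcs : BKOdd.ConjHyp c σ) : CC0 c (BKPar.conj c σ hcs.h) := by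
  refine ⟨hc, fun g z => ?_⟩
  change c (g (c.symm (c z))) = c (g z)
  rw [RingEquiv.symm_apply_apply]

/-- a rank zero space of classes -/
theorem of_rank_zero {V : AbsGal F →* GL (Fin 1) L} {P₀ : Ideal (AllInt F)}
    (h : selmerRank V P₀ ≤ (0 : ℕ)) {x : AbsGal F → Fin 1 → L} (hx : x ∈ selmer V P₀) :
    x ∈ BKOdd.B1 V := by
  have h1 : Module.rank L (selmer V P₀ ⧸ (coboundOn V ⊤).submoduleOf (selmer V P₀)) = 0 := by
    have h2 : selmerRank V P₀ = 0 := le_antisymm (by exact_mod_cast h) zero_le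
    exact h2
  have h3 : Subsingleton (selmer V P₀ ⧸ (coboundOn V ⊤).submoduleOf (selmer V P₀)) :=
    rank_zero_iff.1 h1
  have h4 : (Submodule.Quotient.mk ⟨x, hx⟩ :
      selmer V P₀ ⧸ (coboundOn V ⊤).submoduleOf (selmer V P₀)) = 0 := Subsingleton.elim _ _
  rw [Submodule.Quotient.mk_eq_zero] at h4
  obtain ⟨v, hv⟩ := h4
  refine ⟨v, ?_⟩
  funext g
  exact (hv g (Subgroup.mem_top g)).symm

/-- the decomposition group of the conjugate place -/
theorem conj_mem {c : AlgebraicClosure F ≃+* AlgebraicClosure F} (hcc : ∀ x, c (c x) = x)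
    {σ : F ≃+* F} (hcs : BKOdd.ConjHyp c σ) (e : Emb 2 F) {g : AbsGal F}
    (hg : g ∈ BKPar.D F (e.comp (c : AlgebraicClosure F →+* AlgebraicClosure F))) :
    BKPar.conj c σ hcs.h g ∈ BKPar.D F e := by
  intro x
  have hs : c.symm x = c x := by
    rw [RingEquiv.symm_apply_eq, hcc]
  change ‖e (c (g (c.symm x)))‖ = ‖e x‖
  have h1 := hg (c.symm x)
  change ‖e (c (g (c.symm x)))‖ = ‖e (c (c.symm x))‖ at h1
  rw [h1, RingEquiv.apply_symm_apply]

theorem conj_conj {c : AlgebraicClosure F ≃+* AlgebraicClosure F} (hcc : ∀ x, c (c x) = x)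
    {σ : F ≃+* F} (hcs : BKOdd.ConjHyp c σ) (g : AbsGal F) :
    BKPar.conj c σ hcs.h (BKPar.conj c σ hcs.h g) = g := by
  ext x
  have hs : ∀ y, c.symm y = c y := fun y => by rw [RingEquiv.symm_apply_eq, hcc]
  change c (c (g (c.symm (c.symm x)))) = g x
  rw [hcc, hs, hs, hcc]

theorem conj_mem' {c : AlgebraicClosure F ≃+* AlgebraicClosure F} (hcc : ∀ x, c (c x) = x)
    {σ : F ≃+* F} (hcs : BKOdd.ConjHyp c σ) (e : Emb 2 F) {g : AbsGal F}
    (hg : g ∈ BKPar.D F e) :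
    BKPar.conj c σ hcs.h g ∈
      BKPar.D F (e.comp (c : AlgebraicClosure F →+* AlgebraicClosure F)) := by
  intro x
  have hs : ∀ y, c.symm y = c y := fun y => by rw [RingEquiv.symm_apply_eq, hcc]
  change ‖e (c (c (g (c.symm x))))‖ = ‖e (c x)‖
  rw [hcc, hg, hs]

end

section Main

variable {F : Type} [Field F] [NumberField F] {q : ℕ}
  {L : Type} [NormedField L] [NormedAlgebra ℚ_[2] L] [FiniteDimensional ℚ_[2] L]
  [NormedAlgebra L (PadicAlgCl 2)]

/-- no invariants at the places above `2` -/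
theorem exists_ne_one (hq : q.Prime) (h16 : q % 16 = 7) (hF : Module.finrank ℚ F = 2) {s : 𝓞 F}
    (hs : s ^ 2 = -(q : 𝓞 F)) (φ : Hec F q) {ι : ℂ →+* PadicAlgCl 2} {V : GRep F L 1}
    (hV : IsRealHec ι φ V) (e : Emb 2 F) : ∃ g ∈ BKPar.D F e, V g ≠ 1 := by
  by_contra hcon
  push Not at hcon
  have hP := BKGlob.pure_dec e V (by
    rw [← BKS.frobAt_eq]
    exact frobAt hq h16 hF hs φ hV e)
  have h1 := BKOdd.eq_zero_of_phSub (BKGlob.lift F e)
    (MP_7c08ba.Crys.rp (V.comp (BKPar.D F e).subtype)) hP 1 (fun g => by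
      change (V g : Matrix (Fin 1) (Fin 1) L) *ᵥ 1 = 1
      rw [hcon g g.2, Units.val_one, Matrix.one_mulVec])
  have h2 := congrFun h1 0
  rw [Pi.one_apply, Pi.zero_apply] at h2
  exact one_ne_zero h2

/-- the place `e` -/
theorem cob_at (hBRI : StBRI) (hDUA : StDUA) (hq : q.Prime) (h16 : q % 16 = 7)
    (hF : Module.finrank ℚ F = 2) {s : 𝓞 F}
    (hs : s ^ 2 = -(q : 𝓞 F)) (φ : Hec F q) {ι : ℂ →+* PadicAlgCl 2} {V : GRep F L 1}
    (hV : IsRealHec ι φ V) (hone : ∀ g, One (scl V g))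
    {c : AlgebraicClosure F ≃+* AlgebraicClosure F} (hc : BKS.IsConj c)
    {B : Matrix (Fin 1) (Fin 1) L} (hB : BKS.IsPol 2 V c B) {σ : F ≃+* F}
    (hcs : BKOdd.ConjHyp c σ) (e : Emb 2 F) {x : AbsGal F → Fin 1 → L} (hx : x ∈ BKOdd.Z1 V)
    (hiso : pb2 (fs (MonoidHom.id (AbsGal F)) e)
        (fun g h => x g 0 * (scl V (BKPar.conj c σ hcs.h g) * x (BKPar.conj c σ hcs.h h) 0)) ∈
      CC.B2 ((BKOdd.chL (cycF 2 F) L).comp (fs (MonoidHom.id (AbsGal F)) e)))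
    (hne : ¬ ∃ v : Fin 1 → L, ∀ g ∈ BKPar.D F (e.comp
      (c : AlgebraicClosure F →+* AlgebraicClosure F)),
      x g = (V g : Matrix (Fin 1) (Fin 1) L) *ᵥ v - v) :
    ∃ v : Fin 1 → L, ∀ g ∈ BKPar.D F e, x g = (V g : Matrix (Fin 1) (Fin 1) L) *ᵥ v - v := by
  have hFH : BKPar.FieldHyp q F (s : F) :=
    ⟨hq.pos, hq.prime.squarefree, by omega, hF, coe_s hs, fun j => rigidTwo hq h16 hF (coe_s hs) j⟩
  have hs0 : (s : F) ≠ 0 := BKGlob.s_ne_zero hFH
  have hcs' : BKPar.ConjHyp (s : F) c σ := ⟨hcs.h, conj_s hq.pos hF (coe_s hs) hcs.hσ, hcs.hc⟩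
  obtain ⟨hτc, hτ2, hτR, hτχ, hi⟩ := BKPar.stConj BKPar.stAdm F (s : F) c σ hcs' hs0
  set cc : AbsGal F →* AbsGal F := BKPar.conj c σ hcs.h with hccdef
  have hres := resUni hone
  -- the product on `D F e`
  have h1 := ((hBRI F e).2.2 L (BKOdd.chL (cycF 2 F) L) _).1 hiso
  obtain ⟨g₁, hg₁, hg₁'⟩ := exists_ne_one hq h16 hF hs φ hV e
  obtain ⟨g₂, hg₂, hg₂'⟩ := exists_ne_one hq h16 hF hs φ hV
    (e.comp (c : AlgebraicClosure F →+* AlgebraicClosure F))
  have hg₂c : cc g₂ ∈ BKPar.D F e := conj_mem hc.1 hcs e hg₂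
  have hx' : (fun g : BKPar.D F e => x g) ∈ BKOdd.Z1 (V.comp (BKPar.D F e).subtype) :=
    ⟨hx.1.comp continuous_subtype_val, fun g h => hx.2 g h⟩
  have hy' : (fun g : BKPar.D F e => x (cc g)) ∈
      BKOdd.Z1 ((V.comp cc).comp (BKPar.D F e).subtype) := by
    refine ⟨hx.1.comp (hτc.comp continuous_subtype_val), fun g h => ?_⟩
    change x (cc (g * h)) = _
    rw [map_mul]
    exact hx.2 _ _
  have h2 := hDUA q F (s : F) hFH e L (V.comp (BKPar.D F e).subtype)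
    ((V.comp cc).comp (BKPar.D F e).subtype) (hV.cont.comp continuous_subtype_val)
    (hV.cont.comp (hτc.comp continuous_subtype_val)) (fun g i => hres g i) (fun g i => hres _ i)
    (fun g => dual_scl hB hcs g) ⟨⟨g₁, hg₁⟩, hg₁'⟩ ⟨⟨cc g₂, hg₂c⟩, by
      change V (cc (cc g₂)) ≠ 1
      rw [hccdef, conj_conj hc.1 hcs]
      exact hg₂'⟩ _ hx' _ hy' h1 (by
      rintro ⟨v, hv⟩
      apply hne
      refine ⟨v, fun g hg => ?_⟩
      have h3 := congrFun hv ⟨cc g, conj_mem hc.1 hcs e hg⟩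
      rw [BKOdd.cob_apply] at h3
      change (V (cc (cc g)) : Matrix (Fin 1) (Fin 1) L) *ᵥ v - v = x (cc (cc g)) at h3
      rw [hccdef, conj_conj hc.1 hcs] at h3
      exact h3.symm)
  obtain ⟨v, hv⟩ := h2
  refine ⟨v, fun g hg => ?_⟩
  have h3 := congrFun hv ⟨g, hg⟩
  rw [BKOdd.cob_apply] at h3
  exact h3.symm

end Main

end BKR.Fin
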