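import Mathlib
import Pool.Agent.Lib.MP_7c08ba_nt.R1.FinB

set_option autoImplicit false
set_option linter.unusedSectionVars false

/-!
The Selmer group has dimension one: the theorem.
-/

noncomputable section

namespace BKR.Fin

open NumberField IsDedekindDomain Matrix Module BKGen BKGen.Genus Pool.Agent.Lib.MP_7c08ba_nt
open BKMet (cycF RS GS pb1 pb2)
open BKGlob2 (Cp fs sn LC dc SP Prin CC0)
open BKS (Hec IsRealHec GRep Emb Same rootNo bnd ResOne H1f Z1f SelDim)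
open BKS.Can

section Main

variable {F : Type} [Field F] [NumberField F] {q : ℕ}
  {L : Type} [NormedField L] [NormedAlgebra ℚ_[2] L] [FiniteDimensional ℚ_[2] L]
  [NormedAlgebra L (PadicAlgCl 2)]

/-- coboundaries are trivial in `V ⊗ B` -/
theorem isTriv_of_cob {V : GRep F L 1} (j : Emb 2 F) {x : BKS.GF F → Fin 1 → L}
    {v : Fin 1 → L} (h : ∀ g ∈ BKPar.D F j, x g = (V g : Matrix (Fin 1) (Fin 1) L) *ᵥ v - v) :
    BKS.IsTriv Per.galB j V x := by
  refine ⟨BKS.inj 2 _ v, fun g t hgt => ?_⟩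
  have hg : g ∈ BKPar.D F j := by
    intro z
    rw [hgt z]
    exact BKGen.norm_equiv t (j z)
  rw [h g hg]
  have h1 : BKS.gal Per.galB V g t (BKS.inj 2 _ v) = BKS.inj 2 _ (BKS.vec V g v) :=
    (TensorProduct.AlgebraTensorModule.map_tmul _ _ _ _).trans
      (congrArg (fun b => TensorProduct.tmul ℚ_[2] (BKS.vec V g v) b) (map_one (Per.galB t)))
  have h2 := BKS.inj_add (p := 2) (B := Per.BCris 2) (BKS.vec V g v - v) v
  rw [sub_add_cancel] at h2
  rw [h1, h2, add_sub_cancel_right]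
  rfl

/-- the swapped strict Selmer group is trivial -/
theorem strict (hq : q.Prime) (h16 : q % 16 = 7) (hF : Module.finrank ℚ F = 2) {s : 𝓞 F}
    (hs : s ^ 2 = -(q : 𝓞 F)) {j J : F →+* ℚ_[2]} (hjJ : j ≠ J) (φ : Hec F q)
    (hroot : rootNo φ = -1) (hbnd : bnd φ.D = 0)
    {ι : ℂ →+* PadicAlgCl 2} {V : GRep F L 1} (hV : IsRealHec ι φ V)
    {ρ : AbsGal F →* GL (Fin 1) ℚ_[2]} (hreal : Realises q s φ.D φ.k j J ρ)
    (hρ : ∀ g, algebraMap ℚ_[2] L (scl ρ g) = scl V g) (e : Emb 2 F)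
    (hlies : LiesAt j (primeOf e)) {x : AbsGal F → Fin 1 → L} (hx : x ∈ BKOdd.Z1 V)
    (hunr : BKS.Unr 2 V x)
    (hcob : ∃ v : Fin 1 → L, ∀ g ∈ BKPar.D F e,
      x g = (V g : Matrix (Fin 1) (Fin 1) L) *ᵥ v - v) : x ∈ BKOdd.B1 V := by
  have hin₁ : ∀ (P : Ideal (AllInt F)), P.IsPrime → (2 : AllInt F) ∉ P → ∀ g ∈ inert F P,
      V g = 1 ∨ V g = -1 := fun P hP h2 g hg =>
    (inertia φ ι hV P hP h2 hg).imp id And.left
  have hin₂ : ∀ (P : Ideal (AllInt F)), P.IsPrime → (2 : AllInt F) ∉ P → ∀ g ∈ inert F P,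
      ρ g = 1 → V g = 1 := by
    intro P hP h2 g _ h
    apply Units.ext
    apply ext_scl
    change scl V g = _
    rw [← hρ]
    unfold scl
    rw [h]
    simp
  have hreal' : Realises q s φ.D (1 - φ.k) J j ρ := by
    refine ⟨hreal.continuous, hreal.inertia, ?_⟩
    intro P hP h2 g hg N t a ht hst
    rw [hreal.frobenius P hP h2 g hg N t a ht hst, sub_sub_cancel]
    ring
  have hpos := φ.pos
  have hpar : (-1 : ℤ) ^ 0 = (-1) ^ ((1 - (φ.k : ℤ)) - 1).natAbs * φ.D.sign := by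
    have h1 : ((1 - (φ.k : ℤ)) - 1).natAbs = (φ.k - 1) + 1 := by omega
    have h2 : (-1 : ℤ) ^ (φ.k - 1) * φ.D.sign = -1 := hroot
    rw [h1, pow_succ, pow_zero]
    linear_combination h2
  refine of_rank_zero (P₀ := primeOf e) (rank_L hq h16 hF hs φ.sqf
    (fun r hr hr2 hrD => φ.inert r hr hr2 hrD) hjJ.symm hreal' hV.cont hρ hin₁ hin₂ hlies
    (le_of_eq hbnd) hpar) ?_
  obtain ⟨v, hv⟩ := hcob
  refine ⟨⟨⟨hx.1, hx.2⟩, ⟨v, fun g hg => hv g (RZ.decomp_le e hg)⟩⟩, ?_⟩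
  refine (Submodule.mem_iInf _).2 ?_
  rintro ⟨P, hP, h2⟩
  have hx1 : x 1 = 0 := by
    have h3 := hx.2 1 1
    rw [mul_one, map_one, Units.val_one, one_mulVec] at h3
    exact left_eq_add.1 h3
  by_cases hg1 : ∀ g ∈ inert F P, g = 1
  · refine ⟨0, fun g hg => ?_⟩
    rw [hg1 g hg, map_one, Matrix.mulVec_zero, sub_zero, hx1]
  · push Not at hg1
    obtain ⟨g₁, hg₁, hne⟩ := hg1
    rcases exists_Inert' P hP h2 hg₁ with h | ⟨l, hl, hl2, hlP, j', hj', -⟩
    · exact absurd h hne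
    · obtain ⟨v, hv⟩ := hunr l hl2 j'
      refine ⟨v, fun g hg => ?_⟩
      exact hv g (BKGlob.Inert_of_inert j' (by rw [hj']; exact hg))

end Main

end BKR.Fin
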