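import Mathlib
import Pool.Agent.Lib.MP_7c08ba_nt.R1.Fin
import Pool.Agent.Lib.MP_7c08ba_nt.Met.HTI

set_option autoImplicit false
set_option linter.unusedSectionVars false

/-!
The Selmer group has dimension one: the theorem.
-/

noncomputable section

namespace BKR

open NumberField IsDedekindDomain Matrix Module BKGen BKGen.Genus Pool.Agent.Lib.MP_7c08ba_nt
open BKMet (cycF RS GS pb1 pb2)
open BKGlob2 (Cp fs sn LC dc SP Prin CC0)
open BKS (Hec IsRealHec GRep Emb Same rootNo bnd ResOne H1f Z1f SelDim)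
open BKS.Can

namespace Fin

section

variable {F : Type} [Field F] [NumberField F] {q : ℕ}
  {L : Type} [NormedField L] [NormedAlgebra ℚ_[2] L] [FiniteDimensional ℚ_[2] L]
  [NormedAlgebra L (PadicAlgCl 2)]

/-- the primes which divide `2 q D` -/
def PP (q : ℕ) (D : ℤ) : Set ℕ := {l | l.Prime ∧ (l = 2 ∨ (l : ℤ) ∣ q * D)}

theorem PP_finite {D : ℤ} (hq : q.Prime) (hD : D ≠ 0) : (PP q D).Finite := by
  have h1 : (q : ℤ) * D ≠ 0 := mul_ne_zero (by exact_mod_cast hq.ne_zero) hD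
  have h2 : (PP q D) ⊆ {2} ∪ (((q : ℤ) * D).natAbs.divisors : Set ℕ) := by
    rintro l ⟨-, rfl | h⟩
    · exact Or.inl rfl
    · refine Or.inr ?_
      rw [Finset.mem_coe, Nat.mem_divisors]
      exact ⟨Int.natCast_dvd.1 h, Int.natAbs_ne_zero.2 h1⟩
  exact ((Set.finite_singleton 2).union (Finset.finite_toSet _)).subset h2

/-- `V` is trivial on the inertia groups outside `P` -/
theorem V_RS (φ : Hec F q) {ι : ℂ →+* PadicAlgCl 2} {V : GRep F L 1}
    (hV : IsRealHec ι φ V) : ∀ r ∈ RS F (PP q φ.D), V r = 1 := by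
  have hc : IsClosed ((MonoidHom.ker V : Subgroup (BKMet.GF F)) : Set (BKMet.GF F)) := by
    have h : ((MonoidHom.ker V : Subgroup (BKMet.GF F)) : Set (BKMet.GF F)) = V ⁻¹' {1} := by
      ext g
      exact MonoidHom.mem_ker
    rw [h]
    exact isClosed_singleton.preimage hV.cont
  intro r hr
  refine MonoidHom.mem_ker.1 (BKGlob2.RQAux.RS_le (MonoidHom.ker V) hc ?_ hr)
  intro l hl hlP j g hg
  rw [MonoidHom.mem_ker]
  have hl2 : l ≠ 2 := fun h => hlP ⟨hl.out, Or.inl h⟩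
  rcases hV.ram l hl2 j g hg with h | ⟨-, h⟩
  · exact h
  · exact absurd ⟨hl.out, Or.inr h⟩ hlP

end

end Fin

open _root_.BKR.Fin

/-- **The Selmer groups of dimension one.** -/
theorem stOne (hOPR : StOPR) (hH1 : StH1N) (hH2 : StH2N) (hEUN : StEUN) (hVAN : StVAN)
    (hNIN : StNIN) (hNSP : StNSP) (hISO : StISO) (hBRI : StBRI) (hDUA : StDUA) : StOne := by
  intro q F _ _ hq h16 hQ φ ι hι hroot hbnd L _ _ _ _ V hV
  obtain ⟨hfin1, hle1⟩ := BKS.stSel q F hq h16 hQ φ ι hι L V hV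
  obtain ⟨hF, s₀, hs₀⟩ := hQ
  let s : NumberField.RingOfIntegers F := sI hs₀
  have hs : s ^ 2 = -(q : NumberField.RingOfIntegers F) := sI_sq hs₀
  have hFH : BKPar.FieldHyp q F s₀ :=
    ⟨hq.pos, hq.prime.squarefree, by omega, hF, hs₀, fun j => rigidTwo hq h16 hF hs₀ j⟩
  obtain ⟨J, hJ⟩ := exists_J h16 hF hs₀ (ι.comp φ.σ)
  have hbase : Base F := by
    refine ⟨hF, ⟨fun f => ?_⟩, ⟨J⟩⟩
    have h1 := congrArg f hs₀
    rw [map_pow, map_neg, map_natCast] at h1
    have h2 : (0 : ℝ) < q := by exact_mod_cast hq.pos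
    nlinarith [sq_nonneg (f s₀)]
  obtain ⟨c, hc, B, hB⟩ := hV.dual
  obtain ⟨σ, hcs⟩ := BKS.exists_conjHyp hF hc
  have hσs := conj_s hq.pos hF hs₀ hcs.hσ
  let j : F →+* ℚ_[2] := J.comp (σ : F →+* F)
  have hj : j (s : F) = -J (s : F) := by
    change J (σ s₀) = -J s₀
    rw [hσs, map_neg]
  have hjJ : j ≠ J := by
    intro h
    have h1 : j (s : F) = J (s : F) := by rw [h]
    rw [hj] at h1
    have h2 : J (s : F) = 0 := by linear_combination (-1 / 2 : ℚ_[2]) * h1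
    rw [map_eq_zero] at h2
    have h3 : s₀ = 0 := h2
    rw [h3, zero_pow two_ne_zero, eq_comm, neg_eq_zero] at hs₀
    exact hq.ne_zero (by exact_mod_cast hs₀)
  have hscl := scl_mem hq h16 hF hs hj φ ι hJ hι hV
  obtain ⟨ρ, hρc, hρ⟩ := exists_rho hV.cont fun g => (hscl g).1
  have hreal := realises hq h16 hF hs hj φ ι hJ hV hρc hρ
  -- the class
  have hpr : ∀ l ∈ PP q φ.D, l.Prime := fun l hl => hl.1
  have h2P : 2 ∈ PP q φ.D := ⟨Nat.prime_two, Or.inl rfl⟩
  have hPf := PP_finite hq φ.sqf.ne_zero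
  have hO := hOPR q F s₀ hq (by omega) hF hs₀ (SP F (PP q φ.D))
  have hVRS := V_RS φ hV
  have hρRS : ∀ r ∈ RS F (PP q φ.D), ρ r = 1 := fun r hr => rho_one hρ (hVRS r hr)
  obtain ⟨x, hx, hxRS, hxB⟩ := exists_class hH1 hH2 hEUN hbase hPf hpr h2P hO hρc hρRS
  obtain ⟨hy, hyB⟩ := to_L hρ hx hxB
  set y : AbsGal F → Fin 1 → L := fun g (_ : Fin 1) => algebraMap ℚ_[2] L (x g 0) with hydef
  have hyRS : ∀ r ∈ RS F (PP q φ.D), y r = 0 := by
    intro r hr
    funext i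
    change algebraMap ℚ_[2] L (x r 0) = 0
    rw [hxRS r hr, Pi.zero_apply, map_zero]
  have hdual := dual_scl hB hcs
  -- the places above `q D`
  have hvan : ∀ (l : ℕ) [Fact l.Prime], l ∈ PP q φ.D → l ≠ 2 →
      ∀ j' : AlgebraicClosure F →+* PadicAlgCl l,
      (fun d => y (fs (MonoidHom.id (BKMet.GF F)) j' d)) ∈
        BKOdd.B1 (V.comp (fs (MonoidHom.id (BKMet.GF F)) j')) := by
    intro l hl hlP hl2 j'
    have h1 : l = q ∨ ¬ IsSquare (((-q : ℤ)) : ZMod l) := by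
      rcases hlP with ⟨hlp, h | h⟩
      · exact absurd h hl2
      · rcases (Nat.prime_iff_prime_int.1 hlp).dvd_or_dvd h with h | h
        · left
          exact (Nat.prime_dvd_prime_iff_eq hlp hq).1 (by exact_mod_cast h)
        · exact Or.inr (φ.inert l hlp hl2 h)
    have h2 := hNSP q F s₀ hq (by omega) hF hs₀ l hl2 h1
      (j'.comp (algebraMap F (AlgebraicClosure F)))
      ((j'.comp (c : AlgebraicClosure F →+* AlgebraicClosure F)).comp
        (algebraMap F (AlgebraicClosure F)))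
    exact hVAN F l hl2 j' L V hV.cont (fun g hg => (hV.ram l hl2 j' g hg).imp id And.left)
      (hNIN F c _ (cc0 hc hcs) l hl2 j' h2 L V hV.cont hdual) y hy
  have hunr : BKS.Unr 2 V y := by
    intro l hl hl2 j'
    by_cases hlP : l ∈ PP q φ.D
    · obtain ⟨v, hv⟩ := hvan l hlP hl2 j'
      refine ⟨v, fun g hg => ?_⟩
      have hgD := BKGlob2.TIAux.inert_mem_dec j' hg
      let d : Cp (MonoidHom.id (BKMet.GF F)) j' := ⟨(g, BKGlob.lift F j' ⟨g, hgD⟩), fun z =>
        BKGlob.lift_spec j' ⟨g, hgD⟩ z⟩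
      exact (congrFun hv d).symm
    · refine ⟨0, fun g hg => ?_⟩
      rw [hyRS g (BKGlob2.RQAux.inert_mem_RS hlP j' hg)]
      change (0 : Fin 1 → L) = (V g : Matrix (Fin 1) (Fin 1) L) *ᵥ 0 - 0
      rw [Matrix.mulVec_zero, sub_zero]
  -- the places above `2`
  have hcr : BKS.Crys 2 V y := by
    intro e
    by_cases hsame : Same ι φ.σ e
    · have hiso := hISO q F s₀ hFH hbase c _ (cc0 hc hcs) (PP q φ.D) hPf hpr h2P L V hV.cont hVRS
        hdual y hy hyRS hvan e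
      have hlies : LiesAt j (primeOf (e.comp (c : AlgebraicClosure F →+* AlgebraicClosure F))) := by
        refine ⟨inferInstance, fun z => ?_⟩
        change ‖e (c (algebraMap F (AlgebraicClosure F) (z : F)))‖ < 1 ↔ ‖J (σ (z : F))‖ < 1
        rw [hcs.h, hsame]
        change ‖(ι.comp φ.σ) (σ (z : F))‖ < 1 ↔ _
        rw [← hJ, norm_i]
      obtain ⟨v, hv⟩ := cob_at hBRI hDUA hq h16 hF hs φ hV (fun g => (hscl g).2) hc hB hcs e hy
        hiso (fun hcob => hyB (strict hq h16 hF hs hjJ φ hroot hbnd hV hreal hρ _ hlies hy hunr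
          hcob))
      exact isTriv_of_cob e hv
    · have hpair : ∀ g, (V g : Matrix (Fin 1) (Fin 1) L)ᵀ *
          ((Matrix.nonsingInvUnit B hB.2.1 : GL (Fin 1) L) : Matrix (Fin 1) (Fin 1) L) *
          (V (BKPar.conj c σ hcs.h g) : Matrix (Fin 1) (Fin 1) L) =
            BKOdd.chL (BKOdd.cyc 2 F) L g •
              ((Matrix.nonsingInvUnit B hB.2.1 : GL (Fin 1) L) : Matrix (Fin 1) (Fin 1) L) := by
        intro g
        rw [← BKS.chi_eq]
        refine hB.matrix fun z => ?_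
        change c (g (c.symm (c z))) = c (g z)
        rw [RingEquiv.symm_apply_apply]
      have hfull := FLoc.local_full hFH e c σ hcs ⟨hcs.h, conj_s hq.pos hF hs₀ hcs.hσ, hcs.hc⟩ V
        hV.cont (resUni fun g => (hscl g).2) (Matrix.nonsingInvUnit B hB.2.1) hpair
        (hV.dR e).toOdd (by
          rw [← BKS.frobAt_eq]
          exact frobAt hq h16 hF hs φ hV e) (by
          rw [← BKS.frobAt_eq]
          exact frobAt hq h16 hF hs φ hV _) one_pos (by
          rw [← BKS.tdim_eq]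
          exact (hV.hodge e).2 hsame)
      have hy' : (fun g : BKPar.D F e => y g) ∈ BKOdd.Z1 (V.comp (BKPar.D F e).subtype) :=
        ⟨hy.1.comp continuous_subtype_val, fun g h => hy.2 g h⟩
      exact (BKS.isTriv_cris e V y).2 ((BKGlob.isTriv_iff e V y).2 (hfull hy').2)
  have hsel : y ∈ Z1f 2 V := ⟨⟨hy.1, hy.2⟩, hunr, hcr⟩
  -- the dimension
  refine ⟨hfin1, le_antisymm (hle1 1 (by rw [hbnd]; exact Nat.zero_le 1) (by
    rw [hroot]; norm_num)) ?_⟩
  have hfd : FiniteDimensional L (H1f 2 V) := hfin1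
  by_contra hcon
  have h0 : Module.finrank L (H1f 2 V) = 0 := by
    have h1 : ¬ 1 ≤ Module.finrank L (H1f 2 V) := hcon
    omega
  have hbot : H1f 2 V = ⊥ := Submodule.finrank_eq_zero.1 h0
  have hmem : ((BKS.B1 V).submoduleOf (BKS.Z1 V)).mkQ ⟨y, hsel.1⟩ ∈ H1f 2 V :=
    ⟨⟨y, hsel.1⟩, hsel, rfl⟩
  rw [hbot] at hmem
  have h3 : ((BKS.B1 V).submoduleOf (BKS.Z1 V)).mkQ ⟨y, hsel.1⟩ = 0 := (Submodule.mem_bot L).1 hmem
  rw [Submodule.mkQ_apply, Submodule.Quotient.mk_eq_zero] at h3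
  exact hyB h3

end BKR
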