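import Pool.Agent.Lib.MP_7c08ba_nt.R1.GSt
import Pool.Agent.Lib.MP_7c08ba_nt.Met.GED

set_option autoImplicit false

/-!
Module ED of project R1: the first cohomology of the group of `S`-units of a Kummer extension of a
totally complex field (`p = 2` included) is trivial, if the primes outside `S` are principal up to
`S` and unramified (copy of `Met/GED.lean`, whose auxiliary lemmas are used).
-/

noncomputable section

namespace BKR

open NumberField IsDedekindDomain HeightOneSpectrum Polynomial BKGen BKGen.SUnits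
open BKGlob2 (IsPw Nm Pw toC toU chr emb kv loc Prin UPw diag PS Over Above nrm)
open scoped Pointwise IntermediateField

namespace EDAux

variable {E N : Type} [Field E] [NumberField E] [Field N] [NumberField N] [Algebra E N]

/-- Kummer extensions are Galois extensions -/
theorem galois_of_kum {p : ℕ} {ζ : E} {a : Eˣ} {α : N} (h : Kum p ζ a α) : IsGalois E N := by
  have hp0 : p ≠ 0 := h.prime.ne_zero
  have hpos : 0 < p := h.prime.pos
  have : IsSplittingField E N (X ^ p - C (a : E)) := by
    constructor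
    · rw [Polynomial.map_sub, Polynomial.map_pow, Polynomial.map_C, Polynomial.map_X]
      exact X_pow_sub_C_splits_of_isPrimitiveRoot
        (h.root.map_of_injective (algebraMap E N).injective) h.pow
    · rw [eq_top_iff, ← IntermediateField.top_toSubalgebra, ← h.top,
        IntermediateField.adjoin_simple_toSubalgebra_of_isAlgebraic (IsAlgebraic.of_finite E α)]
      apply Algebra.adjoin_mono
      rw [Set.singleton_subset_iff, mem_rootSet_of_ne (X_pow_sub_C_ne_zero hpos (a : E)),
        aeval_def, eval₂_sub, eval₂_X_pow, eval₂_C, h.pow, sub_self]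
  refine IsGalois.of_separable_splitting_field (p := X ^ p - C (a : E)) ?_
  exact separable_X_pow_sub_C (a : E) (Nat.cast_ne_zero.2 hp0) a.ne_zero

end EDAux

open BKGlob2.EDAux in
/-- Module ED. -/
theorem stED : StED := by
  classical
  intro p E N _ _ _ _ _ ζ a α hK S hP hur σ hσ u hu hnu
  have hgal : IsGalois E N := EDAux.galois_of_kum hK
  have hz : ∀ τ : N ≃ₐ[E] N, τ ∈ Subgroup.zpowers σ := by
    intro τ
    obtain ⟨i, _, hi⟩ := hσ τ
    exact ⟨(i : ℤ), by simp [hi]⟩
  have hcyc : IsCyclic (N ≃ₐ[E] N) := ⟨σ, hz⟩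
  have hnu' : Algebra.norm E (u : N) = 1 := by
    have := congrArg Units.val hnu
    exact this
  obtain ⟨z, hzu⟩ := groupCohomology.exists_div_of_norm_eq_one (K := E) (L := N) hz hnu'
  -- the solution in the units of the field
  obtain ⟨y, hy⟩ : ∃ y : Nˣ, y = z⁻¹ := ⟨_, rfl⟩
  have hyu : ((u * y : Nˣ) : N) = σ (y : N) := by
    have h0 : σ (z : N) ≠ 0 := (_root_.map_ne_zero σ).2 z.ne_zero
    have h1 : (z : N) ≠ 0 := z.ne_zero
    rw [Units.val_mul, hy, ← hzu, Units.val_inv_eq_inv_val, map_inv₀]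
    field_simp
  have hnotS : ∀ {v : HeightOneSpectrum (𝓞 E)} {w : HeightOneSpectrum (𝓞 N)}, v ∉ S →
      Over v w → w ∉ Above N S := by
    rintro v w hv hw ⟨v', hv', hw'⟩
    rw [over_unique hw hw'] at hv
    exact hv hv'
  have hwσ : ∀ v ∉ S, ∀ w : HeightOneSpectrum (𝓞 N), Over v w →
      w.valuation N (σ (y : N)) = w.valuation N (y : N) := by
    intro v hv w hw
    rw [← hyu, Units.val_mul, map_mul]
    have h1 : w.valuation N (u : N) = 1 := hu w (hnotS hv hw)
    rw [h1, one_mul]
  have hwi : ∀ v ∉ S, ∀ i : ℕ, ∀ w : HeightOneSpectrum (𝓞 N), Over v w →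
      (BKGlob2.EFAux.gw (σ ^ i) w).valuation N (y : N) = w.valuation N (y : N) := by
    intro v hv i
    induction i with
    | zero =>
      intro w _
      rw [pow_zero, BKGlob2.EFAux.gw_one]
    | succ i ih =>
      intro w hw
      have h1 := ih _ (BKGlob2.EFAux.over_gw (σ := σ) hw)
      rw [BKGlob2.EFAux.gw_gw, ← pow_succ] at h1
      rw [h1, ← hwσ v hv _ (BKGlob2.EFAux.over_gw (σ := σ) hw), BKGlob2.EFAux.val_gw]
  have hconst : ∀ v ∉ S, ∀ w w' : HeightOneSpectrum (𝓞 N), Over v w → Over v w' →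
      w.valuation N (y : N) = w'.valuation N (y : N) := by
    intro v hv w w' hw hw'
    obtain ⟨τ, rfl⟩ := exists_gw hw hw'
    obtain ⟨i, _, rfl⟩ := hσ τ
    exact (hwi v hv i w hw).symm
  -- the primes below the support
  have hfin : {v : HeightOneSpectrum (𝓞 E) | ∃ w : HeightOneSpectrum (𝓞 N),
      w.valuation N (y : N) ≠ 1 ∧ Over v w}.Finite := by
    have h1 : {v : HeightOneSpectrum (𝓞 E) | ∃ w : HeightOneSpectrum (𝓞 N),
        w.valuation N (y : N) ≠ 1 ∧ Over v w} =
        ⋃ w ∈ {w : HeightOneSpectrum (𝓞 N) | w.valuation N (y : N) ≠ 1},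
          {v : HeightOneSpectrum (𝓞 E) | Over v w} := by
      ext v
      simp
    rw [h1]
    exact (finite_bad y).biUnion fun w _ => Set.Subsingleton.finite
      fun v hv v' hv' => over_unique hv hv'
  obtain ⟨x, hx⟩ := exists_base hP hur hfin.toFinset y (fun v _ hvT w hw => by
    by_contra hcon
    exact hvT (hfin.mem_toFinset.2 ⟨w, hcon, hw⟩)) hconst
  refine ⟨y * (Units.map (algebraMap E N : E →* N) x)⁻¹, ?_, ?_⟩
  · intro w hw
    obtain ⟨v, hv⟩ := exists_over (E := E) w
    have hvS : v ∉ S := fun h => hw ⟨v, h, hv⟩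
    change w.valuation N ((y * (Units.map (algebraMap E N : E →* N) x)⁻¹ : Nˣ) : N) = 1
    have h2 : w.valuation N (algebraMap E N (x : E)) ≠ 0 :=
      (Valuation.ne_zero_iff _).2 ((_root_.map_ne_zero _).2 x.ne_zero)
    rw [Units.val_mul, map_mul, hx v hvS w hv, Units.val_inv_eq_inv_val, map_inv₀]
    exact mul_inv_cancel₀ h2
  · apply Units.ext
    have h1 : ((Units.map (algebraMap E N : E →* N) x : Nˣ) : N) = algebraMap E N (x : E) := rfl
    have h2 : ((Units.map (σ : N →* N) (y * (Units.map (algebraMap E N : E →* N) x)⁻¹) : Nˣ) : N) =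
        σ ((y * (Units.map (algebraMap E N : E →* N) x)⁻¹ : Nˣ) : N) := rfl
    have h3 : (((Units.map (algebraMap E N : E →* N) x)⁻¹ : Nˣ) : N) =
        (algebraMap E N (x : E))⁻¹ := by rw [Units.val_inv_eq_inv_val, h1]
    rw [h2, ← mul_assoc, Units.val_mul, hyu, Units.val_mul, map_mul, h3, map_inv₀, σ.commutes]

end BKR
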