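import Pool.Agent.Lib.MP_7c08ba_nt.R1.GSt
import Pool.Agent.Lib.MP_7c08ba_nt.Met.GEE

set_option autoImplicit false

/-!
Module EE (project R1): the number of `S`-units modulo norms of `S`-units, for totally complex
fields.
-/

noncomputable section

namespace BKR

open NumberField IsDedekindDomain HeightOneSpectrum Polynomial BKGen BKGen.SUnits
open BKGlob2 (IsPw Nm Pw toC toU chr emb kv loc Prin UPw diag PS Over Above nrm StHerb)
open BKGlob2

open BKGlob2.EEAux in
/-- Module EE. -/
theorem stEE (hH : BKGlob2.StHerb) (hSB : BKR.StSB) (hA : BKR.StEA) (hB : BKR.StEB)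
    (hC : BKR.StEC) (hD : BKR.StED) : BKR.StEE := by
  classical
  intro p E N _ _ _ _ _ ζ a α hK S hP hS
  obtain ⟨hgal, hrk, ⟨σ, -, hτ, hσp⟩, -⟩ := hA p E N ζ a α hK
  have hp0 : p ≠ 0 := hK.prime.ne_zero
  have hfd : FiniteDimensional E N := Module.finite_of_finrank_pos (by rw [hrk]; omega)
  have hcard : ∀ v : HeightOneSpectrum (𝓞 E),
      Nat.card {w : HeightOneSpectrum (𝓞 N) // Over v w} ≠ 0 := by
    intro v
    by_cases h : IsPw p ((loc v a : (kv v)ˣ) : kv v)
    · rw [(hB p E N ζ a α hK v).1 h]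
      exact hp0
    · rw [(hB p E N ζ a α hK v).2 h]
      exact one_ne_zero
  have hfin : ∀ v : HeightOneSpectrum (𝓞 E), {w : HeightOneSpectrum (𝓞 N) | Over v w}.Finite :=
    fun v => Nat.finite_of_card_ne_zero (hcard v)
  have hne : ∀ v : HeightOneSpectrum (𝓞 E), ∃ w : HeightOneSpectrum (𝓞 N), Over v w := by
    intro v
    by_contra hcon
    push Not at hcon
    have : IsEmpty {w : HeightOneSpectrum (𝓞 N) // Over v w} := ⟨fun w => hcon w.1 w.2⟩
    exact hcard v Nat.card_of_isEmpty
  set SN : Set (HeightOneSpectrum (𝓞 N)) := Above N (S : Set (HeightOneSpectrum (𝓞 E))) with hSN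
  -- the primes above `S`
  set T : Finset (HeightOneSpectrum (𝓞 N)) := S.biUnion fun v => (hfin v).toFinset with hT
  have hTS : (T : Set (HeightOneSpectrum (𝓞 N))) = SN := by
    ext w
    rw [hT, Finset.mem_coe, Finset.mem_biUnion]
    constructor
    · rintro ⟨v, hv, hw⟩
      exact ⟨v, hv, (hfin v).mem_toFinset.1 hw⟩
    · rintro ⟨v, hv, hw⟩
      exact ⟨v, hv, (hfin v).mem_toFinset.2 hw⟩
  have hTcard : T.card = ∑ v ∈ S, if IsPw p ((loc v a : (kv v)ˣ) : kv v) then p else 1 := by
    rw [hT, Finset.card_biUnion]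
    · refine Finset.sum_congr rfl fun v _ => ?_
      have h1 : (hfin v).toFinset.card = Nat.card {w : HeightOneSpectrum (𝓞 N) // Over v w} := by
        rw [← Set.ncard_eq_toFinset_card _ (hfin v)]
        rfl
      rw [h1]
      split_ifs with h
      · exact (hB p E N ζ a α hK v).1 h
      · exact (hB p E N ζ a α hK v).2 h
    · intro v _ v' _ hvv
      rw [Function.onFun, Finset.disjoint_left]
      intro w hw hw'
      exact hvv (over_uniq ((hfin v).mem_toFinset.1 hw) ((hfin v').mem_toFinset.1 hw'))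
  set t : ℕ := Nat.card {v : S // ¬ IsPw p ((loc v.1 a : (kv v.1)ˣ) : kv v.1)} with ht
  have ht' : t = (S.filter fun v => ¬ IsPw p ((loc v a : (kv v)ˣ) : kv v)).card := by
    rw [ht, Nat.card_eq_fintype_card, Fintype.card_subtype]
    rw [← Finset.card_map (Function.Embedding.subtype fun v => v ∈ S)]
    congr 1
    ext v
    simp only [Finset.mem_map, Finset.mem_filter, Finset.mem_univ, true_and,
      Function.Embedding.subtype_apply]
    constructor
    · rintro ⟨x, hx, rfl⟩
      exact ⟨x.2, hx⟩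
    · rintro ⟨h1, h2⟩
      exact ⟨⟨v, h1⟩, h2, rfl⟩
  have htle : t ≤ S.card := by
    rw [ht']
    exact Finset.card_filter_le _ _
  have hTcard' : T.card + p * t = p * S.card + t := by
    have h1 : T.card = (S.filter fun v => IsPw p ((loc v a : (kv v)ˣ) : kv v)).card * p +
        (S.filter fun v => ¬ IsPw p ((loc v a : (kv v)ˣ) : kv v)).card := by
      rw [hTcard, Finset.sum_ite, Finset.sum_const, Finset.sum_const, smul_eq_mul, smul_eq_mul,
        mul_one]
    have h2 : (S.filter fun v => IsPw p ((loc v a : (kv v)ˣ) : kv v)).card +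
        (S.filter fun v => ¬ IsPw p ((loc v a : (kv v)ˣ) : kv v)).card = S.card :=
      Finset.card_filter_add_card_filter_not _
    rw [← ht'] at h1 h2
    rw [h1, ← h2]
    ring
  -- the groups of `S`-units
  have hζN : IsPrimitiveRoot (algebraMap E N ζ) p :=
    hK.root.map_of_injective (algebraMap E N).injective
  have hNreal : IsEmpty (N →+* ℝ) := ⟨fun f => hK.imag.false (f.comp (algebraMap E N))⟩
  obtain ⟨f1, r1, -, -⟩ := hSB p hK.prime N hNreal (algebraMap E N ζ) hζN T
  rw [hTS] at f1 r1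
  obtain ⟨f0, r0, -, hev⟩ := hSB p hK.prime E hK.imag ζ hK.root S
  have hval : ∀ v ∉ (S : Set (HeightOneSpectrum (𝓞 E))), ∀ w : HeightOneSpectrum (𝓞 N),
      Over v w → ∀ x : E, w.valuation N (algebraMap E N x) = v.valuation E x :=
    fun v hv w hw x => hC p E N ζ a α hK v (hS v hv) w hw x
  -- the automorphism
  set A : Subgroup Nˣ := SN.unit N with hAdef
  set s : A →* A := sg (S : Set (HeightOneSpectrum (𝓞 E))) σ with hs
  have hsp : ∀ x, (⇑s)^[p] x = x := by
    intro x
    apply Subtype.ext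
    apply Units.ext
    rw [hs, sg_iter, hσp]
    rfl
  have hsfix : ∀ x : A, s x = x ↔ σ ((x : Nˣ) : N) = ((x : Nˣ) : N) := by
    intro x
    rw [Subtype.ext_iff, Units.ext_iff]
    rfl
  -- the norm
  have hNm : ∀ x : A, (((Herb.Nm s p x : A) : Nˣ) : N) =
      algebraMap E N ((nrm E N (x : Nˣ) : Eˣ) : E) := by
    intro x
    have h1 : algebraMap E N ((nrm E N (x : Nˣ) : Eˣ) : E) =
        ∏ i ∈ Finset.range p, (σ ^ i) ((x : Nˣ) : N) := norm_prod hrk hτ _
    rw [h1, Herb.Nm_apply, Subgroup.val_finsetProd, Units.coe_prod]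
    exact Finset.prod_congr rfl fun i _ => sg_iter _ _ i x
  set ι : Eˣ →* Nˣ := Units.map (algebraMap E N : E →* N) with hι
  have hιinj : Function.Injective ι := Units.map_injective (algebraMap E N).injective
  -- fixed elements
  have hfix : ((Herb.Dm s).ker).map A.subtype =
      (((S : Set (HeightOneSpectrum (𝓞 E))).unit E)).map ι := by
    ext x
    rw [Subgroup.mem_map, Subgroup.mem_map]
    constructor
    · rintro ⟨y, hy, rfl⟩
      rw [Herb.mem_ker_Dm, hsfix] at hy
      have h1 : ∀ τ : N ≃ₐ[E] N, τ ((y : Nˣ) : N) = ((y : Nˣ) : N) := by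
        intro τ
        obtain ⟨i, -, rfl⟩ := hτ τ
        induction i with
        | zero => rfl
        | succ i ih =>
          rw [pow_succ', AlgEquiv.mul_apply, ih, hy]
      obtain ⟨e, he⟩ := (IsGalois.mem_range_algebraMap_iff_fixed ((y : Nˣ) : N)).2 h1
      have he0 : e ≠ 0 := by
        rintro rfl
        rw [map_zero] at he
        exact (y : Nˣ).ne_zero he.symm
      refine ⟨Units.mk0 e he0, ?_, ?_⟩
      · rw [mem_unit]
        intro v hv
        obtain ⟨w, hw⟩ := hne v
        have h2 := hval v hv w hw e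
        rw [he] at h2
        rw [Units.val_mk0, ← h2]
        exact y.2 w (not_above hv hw)
      · apply Units.ext
        exact he
    · rintro ⟨e, he, rfl⟩
      have hmem : ι e ∈ A := by
        rw [hAdef, mem_unit]
        intro w hw
        have hv : HeightOneSpectrum.under (𝓞 E) w ∉ (S : Set (HeightOneSpectrum (𝓞 E))) :=
          fun h => hw ⟨_, h, over_under w⟩
        exact (hval _ hv w (over_under w) e).trans (he _ hv)
      refine ⟨⟨ι e, hmem⟩, ?_, rfl⟩
      rw [Herb.mem_ker_Dm, hsfix]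
      exact σ.commutes (e : E)
  have hrange : ((Herb.Nm s p).range).map A.subtype = (A.map (nrm E N)).map ι := by
    ext x
    rw [Subgroup.mem_map, Subgroup.mem_map]
    constructor
    · rintro ⟨_, ⟨y, rfl⟩, rfl⟩
      refine ⟨nrm E N (y : Nˣ), Subgroup.mem_map_of_mem _ y.2, ?_⟩
      apply Units.ext
      exact (hNm y).symm
    · rintro ⟨_, ⟨y, hy, rfl⟩, rfl⟩
      refine ⟨Herb.Nm s p ⟨y, hy⟩, ⟨_, rfl⟩, ?_⟩
      apply Units.ext
      exact hNm ⟨y, hy⟩
  have hrel : ((Herb.Nm s p).range).relIndex ((Herb.Dm s).ker) =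
      (A.map (nrm E N)).relIndex ((S : Set (HeightOneSpectrum (𝓞 E))).unit E) := by
    rw [← Subgroup.relIndex_map_map_of_injective _ _ A.subtype_injective, hfix, hrange,
      Subgroup.relIndex_map_map_of_injective _ _ hιinj]
  -- the first cohomology
  have hone : ((Herb.Dm s).range).relIndex ((Herb.Nm s p).ker) = 1 := by
    rw [Subgroup.relIndex_eq_one]
    intro u hu
    have h1 : nrm E N (u : Nˣ) = 1 := by
      apply hιinj
      rw [map_one]
      apply Units.ext
      have h2 := hNm u
      rw [MonoidHom.mem_ker] at hu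
      rw [hu] at h2
      exact h2.symm
    obtain ⟨y, hy, hyu⟩ := hD p E N ζ a α hK (S : Set (HeightOneSpectrum (𝓞 E))) hP hval σ hτ
      (u : Nˣ) u.2 h1
    refine ⟨⟨y, hy⟩, ?_⟩
    rw [Herb.Dm_apply, div_eq_iff_eq_mul]
    apply Subtype.ext
    exact hyu.symm
  -- the ranks
  have hA0 : Module.finrank ℤ (Additive (Herb.Dm s).ker) =
      Module.finrank ℤ (Additive ((S : Set (HeightOneSpectrum (𝓞 E))).unit E)) := by
    let e1 : (Herb.Dm s).ker ≃* ((Herb.Dm s).ker).map A.subtype :=
      ((Herb.Dm s).ker).equivMapOfInjective A.subtype A.subtype_injective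
    let e2 : ((S : Set (HeightOneSpectrum (𝓞 E))).unit E) ≃*
        (((S : Set (HeightOneSpectrum (𝓞 E))).unit E)).map ι :=
      ((S : Set (HeightOneSpectrum (𝓞 E))).unit E).equivMapOfInjective ι hιinj
    let e3 : ((Herb.Dm s).ker).map A.subtype ≃*
        (((S : Set (HeightOneSpectrum (𝓞 E))).unit E)).map ι := MulEquiv.subgroupCongr hfix
    exact ((e1.trans (e3.trans e2.symm)).toAdditive.toIntLinearEquiv).finrank_eq
  obtain ⟨b, hb1, hb2, -⟩ := hH A p hK.prime s hsp ((Herb.Dm s).ker) (fun x => Herb.mem_ker_Dm)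
  rw [hone, one_mul, hrel, hA0] at hb2
  rw [hA0] at hb1
  have hdeg : Module.finrank ℚ N = Module.finrank ℚ E * p := by
    rw [← hrk, Module.finrank_mul_finrank ℚ E N]
  obtain ⟨m, hm⟩ := hev
  have hm2 : Module.finrank ℚ E / 2 = m := by omega
  have hN2 : Module.finrank ℚ N / 2 = m * p := by
    rw [hdeg, hm, mul_assoc, Nat.mul_div_cancel_left _ (by norm_num)]
  rw [hm2] at r0
  rw [hN2] at r1
  set rA := Module.finrank ℤ (Additive A)
  set rE := Module.finrank ℤ (Additive ((S : Set (HeightOneSpectrum (𝓞 E))).unit E))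
  have hp1 : 0 < p - 1 := Nat.sub_pos_of_lt hK.prime.one_lt
  obtain ⟨p', hp'⟩ : ∃ p', p = p' + 1 := ⟨p - 1, by have := hK.prime.pos; omega⟩
  have hbt : b + t = rE + 1 := by
    rw [hp', Nat.add_sub_cancel] at hb1
    rw [hp'] at hTcard' r1
    have hp'0 : 0 < p' := by
      have := hK.prime.two_le
      omega
    have key : p' * (b + t) = p' * (rE + 1) := by
      have e1 : rA + 1 + (p' + 1) * t = m * (p' + 1) + (p' + 1) * S.card + t := by
        rw [r1, add_assoc, hTcard']
        ring
      rw [hb1] at e1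
      have e2 : rE + 1 = m + S.card := r0
      have e3 : (rE + 1) + p' * b + p' * t = (m + S.card) + p' * (m + S.card) := by
        nlinarith [e1]
      rw [← e2] at e3
      nlinarith [e3]
    exact Nat.eq_of_mul_eq_mul_left hp'0 key
  have hfinal : (A.map (nrm E N)).relIndex ((S : Set (HeightOneSpectrum (𝓞 E))).unit E) * p *
      p ^ b = p ^ t * p ^ b := by
    have : (A.map (nrm E N)).relIndex ((S : Set (HeightOneSpectrum (𝓞 E))).unit E) * p * p ^ b =
        ((A.map (nrm E N)).relIndex ((S : Set (HeightOneSpectrum (𝓞 E))).unit E) * p ^ b) * p := by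
      ring
    rw [this, hb2, ← pow_succ, ← hbt, add_comm, pow_add]
  exact Nat.eq_of_mul_eq_mul_right (pow_pos hK.prime.pos b) hfinal

end BKR
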