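import Pool.Agent.Lib.MP_7c08ba_nt.R1.GSt
import Pool.Agent.Lib.MP_7c08ba_nt.Met.GEF

set_option autoImplicit false

/-!
Module EF of project R1: every element of `E` which is a unit at the places outside `S` that do not
split in the Kummer extension `N` is the product of an `S`-unit and a norm (copy of `Met/GEF.lean`
for totally complex fields, `p = 2` included; the lemmas on the action of the Galois group on the
primes are those of `Met/GEF.lean`).
-/

noncomputable section

namespace BKR

open NumberField IsDedekindDomain HeightOneSpectrum Polynomial BKGen BKGen.SUnits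
open BKGlob2 (IsPw Nm Pw toC toU chr emb kv loc Prin UPw diag PS Over Above nrm)
open scoped Pointwise

open BKGlob2.EFAux in
/-- Module EF. -/
theorem stEF (hA : StEA) (hB : StEB) (hC : StEC) : StEF := by
  classical
  intro p E N _ _ _ _ _ ζ a α hK S hP y hy
  obtain ⟨hgal, hrk, -, -⟩ := hA p E N ζ a α hK
  have hp0 : p ≠ 0 := hK.prime.ne_zero
  have hfd : FiniteDimensional E N := Module.finite_of_finrank_pos (by rw [hrk]; omega)
  have hcard : ∀ v : HeightOneSpectrum (𝓞 E),
      Nat.card {w : HeightOneSpectrum (𝓞 N) // Over v w} ≠ 0 := by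
    intro v
    by_cases h : IsPw p ((loc v a : (kv v)ˣ) : kv v)
    · rw [(hB p E N ζ a α hK v).1 h]
      exact hp0
    · rw [(hB p E N ζ a α hK v).2 h]
      exact one_ne_zero
  have hfin : ∀ v : HeightOneSpectrum (𝓞 E), Finite {w : HeightOneSpectrum (𝓞 N) // Over v w} :=
    fun v => Nat.finite_of_card_ne_zero (hcard v)
  have hne : ∀ v : HeightOneSpectrum (𝓞 E), Nonempty {w : HeightOneSpectrum (𝓞 N) // Over v w} := by
    intro v
    have := hfin v
    by_contra hcon
    rw [not_nonempty_iff] at hcon
    exact hcard v Nat.card_of_isEmpty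
  have hft : ∀ v : HeightOneSpectrum (𝓞 E), Fintype {w : HeightOneSpectrum (𝓞 N) // Over v w} :=
    fun v => Fintype.ofFinite _
  -- elements with prescribed norm
  have hnorm : ∀ v ∉ S, IsPw p ((loc v a : (kv v)ˣ) : kv v) → ∃ n : Nˣ,
      v.valuation E ((nrm E N n : Eˣ) : E) = WithZero.exp (-1 : ℤ) ∧
      ∀ v' ∉ S, v' ≠ v → v'.valuation E ((nrm E N n : Eˣ) : E) = 1 := by
    intro v hv hpw
    obtain ⟨w₀⟩ := hne v
    have huniq : ∀ {v v' : HeightOneSpectrum (𝓞 E)} {w : HeightOneSpectrum (𝓞 N)}, Over v w →
        Over v' w → v = v' := fun h h' => HeightOneSpectrum.ext (h.symm.trans h')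
    have hnot : ∀ {v : HeightOneSpectrum (𝓞 E)} {w : HeightOneSpectrum (𝓞 N)}, v ∉ S →
        Over v w → w ∉ Above N (S : Set (HeightOneSpectrum (𝓞 E))) := by
      rintro v w hv hw ⟨v', hv', hw'⟩
      rw [huniq hw hw'] at hv
      exact hv hv'
    obtain ⟨n, hn1, hn2⟩ := hP w₀.1 (hnot hv w₀.2)
    refine ⟨n, ?_, ?_⟩
    · have h1 := F_norm (N := N) v (n : N)
      have h2 : F v (n : N) = WithZero.exp (-1 : ℤ) := by
        unfold F
        rw [Finset.prod_eq_single w₀ ?_ ?_, hn1]
        · intro w _ hw
          exact hn2 w.1 (hnot hv w.2) (fun h => hw (Subtype.ext h))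
        · intro h
          exact absurd (Finset.mem_univ _) h
      have h3 : F v (algebraMap E N (Algebra.norm E (n : N))) =
          v.valuation E (Algebra.norm E (n : N)) ^ p := by
        unfold F
        rw [Finset.prod_congr rfl fun w _ => hC p E N ζ a α hK v (Or.inl hpw) w.1 w.2 _,
          Finset.prod_const, Finset.card_univ, ← Nat.card_eq_fintype_card,
          (hB p E N ζ a α hK v).1 hpw]
      rw [h3, h2, hrk] at h1
      exact (pow_left_inj₀ zero_le zero_le hp0).1 h1
    · intro v' hv' hvv
      have h1 := F_norm (N := N) v' (n : N)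
      have h2 : F v' (n : N) = 1 := by
        unfold F
        refine Finset.prod_eq_one fun w _ => ?_
        refine hn2 w.1 (hnot hv' w.2) fun h => hvv ?_
        have h3 : Over v w.1 := by
          rw [h]
          exact w₀.2
        exact huniq w.2 h3
      rw [h2, one_pow] at h1
      have := hne v'
      exact val_eq_one_of_F v' h1
  -- induction on the set of the bad primes
  have hind : ∀ (T : Finset (HeightOneSpectrum (𝓞 E))) (y : Eˣ),
      (∀ v ∉ S, v ∉ T → v.valuation E (y : E) = 1) →
      (∀ v ∉ S, v.valuation E (y : E) = 1 ∨ IsPw p ((loc v a : (kv v)ˣ) : kv v)) →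
      ∃ u ∈ (S : Set (HeightOneSpectrum (𝓞 E))).unit E, ∃ n : Nˣ, y = u * nrm E N n := by
    intro T
    induction T using Finset.induction_on with
    | empty =>
      intro y hy _
      refine ⟨y, ?_, 1, by rw [map_one, mul_one]⟩
      intro v hv
      exact hy v hv (Finset.notMem_empty v)
    | insert v₀ T _ ih =>
      intro y hy hy'
      by_cases h0 : v₀ ∈ S ∨ v₀.valuation E (y : E) = 1
      · refine ih y (fun v hv hvT => ?_) hy'
        rcases eq_or_ne v v₀ with rfl | hne'
        · exact h0.resolve_left hv
        · exact hy v hv (by simp [hne', hvT])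
      · push Not at h0
        obtain ⟨h0S, h01⟩ := h0
        have hpw := (hy' v₀ h0S).resolve_left h01
        obtain ⟨n, hn1, hn2⟩ := hnorm v₀ h0S hpw
        have hy0 : v₀.valuation E (y : E) ≠ 0 := (Valuation.ne_zero_iff _).2 y.ne_zero
        obtain ⟨j, hj⟩ : ∃ j : ℤ, v₀.valuation E (y : E) = WithZero.exp j :=
          ⟨_, (WithZero.exp_log hy0).symm⟩
        have hval : ∀ v : HeightOneSpectrum (𝓞 E), v.valuation E
            (((y * nrm E N n ^ j : Eˣ)) : E) = v.valuation E (y : E) *
              v.valuation E ((nrm E N n : Eˣ) : E) ^ j := by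
          intro v
          rw [Units.val_mul, map_mul, Units.val_zpow_eq_zpow_val, map_zpow₀]
        have hnew : ∀ v ∉ S, v ≠ v₀ → v.valuation E (((y * nrm E N n ^ j : Eˣ)) : E) =
            v.valuation E (y : E) := by
          intro v hv hvv
          rw [hval, hn2 v hv hvv, one_zpow, mul_one]
        have hnew0 : v₀.valuation E (((y * nrm E N n ^ j : Eˣ)) : E) = 1 := by
          rw [hval, hn1, hj, ← WithZero.exp_zsmul, ← WithZero.exp_add]
          simp
        obtain ⟨u, hu, m, hm⟩ := ih (y * nrm E N n ^ j) (fun v hv hvT => by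
          rcases eq_or_ne v v₀ with rfl | hne'
          · exact hnew0
          · rw [hnew v hv hne']
            exact hy v hv (by simp [hne', hvT])) (fun v hv => by
          rcases eq_or_ne v v₀ with rfl | hne'
          · exact Or.inl hnew0
          · rw [hnew v hv hne']
            exact hy' v hv)
        refine ⟨u, hu, m * n ^ (-j), ?_⟩
        rw [map_mul, map_zpow, ← mul_assoc, ← hm, zpow_neg, mul_inv_cancel_right]
  have hbad : {v : HeightOneSpectrum (𝓞 E) | v.valuation E (y : E) ≠ 1}.Finite := by
    have h1 := HeightOneSpectrum.Support.finite (𝓞 E) (y : E)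
    have h2 := HeightOneSpectrum.Support.finite (𝓞 E) ((y : E)⁻¹)
    refine (h1.union h2).subset fun v hv => ?_
    rcases lt_or_gt_of_ne (show v.valuation E (y : E) ≠ 1 from hv) with h | h
    · right
      change 1 < v.valuation E ((y : E)⁻¹)
      rw [map_inv₀]
      exact (one_lt_inv₀ (zero_lt_iff.2 ((Valuation.ne_zero_iff _).2 y.ne_zero))).2 h
    · left
      exact h
  refine hind hbad.toFinset y (fun v _ hv => ?_) hy
  by_contra hcon
  exact hv (hbad.mem_toFinset.2 hcon)

end BKR
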