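import Pool.Agent.Lib.MP_7c08ba_nt.R1.GSt

set_option autoImplicit false

/-!
The Hasse norm theorem in degree `p` (`p = 2` included) over totally complex fields, module EX:
existence of the Kummer extension.
-/

noncomputable section

namespace BKR

open NumberField IsDedekindDomain Polynomial BKGen BKGen.SUnits
open BKGlob2 (IsPw)

theorem stEX : StEX := by
  intro p hp E _ _ him ζ hζ a ha
  have hirr : Irreducible (X ^ p - C (a : E) : E[X]) :=
    X_pow_sub_C_irreducible_of_prime hp fun b hb => ha ⟨b, hb⟩
  have : Fact (Irreducible (X ^ p - C (a : E) : E[X])) := ⟨hirr⟩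
  have : Module.Finite E (AdjoinRoot (X ^ p - C (a : E) : E[X])) :=
    (monic_X_pow_sub_C (a : E) hp.ne_zero).finite_adjoinRoot
  have : NumberField (AdjoinRoot (X ^ p - C (a : E) : E[X])) :=
    NumberField.of_module_finite E _
  refine ⟨AdjoinRoot (X ^ p - C (a : E) : E[X]), inferInstance, inferInstance, inferInstance,
    AdjoinRoot.root _, ⟨hp, him, hζ, ha, ?_, ?_⟩⟩
  · exact root_X_pow_sub_C_pow p (a : E)
  · exact IntermediateField.adjoin_root_eq_top _

end BKR
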