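import Pool.Agent.Lib.MP_7c08ba_nt.R1.GSt

set_option autoImplicit false

/-!
The Hasse norm theorem in degree `p` for totally complex fields, module FF: an element of a number
field without real embeddings, with a primitive `p`-th root of unity, which is a `p`-th power at
almost all places is a `p`-th power.
-/

noncomputable section

namespace BKR

open NumberField IsDedekindDomain Polynomial BKGen BKGen.SUnits
open BKGlob2 (IsPw Nm Pw toC toU chr emb kv loc Prin UPw diag PS Over Above nrm)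

namespace FFAux

/-- units which are `p`-th powers are `p`-th powers of units -/
theorem mem_Pw {p : ℕ} (hp : p ≠ 0) {k : Type} [Field k] {z : kˣ} (h : IsPw p (z : k)) :
    z ∈ Pw p k := by
  obtain ⟨c, hc⟩ := h
  have hc0 : c ≠ 0 := by
    rintro rfl
    rw [zero_pow hp] at hc
    exact z.ne_zero hc.symm
  refine ⟨Units.mk0 c hc0, ?_⟩
  ext
  change ((Units.mk0 c hc0 ^ p : kˣ) : k) = z
  rw [Units.val_pow_eq_pow_val]
  exact hc

theorem comm_aux {G : Type*} [CommGroup G] (x A L : G) : A⁻¹ * x = x * (A * L)⁻¹ * L := by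
  rw [mul_inv, mul_assoc, mul_assoc, inv_mul_cancel, mul_one, mul_comm]

end FFAux

open FFAux in
/-- Module FF: an element which is a `p`-th power at almost all places is a `p`-th power. -/
theorem stFF (h1 : StFI) (h2 : StEF) (h3 : BKGlob2.StEG) (h4 : StEX) (h5 : BKGlob2.StPD)
    (h6 : BKGlob2.StNA2) (h7 : BKGlob2.StNA3) (h8 : BKGlob2.StNA4) : StFF := by
  intro p hp E iE iN hE ζ hζ a T hT
  by_contra hna
  obtain ⟨N, iN1, iN2, iN3, α, hK⟩ := h4 p hp E hE ζ hζ a hna
  obtain ⟨S, hTS, hS1, hS2⟩ := h3 E N T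
  have hS : ∀ v ∉ S, IsPw p ((loc v a : (kv v)ˣ) : kv v) := fun v hv => hT v fun h => hv (hTS h)
  refine h1 p hp E hE ζ hζ a hna S hS1 (fun v hv => Or.inl (hS v hv)) ?_
  rw [eq_top_iff]
  intro x _
  classical
  have hpf : Fact p.Prime := ⟨hp⟩
  obtain ⟨y, hy⟩ := h5 p E S (fun v => if h : v ∈ S then x ⟨v, h⟩ else 1)
  obtain ⟨u, hu, n, hun⟩ := h2 p E N ζ a α hK S hS2 y (fun v hv => Or.inr (hS v hv))
  have hx : x = diag S u * ((diag S u)⁻¹ * x) := by rw [mul_inv_cancel_left]
  have hz : (diag S u)⁻¹ * x ∈ Subgroup.pi Set.univ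
      fun v : S => Nm p (kv v.1) ((loc v.1 a : (kv v.1)ˣ) : kv v.1) := by
    rw [Subgroup.mem_pi]
    intro v _
    have hyv := hy v.1 v.2
    rw [dif_pos v.2] at hyv
    have e : ((diag S u)⁻¹ * x) v =
        (x v * (loc v.1 y)⁻¹) * loc v.1 (nrm E N n) := by
      rw [hun, map_mul]
      exact comm_aux _ _ _
    rw [e]
    refine Subgroup.mul_mem _ ?_ ?_
    · exact h6 p hp (kv v.1) _ (mem_Pw hp.ne_zero hyv)
    · have h9 : nrm E N n ∈ Nm p E (a : E) := by
        rw [h7 p hp E N (a : E) α hK.notpw hK.pow hK.top]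
        exact ⟨n, rfl⟩
      exact h8 p hp E (kv v.1) (toC (emb v.1)) (a : E) _ h9
  rw [hx]
  exact Subgroup.mul_mem_sup (Subgroup.mem_map_of_mem _ hu) hz

end BKR
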