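import Pool.Agent.Lib.MP_7c08ba_nt.R1.GSt
import Pool.Agent.Lib.MP_7c08ba_nt.Met.GFI

set_option autoImplicit false

/-!
Module FI (project R1), the first inequality for totally complex fields: not all local classes
modulo norms come from `S`-units.
-/

noncomputable section

namespace BKR

open NumberField IsDedekindDomain Polynomial BKGen BKGen.SUnits
open BKGlob2 (IsPw Nm Pw toC toU chr emb kv loc Prin UPw diag PS Over Above nrm)

open BKGlob2.FIAux in
/-- Module FI, the first inequality. -/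
theorem stFI (h1 : BKR.StEE) (h2 : BKR.StEX) (h3 : BKGlob2.StLB) (h4 : BKGlob2.StNA1)
    (h5 : BKGlob2.StNA3) (h6 : BKGlob2.StNA4) : BKR.StFI := by
  intro p hp E iE iN hE ζ hζ a hna S hS hv htop
  obtain ⟨N, iN1, iN2, iN3, α, hK⟩ := h2 p hp E hE ζ hζ a hna
  classical
  have hpf : Fact p.Prime := ⟨hp⟩
  have hee := h1 p E N ζ a α hK S hS hv
  -- the local indices
  have hloc : ∀ v : HeightOneSpectrum (𝓞 E), (Nm p (kv v) ((loc v a : (kv v)ˣ) : kv v)).index =
      if IsPw p ((loc v a : (kv v)ˣ) : kv v) then 1 else p := by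
    intro v
    have hζv : IsPrimitiveRoot (toC (emb v) ζ) p := hζ.map_of_injective (toC (emb v)).injective
    have := fd (emb v)
    split_ifs with h
    · rw [Subgroup.index_eq_one, eq_top_iff]
      intro b _
      exact h4 p hp (kv v) _ hζv (loc v a) b h
    · exact h3 p (chr v) (kv v) _ hζv (loc v a) h
  have hidx : (Subgroup.pi Set.univ fun v : S =>
      Nm p (kv v.1) ((loc v.1 a : (kv v.1)ˣ) : kv v.1)).index =
        p ^ Nat.card {v : S // ¬ IsPw p ((loc v.1 a : (kv v.1)ˣ) : kv v.1)} := by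
    rw [index_pi]
    simp only [hloc]
    rw [Finset.prod_ite, Finset.prod_const_one, one_mul, Finset.prod_const,
      Nat.card_eq_fintype_card, Fintype.card_subtype]
  -- the units
  have hrel : ((Subgroup.pi Set.univ fun v : S =>
      Nm p (kv v.1) ((loc v.1 a : (kv v.1)ˣ) : kv v.1)).comap (diag S)).relIndex
        ((S : Set (HeightOneSpectrum (𝓞 E))).unit E) =
      p ^ Nat.card {v : S // ¬ IsPw p ((loc v.1 a : (kv v.1)ˣ) : kv v.1)} := by
    rw [← hidx, Subgroup.relIndex_comap, ← Subgroup.relIndex_sup_right,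
      ← Subgroup.relIndex_top_right]
    exact congrArg _ htop
  have hle : ((Above N (S : Set (HeightOneSpectrum (𝓞 E)))).unit N).map (nrm E N) ≤
      (Subgroup.pi Set.univ fun v : S =>
        Nm p (kv v.1) ((loc v.1 a : (kv v.1)ˣ) : kv v.1)).comap (diag S) := by
    rintro _ ⟨n, -, rfl⟩
    rw [Subgroup.mem_comap, Subgroup.mem_pi]
    intro v _
    have h9 : nrm E N n ∈ Nm p E (a : E) := by
      rw [h5 p hp E N (a : E) α hK.notpw hK.pow hK.top]
      exact ⟨n, rfl⟩
    exact h6 p hp E (kv v.1) (toC (emb v.1)) (a : E) _ h9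
  have hdvd := Subgroup.relIndex_dvd_of_le_left
    ((S : Set (HeightOneSpectrum (𝓞 E))).unit E) hle
  rw [hrel] at hdvd
  obtain ⟨m, hm⟩ := hdvd
  rw [hm] at hee
  have hpos : 0 < p ^ Nat.card {v : S // ¬ IsPw p ((loc v.1 a : (kv v.1)ˣ) : kv v.1)} :=
    pow_pos hp.pos _
  have h10 : m * p = 1 := by
    refine Nat.eq_of_mul_eq_mul_left hpos ?_
    rw [← mul_assoc, hee, mul_one]
  exact hp.one_lt.ne' (Nat.eq_one_of_mul_eq_one_left h10)

end BKR
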