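import Pool.Agent.Lib.MP_7c08ba_nt.R1.GSt

set_option autoImplicit false

/-! Module FP: `(S ∪ T)`-units which are `p`-th powers at the places in `S` (copy of `Met/GFP.lean`
with `p ≠ 2` replaced by the hypothesis that the field has no real embedding). -/

noncomputable section

namespace BKR

open NumberField IsDedekindDomain Polynomial BKGen BKGen.SUnits
open BKGlob2 (IsPw Nm Pw toC toU chr emb kv loc Prin UPw diag PS Over Above nrm StPB StNA1 StNA2
  StSA pl_emb)

namespace FPAux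

variable {E : Type} [Field E] [NumberField E]

/-- valuation one means norm one -/
theorem norm_one_iff (h : StPB) (v : HeightOneSpectrum (𝓞 E)) (x : Eˣ) :
    ‖emb v (x : E)‖ = 1 ↔ v.valuation E (x : E) = 1 := by
  have := (h E (chr v) (emb v)).2.1 x
  rwa [pl_emb] at this

/-- the absolute values of the completion are powers of that of an element of valuation
`exp (-1)` -/
theorem exists_zpow (h : StPB) (v : HeightOneSpectrum (𝓞 E)) (π : Eˣ)
    (hπ : v.valuation E (π : E) = WithZero.exp (-1 : ℤ)) (y : (kv v)ˣ) :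
    ∃ n : ℤ, ‖((y : kv v) : PadicAlgCl (chr v))‖ = ‖emb v ((π ^ n : Eˣ) : E)‖ := by
  obtain ⟨z, hz⟩ := (h E (chr v) (emb v)).2.2 y
  have hz0 : v.valuation E (z : E) ≠ 0 := by
    rw [Ne, Valuation.zero_iff]
    exact z.ne_zero
  have hk : v.valuation E (z : E) = WithZero.exp (WithZero.log (v.valuation E (z : E))) :=
    (WithZero.exp_log hz0).symm
  set k : ℤ := WithZero.log (v.valuation E (z : E)) with hkdef
  refine ⟨-k, ?_⟩
  have h1 : v.valuation E ((z * (π ^ (-k))⁻¹ : Eˣ) : E) = 1 := by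
    rw [Units.val_mul, map_mul, Units.val_inv_eq_inv_val, map_inv₀, Units.val_zpow_eq_zpow_val,
      map_zpow₀, hπ, hk, ← WithZero.exp_zsmul, ← WithZero.exp_neg, ← WithZero.exp_add]
    simp
  have h2 := (norm_one_iff h v _).2 h1
  rw [Units.val_mul, map_mul, norm_mul, Units.val_inv_eq_inv_val, map_inv₀, norm_inv] at h2
  have h3 : ‖emb v ((π ^ (-k) : Eˣ) : E)‖ ≠ 0 := by
    rw [norm_ne_zero_iff]
    exact (_root_.map_ne_zero _).2 (Units.ne_zero _)
  rw [← hz]
  field_simp at h2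
  exact h2

end FPAux

open FPAux in
theorem stFP (h1 : StFI) (h2 : StNA1) (h3 : StNA2) (h4 : StPB) (h5 : StSA) : StFP := by
  classical
  intro p hp E _ _ hE ζ hζ S T hST hpS hPrin hH x hx1 hx2
  by_contra hx
  have hP' : Prin ((S ∪ T : Finset (HeightOneSpectrum (𝓞 E))) :
      Set (HeightOneSpectrum (𝓞 E))) :=
    (h5 E).1 _ _ (Finset.coe_subset.2 Finset.subset_union_left) hPrin
  refine h1 p hp E hE ζ hζ x hx (S ∪ T) hP' ?_ ?_
  · intro v hv
    rw [Finset.mem_union, not_or] at hv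
    refine Or.inr ⟨fun h => hv.1 (hpS v h), 1, ?_⟩
    rw [one_pow, inv_one, mul_one]
    exact hx1 v hv.1 hv.2
  · rw [eq_top_iff]
    intro y _
    -- extension to all places
    let Y : ∀ v : HeightOneSpectrum (𝓞 E), (kv v)ˣ := fun v =>
      if h : v ∈ S ∪ T then y ⟨v, h⟩ else 1
    have hY : ∀ v : ((S ∪ T : Finset (HeightOneSpectrum (𝓞 E)))), Y v.1 = y v := fun v =>
      dif_pos v.2
    have hTS : ∀ v ∈ T, v ∉ S := fun v hv hvS => Finset.disjoint_left.1 hST hvS hv
    have hpi : ∀ v : HeightOneSpectrum (𝓞 E), ∃ π : Eˣ, v ∈ T →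
        v.valuation E (π : E) = WithZero.exp (-1 : ℤ) ∧
        ∀ w ∉ S, w ≠ v → w.valuation E (π : E) = 1 := by
      intro v
      by_cases hv : v ∈ T
      · obtain ⟨π, h⟩ := hPrin v (fun h => hTS v hv (Finset.mem_coe.1 h))
        exact ⟨π, fun _ => ⟨h.1, fun w hw => h.2 w (fun h' => hw (Finset.mem_coe.1 h'))⟩⟩
      · exact ⟨1, fun h => absurd h hv⟩
    choose π hπ using hpi
    have hn : ∀ v : HeightOneSpectrum (𝓞 E), ∃ n : ℤ, v ∈ T →
        ‖(((Y v : (kv v)ˣ) : kv v) : PadicAlgCl (chr v))‖ = ‖emb v ((π v ^ n : Eˣ) : E)‖ := by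
      intro v
      by_cases hv : v ∈ T
      · obtain ⟨n, h⟩ := exists_zpow h4 v (π v) (hπ v hv).1 (Y v)
        exact ⟨n, fun _ => h⟩
      · exact ⟨0, fun h => absurd h hv⟩
    choose n hn using hn
    set t : Eˣ := ∏ w ∈ T, π w ^ n w with ht
    -- the absolute values of `t`
    have htT : ∀ v ∈ T, ‖emb v (t : E)‖ =
        ‖(((Y v : (kv v)ˣ) : kv v) : PadicAlgCl (chr v))‖ := by
      intro v hv
      have e1 : ‖emb v (t : E)‖ = ∏ w ∈ T, ‖emb v ((π w ^ n w : Eˣ) : E)‖ := by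
        rw [ht, Units.coe_prod, map_prod, norm_prod]
      rw [e1, Finset.prod_eq_single v ?_ (fun h => absurd hv h), hn v hv]
      intro w hw hwv
      rw [norm_one_iff h4, Units.val_zpow_eq_zpow_val, map_zpow₀,
        (hπ w hw).2 v (hTS v hv) (Ne.symm hwv), one_zpow]
    have htu : t ∈ ((S ∪ T : Finset (HeightOneSpectrum (𝓞 E))) :
        Set (HeightOneSpectrum (𝓞 E))).unit E := by
      intro v hv
      rw [Finset.mem_coe, Finset.mem_union, not_or] at hv
      rw [ht, Units.coe_prod, map_prod]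
      refine Finset.prod_eq_one fun w hw => ?_
      rw [Units.val_zpow_eq_zpow_val, map_zpow₀, (hπ w hw).2 v hv.1 ?_, one_zpow]
      rintro rfl
      exact hv.2 hw
    -- the unit `u`
    obtain ⟨u, hu, huT⟩ := hH (fun v => Y v * (loc v t)⁻¹) (by
      intro v hv
      have e1 : ((((Y v * (loc v t)⁻¹ : (kv v)ˣ)) : kv v) : PadicAlgCl (chr v)) =
          (((Y v : (kv v)ˣ) : kv v) : PadicAlgCl (chr v)) * (emb v (t : E))⁻¹ := by
        rw [Units.val_mul, Units.val_inv_eq_inv_val]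
        rfl
      show ‖((((Y v * (loc v t)⁻¹ : (kv v)ˣ)) : kv v) : PadicAlgCl (chr v))‖ = 1
      rw [e1, norm_mul, norm_inv, htT v hv, mul_inv_cancel₀]
      rw [norm_ne_zero_iff]
      intro h0
      exact (Y v).ne_zero (Subtype.ext h0))
    have huu : u ∈ ((S ∪ T : Finset (HeightOneSpectrum (𝓞 E))) :
        Set (HeightOneSpectrum (𝓞 E))).unit E := by
      intro v hv
      rw [Finset.mem_coe, Finset.mem_union, not_or] at hv
      exact hu v (fun h => hv.1 (Finset.mem_coe.1 h))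
    unfold PS
    rw [Subgroup.mem_sup]
    refine ⟨diag (S ∪ T) (t * u), Subgroup.mem_map_of_mem _ (mul_mem htu huu),
      (diag (S ∪ T) (t * u))⁻¹ * y, ?_, mul_inv_cancel_left _ _⟩
    rw [Subgroup.mem_pi]
    intro v _
    rcases Finset.mem_union.1 v.2 with hv | hv
    · refine h2 p hp (kv v.1) (toC (emb v.1) ζ) (hζ.map_of_injective (toC (emb v.1)).injective)
        _ _ (hx2 v.1 hv)
    · refine h3 p hp (kv v.1) _ ?_
      obtain ⟨c, hc⟩ := huT v.1 hv
      have hc0 : c ≠ 0 := by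
        rintro rfl
        rw [zero_pow hp.ne_zero] at hc
        exact Units.ne_zero _ hc.symm
      refine ⟨Units.mk0 c hc0, ?_⟩
      apply Units.ext
      show c ^ p = _
      rw [hc]
      congr 1
      show Y v.1 * (loc v.1 t)⁻¹ * (loc v.1 u)⁻¹ = (loc v.1 (t * u))⁻¹ * y v
      rw [hY, map_mul, mul_inv, mul_comm (_ * _) (y v), mul_assoc]

end BKR
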