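import Pool.Agent.Lib.MP_7c08ba_nt.R1.GSt
import Pool.Agent.Lib.MP_7c08ba_nt.Met.GFS

set_option autoImplicit false

/-!
The Hasse norm theorem in prime degree `p` (`p = 2` included) over totally complex fields,
module FS: the second inequality.
-/

noncomputable section

namespace BKR

open NumberField IsDedekindDomain Polynomial BKGen BKGen.SUnits
open BKGlob2 (IsPw Nm Pw toC toU chr emb kv loc Prin UPw diag PS Over Above nrm)

open BKGlob2.FSAux in
/-- Module FS, the second inequality. -/
theorem stFS (hEF : StEF) (hFP : StFP) (hFT : StFT) (hNA2 : BKGlob2.StNA2)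
    (hNA3 : BKGlob2.StNA3) (hNA4 : BKGlob2.StNA4) (hPC : BKGlob2.StPC) (hSB : StSB) : StFS := by
  intro p E N _ _ _ _ _ ζ a α hK S hS hS' hpS haS
  have hp : p.Prime := hK.prime
  have : Fact p.Prime := ⟨hp⟩
  classical
  obtain ⟨T, hdisj, hcard, hTa, -, hsurj⟩ :=
    hFT p hp E hK.imag ζ hK.root S hpS a haS hK.notpw
  -- the `S ∪ T`-units
  set U : Subgroup Eˣ := ((S ∪ T : Finset (HeightOneSpectrum (𝓞 E))) :
    Set (HeightOneSpectrum (𝓞 E))).unit E with hU
  have hdvd : (PS p S a).index ∣ p := by
    refine index_dvd (diag S) U (Subgroup.pi Set.univ fun v : S => Pw p (kv v.1)) (PS p S a)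
      ?_ ?_ p (Module.finrank ℚ E / 2 + (S ∪ T).card) (2 * S.card + Module.finrank ℚ E)
      hp.ne_zero ?_ ?_ ?_
    · refine le_trans ?_ le_sup_right
      intro x hx v hv
      exact hNA2 p hp (kv v.1) _ (hx v hv)
    · rintro _ ⟨y, hy, rfl⟩
      obtain ⟨u, hu, n, hyn⟩ := hEF p E N ζ a α hK S hS' y (by
        intro v hv
        by_cases hvT : v ∈ T
        · exact Or.inr (hTa v hvT)
        · left
          refine hy v ?_
          rw [Finset.coe_union]
          rintro (h | h)
          · exact hv h
          · exact hvT h)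
      rw [hyn, map_mul]
      refine mul_mem (Subgroup.mem_sup_left ⟨u, hu, rfl⟩) (Subgroup.mem_sup_right ?_)
      intro v _
      have h1 : nrm E N n ∈ Nm p E (a : E) := by
        rw [hNA3 p hp E N (a : E) α hK.notpw hK.pow hK.top]
        exact ⟨n, rfl⟩
      exact hNA4 p hp E (kv v.1) (toC (emb v.1)) (a : E) (nrm E N n) h1
    · rw [index_pi_dep, ← hPC p E ζ hK.root S hpS]
      exact Finset.prod_coe_sort S fun v => (Pw p (kv v)).index
    · have h1 := (hSB p hp E hK.imag ζ hK.root (S ∪ T)).2.2.1
      rw [← h1]
      rw [Subgroup.relIndex]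
      congr 1
      ext ⟨x, hx⟩
      rw [Subgroup.mem_subgroupOf, Subgroup.mem_comap]
      constructor
      · intro h
        obtain ⟨c, hc⟩ := hFP p hp E hK.imag ζ hK.root S T hdisj hpS hS hsurj x
          (by
            intro v hv hv'
            refine hx v ?_
            rw [Finset.coe_union]
            rintro (h | h)
            · exact hv h
            · exact hv' h)
          (by
            intro v hv
            exact isPw_of_mem_Pw (h ⟨v, hv⟩ (Set.mem_univ _)))
        have hc0 : c ≠ 0 := by
          rintro rfl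
          rw [zero_pow hp.ne_zero] at hc
          exact x.ne_zero hc.symm
        refine ⟨⟨Units.mk0 c hc0, ?_⟩, ?_⟩
        · intro v hv
          have h2 := hx v hv
          rw [← hc, map_pow] at h2
          exact (pow_eq_one_iff_left hp.ne_zero).1 h2
        · apply Subtype.ext
          apply Units.ext
          simpa using hc
      · rintro ⟨⟨y, hy⟩, hyx⟩ v _
        have h2 : y ^ p = x := congrArg Subtype.val hyx
        refine ⟨loc v.1 y, ?_⟩
        rw [powMonoidHom_apply, ← map_pow, h2]
        rfl
    · rw [Finset.card_union_of_disjoint hdisj]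
      obtain ⟨e, he⟩ := (hSB p hp E hK.imag ζ hK.root S).2.2.2
      omega
  constructor
  · intro h
    rw [h, zero_dvd_iff] at hdvd
    exact hp.ne_zero hdvd
  · exact Nat.le_of_dvd hp.pos hdvd

end BKR
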