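import Pool.Agent.Lib.MP_7c08ba_nt.R1.GSt
import Pool.Agent.Lib.MP_7c08ba_nt.Met.GFT

set_option autoImplicit false

/-!
The Hasse norm theorem in prime degree `p` (`p = 2` included) over totally complex fields,
module FT: the auxiliary primes.
-/

noncomputable section

namespace BKR

open NumberField IsDedekindDomain Polynomial BKGen BKGen.SUnits
open BKGlob2 (IsPw Nm Pw toC toU chr emb kv loc Prin UPw diag PS Over Above nrm)

namespace FTAux

open BKGlob2.FTAux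

/-- `S`-units which are `p`-th powers wherever `a` is a `p`-th power -/
theorem key {E : Type} [Field E] [NumberField E] (hFF : StFF) (hEA : StEA) (hEX : StEX)
    (hLD : BKGlob2.StLD) (hPA : BKGlob2.StPA) (hPB : BKGlob2.StPB) {p : ℕ}
    (hp : p.Prime) (hE : IsEmpty (E →+* ℝ)) {ζ : E} (hζ : IsPrimitiveRoot ζ p)
    (S : Finset (HeightOneSpectrum (𝓞 E))) (hpS : ∀ v, (p : 𝓞 E) ∈ v.asIdeal → v ∈ S) {a u : Eˣ}
    (ha : ∀ v ∉ S, v.valuation E (a : E) = 1) (hna : ¬ IsPw p (a : E))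
    (hu : ∀ v ∉ S, v.valuation E (u : E) = 1)
    (h : ∀ v ∉ S, IsPw p ((loc v a : (kv v)ˣ) : kv v) → IsPw p ((loc v u : (kv v)ˣ) : kv v)) :
    ∃ (i : ℕ) (c : E), (u : E) = (a : E) ^ i * c ^ p := by
  have hpf : Fact p.Prime := ⟨hp⟩
  obtain ⟨N, iN1, iN2, iN3, α, hK⟩ := hEX p hp E hE ζ hζ a hna
  obtain ⟨-, -, -, hlast⟩ := hEA p E N ζ a α hK
  apply hlast
  have huN : ((Units.map (algebraMap E N : E →* N) u : Nˣ) : N) = algebraMap E N (u : E) := rfl
  have hN : IsEmpty (N →+* ℝ) := ⟨fun f => hE.false (f.comp (algebraMap E N))⟩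
  rw [← huN]
  refine hFF p hp N hN (algebraMap E N ζ) (hζ.map_of_injective (algebraMap E N).injective)
    (Units.map (algebraMap E N : E →* N) u) (finite_above (N := N) S).toFinset (fun w hw => ?_)
  rw [Set.Finite.mem_toFinset] at hw
  rw [loc_toC, huN]
  exact key_local hLD hPA hPB hζ S hpS ha hu (fun v hv hx => h v hv hx) hK.pow (emb w) hw

end FTAux

open BKGlob2.FTAux in
/-- Module FT: the auxiliary primes. -/
theorem stFT (h1 : StFF) (h2 : StEA) (h3 : StEX) (h4 : BKGlob2.StLD) (h5 : BKGlob2.StPA)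
    (h6 : BKGlob2.StPB) (h7 : StSB) : StFT := by
  intro p hp E iE iN hE ζ hζ S hpS a ha hna
  have hpf : Fact p.Prime := ⟨hp⟩
  have hp0 : p ≠ 0 := hp.ne_zero
  set V : Set (HeightOneSpectrum (𝓞 E)) :=
    {v | v ∉ S ∧ IsPw p ((loc v a : (kv v)ˣ) : kv v)} with hV
  set P : Subgroup (GS S) := ⨅ v ∈ V, DD p S v with hP
  have hPV : ∀ u, u ∈ P ↔ ∀ v ∈ V, u ∈ DD p S v := by
    intro u
    rw [hP, Subgroup.mem_iInf]
    refine forall_congr' fun v => ?_
    rw [Subgroup.mem_iInf]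
  have hval : ∀ u : GS S, ∀ v ∉ S, v.valuation E ((u : Eˣ) : E) = 1 := fun u v hv => u.2 v hv
  have hkey : ∀ u ∈ P, ∃ (i : ℕ) (c : E), ((u : Eˣ) : E) = (a : E) ^ i * c ^ p := by
    intro u hu
    refine FTAux.key h1 h2 h3 h4 h5 h6 hp hE hζ S hpS (hval ⟨a, ha⟩) hna (hval u) fun v hv hva => ?_
    exact (mem_DD hp0).1 ((hPV u).1 hu v ⟨hv, hva⟩)
  -- the index of `P`
  obtain ⟨-, -, hidx, -⟩ := h7 p hp E hE ζ hζ S
  set R : Subgroup (GS S) := (powMonoidHom p : GS S →* GS S).range with hR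
  have hRP : R ≤ P := by
    rintro _ ⟨x, rfl⟩
    rw [hPV]
    intro v _
    rw [mem_DD hp0]
    refine ⟨((loc v (x : Eˣ) : (kv v)ˣ) : kv v), ?_⟩
    rw [← Units.val_pow_eq_pow_val, ← map_pow]
    rfl
  have hPidx : R.index = p * P.index := by
    have e1 : R = R ⊓ P := (inf_eq_left.2 hRP).symm
    conv_lhs => rw [e1]
    refine index_aux P R (w := ⟨a, ha⟩) ?_ ?_ ⟨_, rfl⟩ ?_
    · rw [hPV]
      intro v hv
      exact (mem_DD hp0).2 hv.2
    · rintro ⟨x, hx⟩
      refine hna ⟨((x : Eˣ) : E), ?_⟩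
      rw [← Units.val_pow_eq_pow_val]
      exact congrArg (fun z : GS S => ((z : Eˣ) : E)) hx
    · intro u hu
      obtain ⟨i, c, hic⟩ := hkey u hu
      have hc0 : c ≠ 0 := by
        rintro rfl
        rw [zero_pow hp0, mul_zero] at hic
        exact (u : Eˣ).ne_zero hic
      have e2 : (u : Eˣ) * (a ^ i)⁻¹ = (Units.mk0 c hc0) ^ p := by
        apply Units.ext
        rw [Units.val_mul, Units.val_inv_eq_inv_val, Units.val_pow_eq_pow_val,
          Units.val_pow_eq_pow_val, Units.val_mk0, hic]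
        have ha0 : (a : E) ≠ 0 := a.ne_zero
        field_simp
      have hcS : Units.mk0 c hc0 ∈ GS S := by
        intro v hv
        apply val_eq_one_of_pow hp0
        rw [← e2]
        exact (mul_mem u.2 (inv_mem (pow_mem ha i)) : (u : Eˣ) * (a ^ i)⁻¹ ∈ GS S) v hv
      exact ⟨i, ⟨Units.mk0 c hc0, hcS⟩, Subtype.ext e2.symm⟩
  rw [hidx] at hPidx
  have hs : 1 ≤ Module.finrank ℚ E / 2 + S.card := by
    by_contra hs
    have h0 : Module.finrank ℚ E / 2 + S.card = 0 := by omega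
    rw [h0, pow_zero] at hPidx
    have := Nat.eq_one_of_mul_eq_one_right hPidx.symm
    exact hp.one_lt.ne' this
  obtain ⟨r, hr⟩ : ∃ r, Module.finrank ℚ E / 2 + S.card = r + 1 := ⟨_, (Nat.sub_add_cancel hs).symm⟩
  have hPr : P.index = p ^ r := by
    rw [hr, pow_succ, mul_comm] at hPidx
    exact (Nat.eq_of_mul_eq_mul_left hp.pos hPidx).symm
  -- local facts
  have hchr : ∀ v ∈ V, chr v ≠ p := by
    intro v hv hlp
    refine hv.1 (hpS v ?_)
    have h := l_mem_plI (emb v)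
    have h' : plI (emb v) = v.asIdeal := congrArg HeightOneSpectrum.asIdeal (BKGlob2.pl_emb v)
    rw [h', hlp] at h
    exact h
  have hn : ∀ v ∈ V, ∀ u : GS S,
      ‖(((loc v (u : Eˣ) : (kv v)ˣ) : kv v) : PadicAlgCl (chr v))‖ = 1 := by
    intro v hv u
    have h := (h6 E (chr v) (emb v)).2.1 (u : Eˣ)
    rw [BKGlob2.pl_emb] at h
    exact h.2 (hval u v hv.1)
  have hL : ∀ v ∈ V, ∀ x y : (kv v)ˣ, ‖((x : kv v) : PadicAlgCl (chr v))‖ = 1 →
      ‖((y : kv v) : PadicAlgCl (chr v))‖ = 1 → ¬ IsPw p (x : kv v) →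
      ∃ (i : ℕ) (c : kv v), (y : kv v) = (x : kv v) ^ i * c ^ p := by
    intro v hv
    have hfd : FiniteDimensional ℚ_[chr v] (kv v) := (h6 E (chr v) (emb v)).1
    exact (h4 p (chr v) (hchr v hv) (kv v) (toC (emb v) ζ)
      (hζ.map_of_injective (toC (emb v)).injective)).2
  obtain ⟨T, hTV, hTr, hTi, hTs⟩ := choose S V P hPV hPr hn hL r le_rfl
  have hPQ : P ≤ ⨅ v ∈ T, DD p S v := by
    intro u hu
    rw [Subgroup.mem_iInf]
    intro v
    rw [Subgroup.mem_iInf]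
    intro hv
    exact (hPV u).1 hu v (hTV v hv)
  have hQP : (⨅ v ∈ T, DD p S v) ≤ P := by
    have h := Subgroup.relIndex_mul_index hPQ
    rw [hTi, hPr] at h
    have h' : P.relIndex (⨅ v ∈ T, DD p S v) = 1 := by
      have hpos : 0 < p ^ r := pow_pos hp.pos r
      exact Nat.eq_of_mul_eq_mul_right hpos (by rw [h, one_mul])
    exact Subgroup.relIndex_eq_one.1 h'
  refine ⟨T, ?_, ?_, fun v hv => (hTV v hv).2, ?_, ?_⟩
  · rw [Finset.disjoint_left]
    intro v hvS hvT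
    exact (hTV v hvT).1 hvS
  · rw [hTr, hr]
  · intro u hu h
    refine hkey ⟨u, hu⟩ (hQP ?_)
    rw [Subgroup.mem_iInf]
    intro v
    rw [Subgroup.mem_iInf]
    intro hv
    exact (mem_DD hp0).2 (h v hv)
  · intro x hx
    obtain ⟨u, hu⟩ := hTs x hx
    exact ⟨u, u.2, hu⟩

end BKR
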