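import Pool.Agent.Lib.MP_7c08ba_nt.R1.GSt

set_option autoImplicit false

/-! The Hasse norm theorem for Kummer extensions of degree `p` of totally complex number fields,
`p = 2` included. -/

noncomputable section

namespace BKR

open NumberField IsDedekindDomain Polynomial BKGen BKGen.SUnits
open BKGlob2 (IsPw Nm Pw toC toU chr emb kv loc Prin UPw diag PS Over Above nrm)

namespace HNAux

/-- the index of a product of subgroups -/
theorem index_pi {ι : Type*} [Fintype ι] {G : ι → Type*} [∀ i, CommGroup (G i)]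
    (H : ∀ i, Subgroup (G i)) : (Subgroup.pi Set.univ H).index = ∏ i, (H i).index := by
  let f : (∀ i, G i) →* (∀ i, G i ⧸ H i) :=
    MonoidHom.pi fun i => (QuotientGroup.mk' (H i)).comp (Pi.evalMonoidHom G i)
  have hk : f.ker = Subgroup.pi Set.univ H := by
    ext x
    rw [MonoidHom.mem_ker, Subgroup.mem_pi]
    constructor
    · intro h i _
      exact (QuotientGroup.eq_one_iff _).1 (congrFun h i)
    · intro h
      ext i
      exact (QuotientGroup.eq_one_iff _).2 (h i trivial)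
  have hs : Function.Surjective f := by
    intro y
    choose x hx using fun i => QuotientGroup.mk'_surjective (H i) (y i)
    exact ⟨x, funext hx⟩
  rw [← hk, Subgroup.index_ker, MonoidHom.range_eq_top.2 hs,
    Nat.card_congr (Subgroup.topEquiv (G := ∀ i, G i ⧸ H i)).toEquiv, Nat.card_pi]
  rfl

/-- the counting argument -/
theorem count {G H : Type*} [CommGroup G] [CommGroup H] (f : G →* H) (U M : Subgroup G)
    (L : Subgroup H) (p t : ℕ) (hp : p ≠ 0) (hL : L.index = p ^ t)
    (h2 : (U.map f ⊔ L).index ≤ p) (h3 : M.relIndex U * p = p ^ t) (h4 : M ≤ L.comap f)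
    {x : G} (hx : x ∈ U) (hx' : f x ∈ L) : x ∈ M := by
  have e1 := Subgroup.relIndex_mul_index (le_sup_right : L ≤ U.map f ⊔ L)
  rw [Subgroup.relIndex_sup_right, ← Subgroup.relIndex_comap, hL] at e1
  have hpt : p ^ t ≠ 0 := pow_ne_zero _ hp
  have hr' : M.relIndex U ≠ 0 := by
    intro h
    rw [h, zero_mul] at h3
    exact hpt h3.symm
  have e2 : M.relIndex U ≤ (L.comap f).relIndex U := by
    have h5 : M.relIndex U * p ≤ (L.comap f).relIndex U * p := by
      rw [h3, ← e1]
      exact Nat.mul_le_mul_left _ h2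
    exact Nat.le_of_mul_le_mul_right h5 (Nat.pos_of_ne_zero hp)
  have e3 : (L.comap f).relIndex U ≤ M.relIndex U :=
    Nat.le_of_dvd (Nat.pos_of_ne_zero hr') (Subgroup.relIndex_dvd_of_le_left U h4)
  have e4 : (L.comap f).relIndex U = M.relIndex U := le_antisymm e3 e2
  have e5 := Subgroup.relIndex_mul_relIndex (M ⊓ U) (L.comap f ⊓ U) U
    (inf_le_inf_right _ h4) inf_le_right
  rw [Subgroup.inf_relIndex_right, Subgroup.inf_relIndex_right, e4] at e5
  have e6 : (M ⊓ U).relIndex (L.comap f ⊓ U) = 1 :=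
    Nat.eq_of_mul_eq_mul_right (Nat.pos_of_ne_zero hr') (by rw [e5, one_mul])
  rw [Subgroup.relIndex_eq_one] at e6
  exact (e6 ⟨hx', hx⟩).1

/-- almost all valuations of a nonzero element are trivial -/
theorem finite_val {E : Type} [Field E] [NumberField E] (x : Eˣ) :
    {v : HeightOneSpectrum (𝓞 E) | v.valuation E (x : E) ≠ 1}.Finite := by
  have h1 := HeightOneSpectrum.Support.finite (𝓞 E) (x : E)
  have h2 := HeightOneSpectrum.Support.finite (𝓞 E) ((x⁻¹ : Eˣ) : E)
  refine (h1.union h2).subset fun v hv => ?_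
  rcases lt_or_gt_of_ne hv with h | h
  · right
    change 1 < v.valuation E ((x⁻¹ : Eˣ) : E)
    rw [Units.val_inv_eq_inv_val, map_inv₀]
    have h0 : 0 < v.valuation E (x : E) :=
      zero_lt_iff.2 ((Valuation.ne_zero_iff _).2 (Units.ne_zero x))
    exact (one_lt_inv₀ h0).2 h
  · left
    exact h

end HNAux

open HNAux

/-- Module HN, **the Hasse norm theorem**. -/
theorem stHN (hEE : StEE) (hEG : BKGlob2.StEG) (hEX : StEX) (hFS : StFS) (hLB : BKGlob2.StLB)
    (hPB : BKGlob2.StPB) (h1 : BKGlob2.StNA1) (h3 : BKGlob2.StNA3) (h4 : BKGlob2.StNA4) :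
    StHN := by
  intro p hp E _ _ hE0 ζ hζ a b hb
  classical
  have : Fact p.Prime := ⟨hp⟩
  by_cases ha : IsPw p (a : E)
  · exact h1 p hp E ζ hζ a b ha
  obtain ⟨N, _, _, _, α, hK⟩ := hEX p hp E hE0 ζ hζ a ha
  have hSp : (Sp E p).Finite := by
    have := finite_Sp E p hp.ne_zero
    exact Set.toFinite _
  obtain ⟨S, hTS, hS1, hS2⟩ := hEG E N
    ((hSp.union ((finite_val a).union (finite_val b))).toFinset)
  have hpS : ∀ v : HeightOneSpectrum (𝓞 E), (p : 𝓞 E) ∈ v.asIdeal → v ∈ S := fun v hv =>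
    hTS ((Set.Finite.mem_toFinset _).2 (Or.inl hv))
  have haS : ∀ v ∉ S, v.valuation E (a : E) = 1 := fun v hv => by
    by_contra h
    exact hv (hTS ((Set.Finite.mem_toFinset _).2 (Or.inr (Or.inl h))))
  have hbS : ∀ v ∉ S, v.valuation E (b : E) = 1 := fun v hv => by
    by_contra h
    exact hv (hTS ((Set.Finite.mem_toFinset _).2 (Or.inr (Or.inr h))))
  obtain ⟨-, hF⟩ := hFS p E N ζ a α hK S hS1 hS2 hpS haS
  have hE := hEE p E N ζ a α hK S hS1 (fun v hv => Or.inr ⟨fun h => hv (hpS v h), 1, by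
    simpa using haS v hv⟩)
  have hN3 : Nm p E (a : E) = (nrm E N).range := h3 p hp E N (a : E) α ha hK.pow hK.top
  have hidx : ∀ v : S, (Nm p (kv v.1) ((loc v.1 a : (kv v.1)ˣ) : kv v.1)).index =
      if ¬ IsPw p ((loc v.1 a : (kv v.1)ˣ) : kv v.1) then p else 1 := by
    intro v
    obtain ⟨hfd, -⟩ := hPB E (chr v.1) (emb v.1)
    have hζ' : IsPrimitiveRoot (toC (emb v.1) ζ) p :=
      hζ.map_of_injective (toC (emb v.1)).injective
    by_cases h : IsPw p ((loc v.1 a : (kv v.1)ˣ) : kv v.1)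
    · rw [if_neg (not_not.2 h), Subgroup.index_eq_one, eq_top_iff]
      intro c _
      exact h1 p hp (kv v.1) _ hζ' (loc v.1 a) c h
    · rw [if_pos h]
      exact hLB p (chr v.1) (kv v.1) _ hζ' (loc v.1 a) h
  have hL : (Subgroup.pi Set.univ fun v : S =>
      Nm p (kv v.1) ((loc v.1 a : (kv v.1)ˣ) : kv v.1)).index =
      p ^ Nat.card {v : S // ¬ IsPw p ((loc v.1 a : (kv v.1)ˣ) : kv v.1)} := by
    rw [index_pi, Finset.prod_congr rfl (fun v _ => hidx v), Finset.prod_ite, Finset.prod_const,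
      Finset.prod_const_one, mul_one, Nat.card_eq_fintype_card, Fintype.card_subtype]
  have hM : ((Above N (S : Set (HeightOneSpectrum (𝓞 E)))).unit N).map (nrm E N) ≤
      (Subgroup.pi Set.univ fun v : S =>
        Nm p (kv v.1) ((loc v.1 a : (kv v.1)ˣ) : kv v.1)).comap (diag S) := by
    rintro _ ⟨n, -, rfl⟩
    rw [Subgroup.mem_comap, Subgroup.mem_pi]
    intro v _
    have hn : nrm E N n ∈ Nm p E (a : E) := by
      rw [hN3]
      exact ⟨n, rfl⟩
    exact h4 p hp E (kv v.1) (toC (emb v.1)) (a : E) _ hn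
  have hfin : b ∈ ((Above N (S : Set (HeightOneSpectrum (𝓞 E)))).unit N).map (nrm E N) := by
    refine count (diag S) ((S : Set (HeightOneSpectrum (𝓞 E))).unit E) _ _ p _ hp.ne_zero hL hF
      hE hM hbS ?_
    rw [Subgroup.mem_pi]
    intro v _
    exact hb v.1
  obtain ⟨n, -, hn⟩ := hfin
  rw [hN3, ← hn]
  exact ⟨n, rfl⟩

end BKR
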