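import Pool.Agent.Lib.MP_7c08ba_nt.R1.HSt
import Pool.Agent.Lib.MP_7c08ba_nt.Met.LCHT
import Pool.Agent.Lib.MP_7c08ba_nt.Met.LNT
import Pool.Agent.Lib.MP_7c08ba_nt.Met.LLST

set_option autoImplicit false

/-!
Module CHT2: the second cohomology of the local Galois groups of `ℚ_l` with coefficients `ℤ/2`,
`l ≠ 2` (copy of `Met/LCHT.lean`). In `exists_norm` one uses that `-1` is a sum of two squares in
`ℤ_l`.
-/

noncomputable section

namespace BKR.CHT2Aux

open BKOdd BKOdd.Chain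
open BKLoc2 (StNT)
open BKLoc2.CHTAux

variable {l : ℕ} [Fact l.Prime]

/-! ### sums of two squares -/

theorem norm_lt_one_iff (x : ℤ_[l]) : ‖x‖ < 1 ↔ PadicInt.toZMod x = 0 := by
  rw [PadicInt.norm_lt_one_iff_dvd, ← RingHom.mem_ker, PadicInt.ker_toZMod,
    PadicInt.maximalIdeal_eq_span_p, Ideal.mem_span_singleton]

theorem norm_eq_one_iff (x : ℤ_[l]) : ‖x‖ = 1 ↔ PadicInt.toZMod x ≠ 0 := by
  rw [Ne, ← norm_lt_one_iff, not_lt]
  exact ⟨fun h => h.ge, fun h => le_antisymm (PadicInt.norm_le_one x) h⟩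

/-- `-1` is a sum of two squares in `ℤ_l`, `l ≠ 2` -/
theorem exists_sum (hl : l ≠ 2) : ∃ X Y : ℤ_[l], X ^ 2 + Y ^ 2 = -1 := by
  have hp : l.Prime := Fact.out
  have h2 : (2 : ZMod l) ≠ 0 := by
    intro h
    have h3 : ((2 : ℕ) : ZMod l) = 0 := by exact_mod_cast h
    rw [ZMod.natCast_eq_zero_iff] at h3
    exact hl ((Nat.prime_dvd_prime_iff_eq hp Nat.prime_two).1 h3)
  have key : ∀ a b : ZMod l, a ≠ 0 → a ^ 2 + b ^ 2 = -1 →
      ∃ X Y : ℤ_[l], X ^ 2 + Y ^ 2 = -1 := by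
    intro a b ha hab
    obtain ⟨A, hA⟩ := ZMod.ringHom_surjective (PadicInt.toZMod (p := l)) a
    obtain ⟨B, hB⟩ := ZMod.ringHom_surjective (PadicInt.toZMod (p := l)) b
    have h4 : Polynomial.aeval A (Polynomial.X ^ 2 + Polynomial.C (B ^ 2 + 1) :
        Polynomial ℤ_[l]) = A ^ 2 + (B ^ 2 + 1) := by simp
    have h5 : Polynomial.aeval A (Polynomial.derivative
        (Polynomial.X ^ 2 + Polynomial.C (B ^ 2 + 1) : Polynomial ℤ_[l])) = 2 * A := by
      rw [Polynomial.derivative_add, Polynomial.derivative_C, Polynomial.derivative_X_pow]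
      simp
    have h6 : ‖A ^ 2 + (B ^ 2 + 1)‖ < 1 := by
      rw [norm_lt_one_iff, map_add, map_add, map_pow, map_pow, hA, hB, map_one, ← add_assoc, hab]
      ring
    have h7 : ‖2 * A‖ = 1 := by
      rw [norm_eq_one_iff, map_mul, hA, map_ofNat]
      exact mul_ne_zero h2 ha
    obtain ⟨z, hz, -⟩ := hensels_lemma (p := l)
      (F := (Polynomial.X ^ 2 + Polynomial.C (B ^ 2 + 1) : Polynomial ℤ_[l])) (a := A)
      (by rw [h4, h5, h7, one_pow]; exact h6)
    refine ⟨z, B, ?_⟩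
    have h8 : Polynomial.aeval z (Polynomial.X ^ 2 + Polynomial.C (B ^ 2 + 1) :
        Polynomial ℤ_[l]) = z ^ 2 + (B ^ 2 + 1) := by simp
    rw [h8] at hz
    linear_combination hz
  obtain ⟨a, b, hab⟩ := ZMod.sq_add_sq l (-1)
  by_cases ha : a = 0
  · have hb : b ≠ 0 := by
      rintro rfl
      rw [ha] at hab
      have h3 : (1 : ZMod l) = 0 := by linear_combination hab
      exact one_ne_zero h3
    obtain ⟨X, Y, h⟩ := key b a hb (by rw [add_comm, hab])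
    exact ⟨X, Y, h⟩
  · exact key a b ha hab

/-! ### norms which are not squares -/

section Count

variable {V : Type} [Group V] [TopologicalSpace V] [IsTopologicalGroup V] {e : V →* GQ l}

theorem prim2 : IsPrimitiveRoot (-1 : PadicAlgCl l) 2 :=
  IsPrimitiveRoot.neg_one 0 (by norm_num)

omit [TopologicalSpace V] [IsTopologicalGroup V] in
theorem fx_neg_one (e : V →* GQ l) : Fx e (-1 : PadicAlgCl l) := fun v => by
  rw [map_neg, map_one]

theorem exists_norm (h3 : StKum) (hl : l ≠ 2) (he : Topology.IsOpenEmbedding e)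
    {χ : V → ZMod 2} (hχ : χ ∈ CC.Z1 (1 : V →* ZMod 2)) (h0 : χ ≠ 0) (σ : V) (hσ : χ σ = 1) :
    ∃ Y : (PadicAlgCl l)ˣ, Y ∈ TT 2 e (mhom χ hχ).ker σ ∧
      ¬ ∃ b : PadicAlgCl l, Fx e b ∧ b ^ 2 = (Y : PadicAlgCl l) := by
  have hK := h3 ℚ_[l] (PadicAlgCl l) V e he 2 (-1) prim2 (fx_neg_one e)
  obtain ⟨b, hb0, -, hb⟩ := hK.2.1 χ hχ
  by_contra hcon
  push Not at hcon
  have hKb := hK.2.2.2.2 b χ hb
  obtain ⟨y, hy0, hyp, hy⟩ := hb
  have hyH : ∀ h ∈ (mhom χ hχ).ker, e h y = y := by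
    intro h hh
    rw [hy, (mem_mhom_ker χ hχ h).1 hh, ZMod.val_zero, pow_zero, one_mul]
  have hyσ : e σ y = -y := by
    rw [hy, hσ, ZMod.val_one, pow_one, neg_one_mul]
  -- the norm of `y`
  have hb1 : IsNm e 2 (mhom χ hχ).ker σ (-b) := by
    refine ⟨y, hy0, hyH, ?_⟩
    rw [Finset.prod_range_succ, Finset.prod_range_one, pow_zero, pow_one, map_one,
      AlgEquiv.one_apply, hyσ, ← hyp]
    ring
  obtain ⟨s, hs, hsb⟩ := hcon (Units.mk0 (-b) (neg_ne_zero.2 hb0)) hb1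
  rw [Units.val_mk0] at hsb
  have hs0 : s ≠ 0 := by
    rintro rfl
    rw [zero_pow two_ne_zero] at hsb
    exact hb0 (neg_eq_zero.1 hsb.symm)
  -- the norm of `X + Y i`
  obtain ⟨X, Y, hXY⟩ := exists_sum hl
  have hXY' : (algebraMap ℚ_[l] (PadicAlgCl l) (X : ℚ_[l])) ^ 2 +
      (algebraMap ℚ_[l] (PadicAlgCl l) (Y : ℚ_[l])) ^ 2 = -1 := by
    rw [← map_pow, ← map_pow, ← map_add]
    have h : ((X : ℚ_[l]) ^ 2 + (Y : ℚ_[l]) ^ 2) = -1 := by exact_mod_cast congrArg (fun x : ℤ_[l] => (x : ℚ_[l])) hXY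
    rw [h, map_neg, map_one]
  set X' := algebraMap ℚ_[l] (PadicAlgCl l) (X : ℚ_[l]) with hX'
  set Y' := algebraMap ℚ_[l] (PadicAlgCl l) (Y : ℚ_[l]) with hY'
  have hi : (y / s) ^ 2 = -1 := by
    rw [div_pow, hyp, hsb, div_neg, div_self hb0]
  have hnm : (X' + Y' * (y / s)) * (X' - Y' * (y / s)) = -1 := by
    have : (X' + Y' * (y / s)) * (X' - Y' * (y / s)) = X' ^ 2 - Y' ^ 2 * (y / s) ^ 2 := by ring
    rw [this, hi]
    linear_combination hXY'
  have hc0 : X' + Y' * (y / s) ≠ 0 := by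
    intro h
    rw [h, zero_mul] at hnm
    exact neg_ne_zero.2 one_ne_zero hnm.symm
  have hb2 : IsNm e 2 (mhom χ hχ).ker σ (-1) := by
    refine ⟨X' + Y' * (y / s), hc0, fun h hh => ?_, ?_⟩
    · rw [map_add, map_mul, map_div₀, hyH h hh, hs h, hX', hY', AlgEquiv.commutes,
        AlgEquiv.commutes]
    · rw [Finset.prod_range_succ, Finset.prod_range_one, pow_zero, pow_one, map_one,
        AlgEquiv.one_apply]
      have h1 : e σ (X' + Y' * (y / s)) = X' - Y' * (y / s) := by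
        rw [map_add, map_mul, map_div₀, hyσ, hs σ, hX', hY', AlgEquiv.commutes,
          AlgEquiv.commutes]
        ring
      rw [h1, hnm]
  obtain ⟨t, ht, htb⟩ := hcon (Units.mk0 (-1) (neg_ne_zero.2 one_ne_zero)) hb2
  rw [Units.val_mk0] at htb
  refine h0 (hKb.2 ⟨t * s, fun v => ?_, ?_⟩)
  · rw [map_mul, ht v, hs v]
  · rw [mul_pow, htb, hsb]
    ring

end Count

/-! ### the induction -/

section Claim

theorem claim (h1 : StTR.{0}) (h3 : StKum) (h4 : StL1) (h5 : StL3) (h6 : StNT)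
    (hl : l ≠ 2) (m : ℕ) :
    ∀ (V : Type) [Group V] [TopologicalSpace V] [IsTopologicalGroup V] (e : V →* GQ l),
    Topology.IsOpenEmbedding e → ∀ z ∈ CC.Z2 (1 : V →* ZMod 2), ∀ W : Subgroup V,
    W.Normal → IsOpen (W : Set V) → W.index = 2 ^ m →
    (fun a b : W => z a b) ∈ CC.B2 (1 : W →* ZMod 2) →
    z ∈ CC.B2 (1 : V →* ZMod 2) ∨ ∃ u ∈ CC.Z1 (1 : V →* ZMod 2),
      ∃ v ∈ CC.Z1 (1 : V →* ZMod 2), z - CC.cup u v ∈ CC.B2 (1 : V →* ZMod 2) := by
  have hp : Nat.Prime 2 := Nat.prime_two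
  induction m with
  | zero =>
    intro V _ _ _ e he z hz W _ _ hWi hWz
    rw [pow_zero, Subgroup.index_eq_one] at hWi
    exact Or.inl (b2_of_top hWi hWz)
  | succ m ih =>
    intro V _ _ _ e he z hz W hWn hWo hWi hWz
    have hζ : IsPrimitiveRoot (-1 : PadicAlgCl l) 2 := prim2
    have hFx : Fx e (-1 : PadicAlgCl l) := fx_neg_one e
    obtain ⟨χ, hχ, h0, hWχ⟩ := exists_char hWn hWo hWi
    obtain ⟨σ, hσ⟩ := exists_eq_one hχ h0
    set H := (mhom χ hχ).ker with hH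
    have hHo : IsOpen (H : Set V) := mhom_ker_open hχ
    have hHi : H.index = 2 := mhom_ker_index hχ h0
    have hfin : Finite (V ⧸ H) := by
      apply Nat.finite_of_card_ne_zero
      have h7 : Nat.card (V ⧸ H) = 2 := hHi
      rw [h7]
      exact hp.ne_zero
    have hWH : W ≤ H := fun g hg => (mem_mhom_ker χ hχ g).2 (hWχ g hg)
    have heH : Topology.IsOpenEmbedding (e.comp H.subtype) :=
      he.comp hHo.isOpenEmbedding_subtypeVal
    have hFxH : Fx (e.comp H.subtype) (-1 : PadicAlgCl l) := fun v => hFx v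
    have hWi' : (W.subgroupOf H).index = 2 ^ m := by
      have h7 := Subgroup.relIndex_mul_index hWH
      rw [hHi, hWi, pow_succ] at h7
      exact Nat.eq_of_mul_eq_mul_right hp.pos h7
    have hWo' : IsOpen ((W.subgroupOf H : Subgroup H) : Set H) :=
      hWo.preimage continuous_subtype_val
    rcases ih H (e.comp H.subtype) heH (fun a b : H => z a b) (z2_res hz H) (W.subgroupOf H)
      inferInstance hWo' hWi' (b2_subgroupOf hWz H) with hB | ⟨u, hu, v, hv, huv⟩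
    · obtain ⟨ψ, hψ, hψB⟩ := h4 ℚ_[l] (PadicAlgCl l) V e he 2 (-1) hζ hFx χ hχ h0 H
        (mem_mhom_ker χ hχ) z hz hB
      exact Or.inr ⟨ψ, hψ, χ, hχ, hψB⟩
    · by_cases hzB : (fun a b : H => z a b) ∈ CC.B2 (1 : H →* ZMod 2)
      · obtain ⟨ψ, hψ, hψB⟩ := h4 ℚ_[l] (PadicAlgCl l) V e he 2 (-1) hζ hFx χ hχ h0 H
          (mem_mhom_ker χ hχ) z hz hzB
        exact Or.inr ⟨ψ, hψ, χ, hχ, hψB⟩
      · exfalso
        have huvn : CC.cup u v ∉ CC.B2 (1 : H →* ZMod 2) := by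
          intro h
          apply hzB
          have h7 := (CC.B2 (1 : H →* ZMod 2)).add_mem huv h
          rwa [sub_add_cancel] at h7
        obtain ⟨Y, ⟨c, hc0, hcH, hcY⟩, hYn⟩ := exists_norm h3 hl he hχ h0 σ hσ
        obtain ⟨a, ha, hak⟩ := (h3 ℚ_[l] (PadicAlgCl l) H (e.comp H.subtype) heH 2 (-1) hζ hFxH).1
          c hc0 (fun h => hcH h h.2)
        have hcor := isKum_cor hζ hFx hχ h0 σ hσ hcH hak
        rw [hcY] at hcor
        obtain ⟨t1, t2, t3, t4, t5⟩ := h1 V H hHo hfin (ZMod 2) (1 : V →* ZMod 2)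
          continuous_const
        have hone : (1 : V →* ZMod 2).comp H.subtype = 1 := by ext; rfl
        rw [hone] at t1 t2 t3 t5
        have hcor1 : cor1 H (1 : V →* ZMod 2) a ∈ CC.Z1 (1 : V →* ZMod 2) := t1 a ha
        have hcor0 : cor1 H (1 : V →* ZMod 2) a ≠ 0 := by
          intro h
          exact hYn (((h3 ℚ_[l] (PadicAlgCl l) V e he 2 (-1) hζ hFx).2.2.2.2 _ _ hcor).1 h)
        obtain ⟨b, hb, hbn⟩ := nonDeg h3 h5 h6 hl he hζ hFx _ hcor1 hcor0
        have hbn' : CC.cup (cor1 H (1 : V →* ZMod 2) a) b ∉ CC.B2 (1 : V →* ZMod 2) :=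
          fun h => hbn (cup_comm_mem hcor1 hb h)
        have t5' := t5 a ha b hb
        obtain ⟨t, ht⟩ := line_cup h3 h5 h6 hl heH hζ hFxH hu hv ha (z1_res hb H) huvn
        -- `cup a b` is a multiple of `z` on `H`
        have h7 : CC.cup a (fun x : H => b x) - t • (fun a b : H => z a b) ∈
            CC.B2 (1 : H →* ZMod 2) := by
          have h8 := (CC.B2 (1 : H →* ZMod 2)).sub_mem ht
            ((CC.B2 (1 : H →* ZMod 2)).smul_mem t huv)
          convert h8 using 1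
          rw [smul_sub]
          abel
        have h9 := t3 _ h7
        rw [cor2_sub, cor2_smul] at h9
        have h10 := t4 z hz
        rw [hHi, CharP.cast_eq_zero, zero_smul, sub_zero] at h10
        have h11 := (CC.B2 (1 : V →* ZMod 2)).add_mem h9
          ((CC.B2 (1 : V →* ZMod 2)).smul_mem t h10)
        rw [sub_add_cancel] at h11
        apply hbn'
        have h12 := (CC.B2 (1 : V →* ZMod 2)).sub_mem h11 t5'
        rwa [sub_sub_cancel] at h12

end Claim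

theorem main (h6 : StNT) : StCHT2 := by
  intro l _ hl V _ _ _ e he
  have h3 : StKum := stKum stH90
  have h4 : StL1 := stL1 stH90 h3
  have h5 : StL3 := stL3 stH90 h3
  have hζ : IsPrimitiveRoot (-1 : PadicAlgCl l) 2 := prim2
  have hFx : Fx e (-1 : PadicAlgCl l) := fx_neg_one e
  refine ⟨?_, nonDeg h3 h5 h6 hl he hζ hFx⟩
  intro z hz z' hz' ⟨W, hWn, hWo, ⟨m, hm⟩, hWB⟩ ⟨W', hWn', hWo', ⟨m', hm'⟩, hWB'⟩ hzn
  rcases claim stTR h3 h4 h5 h6 hl m V e he z hz W hWn hWo hm hWB with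
    h | ⟨u, hu, v, hv, huv⟩
  · exact absurd h hzn
  rcases claim stTR h3 h4 h5 h6 hl m' V e he z' hz' W' hWn' hWo' hm' hWB' with
    h | ⟨u', hu', v', hv', huv'⟩
  · exact ⟨0, by rwa [zero_smul, sub_zero]⟩
  have huvn : CC.cup u v ∉ CC.B2 (1 : V →* ZMod 2) := by
    intro h
    apply hzn
    have h7 := (CC.B2 (1 : V →* ZMod 2)).add_mem huv h
    rwa [sub_add_cancel] at h7
  obtain ⟨a, ha⟩ := line_cup h3 h5 h6 hl he hζ hFx hu hv hu' hv' huvn
  refine ⟨a, ?_⟩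
  have h8 := (CC.B2 (1 : V →* ZMod 2)).sub_mem ((CC.B2 (1 : V →* ZMod 2)).add_mem huv' ha)
    ((CC.B2 (1 : V →* ZMod 2)).smul_mem a huv)
  convert h8 using 1
  rw [smul_sub]
  abel

end BKR.CHT2Aux

namespace BKR

/-- Module CHT2. -/
theorem stCHT2 : StCHT2 :=
  CHT2Aux.main (BKLoc2.stNT BKLoc2.stLsT)

end BKR
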