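import Pool.Agent.Lib.MP_7c08ba_nt.R1.HSt

set_option autoImplicit false

/-!
Module CVF: two-cocycles with coefficients `𝔽₂` are trivial at a place or not independently of the
embedding of the algebraic closure.
-/

noncomputable section

namespace BKR

open NumberField IsDedekindDomain BKGen BKGen.SUnits
open BKMet (GF GQ RS GS pb2)
open BKGlob2 (Cp fs sn dc)

namespace CVFAux

/-- embeddings which agree on `F` are conjugate -/
theorem exists_gal {F : Type} [Field F] {l : ℕ} [Fact l.Prime]
    (ι j : AlgebraicClosure F →+* PadicAlgCl l)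
    (h : ∀ a : F, j (algebraMap F (AlgebraicClosure F) a) =
      ι (algebraMap F (AlgebraicClosure F) a)) :
    ∃ g : GF F, ∀ z, j z = ι (g z) := by
  let _ : Algebra F (PadicAlgCl l) := (ι.comp (algebraMap F (AlgebraicClosure F))).toAlgebra
  let _ : Algebra (AlgebraicClosure F) (PadicAlgCl l) := ι.toAlgebra
  have hst : IsScalarTower F (AlgebraicClosure F) (PadicAlgCl l) :=
    IsScalarTower.of_algebraMap_eq fun _ => rfl
  let j' : AlgebraicClosure F →ₐ[F] PadicAlgCl l := { j with commutes' := h }
  refine ⟨j'.restrictNormal' (AlgebraicClosure F), fun z => ?_⟩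
  exact (AlgHom.restrictNormal_commutes j' (AlgebraicClosure F) z).symm

/-- conjugate homomorphisms -/
theorem conj_mem {G D D' : Type} [Group G] [TopologicalSpace G] [IsTopologicalGroup G] [Group D]
    [TopologicalSpace D] [Group D'] [TopologicalSpace D'] {f : D →* G} {f' : D' →* G}
    {s : D' →* D} (hf' : Continuous f') (hs : Continuous s) {g : G}
    (hg : ∀ d, f' d = g⁻¹ * f (s d) * g) {z : G → G → ZMod 2}
    (hz : z ∈ CC.Z2 (1 : G →* ZMod 2)) (h : pb2 f z ∈ CC.B2 (1 : D →* ZMod 2)) :
    pb2 f' z ∈ CC.B2 (1 : D' →* ZMod 2) := by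
  obtain ⟨β, hβ, hβz⟩ := h
  obtain ⟨hc, hzz⟩ := hz
  have hfs : ∀ d, f (s d) = g * f' d * g⁻¹ := by
    intro d
    rw [hg]
    group
  have hcfs : Continuous fun d => f (s d) := by
    simp only [hfs]
    exact (continuous_const.mul hf').mul continuous_const
  refine ⟨fun d => β (s d) - z (f (s d)) g + z g (f' d), ?_, fun a b => ?_⟩
  · have h1 : Continuous fun d => z (f (s d)) g := hc.comp (hcfs.prodMk continuous_const)
    have h2 : Continuous fun d => z g (f' d) := hc.comp (continuous_const.prodMk hf')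
    exact ((hβ.comp hs).sub h1).add h2
  · have h1 := hβz (s a) (s b)
    have h2 := hzz g (f' a) (f' b)
    have h3 := hzz (f (s a)) g (f' b)
    have h4 := hzz (f (s a)) (f (s b)) g
    have e1 : g * f' a = f (s a) * g := by
      rw [hg]
      group
    have e2 : g * f' b = f (s b) * g := by
      rw [hg]
      group
    rw [e1] at h2
    rw [e2] at h3
    rw [MonoidHom.one_apply, one_mul] at h1 h2 h3 h4
    change z (f' a) (f' b) = (β (s a) - z (f (s a)) g + z g (f' a)) +
      (1 : D' →* ZMod 2) a * (β (s b) - z (f (s b)) g + z g (f' b)) -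
      (β (s (a * b)) - z (f (s (a * b))) g + z g (f' (a * b)))
    rw [MonoidHom.one_apply, one_mul, map_mul, map_mul, map_mul]
    change z (f (s a)) (f (s b)) = β (s a) + β (s b) - β (s a * s b) at h1
    linear_combination h1 + h2 - h3 + h4

end CVFAux

theorem stCVF (hPA : BKGlob2.StPA) : StCVF := by
  intro F _ _ l _ j j' hj
  obtain ⟨t, ht⟩ := hPA F l _ _ hj
  obtain ⟨g, hg⟩ := CVFAux.exists_gal (((t : PadicAlgCl l →ₐ[ℚ_[l]] PadicAlgCl l) :
    PadicAlgCl l →+* PadicAlgCl l).comp j) j' ht
  replace hg : ∀ x, j' x = t (j (g x)) := hg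
  let s : Cp (MonoidHom.id (GF F)) j' →* Cp (MonoidHom.id (GF F)) j :=
    { toFun := fun d => ⟨(g * d.1.1 * g⁻¹, t⁻¹ * d.1.2 * t), by
        intro x
        change j (g (d.1.1 (g⁻¹ x))) = t⁻¹ (d.1.2 (t (j x)))
        have h1 := d.2 (g⁻¹ x)
        change j' (d.1.1 (g⁻¹ x)) = d.1.2 (j' (g⁻¹ x)) at h1
        have h2 : g (g⁻¹ x) = x := by
          rw [← AlgEquiv.mul_apply, mul_inv_cancel, AlgEquiv.one_apply]
        rw [hg, hg, h2] at h1
        rw [← h1, ← AlgEquiv.mul_apply t⁻¹, inv_mul_cancel, AlgEquiv.one_apply]⟩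
      map_one' := by
        apply Subtype.ext
        apply Prod.ext
        · change g * 1 * g⁻¹ = 1
          group
        · change t⁻¹ * 1 * t = 1
          group
      map_mul' := by
        intro a b
        apply Subtype.ext
        apply Prod.ext
        · change g * (a.1.1 * b.1.1) * g⁻¹ = (g * a.1.1 * g⁻¹) * (g * b.1.1 * g⁻¹)
          group
        · change t⁻¹ * (a.1.2 * b.1.2) * t = (t⁻¹ * a.1.2 * t) * (t⁻¹ * b.1.2 * t)
          group }
  have hs : Continuous s := by
    refine Continuous.subtype_mk (Continuous.prodMk ?_ ?_) _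
    · exact (continuous_const.mul (continuous_fst.comp continuous_subtype_val)).mul
        continuous_const
    · exact (continuous_const.mul (continuous_snd.comp continuous_subtype_val)).mul
        continuous_const
  have hfc : Continuous (fs (MonoidHom.id (GF F)) j') := continuous_fst.comp continuous_subtype_val
  have hgs : ∀ d, fs (MonoidHom.id (GF F)) j' d = g⁻¹ * fs (MonoidHom.id (GF F)) j (s d) * g := by
    intro d
    change d.1.1 = g⁻¹ * (g * d.1.1 * g⁻¹) * g
    group
  refine ⟨⟨g, t, hg⟩, fun z hz h => CVFAux.conj_mem hfc hs hgs hz h, fun P z hz h => ?_⟩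
  refine CVFAux.conj_mem (s := s) (g := QuotientGroup.mk' (RS F P) g) (f := dc P j)
    (f' := dc P j') ?_ hs ?_ hz h
  · exact QuotientGroup.continuous_mk.comp hfc
  · intro d
    change QuotientGroup.mk' (RS F P) (fs (MonoidHom.id (GF F)) j' d) =
      (QuotientGroup.mk' (RS F P) g)⁻¹ *
        QuotientGroup.mk' (RS F P) (fs (MonoidHom.id (GF F)) j (s d)) * QuotientGroup.mk' (RS F P) g
    rw [hgs, map_mul, map_mul, map_inv]

end BKR
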