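import Pool.Agent.Lib.MP_7c08ba_nt.R1.HSt
import Pool.Agent.Lib.MP_7c08ba_nt.Met.HCE
import Pool.Agent.Lib.MP_7c08ba_nt.Met.HOQ

set_option autoImplicit false

/-!
Project R1, module H1N: the number of homomorphisms from `GS F P` to `ℤ/2`. By Kummer theory they
correspond to the elements of `F` with even valuations outside `P`, modulo squares; by `OPrin` every
such element is an `S`-unit times a square, so that the number is the index of the group of squares
in the group of `S`-units.
-/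

noncomputable section

namespace BKR

open NumberField IsDedekindDomain BKGen BKGen.SUnits
open BKOdd (Fx IsKum)
open BKMet (GF GQ RS GS)
open BKGlob2 (SP UPw)

namespace H1NAux

section Units

variable {E : Type} [Field E] [NumberField E]

/-- if the valuations of `a` outside `S` are even then `a` is a unit outside `S` times a square -/
theorem exists_root {S : Set (HeightOneSpectrum (𝓞 E))} (hP : OPrin S)
    (T : Finset (HeightOneSpectrum (𝓞 E))) : ∀ a : Eˣ,
    (∀ v ∉ S, v ∉ T → v.valuation E (a : E) = 1) → (∀ v ∉ S, UPw 2 v a) →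
    ∃ c : Eˣ, ∀ v ∉ S, v.valuation E ((a * (c ^ 2)⁻¹ : Eˣ) : E) = 1 := by
  classical
  induction T using Finset.induction_on with
  | empty =>
    intro a ha _
    refine ⟨1, fun v hv => ?_⟩
    rw [one_pow, inv_one, mul_one]
    exact ha v hv (Finset.notMem_empty v)
  | insert v₀ T _ ih =>
    intro a ha ha'
    by_cases h0 : v₀ ∈ S
    · refine ih a (fun v hv hvT => ha v hv ?_) ha'
      rw [Finset.mem_insert, not_or]
      exact ⟨fun h => hv (h ▸ h0), hvT⟩
    · obtain ⟨π, ⟨n, hπ1⟩, hπ2⟩ := hP v₀ h0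
      obtain ⟨b, hb⟩ := ha' v₀ h0
      have hb0 : v₀.valuation E (b : E) ≠ 0 := (Valuation.ne_zero_iff _).2 b.ne_zero
      obtain ⟨j, hj⟩ : ∃ j : ℤ, v₀.valuation E (b : E) = WithZero.exp j :=
        ⟨_, (WithZero.exp_log hb0).symm⟩
      obtain ⟨d, hd⟩ : ∃ d : Eˣ, d = a ^ n * π ^ j := ⟨_, rfl⟩
      have hval : ∀ v : HeightOneSpectrum (𝓞 E),
          v.valuation E ((a * d ^ 2 : Eˣ) : E) =
            v.valuation E (a : E) *
              (v.valuation E (a : E) ^ n * v.valuation E (π : E) ^ j) ^ 2 := by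
        intro v
        rw [hd, Units.val_mul, map_mul, Units.val_pow_eq_pow_val, map_pow, Units.val_mul, map_mul,
          Units.val_pow_eq_pow_val, map_pow, Units.val_zpow_eq_zpow_val, map_zpow₀]
      have h00 : v₀.valuation E ((a * d ^ 2 : Eˣ) : E) = 1 := by
        have e1 : v₀.valuation E (a : E) = WithZero.exp j ^ 2 := by
          have e2 : a = (a * (b ^ 2)⁻¹) * b ^ 2 := by rw [inv_mul_cancel_right]
          have e3 : (a : E) = ((a * (b ^ 2)⁻¹ : Eˣ) : E) * (b : E) ^ 2 := by
            conv_lhs => rw [e2]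
            rw [Units.val_mul, Units.val_pow_eq_pow_val]
          rw [e3, map_mul, hb, one_mul, map_pow, hj]
        rw [hval, e1, hπ1, ← WithZero.exp_zsmul, ← WithZero.exp_nsmul, ← WithZero.exp_nsmul,
          ← WithZero.exp_add, ← WithZero.exp_nsmul, ← WithZero.exp_add, ← WithZero.exp_zero]
        congr 1
        simp only [nsmul_eq_mul, zsmul_eq_mul]
        push_cast
        ring
      have h01 : ∀ v ∉ S, v ≠ v₀ → v.valuation E (a : E) = 1 →
          v.valuation E ((a * d ^ 2 : Eˣ) : E) = 1 := by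
        intro v hv hvv h1
        rw [hval, hπ2 v hv hvv, h1, one_zpow, one_pow, one_mul, one_mul, one_pow]
      obtain ⟨c, hc⟩ := ih (a * d ^ 2) (fun v hv hvT => by
        rcases eq_or_ne v v₀ with rfl | hne
        · exact h00
        · exact h01 v hv hne (ha v hv (by simp [hne, hvT]))) (fun v hv => by
        obtain ⟨b', hb'⟩ := ha' v hv
        refine ⟨b' * d, ?_⟩
        have e4 : a * d ^ 2 * ((b' * d) ^ 2)⁻¹ = a * (b' ^ 2)⁻¹ := by
          rw [mul_pow, mul_inv, mul_assoc a, mul_comm ((b' ^ 2)⁻¹), ← mul_assoc (d ^ 2),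
            mul_inv_cancel, one_mul]
        rw [e4]
        exact hb')
      refine ⟨c * d⁻¹, fun v hv => ?_⟩
      have e5 : a * ((c * d⁻¹) ^ 2)⁻¹ = a * d ^ 2 * (c ^ 2)⁻¹ := by
        rw [mul_pow, mul_inv, inv_pow, inv_inv, mul_assoc, mul_comm ((c ^ 2)⁻¹)]
      rw [e5]
      exact hc v hv

theorem exists_unit {P : Set ℕ} (hP : OPrin (SP E P)) (a : Eˣ)
    (h : ∀ (l : ℕ) [Fact l.Prime], l ∉ P → ∀ j : E →+* PadicAlgCl l, ∃ b : E,
      ‖j (a : E)‖ = ‖j b‖ ^ 2) :
    ∃ c : Eˣ, ∀ v ∉ SP E P, v.valuation E ((a * (c ^ 2)⁻¹ : Eˣ) : E) = 1 := by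
  refine exists_root hP (BKGlob2.CEAux.finite_bad a).toFinset a (fun v _ hv => by
    by_contra h1
    exact hv ((BKGlob2.CEAux.finite_bad a).mem_toFinset.2 h1)) (fun v hv => ?_)
  obtain ⟨l, _, j, rfl⟩ := BKGlob2.exists_pl v
  have hl : l ∉ P := fun hl => hv ⟨l, hl, l_mem_plI j⟩
  obtain ⟨b, hb⟩ := h l hl j
  have hb0 : b ≠ 0 := by
    rintro rfl
    rw [map_zero, norm_zero, zero_pow two_ne_zero, norm_eq_zero, map_eq_zero] at hb
    exact a.ne_zero hb
  refine ⟨Units.mk0 b hb0, ((BKGlob2.stPB E l j).2.1 _).1 ?_⟩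
  rw [Units.val_mul, Units.val_inv_eq_inv_val, Units.val_pow_eq_pow_val, Units.val_mk0,
    map_mul, map_inv₀, map_pow, norm_mul, norm_inv, norm_pow, hb]
  refine mul_inv_cancel₀ (pow_ne_zero _ ?_)
  rw [norm_ne_zero_iff, Ne, map_eq_zero]
  exact hb0

end Units

/-! ### inflation -/

section Inf

variable {Γ : Type*} [Group Γ] [TopologicalSpace Γ] [IsTopologicalGroup Γ]

/-- the homomorphisms which vanish on `R` -/
def ZR (R : Subgroup Γ) : AddSubgroup (Γ → ZMod 2) where
  carrier := {x | x ∈ CC.Z1 (1 : Γ →* ZMod 2) ∧ ∀ r ∈ R, x r = 0}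
  add_mem' := by
    rintro x y ⟨h1, h2⟩ ⟨h3, h4⟩
    refine ⟨add_mem h1 h3, fun r hr => ?_⟩
    rw [Pi.add_apply, h2 r hr, h4 r hr, add_zero]
  zero_mem' := ⟨zero_mem _, fun _ _ => rfl⟩
  neg_mem' := by
    rintro x ⟨h1, h2⟩
    refine ⟨neg_mem h1, fun r hr => ?_⟩
    rw [Pi.neg_apply, h2 r hr, neg_zero]

omit [IsTopologicalGroup Γ] in
theorem hom {x : Γ → ZMod 2} (hx : x ∈ CC.Z1 (1 : Γ →* ZMod 2)) (g h : Γ) :
    x (g * h) = x g + x h := by
  have h1 := hx.2 g h
  rwa [MonoidHom.one_apply, one_mul] at h1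

omit [IsTopologicalGroup Γ] in
theorem hom_one {x : Γ → ZMod 2} (hx : x ∈ CC.Z1 (1 : Γ →* ZMod 2)) : x 1 = 0 := by
  have h1 := hom hx 1 1
  rw [mul_one] at h1
  exact left_eq_add.1 h1

theorem card_inf (R : Subgroup Γ) [R.Normal] :
    Nat.card (CC.Z1 (1 : Γ ⧸ R →* ZMod 2)) = Nat.card (ZR R) := by
  let φ : CC.Z1 (1 : Γ ⧸ R →* ZMod 2) → ZR R := fun f => ⟨fun g => f.1 (QuotientGroup.mk g), by
    obtain ⟨hf1, -⟩ := f.2
    refine ⟨⟨hf1.comp QuotientGroup.continuous_mk, fun g h => ?_⟩, fun r hr => ?_⟩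
    · rw [MonoidHom.one_apply, one_mul]
      exact hom f.2 (QuotientGroup.mk g) (QuotientGroup.mk h)
    · have h1 : (QuotientGroup.mk r : Γ ⧸ R) = 1 := (QuotientGroup.eq_one_iff r).2 hr
      change f.1 (QuotientGroup.mk r) = 0
      rw [h1]
      exact hom_one f.2⟩
  refine Nat.card_eq_of_bijective φ ⟨fun f f' h => ?_, fun x => ?_⟩
  · apply Subtype.ext
    funext y
    obtain ⟨g, rfl⟩ := QuotientGroup.mk_surjective y
    exact congrFun (congrArg Subtype.val h) g
  · obtain ⟨hx, hxR⟩ := x.2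
    have hR : ∀ g, ∀ r ∈ R, x.1 (g * r) = x.1 g := by
      intro g r hr
      rw [hom hx, hxR r hr, add_zero]
    have hout : ∀ g : Γ, x.1 (Quotient.out (QuotientGroup.mk g : Γ ⧸ R)) = x.1 g := by
      intro g
      have h1 : (QuotientGroup.mk g : Γ ⧸ R) =
          QuotientGroup.mk (Quotient.out (QuotientGroup.mk g : Γ ⧸ R)) :=
        (QuotientGroup.out_eq' _).symm
      have h2 := QuotientGroup.eq.1 h1
      have h3 := hR g _ h2
      rw [mul_inv_cancel_left] at h3
      exact h3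
    refine ⟨⟨fun y => x.1 (Quotient.out y), ?_, ?_⟩, ?_⟩
    · refine (QuotientGroup.isOpenQuotientMap_mk (N := R)).isQuotientMap.continuous_iff.2 ?_
      have h1 : (fun y : Γ ⧸ R => x.1 (Quotient.out y)) ∘ (QuotientGroup.mk : Γ → Γ ⧸ R) = x.1 :=
        funext hout
      rw [h1]
      exact hx.1
    · intro g h
      obtain ⟨g, rfl⟩ := QuotientGroup.mk_surjective g
      obtain ⟨h, rfl⟩ := QuotientGroup.mk_surjective h
      change x.1 (Quotient.out (QuotientGroup.mk (g * h) : Γ ⧸ R)) =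
        x.1 (Quotient.out (QuotientGroup.mk g : Γ ⧸ R)) +
          1 * (x.1 (Quotient.out (QuotientGroup.mk h : Γ ⧸ R)))
      rw [hout, hout, hout, one_mul]
      exact hom hx g h
    · apply Subtype.ext
      funext g
      exact hout g

end Inf

section Field

variable {F : Type} [Field F]

theorem exists_lift {l : ℕ} [Fact l.Prime] (j : F →+* PadicAlgCl l) :
    ∃ J : AlgebraicClosure F →+* PadicAlgCl l, J.comp (algebraMap F (AlgebraicClosure F)) = j := by
  let _ : Algebra F (PadicAlgCl l) := j.toAlgebra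
  let φ : AlgebraicClosure F →ₐ[F] PadicAlgCl l := IsAlgClosed.lift
  exact ⟨φ.toRingHom, RingHom.ext fun x => φ.commutes x⟩

/-- a homomorphism which vanishes on the inertia groups vanishes on `RS` -/
theorem vanish {P : Set ℕ} {x : GF F → ZMod 2} (hx : x ∈ CC.Z1 (1 : GF F →* ZMod 2))
    (h : ∀ g ∈ BKMet.InertAway F P, x g = 0) : ∀ r ∈ RS F P, x r = 0 := by
  have hinv : ∀ g, x g⁻¹ = - x g := by
    intro g
    have h1 := hom hx g g⁻¹
    rw [mul_inv_cancel, hom_one hx] at h1
    exact (neg_eq_of_add_eq_zero_right h1.symm).symm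
  let N : Subgroup (GF F) :=
    { carrier := {g | x g = 0}
      mul_mem' := by
        rintro g h h1 h2
        change x (g * h) = 0
        rw [hom hx, show x g = 0 from h1, show x h = 0 from h2, add_zero]
      one_mem' := hom_one hx
      inv_mem' := by
        rintro g h1
        change x g⁻¹ = 0
        rw [hinv, show x g = 0 from h1, neg_zero] }
  have hN : N.Normal := by
    constructor
    rintro g h1 t
    change x (t * g * t⁻¹) = 0
    rw [hom hx, hom hx, show x g = 0 from h1, hinv, add_zero, add_neg_cancel]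
  have hNc : IsClosed (N : Set (GF F)) := by
    have h1 : (N : Set (GF F)) = x ⁻¹' {0} := rfl
    rw [h1]
    exact isClosed_singleton.preimage hx.1
  have hle : RS F P ≤ N := by
    refine Subgroup.topologicalClosure_minimal _ ?_ hNc
    exact Subgroup.normalClosure_le_normal h
  exact fun r hr => hle hr

end Field

end H1NAux

open H1NAux in
/-- Module H1N. -/
theorem stH1N (h1 : StSB) : StH1N := by
  intro F _ _ hF hreal P hPf hPp h2P hPrin
  have hfin := BKGlob2.OQAux.finite_SP F P hPf hPp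
  have hζF : IsPrimitiveRoot (-1 : F) 2 := IsPrimitiveRoot.neg_one 0 (by norm_num)
  have hsb := (h1 2 Nat.prime_two F hreal (-1) hζF hfin.toFinset).2.2.1
  rw [hfin.coe_toFinset, hF, ← Set.ncard_eq_toFinset_card _ hfin, ← Nat.card_coe_set_eq] at hsb
  -- Kummer theory
  have hch : CharZero (AlgebraicClosure F) := charZero_of_injective_algebraMap
    (algebraMap F (AlgebraicClosure F)).injective
  have hζ : IsPrimitiveRoot (-1 : AlgebraicClosure F) 2 := IsPrimitiveRoot.neg_one 0 (by norm_num)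
  obtain ⟨hK1, hK2, hK3, hK4, hK5⟩ := BKOdd.stKum BKOdd.stH90 F (AlgebraicClosure F) (GF F)
    (MonoidHom.id (GF F)) Topology.IsOpenEmbedding.id 2 (-1) hζ
    (fun v => by rw [map_neg, map_one])
  have hfx : ∀ a : AlgebraicClosure F, Fx (MonoidHom.id (GF F)) a ↔
      ∃ b : F, algebraMap F (AlgebraicClosure F) b = a := by
    intro a
    constructor
    · intro h
      exact InfiniteGalois.mem_range_algebraMap_iff_fixed a |>.2 h
    · rintro ⟨b, rfl⟩ v
      exact v.commutes b
  have hex : ∀ u : (SP F P).unit F, ∃ κ ∈ CC.Z1 (1 : GF F →* ZMod 2),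
      IsKum (MonoidHom.id (GF F)) (-1) (algebraMap F (AlgebraicClosure F) ((u : Fˣ) : F)) κ :=
    fun u => hK1 _ (by
      rw [Ne, map_eq_zero]
      exact Units.ne_zero _) ((hfx _).2 ⟨_, rfl⟩)
  choose κ hκ1 hκ2 using hex
  have hκ3 : ∀ u, ∀ r ∈ RS F P, κ u r = 0 := by
    intro u
    refine vanish (hκ1 u) ?_
    rintro g ⟨l, _, j, hl, hg⟩
    have hl2 : l ≠ 2 := by
      rintro rfl
      exact hl h2P
    obtain ⟨y, hy0, hyα, hyv⟩ := hκ2 u
    refine BKGlob2.CEAux.kappa_zero hl2 hζ j hg (y := y) ?_ (hyv g)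
    rw [hyα]
    have h3 := ((BKGlob2.stPB F l (j.comp (algebraMap F (AlgebraicClosure F)))).2.1 (u : Fˣ)).2
      (u.2 _ (BKGlob2.CEAux.notMem_SP hPp hl _))
    exact h3
  let φ : (SP F P).unit F →* Multiplicative (ZR (RS F P)) :=
    { toFun := fun u => Multiplicative.ofAdd ⟨κ u, hκ1 u, hκ3 u⟩
      map_one' := by
        apply Multiplicative.toAdd.injective
        apply Subtype.ext
        change κ 1 = 0
        refine (hK5 _ _ (hκ2 1)).2 ⟨1, ?_, ?_⟩
        · intro v
          exact map_one _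
        · rw [one_pow]
          exact (map_one _).symm
      map_mul' := fun u v => by
        apply Multiplicative.toAdd.injective
        apply Subtype.ext
        change κ (u * v) = κ u + κ v
        refine hK4 _ _ _ (hκ2 (u * v)) ?_
        have h3 := hK3 _ _ _ _ (hκ2 u) (hκ2 v)
        rw [← map_mul] at h3
        exact h3 }
  have hφ : ∀ u, (Multiplicative.toAdd (φ u)).1 = κ u := fun u => rfl
  have hker : φ.ker = (powMonoidHom 2 : (SP F P).unit F →* (SP F P).unit F).range := by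
    ext u
    rw [MonoidHom.mem_ker, MonoidHom.mem_range]
    have h3 : φ u = 1 ↔ κ u = 0 := by
      constructor
      · intro h
        rw [← hφ, h]
        rfl
      · intro h
        apply Multiplicative.toAdd.injective
        apply Subtype.ext
        exact h
    rw [h3, hK5 _ _ (hκ2 u)]
    constructor
    · rintro ⟨b, hb, hbu⟩
      obtain ⟨c, rfl⟩ := (hfx b).1 hb
      rw [← map_pow] at hbu
      have hcu : c ^ 2 = ((u : Fˣ) : F) := (algebraMap F (AlgebraicClosure F)).injective hbu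
      have hc0 : c ≠ 0 := by
        rintro rfl
        rw [zero_pow two_ne_zero] at hcu
        exact Units.ne_zero _ hcu.symm
      refine ⟨⟨Units.mk0 c hc0, fun v hv => ?_⟩, ?_⟩
      · have h4 : v.valuation F ((u : Fˣ) : F) = 1 := u.2 v hv
        rw [← hcu, map_pow] at h4
        exact (pow_eq_one_iff_of_nonneg zero_le two_ne_zero).1 h4
      · apply Subtype.ext
        apply Units.ext
        exact hcu
    · rintro ⟨w, rfl⟩
      exact ⟨algebraMap F (AlgebraicClosure F) ((w : Fˣ) : F), (hfx _).2 ⟨_, rfl⟩,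
        (map_pow _ _ _).symm⟩
  have hsurj : Function.Surjective φ := by
    intro z
    obtain ⟨hz1, hz2⟩ := (Multiplicative.toAdd z).2
    set x : GF F → ZMod 2 := (Multiplicative.toAdd z).1 with hx
    obtain ⟨a, ha0, hafx, hKa⟩ := hK2 x hz1
    obtain ⟨b, rfl⟩ := (hfx a).1 hafx
    have hb0 : b ≠ 0 := by
      rintro rfl
      exact ha0 (map_zero _)
    obtain ⟨y, hy0, hya, hyv⟩ := hKa
    obtain ⟨c, hc⟩ := exists_unit hPrin (Units.mk0 b hb0) (by
      intro l _ hl j'
      obtain ⟨j, rfl⟩ := exists_lift j'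
      have h3 : ∀ σ ∈ Inert F (AlgebraicClosure F) j, σ y = y := by
        intro σ hσ
        have hσR : (σ : GF F) ∈ RS F P := by
          refine Subgroup.le_topologicalClosure _ (Subgroup.subset_normalClosure ?_)
          exact ⟨l, inferInstance, j, hl, hσ⟩
        have h8 := hyv σ
        rw [hz2 σ hσR, ZMod.val_zero, pow_zero, one_mul] at h8
        exact h8
      obtain ⟨b', hb'⟩ := norm_of_fixed_inert j y h3
      refine ⟨b', ?_⟩
      change ‖j (algebraMap F (AlgebraicClosure F) b)‖ =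
        ‖j (algebraMap F (AlgebraicClosure F) b')‖ ^ 2
      rw [← hb', ← norm_pow, ← map_pow, hya])
    refine ⟨⟨Units.mk0 b hb0 * (c ^ 2)⁻¹, hc⟩, ?_⟩
    apply Multiplicative.toAdd.injective
    apply Subtype.ext
    rw [hφ]
    refine hK4 _ _ _ (hκ2 _) ⟨y * algebraMap F (AlgebraicClosure F) ((c⁻¹ : Fˣ) : F), ?_, ?_, ?_⟩
    · refine mul_ne_zero hy0 ?_
      rw [Ne, map_eq_zero]
      exact Units.ne_zero _
    · change (y * algebraMap F (AlgebraicClosure F) ((c⁻¹ : Fˣ) : F)) ^ 2 =
        algebraMap F (AlgebraicClosure F) ((Units.mk0 b hb0 * (c ^ 2)⁻¹ : Fˣ) : F)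
      rw [mul_pow, hya, ← map_pow, ← map_mul, ← inv_pow]
      rfl
    · intro v
      have h4 := hyv v
      rw [map_mul, h4, mul_assoc]
      congr 2
      exact v.commutes _
  rw [card_inf, ← Nat.card_congr (Multiplicative.toAdd : Multiplicative (ZR (RS F P)) ≃ _)]
  have h5 := Subgroup.index_ker φ
  rw [hker, hsb, MonoidHom.range_eq_top.2 hsurj, Subgroup.card_top] at h5
  rw [← h5, add_comm]

end BKR
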