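import Pool.Agent.Lib.MP_7c08ba_nt.R1.HSt
import Pool.Agent.Lib.MP_7c08ba_nt.Met.HTW
import Pool.Agent.Lib.MP_7c08ba_nt.Met.HRK
import Pool.Agent.Lib.MP_7c08ba_nt.Gen.GenusBridge

set_option autoImplicit false

/-!
Module H2N: the number of classes in `H²(GS F P, 𝔽₂)`: there is one class at most for every place
above `P` but one of the two places above `2`.
-/

noncomputable section

namespace BKR

open NumberField IsDedekindDomain BKGen BKGen.SUnits
open BKMet (GF GQ RS GS pb1 pb2)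
open BKGlob2 (Cp fs sn dc SP)

namespace H2NAux

/-- the pullback of two-cochains, as a homomorphism -/
def pbH {D G : Type} (f : D → G) : (G → G → ZMod 2) →+ (D → D → ZMod 2) where
  toFun := pb2 f
  map_zero' := rfl
  map_add' _ _ := rfl

theorem pbH_apply {D G : Type} (f : D → G) (z : G → G → ZMod 2) : pbH f z = pb2 f z := rfl

theorem pb2_mem_Z2 {D G : Type} [Group D] [TopologicalSpace D] [Group G] [TopologicalSpace G]
    (f : D →* G) (hf : Continuous f) {z : G → G → ZMod 2} (hz : z ∈ CC.Z2 (1 : G →* ZMod 2)) :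
    pb2 f z ∈ CC.Z2 (1 : D →* ZMod 2) := by
  refine ⟨hz.1.comp (by fun_prop : Continuous fun x : D × D => (f x.1, f x.2)),
    fun g h k => ?_⟩
  have h1 := hz.2 (f g) (f h) (f k)
  change (1 : D →* ZMod 2) g * z (f h) (f k) + z (f g) (f (h * k)) =
    z (f (g * h)) (f k) + z (f g) (f h)
  rw [map_mul, map_mul]
  exact h1

/-- a subgroup of index at most two -/
theorem relIndex_le_two {A : Type*} [AddCommGroup A] (N K : AddSubgroup A)
    (h : ∀ z ∈ K, ∀ z' ∈ K, z ∉ N → z' ∈ N ∨ z' - z ∈ N) :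
    N.relIndex K ≠ 0 ∧ N.relIndex K ≤ 2 := by
  by_cases hK : K ≤ N
  · rw [AddSubgroup.relIndex_eq_one.2 hK]
    exact ⟨one_ne_zero, one_le_two⟩
  · obtain ⟨z, hzK, hzN⟩ := SetLike.not_le_iff_exists.1 hK
    have h2 : N.relIndex K = 2 := by
      rw [AddSubgroup.relIndex_eq_two_iff]
      refine ⟨-z, K.neg_mem hzK, fun b hb => ?_⟩
      rcases h z hzK b hb hzN with h1 | h1
      · refine Or.inr ⟨h1, fun h2 => hzN ?_⟩
        have h3 := N.sub_mem h1 h2
        have h4 : b - (b + -z) = z := by abel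
        rwa [h4] at h3
      · have h5 : b + -z ∈ N := by rwa [← sub_eq_add_neg]
        refine Or.inl ⟨h5, fun h2 => hzN ?_⟩
        have h3 := N.sub_mem h2 h5
        have h4 : b - (b + -z) = z := by abel
        rwa [h4] at h3
    rw [h2]
    exact ⟨two_ne_zero, le_rfl⟩

theorem exists_pl {F : Type} [Field F] [NumberField F] (v : HeightOneSpectrum (𝓞 F)) {l : ℕ}
    [Fact l.Prime] (hl : (l : 𝓞 F) ∈ v.asIdeal) :
    ∃ j : AlgebraicClosure F →+* PadicAlgCl l,
      pl (j.comp (algebraMap F (AlgebraicClosure F))) = v := by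
  have halg : Algebra.IsAlgebraic ℚ (AlgebraicClosure F) :=
    Algebra.IsAlgebraic.trans ℚ F (AlgebraicClosure F)
  have := v.isPrime
  obtain ⟨j, hj⟩ := BKGen.Genus.exists_place_of_prime (Ω := AlgebraicClosure F) v.asIdeal hl
  refine ⟨j, HeightOneSpectrum.ext ?_⟩
  rw [← hj]
  ext x
  exact Iff.rfl

section

variable {F : Type} [Field F] [NumberField F]

/-- the subgroup of the cocycles which are trivial at the place `v` -/
theorem exists_sub (hCP : BKGlob2.StCP) (hLNX : StLNX2) (hCVF : StCVF) (P : Set ℕ)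
    (hPp : ∀ l ∈ P, l.Prime) (v : HeightOneSpectrum (𝓞 F)) (hv : v ∈ SP F P) :
    ∃ N : AddSubgroup (GS F P → GS F P → ZMod 2),
      N.relIndex (CC.Z2 (1 : GS F P →* ZMod 2)).toAddSubgroup ≠ 0 ∧
      N.relIndex (CC.Z2 (1 : GS F P →* ZMod 2)).toAddSubgroup ≤ 2 ∧
      ∀ z ∈ CC.Z2 (1 : GS F P →* ZMod 2), z ∈ N → ∀ (l : ℕ) [Fact l.Prime]
        (j : AlgebraicClosure F →+* PadicAlgCl l),
        pl (j.comp (algebraMap F (AlgebraicClosure F))) = v →
        pb2 (dc P j) z ∈ CC.B2 (1 : Cp (MonoidHom.id (GF F)) j →* ZMod 2) := by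
  obtain ⟨l, hlP, hlv⟩ := hv
  have hlF : Fact l.Prime := ⟨hPp l hlP⟩
  obtain ⟨j, hj⟩ := exists_pl v hlv
  have hna : NonarchimedeanGroup (GF F) := BKGlob2.TWAux.nonarchF F
  have hcq : Continuous (QuotientGroup.mk' (RS F P)) := QuotientGroup.continuous_mk
  have hop : Topology.IsOpenEmbedding (MonoidHom.id (GF F)) := Topology.IsOpenEmbedding.id
  obtain ⟨h1, h2, h3, h4, -⟩ := hCP F (AlgebraicClosure F) (GF F) (MonoidHom.id (GF F)) hop l j
  have hdc : Continuous (dc P j) := hcq.comp h2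
  refine ⟨((CC.B2 (1 : Cp (MonoidHom.id (GF F)) j →* ZMod 2)).toAddSubgroup).comap
    (pbH (dc P j)), ?_⟩
  have h5 := relIndex_le_two
    (((CC.B2 (1 : Cp (MonoidHom.id (GF F)) j →* ZMod 2)).toAddSubgroup).comap (pbH (dc P j)))
    (CC.Z2 (1 : GS F P →* ZMod 2)).toAddSubgroup (by
      intro z hz z' hz' hn
      have hz1 := pb2_mem_Z2 (dc P j) hdc hz
      have hz2 := pb2_mem_Z2 (dc P j) hdc hz'
      obtain ⟨a, ha⟩ := hLNX l (Cp (MonoidHom.id (GF F)) j) (sn (MonoidHom.id (GF F)) j) h1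
        _ hz1 _ hz2 hn
      have ha2 : a = 0 ∨ a = 1 := (by decide : ∀ a : ZMod 2, a = 0 ∨ a = 1) a
      rcases ha2 with rfl | rfl
      · left
        rw [zero_smul, sub_zero] at ha
        exact ha
      · right
        rw [one_smul] at ha
        exact ha)
  refine ⟨h5.1, h5.2, fun z hz hzN l' hl' j' hj' => ?_⟩
  have hlv' : (l' : 𝓞 F) ∈ v.asIdeal := by
    rw [← hj']
    exact l_mem_plI _
  have hll : l = l' := BKGlob2.RK.eq_of_mem hlF.out hl'.out v hlv hlv'
  subst hll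
  exact (hCVF F l j j' (hj.trans hj'.symm)).2.2 P z hz hzN

omit [NumberField F] in
/-- an embedding of an algebraic closure -/
theorem exists_ext {l : ℕ} [Fact l.Prime] (σ : F →+* ℚ_[l]) :
    ∃ e : AlgebraicClosure F →+* PadicAlgCl l, ∀ x : F,
      e (algebraMap F (AlgebraicClosure F) x) = algebraMap ℚ_[l] (PadicAlgCl l) (σ x) := by
  let _ : Algebra F (PadicAlgCl l) := ((algebraMap ℚ_[l] (PadicAlgCl l)).comp σ).toAlgebra
  refine ⟨(IsAlgClosed.lift : AlgebraicClosure F →ₐ[F] PadicAlgCl l).toRingHom, fun x => ?_⟩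
  exact AlgHom.commutes _ x

/-- two places above `2` -/
theorem two_places (hCVF : StCVF) (hB : Base F) :
    ∃ e e' : AlgebraicClosure F →+* PadicAlgCl 2,
      pl (e.comp (algebraMap F (AlgebraicClosure F))) ≠
        pl (e'.comp (algebraMap F (AlgebraicClosure F))) := by
  obtain ⟨σ⟩ := hB.split
  have hq : Algebra.IsQuadraticExtension ℚ F := ⟨hB.quad⟩
  have hg : IsGalois ℚ F := { }
  have hcard : Nat.card (F ≃ₐ[ℚ] F) = 2 := by rw [IsGalois.card_aut_eq_finrank, hB.quad]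
  have hnt : Nontrivial (F ≃ₐ[ℚ] F) := by
    rw [← Finite.one_lt_card_iff_nontrivial, hcard]
    exact one_lt_two
  obtain ⟨c, hc⟩ := exists_ne (1 : F ≃ₐ[ℚ] F)
  obtain ⟨e, he⟩ := exists_ext σ
  obtain ⟨e', he'⟩ := exists_ext (σ.comp (c : F →+* F))
  refine ⟨e, e', fun h => hc ?_⟩
  obtain ⟨⟨g, t, hgt⟩, -⟩ := hCVF F 2 e e' h
  ext x
  have h1 := hgt (algebraMap F (AlgebraicClosure F) x)
  rw [g.commutes, he, t.commutes, he'] at h1
  have h2 := (algebraMap ℚ_[2] (PadicAlgCl 2)).injective h1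
  exact σ.injective h2

end

end H2NAux

open H2NAux

/-- Module H2N. -/
theorem stH2N (hTW : StTW2) (hLNX : StLNX2) (hCP : BKGlob2.StCP) (hCVF : StCVF) : StH2N := by
  classical
  intro F iF iN hB P hPf hPp h2P hO
  obtain ⟨e, e', hee⟩ := two_places hCVF hB
  have hfin : Finite (SP F P) := (BKGlob2.RK.finite_SP hPf hPp).to_subtype
  have hF2 : Fintype (SP F P) := Fintype.ofFinite _
  obtain ⟨v₁, hv₁⟩ : ∃ v₁ : SP F P,
      v₁.1 = pl (e'.comp (algebraMap F (AlgebraicClosure F))) :=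
    ⟨⟨_, 2, h2P, l_mem_plI (l := 2) _⟩, rfl⟩
  choose N hN0 hN2 hN using fun v : SP F P => exists_sub hCP hLNX hCVF P hPp v.1 v.2
  obtain ⟨K, hK⟩ : ∃ K, K = (CC.Z2 (1 : GS F P →* ZMod 2)).toAddSubgroup := ⟨_, rfl⟩
  rw [← hK] at hN0 hN2 ⊢
  have h1 : (⨅ v : {v : SP F P // v ≠ v₁}, N v.1) ⊓ K ≤
      (CC.B2 (1 : GS F P →* ZMod 2)).toAddSubgroup := by
    intro z hz
    obtain ⟨hz1, hz2⟩ := AddSubgroup.mem_inf.1 hz
    rw [AddSubgroup.mem_iInf] at hz1
    rw [hK] at hz2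
    refine hTW F hB e P hPf hPp h2P hO z hz2 ?_ ?_
    · intro l hl hlP hl2 j
      have hlm : (l : 𝓞 F) ∈ (pl (j.comp (algebraMap F (AlgebraicClosure F)))).asIdeal :=
        l_mem_plI _
      have hv : pl (j.comp (algebraMap F (AlgebraicClosure F))) ∈ SP F P := ⟨l, hlP, hlm⟩
      have hne : (⟨_, hv⟩ : SP F P) ≠ v₁ := by
        intro h
        have h3 := congrArg Subtype.val h
        rw [hv₁] at h3
        have h4 : ((2 : ℕ) : 𝓞 F) ∈
            (pl (j.comp (algebraMap F (AlgebraicClosure F)))).asIdeal := by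
          change pl (j.comp (algebraMap F (AlgebraicClosure F))) = _ at h3
          rw [h3]
          exact l_mem_plI _
        exact hl2 (BKGlob2.RK.eq_of_mem hl.out Nat.prime_two _ hlm h4)
      exact hN ⟨_, hv⟩ z hz2 (hz1 ⟨⟨_, hv⟩, hne⟩) l j rfl
    · have hv : pl (e.comp (algebraMap F (AlgebraicClosure F))) ∈ SP F P :=
        ⟨2, h2P, l_mem_plI (l := 2) _⟩
      have hne : (⟨_, hv⟩ : SP F P) ≠ v₁ := by
        intro h
        have h3 := congrArg Subtype.val h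
        rw [hv₁] at h3
        exact hee h3
      exact hN ⟨_, hv⟩ z hz2 (hz1 ⟨⟨_, hv⟩, hne⟩) 2 e rfl
  have h2 : (⨅ v : {v : SP F P // v ≠ v₁}, N v.1).relIndex K ≠ 0 :=
    AddSubgroup.relIndex_iInf_ne_zero fun v => hN0 v.1
  have h3 : ((⨅ v : {v : SP F P // v ≠ v₁}, N v.1) ⊓ K).relIndex K =
      (⨅ v : {v : SP F P // v ≠ v₁}, N v.1).relIndex K := AddSubgroup.inf_relIndex_right _ _
  have h4 : ((⨅ v : {v : SP F P // v ≠ v₁}, N v.1) ⊓ K).relIndex K ≠ 0 := by rwa [h3]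
  have h5 := AddSubgroup.relIndex_le_of_le_left h1 h4
  refine ⟨fun h => ?_, ?_⟩
  · exact h4 (AddSubgroup.relIndex_eq_zero_of_le_left h1 h)
  · rw [h3] at h5
    refine h5.trans ((AddSubgroup.relIndex_iInf_le _).trans ?_)
    refine (Finset.prod_le_pow_card _ _ 2 fun v _ => hN2 v.1).trans (le_of_eq ?_)
    rw [Finset.card_univ, Fintype.card_subtype_compl, Fintype.card_subtype_eq v₁,
      Nat.card_eq_fintype_card]

end BKR
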