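import Pool.Agent.Lib.MP_7c08ba_nt.R1.HSt
import Pool.Agent.Lib.MP_7c08ba_nt.Met.HHP

set_option autoImplicit false

/-!
Module HP2: the Hasse principle for `H²(V, ℤ/2)` (copy of HP).
-/

noncomputable section

namespace BKR

open NumberField IsDedekindDomain BKGen
open BKOdd (Fx)
open BKMet (pb2)
open BKLoc2 BKPar
open BKGlob2 (Cp fs LC)

open BKGlob2.HPAux in
/-- Module HP2. -/
theorem stHP2 (hHQ : StHQ2) : StHP2 := by
  intro k Ω _ _ _ _ _ _ _ hk V _ _ _ _ _ e he z hz hLC
  -- an open normal subgroup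
  obtain ⟨W, hWn, hWo, hW⟩ : ∃ W : Subgroup V, W.Normal ∧ IsOpen (W : Set V) ∧
      ∀ g h, ∀ w ∈ W, ∀ w' ∈ W, z (g * w) (h * w') = z g h := by
    obtain ⟨W0, hW0, hW0'⟩ := BKOdd.Conv.cont2_iff.1 hz.1
    have : Finite (V ⧸ W0) := Subgroup.quotient_finite_of_isOpen W0 hW0
    have : W0.FiniteIndex := Subgroup.finiteIndex_of_finite_quotient
    refine ⟨W0.normalCore, Subgroup.normalCore_normal _, ?_, fun g h w hw w' hw' =>
      hW0' g h w (W0.normalCore_le hw) w' (W0.normalCore_le hw')⟩
    exact Subgroup.isOpen_of_isClosed_of_finiteIndex _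
      (W0.normalCore_isClosed (W0.isClosed_of_isOpen hW0))
  have hfin : Finite (V ⧸ W) := Subgroup.quotient_finite_of_isOpen W hWo
  -- the induction
  have key : ∀ (n : ℕ) (V' : Subgroup V), W ≤ V' → W.relIndex V' = 2 ^ n →
      (fun a b : V' => z a b) ∈ CC.B2 (1 : V' →* ZMod 2) := by
    intro n
    induction n with
    | zero =>
      intro V' _ hidx
      rw [pow_zero, Subgroup.relIndex_eq_one] at hidx
      refine ⟨fun _ => z 1 1, continuous_const, fun a b => ?_⟩
      have h1 := hW 1 1 a (hidx a.2) b (hidx b.2)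
      rw [one_mul, one_mul] at h1
      show z a b = _
      rw [h1]
      simp
    | succ n ih =>
      intro V' hWV hidx
      have hV'o : IsOpen (V' : Set V) := Subgroup.isOpen_mono hWV hWo
      set N : Subgroup V' := W.subgroupOf V' with hN
      have hNo : IsOpen (N : Set V') := hWo.preimage continuous_subtype_val
      have hcard : Nat.card (V' ⧸ N) = 2 ^ (n + 1) := hidx
      have hQfin : Finite (V' ⧸ N) := Nat.finite_of_card_ne_zero (by
        rw [hcard]; exact pow_ne_zero _ Nat.prime_two.ne_zero)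
      obtain ⟨K, hK⟩ := Sylow.exists_subgroup_card_pow_prime (G := V' ⧸ N) 2 (n := n)
        (by rw [hcard]; exact pow_dvd_pow 2 (Nat.le_succ n))
      have hKidx : K.index = 2 := by
        have h1 := K.card_mul_index
        rw [hK, hcard, pow_succ] at h1
        exact Nat.eq_of_mul_eq_mul_left (pow_pos Nat.prime_two.pos n) h1
      have hKn : K.Normal := by
        apply Subgroup.normal_of_index_eq_minFac_card
        rw [hKidx, hcard, Nat.prime_two.pow_minFac (Nat.succ_ne_zero n)]
      set V2 : Subgroup V' := K.comap (QuotientGroup.mk' N) with hV2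
      have hNV2 : N ≤ V2 := by
        intro x hx
        rw [hV2, Subgroup.mem_comap]
        have : QuotientGroup.mk' N x = 1 := (QuotientGroup.eq_one_iff x).2 hx
        rw [this]
        exact K.one_mem
      have hV2n : V2.Normal := hKn.comap _
      have hV2i : V2.index = 2 := by
        rw [hV2, Subgroup.index_comap_of_surjective _ (QuotientGroup.mk'_surjective N), hKidx]
      have hV2o : IsOpen (V2 : Set V') := Subgroup.isOpen_mono hNV2 hNo
      set V3 : Subgroup V := V2.map V'.subtype with hV3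
      have hWV3 : W ≤ V3 := by
        intro w hw
        exact ⟨⟨w, hWV hw⟩, hNV2 hw, rfl⟩
      have hV3V : V3 ≤ V' := by
        rintro _ ⟨x, -, rfl⟩
        exact x.2
      have hrel : V3.relIndex V' = 2 := by
        rw [← hV2i]
        unfold Subgroup.relIndex Subgroup.subgroupOf
        rw [hV3, Subgroup.comap_map_eq_self_of_injective (Subtype.val_injective)]
      have hidx3 : W.relIndex V3 = 2 ^ n := by
        have h1 := Subgroup.relIndex_mul_relIndex W V3 V' hWV3 hV3V
        rw [hrel, hidx, pow_succ] at h1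
        exact Nat.eq_of_mul_eq_mul_right Nat.prime_two.pos h1
      have h3 := ih V3 hWV3 hidx3
      -- the restriction to the subgroup of index `p`
      let ι : V2 →* V3 := (V'.subtype.comp V2.subtype).codRestrict V3 fun x => ⟨x.1, x.2, rfl⟩
      have hι : Continuous ι :=
        (continuous_subtype_val.comp continuous_subtype_val).subtype_mk _
      have h4 : (fun a b : V2 => (fun a b : V' => z a b) a b) ∈ CC.B2 (1 : V2 →* ZMod 2) :=
        B2_pb hι h3
      have hc : CompactSpace V' := isCompact_iff_compactSpace.1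
        (V'.isClosed_of_isOpen hV'o).isCompact
      have hna : NonarchimedeanGroup V' := BKOdd.nonarch_subgroup V'
      exact hHQ k Ω hk V' (e.comp V'.subtype) (he.comp hV'o.isOpenEmbedding_subtypeVal)
        V2 hV2n hV2o hV2i (fun a b : V' => z a b)
        (Z2_pb (f := V'.subtype) continuous_subtype_val hz) (LC_sub e hLC V') h4
  -- the Sylow subgroup
  obtain ⟨P⟩ : Nonempty (Sylow 2 (V ⧸ W)) := inferInstance
  obtain ⟨n, hn⟩ := IsPGroup.iff_card.1 P.isPGroup'
  set V1 : Subgroup V := (P : Subgroup (V ⧸ W)).comap (QuotientGroup.mk' W) with hV1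
  have hWV1 : W ≤ V1 := by
    intro x hx
    rw [hV1, Subgroup.mem_comap]
    have : QuotientGroup.mk' W x = 1 := (QuotientGroup.eq_one_iff x).2 hx
    rw [this]
    exact Subgroup.one_mem _
  have hV1i : V1.index = (P : Subgroup (V ⧸ W)).index := by
    rw [hV1, Subgroup.index_comap_of_surjective _ (QuotientGroup.mk'_surjective W)]
  have hPi : (P : Subgroup (V ⧸ W)).index ≠ 0 := Subgroup.index_ne_zero_of_finite
  have hrel : W.relIndex V1 = 2 ^ n := by
    have h1 := Subgroup.relIndex_mul_index hWV1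
    have h2 := (P : Subgroup (V ⧸ W)).card_mul_index
    have h3 : Nat.card (V ⧸ W) = W.index := rfl
    rw [h3, ← h1, hV1i] at h2
    rw [← hn]
    exact (Nat.eq_of_mul_eq_mul_right (Nat.pos_of_ne_zero hPi) h2).symm
  have h1 := key n V1 hWV1 hrel
  have hV1o : IsOpen (V1 : Set V) := Subgroup.isOpen_mono hWV1 hWo
  have hfin1 : Finite (V ⧸ V1) := Subgroup.quotient_finite_of_isOpen V1 hV1o
  obtain ⟨-, -, t3, t4, -⟩ := BKOdd.stTR V V1 hV1o hfin1 (ZMod 2) 1 continuous_const
  have h2 := t3 _ h1
  have h3 := t4 z hz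
  have h4 : (V1.index : ZMod 2) • z ∈ CC.B2 (1 : V →* ZMod 2) := by
    have := (CC.B2 (1 : V →* ZMod 2)).sub_mem h2 h3
    rwa [sub_sub_cancel] at this
  have h5 : (V1.index : ZMod 2) ≠ 0 := by
    rw [Ne, ZMod.natCast_eq_zero_iff, hV1i]
    exact P.not_dvd_index
  have h6 := (CC.B2 (1 : V →* ZMod 2)).smul_mem ((V1.index : ZMod 2)⁻¹) h4
  rwa [smul_smul, inv_mul_cancel₀ h5, one_smul] at h6

end BKR
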