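import Pool.Agent.Lib.MP_7c08ba_nt.R1.HSt
import Pool.Agent.Lib.MP_7c08ba_nt.Met.LLNX

set_option autoImplicit false

/-!
Module LNX2: the second cohomology of open subgroups of the Galois group of `ℚ_l` with coefficients
`𝔽₂` has at most two elements.
-/

noncomputable section

namespace BKR

open BKOdd

namespace LNX2Aux

open BKLoc2.LNXAux (exists_normal chain)

theorem neg_one_prim (l : ℕ) [Fact l.Prime] : IsPrimitiveRoot (-1 : PadicAlgCl l) 2 := by
  refine IsPrimitiveRoot.neg_one 0 ?_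
  exact fun h => by simp at h

theorem fx_neg_one {l : ℕ} [Fact l.Prime] {V : Type*} [Group V] (e : V →* BKMet.GQ l) :
    Fx e (-1 : PadicAlgCl l) := fun g => by
  rw [map_neg, map_one]

end LNX2Aux

open LNX2Aux BKLoc2.LNXAux in
/-- Module LNX2 -/
theorem stLNX2 (h1 : StCHT2) (h0 : StChain) : StLNX2 := by
  intro l _ V _ _ _ _ _ e he z hz z' hz' hzn
  obtain ⟨W0, hW0, hW0z⟩ := Conv.cont2_iff.1 hz.1
  obtain ⟨W1, hW1, hW1z⟩ := Conv.cont2_iff.1 hz'.1
  obtain ⟨N, hNn, hNo, hNle⟩ := exists_normal (W0 ⊓ W1) (by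
    rw [Subgroup.coe_inf]
    exact hW0.inter hW1)
  have hfin : Finite (V ⧸ N) := Subgroup.quotient_finite_of_isOpen N hNo
  let S : Sylow 2 (V ⧸ N) := default
  let P : Subgroup V := (S : Subgroup (V ⧸ N)).comap (QuotientGroup.mk' N)
  have hNP : N ≤ P := by
    intro g hg
    change QuotientGroup.mk' N g ∈ (S : Subgroup (V ⧸ N))
    have h2 : QuotientGroup.mk' N g = 1 := (QuotientGroup.eq_one_iff g).2 hg
    rw [h2]
    exact one_mem _
  have hPo : IsOpen (P : Set V) := Subgroup.isOpen_mono hNP hNo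
  have hidx : ¬ 2 ∣ P.index := by
    have h2 : P.index = (S : Subgroup (V ⧸ N)).index :=
      Subgroup.index_comap_of_surjective _ (QuotientGroup.mk'_surjective N)
    rw [h2]
    exact S.not_dvd_index
  have hres : ∀ w ∈ CC.Z2 (1 : V →* ZMod 2),
      (fun a b : P => w a b) ∈ CC.Z2 (1 : P →* ZMod 2) := by
    intro w hw
    refine ⟨hw.1.comp (f := fun x : P × P => ((x.1 : V), (x.2 : V))) (by fun_prop),
      fun a b c => ?_⟩
    exact hw.2 a b c
  have hspl : ∀ (w : V → V → ZMod 2) (W' : Subgroup V), N ≤ W' →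
      (∀ g h, ∀ u ∈ W', ∀ u' ∈ W', w (g * u) (h * u') = w g h) →
      Spl 2 P (fun a b : P => w a b) := by
    intro w W' hNW' hw
    refine ⟨N.subgroupOf P, inferInstance, hNo.preimage continuous_subtype_val, ?_, ?_⟩
    · have h2 : (N.subgroupOf P).index = Nat.card (S : Subgroup (V ⧸ N)) := by
        have h3 : N = (⊥ : Subgroup (V ⧸ N)).comap (QuotientGroup.mk' N) := by
          rw [MonoidHom.comap_bot, QuotientGroup.ker_mk']
        have h4 : N.relIndex P = (⊥ : Subgroup (V ⧸ N)).relIndex (S : Subgroup (V ⧸ N)) := by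
          conv_lhs => rw [h3]
          rw [Subgroup.relIndex_comap, Subgroup.map_comap_eq_self_of_surjective
            (QuotientGroup.mk'_surjective N)]
        have h5 : (N.subgroupOf P).index = N.relIndex P := rfl
        rw [h5, h4, Subgroup.relIndex_bot_left]
      obtain ⟨m, hm⟩ := IsPGroup.iff_card.1 S.2
      exact ⟨m, by rw [h2, hm]⟩
    · refine ⟨fun _ => w 1 1, continuous_const, fun a b => ?_⟩
      have ha : ((a : P) : V) ∈ W' := hNW' a.2
      have hb : ((b : P) : V) ∈ W' := hNW' b.2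
      have h2 := hw 1 1 _ ha _ hb
      rw [one_mul, one_mul] at h2
      change w ((a : P) : V) ((b : P) : V) = _
      rw [h2, MonoidHom.one_apply, one_mul, add_sub_cancel_right]
  have heP : Topology.IsOpenEmbedding (e.comp P.subtype) := by
    have h2 := he.comp hPo.isOpenEmbedding_subtypeVal
    exact h2
  have hline : LineP 2 P := by
    by_cases hl : l = 2
    · subst hl
      exact (h0 2 P (e.comp P.subtype) heP (-1) (neg_one_prim 2) (fx_neg_one _)).1
    · exact (h1 l hl P (e.comp P.subtype) heP).1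
  have hfinP : Finite (V ⧸ P) := Subgroup.quotient_finite_of_isOpen P hPo
  obtain ⟨-, -, hT1, hT2, -⟩ := stTR.{0} V P hPo hfinP (ZMod 2) (1 : V →* ZMod 2)
    continuous_const
  have hcores : ∀ w ∈ CC.Z2 (1 : V →* ZMod 2), (fun a b : P => w a b) ∈
      CC.B2 (1 : P →* ZMod 2) → w ∈ CC.B2 (1 : V →* ZMod 2) := by
    intro w hw hwB
    have h2 := hT1 _ hwB
    have h3 := (CC.B2 (1 : V →* ZMod 2)).sub_mem h2 (hT2 w hw)
    rw [sub_sub_cancel] at h3
    have h4 : ((P.index : ℕ) : ZMod 2) ≠ 0 := by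
      rw [Ne, ZMod.natCast_eq_zero_iff]
      exact hidx
    have h5 := (CC.B2 (1 : V →* ZMod 2)).smul_mem (((P.index : ℕ) : ZMod 2)⁻¹) h3
    rwa [smul_smul, inv_mul_cancel₀ h4, one_smul] at h5
  have hN0 : N ≤ W0 := fun g hg => (hNle hg).1
  have hN1 : N ≤ W1 := fun g hg => (hNle hg).2
  have hzP : (fun a b : P => z a b) ∉ CC.B2 (1 : P →* ZMod 2) := fun h => hzn (hcores z hz h)
  obtain ⟨a, ha⟩ := hline _ (hres z hz) _ (hres z' hz') (hspl z W0 hN0 hW0z)
    (hspl z' W1 hN1 hW1z) hzP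
  exact ⟨a, hcores _ ((CC.Z2 (1 : V →* ZMod 2)).sub_mem hz'
    ((CC.Z2 (1 : V →* ZMod 2)).smul_mem a hz)) ha⟩

end BKR
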