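import Pool.Agent.Lib.MP_7c08ba_nt.R1.HSt
import Pool.Agent.Lib.MP_7c08ba_nt.R1.HLNX2

set_option autoImplicit false

/-!
Module KIL2: classes of degree two with coefficients `𝔽₂` of an open subgroup of the Galois group of
`ℚ_l` vanish on open subgroups of index two.
-/

noncomputable section

namespace BKR

open BKOdd

namespace KIL2Aux

/-- the cup product is nondegenerate for every prime `l` -/
theorem nondeg (hC : StCHT2) (h0 : StChain) (l : ℕ) [Fact l.Prime] (V : Type) [Group V]
    [TopologicalSpace V] [IsTopologicalGroup V] (e : V →* BKMet.GQ l)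
    (he : Topology.IsOpenEmbedding e) : NonDeg 2 V := by
  by_cases hl : l = 2
  · subst hl
    exact (h0 2 V e he (-1) (LNX2Aux.neg_one_prim 2) (LNX2Aux.fx_neg_one e)).2
  · exact (hC l hl V e he).2

/-- the character of a subgroup of index two -/
theorem exists_char {V : Type} [Group V] [TopologicalSpace V] [IsTopologicalGroup V]
    (H : Subgroup V) (hH : IsOpen (H : Set V)) (h2 : H.index = 2) :
    ∃ χ ∈ CC.Z1 (1 : V →* ZMod 2), χ ≠ 0 ∧ ∀ v ∈ H, χ v = 0 := by
  classical
  let χ : V → ZMod 2 := fun v => if v ∈ H then 0 else 1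
  have hin : ∀ v, v ∈ H → χ v = 0 := fun v hv => if_pos hv
  have hout : ∀ v, v ∉ H → χ v = 1 := fun v hv => if_neg hv
  refine ⟨χ, ⟨?_, fun g h => ?_⟩, ?_, hin⟩
  · refine continuous_iff_continuousAt.2 fun x => ?_
    have hxo : IsOpen ((fun v => x⁻¹ * v) ⁻¹' (H : Set V)) :=
      hH.preimage (continuous_const.mul continuous_id)
    have hmem : ((fun v => x⁻¹ * v) ⁻¹' (H : Set V)) ∈ nhds x := by
      refine hxo.mem_nhds ?_
      change x⁻¹ * x ∈ H
      rw [inv_mul_cancel]
      exact one_mem _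
    have hev : ∀ v ∈ ((fun v => x⁻¹ * v) ⁻¹' (H : Set V)), χ v = χ x := by
      intro v hv
      have hv' : x⁻¹ * v ∈ H := hv
      by_cases hx : x ∈ H
      · rw [hin x hx, hin v]
        have := H.mul_mem hx hv'
        rwa [mul_inv_cancel_left] at this
      · rw [hout x hx, hout v]
        intro hvH
        apply hx
        have h3 := H.mul_mem hvH (H.inv_mem hv')
        rwa [mul_inv_rev, inv_inv, mul_inv_cancel_left] at h3
    exact (continuousAt_const (y := χ x)).congr
      (Filter.eventually_of_mem hmem fun v hv => (hev v hv).symm)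
  · rw [MonoidHom.one_apply, one_mul]
    have hiff := Subgroup.mul_mem_iff_of_index_two h2 (a := g) (b := h)
    by_cases hg : g ∈ H
    · by_cases hh : h ∈ H
      · rw [hin _ (H.mul_mem hg hh), hin g hg, hin h hh, add_zero]
      · rw [hout _ (fun hm => hh ((hiff.1 hm).1 hg)), hin g hg, hout h hh, zero_add]
    · by_cases hh : h ∈ H
      · rw [hout _ (fun hm => hg ((hiff.1 hm).2 hh)), hout g hg, hin h hh, add_zero]
      · rw [hin _ (hiff.2 ⟨fun hm => absurd hm hg, fun hm => absurd hm hh⟩), hout g hg, hout h hh]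
        decide
  · intro h0
    have htop : H = ⊤ := by
      rw [eq_top_iff]
      intro v _
      by_contra hv
      have h3 : χ v = 0 := congrFun h0 v
      rw [hout v hv] at h3
      exact one_ne_zero h3
    rw [htop, Subgroup.index_top] at h2
    omega

end KIL2Aux

/-- Module KIL2 -/
theorem stKIL2 (h1 : StLNX2) (hC : StCHT2) (h0 : StChain) : StKIL2 := by
  intro l _ V _ _ _ _ _ e he H hH hidx z hz
  obtain ⟨χ, hχ, hne, hH0⟩ := KIL2Aux.exists_char H hH hidx
  obtain ⟨ψ, hψ, hcup⟩ := KIL2Aux.nondeg hC h0 l V e he χ hχ hne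
  obtain ⟨a, ha⟩ := h1 l V e he (CC.cup ψ χ) (CC.cup_mem_Z2 hψ hχ) z hz hcup
  obtain ⟨f, hf, hfe⟩ := ha
  refine ⟨fun x : H => f x, hf.comp continuous_subtype_val, fun g h => ?_⟩
  have h3 := hfe (g : V) (h : V)
  have h4 : CC.cup ψ χ (g : V) (h : V) = 0 := by
    change ψ g * χ h = 0
    rw [hH0 _ h.2, mul_zero]
  rw [Pi.sub_apply, Pi.sub_apply, Pi.smul_apply, Pi.smul_apply, h4, smul_zero, sub_zero,
    MonoidHom.one_apply, one_mul] at h3
  rw [MonoidHom.one_apply, one_mul]
  exact h3

end BKR
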