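import Pool.Agent.Lib.MP_7c08ba_nt.R1.HSt

set_option autoImplicit false

/-!
Module LAM2: a logarithm on the `2`-adic units with kernel `{±1}`.
-/

noncomputable section

namespace BKR

namespace LAM2Aux

open Filter Topology

/-- The step. -/
lemma step (n : ℕ) (c : ℤ_[2]) :
    (1 + (2 : ℤ_[2]) ^ (n + 3) * c) ^ 2 =
      1 + (2 : ℤ_[2]) ^ (n + 4) * (c * (1 + (2 : ℤ_[2]) ^ (n + 2) * c)) := by
  have h : (2 : ℤ_[2]) ^ (n + 3) * 2 ^ (n + 3) = 2 ^ (n + 4) * 2 ^ (n + 2) := by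
    rw [← pow_add, ← pow_add]
    congr 1
    omega
  linear_combination c ^ 2 * h

lemma two_ne : (2 : ℤ_[2]) ≠ 0 := by
  exact_mod_cast two_ne_zero (α := ℕ)

lemma norm_two : ‖(2 : ℤ_[2])‖ = (2 : ℝ)⁻¹ := by
  have h := PadicInt.norm_p (p := 2)
  push_cast at h
  exact h

lemma exists_zero (u : ℤ_[2]ˣ) : ∃ c : ℤ_[2], (u : ℤ_[2]) ^ 2 = 1 + 8 * c := by
  have hu : (u : ℤ_[2]) ^ 2 - 1 ∈ RingHom.ker (PadicInt.toZModPow (p := 2) 3) := by
    rw [RingHom.mem_ker, map_sub, map_pow, map_one, sub_eq_zero]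
    have h1 : IsUnit (PadicInt.toZModPow (p := 2) 3 (u : ℤ_[2])) := (Units.isUnit u).map _
    have h2 : ∀ x : ZMod (2 ^ 3), IsUnit x → x ^ 2 = 1 := by decide
    exact h2 _ h1
  rw [PadicInt.ker_toZModPow, Ideal.mem_span_singleton] at hu
  obtain ⟨c, hc⟩ := hu
  refine ⟨c, ?_⟩
  rw [sub_eq_iff_eq_add'] at hc
  rw [hc]
  push_cast
  norm_num

lemma exists_c (u : ℤ_[2]ˣ) (n : ℕ) :
    ∃ c : ℤ_[2], (u : ℤ_[2]) ^ (2 ^ (n + 1)) = 1 + (2 : ℤ_[2]) ^ (n + 3) * c := by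
  induction n with
  | zero =>
    obtain ⟨c, hc⟩ := exists_zero u
    refine ⟨c, ?_⟩
    rw [zero_add, pow_one, hc]
    norm_num
  | succ n ih =>
    obtain ⟨c, hc⟩ := ih
    refine ⟨c * (1 + (2 : ℤ_[2]) ^ (n + 2) * c), ?_⟩
    rw [pow_succ 2 (n + 1), pow_mul, hc, step]

/-- The approximations. -/
def cc (u : ℤ_[2]ˣ) (n : ℕ) : ℤ_[2] := (exists_c u n).choose

lemma cc_spec (u : ℤ_[2]ˣ) (n : ℕ) :
    (u : ℤ_[2]) ^ (2 ^ (n + 1)) = 1 + (2 : ℤ_[2]) ^ (n + 3) * cc u n :=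
  (exists_c u n).choose_spec

lemma cc_unique (u : ℤ_[2]ˣ) (n : ℕ) (c : ℤ_[2])
    (h : (u : ℤ_[2]) ^ (2 ^ (n + 1)) = 1 + (2 : ℤ_[2]) ^ (n + 3) * c) : cc u n = c := by
  have h1 := cc_spec u n
  rw [h] at h1
  exact (mul_left_cancel₀ (pow_ne_zero _ two_ne) (add_left_cancel h1)).symm

lemma cc_succ (u : ℤ_[2]ˣ) (n : ℕ) :
    cc u (n + 1) = cc u n * (1 + (2 : ℤ_[2]) ^ (n + 2) * cc u n) := by
  refine cc_unique u (n + 1) _ ?_
  rw [pow_succ 2 (n + 1), pow_mul, cc_spec, step]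

lemma cc_mul (u v : ℤ_[2]ˣ) (n : ℕ) : cc (u * v) n =
    cc u n + cc v n + (2 : ℤ_[2]) ^ (n + 3) * (cc u n * cc v n) := by
  refine cc_unique _ n _ ?_
  rw [Units.val_mul, mul_pow, cc_spec, cc_spec]
  ring

lemma cc_norm (u : ℤ_[2]ˣ) (n : ℕ) : ‖cc u (n + 1)‖ = ‖cc u n‖ := by
  rw [cc_succ, norm_mul]
  have h : ‖1 + (2 : ℤ_[2]) ^ (n + 2) * cc u n‖ = 1 := by
    rw [← PadicInt.isUnit_iff]
    by_contra h
    rw [PadicInt.not_isUnit_iff, PadicInt.norm_lt_one_iff_dvd] at h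
    have h2 : ((2 : ℕ) : ℤ_[2]) ∣ (2 : ℤ_[2]) ^ (n + 2) * cc u n := by
      push_cast
      exact (dvd_pow_self _ (by omega)).mul_right _
    have h3 := dvd_sub h h2
    rw [add_sub_cancel_right] at h3
    exact (PadicInt.prime_p (p := 2)).not_isUnit (isUnit_of_dvd_one h3)
  rw [h, mul_one]

lemma cc_norm' (u : ℤ_[2]ˣ) (n : ℕ) : ‖cc u n‖ = ‖cc u 0‖ := by
  induction n with
  | zero => rfl
  | succ n ih => rw [cc_norm, ih]

lemma cc_dist (u : ℤ_[2]ˣ) (n : ℕ) :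
    dist (cc u n) (cc u (n + 1)) ≤ 1 * ((2 : ℝ)⁻¹) ^ n := by
  rw [dist_comm, dist_eq_norm, cc_succ]
  have h : cc u n * (1 + (2 : ℤ_[2]) ^ (n + 2) * cc u n) - cc u n =
      (2 : ℤ_[2]) ^ (n + 2) * (cc u n * cc u n) := by ring
  rw [h, norm_mul, norm_pow, norm_two, one_mul]
  calc ((2 : ℝ)⁻¹) ^ (n + 2) * ‖cc u n * cc u n‖ ≤ ((2 : ℝ)⁻¹) ^ (n + 2) * 1 :=
        mul_le_mul_of_nonneg_left (PadicInt.norm_le_one _) (by positivity)
    _ ≤ ((2 : ℝ)⁻¹) ^ n := by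
        rw [mul_one, pow_add]
        exact mul_le_of_le_one_right (by positivity) (by norm_num)

lemma half_lt : ((2 : ℝ)⁻¹) < 1 := by norm_num

lemma exists_lim (u : ℤ_[2]ˣ) : ∃ l : ℤ_[2], Tendsto (cc u) atTop (𝓝 l) :=
  cauchySeq_tendsto_of_complete
    (cauchySeq_of_le_geometric _ _ half_lt (cc_dist u))

/-- The logarithm. -/
def lam (u : ℤ_[2]ˣ) : ℤ_[2] := (exists_lim u).choose

lemma lam_spec (u : ℤ_[2]ˣ) : Tendsto (cc u) atTop (𝓝 (lam u)) :=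
  (exists_lim u).choose_spec

lemma cc_continuous (n : ℕ) : Continuous fun u : ℤ_[2]ˣ => cc u n := by
  have h1 : (fun u : ℤ_[2]ˣ => ((cc u n : ℤ_[2]) : ℚ_[2])) =
      fun u : ℤ_[2]ˣ => (((u : ℤ_[2]) : ℚ_[2]) ^ (2 ^ (n + 1)) - 1) / (2 : ℚ_[2]) ^ (n + 3) := by
    funext u
    have h2 := congrArg (fun x : ℤ_[2] => (x : ℚ_[2])) (cc_spec u n)
    push_cast at h2
    have h3 : ((2 : ℤ_[2]) : ℚ_[2]) = 2 := rfl
    rw [h3] at h2
    rw [h2]
    field_simp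
    ring
  have h4 : Continuous fun u : ℤ_[2]ˣ => ((cc u n : ℤ_[2]) : ℚ_[2]) := by
    rw [h1]
    have h5 : Continuous fun u : ℤ_[2]ˣ => ((u : ℤ_[2]) : ℚ_[2]) :=
      Continuous.comp (g := fun x : ℤ_[2] => (x : ℚ_[2])) continuous_subtype_val
        Units.continuous_val
    exact ((h5.pow _).sub continuous_const).div_const _
  exact continuous_induced_rng.mpr h4

lemma lam_continuous : Continuous lam := by
  have h1 : TendstoUniformly (fun n (u : ℤ_[2]ˣ) => cc u n) lam atTop := by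
    rw [Metric.tendstoUniformly_iff]
    intro ε hε
    have h2 : Tendsto (fun n : ℕ => 1 * ((2 : ℝ)⁻¹) ^ n / (1 - (2 : ℝ)⁻¹)) atTop (𝓝 0) := by
      have h3 := (tendsto_pow_atTop_nhds_zero_of_lt_one (by norm_num : (0 : ℝ) ≤ (2 : ℝ)⁻¹)
        half_lt).const_mul 1 |>.div_const (1 - (2 : ℝ)⁻¹)
      simpa using h3
    filter_upwards [h2.eventually (gt_mem_nhds hε)] with n hn u
    rw [dist_comm]
    exact lt_of_le_of_lt (dist_le_of_le_geometric_of_tendsto _ _ half_lt (cc_dist u)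
      (lam_spec u) n) hn
  exact h1.continuous (Filter.Frequently.of_forall fun n => cc_continuous n)

lemma lam_mul (u v : ℤ_[2]ˣ) : lam (u * v) = lam u + lam v := by
  have h1 := lam_spec (u * v)
  have h2 : Tendsto (fun n => cc u n + cc v n + (2 : ℤ_[2]) ^ (n + 3) *
      (cc u n * cc v n)) atTop
      (𝓝 (lam u + lam v + 0 * (lam u * lam v))) := by
    refine ((lam_spec u).add (lam_spec v)).add
      (Tendsto.mul ?_ ((lam_spec u).mul (lam_spec v)))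
    rw [tendsto_zero_iff_norm_tendsto_zero]
    have h3 := (tendsto_pow_atTop_nhds_zero_of_lt_one (by norm_num : (0 : ℝ) ≤ (2 : ℝ)⁻¹)
        half_lt).comp (tendsto_add_atTop_nat 3)
    refine h3.congr fun n => ?_
    rw [norm_pow, norm_two]
    rfl
  have h3 : (cc (u * v)) = fun n => cc u n + cc v n + (2 : ℤ_[2]) ^ (n + 3) *
      (cc u n * cc v n) := funext fun n => cc_mul u v n
  rw [← h3] at h2
  rw [tendsto_nhds_unique h1 h2]
  ring

lemma lam_norm (u : ℤ_[2]ˣ) : ‖lam u‖ = ‖cc u 0‖ := by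
  have h1 : Tendsto (fun n => ‖cc u n‖) atTop (𝓝 ‖lam u‖) := (lam_spec u).norm
  have h2 : (fun n => ‖cc u n‖) = fun _ => ‖cc u 0‖ := funext fun n => cc_norm' u n
  rw [h2] at h1
  exact tendsto_nhds_unique h1 tendsto_const_nhds

lemma lam_zero (u : ℤ_[2]ˣ) : lam u = 0 ↔ u ^ 2 = 1 := by
  rw [← norm_eq_zero, lam_norm, norm_eq_zero]
  have h1 := cc_spec u 0
  rw [zero_add, pow_one] at h1
  constructor
  · intro h
    rw [h, mul_zero, add_zero] at h1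
    exact Units.ext (by rw [Units.val_pow_eq_pow_val, h1, Units.val_one])
  · intro h
    refine cc_unique u 0 _ ?_
    rw [zero_add, pow_one, mul_zero, add_zero, ← Units.val_pow_eq_pow_val, h, Units.val_one]

end LAM2Aux

open LAM2Aux in
/-- Module LAM2: a logarithm on the `2`-adic units. -/
theorem stLAM2 : StLAM2 := ⟨lam, lam_continuous, lam_mul, lam_zero⟩

end BKR
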