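import Pool.Agent.Lib.MP_7c08ba_nt.R1.HSt
import Pool.Agent.Lib.MP_7c08ba_nt.Tw.ClassOdd
import Pool.Agent.Lib.MP_7c08ba_nt.Gen.RigidTwo

set_option autoImplicit false
set_option linter.unusedSectionVars false

/-!
Module OPR: every place of `ℚ(√-q)`, `q ≡ 7 mod 8` a prime, has an odd power which is principal.
-/

noncomputable section

namespace BKR

open NumberField IsDedekindDomain Pool.Agent.Lib.MP_7c08ba_nt

namespace OPRAux

variable {q : ℕ} {F : Type} [Field F] [NumberField F] {s : F}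

theorem exists_u (h8 : q % 8 = 7) : ∃ u : ℚ_[2], u ^ 2 = -(q : ℚ_[2]) := by
  obtain ⟨k, hk⟩ : ∃ k : ℕ, q + 1 = 8 * k := ⟨(q + 1) / 8, by omega⟩
  obtain ⟨z, hz⟩ := isSquare_one_add_eight (-(k : ℤ_[2]))
  refine ⟨(z : ℚ_[2]), ?_⟩
  have h1 : ((1 + 8 * (-(k : ℤ_[2])) : ℤ_[2]) : ℚ_[2]) = ((z * z : ℤ_[2]) : ℚ_[2]) := by rw [hz]
  have h8' : ((8 : ℤ_[2]) : ℚ_[2]) = 8 := rfl
  push_cast at h1
  rw [h8'] at h1
  have h2 : (q : ℚ_[2]) + 1 = 8 * k := by exact_mod_cast hk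
  linear_combination -h1 + h2

theorem exists_J (hq0 : 0 < q) (h8 : q % 8 = 7) (hF : Module.finrank ℚ F = 2)
    (hs : s ^ 2 = -(q : F)) : Nonempty (F →+* ℚ_[2]) := by
  obtain ⟨u, hu⟩ := exists_u h8
  have h0 : Nonempty (F →+* PadicAlgCl 2) := by
    let : Algebra ℚ (PadicAlgCl 2) := DivisionRing.toRatAlgebra
    exact ⟨(IsAlgClosed.lift (R := ℚ) (S := F) (M := PadicAlgCl 2)).toRingHom⟩
  obtain ⟨τ⟩ := h0
  have hinj : Function.Injective (algebraMap ℚ_[2] (PadicAlgCl 2)) :=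
    (algebraMap ℚ_[2] (PadicAlgCl 2)).injective
  have h1 : ∃ u' : ℚ_[2], algebraMap ℚ_[2] (PadicAlgCl 2) u' = τ s := by
    have h2 : τ s ^ 2 = (algebraMap ℚ_[2] (PadicAlgCl 2) u) ^ 2 := by
      rw [← map_pow, hs, ← map_pow, hu, map_neg, map_neg, map_natCast, map_natCast]
    rcases sq_eq_sq_iff_eq_or_eq_neg.mp h2 with h3 | h3
    · exact ⟨u, h3.symm⟩
    · exact ⟨-u, by rw [map_neg, h3]⟩
  obtain ⟨u', hu'⟩ := h1
  have h2 : ∀ x : F, ∃ y : ℚ_[2], algebraMap ℚ_[2] (PadicAlgCl 2) y = τ x := by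
    intro x
    obtain ⟨a, b, rfl⟩ := exists_coords hq0 hF hs x
    refine ⟨(a : ℚ_[2]) + b * u', ?_⟩
    rw [map_add, map_mul, map_add, map_mul, hu', map_ratCast, map_ratCast, map_ratCast,
      map_ratCast]
  choose g hg using h2
  exact ⟨{ toFun := g
           map_one' := hinj (by rw [hg, map_one, map_one])
           map_mul' := fun x y => hinj (by rw [hg, map_mul, map_mul, hg, hg])
           map_zero' := hinj (by rw [hg, map_zero, map_zero])
           map_add' := fun x y => hinj (by rw [hg, map_add, map_add, hg, hg]) }⟩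

/-- Algebraic integers are dyadic integers. -/
theorem norm_le (J : F →+* ℚ_[2]) (a : 𝓞 F) : ‖J (a : F)‖ ≤ 1 := by
  have h1 : IsIntegral ℤ_[2] (J (a : F)) := by
    have h2 : IsIntegral ℤ (J (a : F)) := (a.isIntegral_coe).map (J.toIntAlgHom)
    exact h2.tower_top
  obtain ⟨z, hz⟩ := IsIntegrallyClosed.isIntegral_iff.mp h1
  rw [← hz]
  exact z.2

/-- The ring homomorphism to the dyadic integers. -/
def toZ (J : F →+* ℚ_[2]) : 𝓞 F →+* ℤ_[2] where
  toFun a := ⟨J (a : F), norm_le J a⟩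
  map_one' := by apply Subtype.ext; simp
  map_mul' a b := by apply Subtype.ext; simp
  map_zero' := by apply Subtype.ext; simp
  map_add' a b := by apply Subtype.ext; simp

/-- The prime above two. -/
def pr (J : F →+* ℚ_[2]) : Ideal (𝓞 F) := (IsLocalRing.maximalIdeal ℤ_[2]).comap (toZ J)

instance pr_prime (J : F →+* ℚ_[2]) : (pr J).IsPrime := Ideal.comap_isPrime _ _

theorem mem_pr {J : F →+* ℚ_[2]} {a : 𝓞 F} : a ∈ pr J ↔ ‖J (a : F)‖ < 1 := by
  rw [pr, Ideal.mem_comap, IsLocalRing.mem_maximalIdeal, PadicInt.mem_nonunits]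
  exact Iff.rfl

/-- If the generator of a power of `v` is not a unit, then `v` is the prime of `J`. -/
theorem eq_pr {J : F →+* ℚ_[2]} {v : HeightOneSpectrum (𝓞 F)} {n : ℕ} {a : 𝓞 F}
    (h : v.asIdeal ^ n = Ideal.span {a}) (hJ : ‖J (a : F)‖ ≠ 1) : v.asIdeal = pr J := by
  have h1 : a ∈ pr J := mem_pr.2 (lt_of_le_of_ne (norm_le J a) hJ)
  have h2 : v.asIdeal ^ n ≤ pr J := by
    rw [h, Ideal.span_singleton_le_iff_mem]
    exact h1
  have h3 : v.asIdeal ≤ pr J := (pr_prime J).le_of_pow_le h2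
  exact v.isMaximal.eq_of_le (pr_prime J).ne_top h3

/-- The two primes above two are different. -/
theorem pr_ne (h8 : q % 8 = 7) (hs : s ^ 2 = -(q : F)) {c : F →+* F}
    (hc : c s = -s) (J : F →+* ℚ_[2]) : pr J ≠ pr (J.comp c) := by
  intro heq
  obtain ⟨n, hn⟩ : ∃ n : ℕ, q + 1 = 8 * n := ⟨(q + 1) / 8, by omega⟩
  have hnF : (q : F) + 1 = 8 * n := by exact_mod_cast hn
  have hint : IsIntegral ℤ ((1 + s) / 2 : F) := by
    refine ⟨Polynomial.X ^ 2 - Polynomial.X + Polynomial.C ((2 * n : ℕ) : ℤ), ?_, ?_⟩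
    · monicity!
    · simp only [Polynomial.eval₂_add, Polynomial.eval₂_sub, Polynomial.eval₂_pow,
        Polynomial.eval₂_X, Polynomial.eval₂_C]
      rw [map_natCast]
      push_cast
      linear_combination (1 / 4 : F) * hs - (1 / 4 : F) * hnF
  obtain ⟨w, hw⟩ : ∃ w : 𝓞 F, (w : F) = (1 + s) / 2 := ⟨⟨_, hint⟩, rfl⟩
  have hww : w * (1 - w) = 2 * n := by
    apply RingOfIntegers.ext
    have e : ((w * (1 - w) : 𝓞 F) : F) = (w : F) * (1 - w) := by simp
    have e' : ((2 * n : 𝓞 F) : F) = 2 * n := by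
      change algebraMap (𝓞 F) F (2 * n) = _
      rw [map_mul, map_natCast, map_ofNat]
    rw [e, e', hw]
    linear_combination (-1 / 4 : F) * hs + (1 / 4 : F) * hnF
  have hcw : c (w : F) = 1 - w := by
    rw [hw, map_div₀, map_add, map_one, hc, map_ofNat]
    ring
  have e1 : ((1 - w : 𝓞 F) : F) = 1 - (w : F) := by simp
  have hcw' : c ((1 - w : 𝓞 F) : F) = w := by
    rw [e1, map_sub, map_one, hcw, sub_sub_cancel]
  have h2 : (2 : 𝓞 F) ∈ pr J := by
    rw [mem_pr]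
    have e : J ((2 : 𝓞 F) : F) = 2 := by
      have h2 : ((2 : 𝓞 F) : F) = 2 := rfl
      rw [h2, map_ofNat]
    rw [e]
    have h3 : ‖(2 : ℚ_[2])‖ = 2⁻¹ := by
      have := Padic.norm_p (p := 2)
      exact_mod_cast this
    rw [h3]
    norm_num
  have h3 : w ∈ pr J ↔ 1 - w ∈ pr J := by
    constructor
    · intro h
      rw [mem_pr, e1, ← hcw]
      have h4 := heq ▸ h
      exact mem_pr.1 h4
    · intro h
      have h4 := heq ▸ h
      rw [mem_pr, RingHom.comp_apply, hcw'] at h4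
      exact mem_pr.2 h4
  have h4 : w * (1 - w) ∈ pr J := by
    rw [hww]
    exact Ideal.mul_mem_right _ _ h2
  have h5 : w ∈ pr J ∧ 1 - w ∈ pr J := by
    rcases (pr_prime J).mem_or_mem h4 with h | h
    · exact ⟨h, h3.1 h⟩
    · exact ⟨h3.2 h, h⟩
  apply (pr_prime J).ne_top
  rw [Ideal.eq_top_iff_one]
  have h6 := Ideal.add_mem _ h5.1 h5.2
  rwa [add_sub_cancel] at h6

/-- Every place has an odd power which is principal. -/
theorem exists_power (hq : q.Prime) (h8 : q % 8 = 7) (hF : Module.finrank ℚ F = 2)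
    (hs : s ^ 2 = -(q : F)) (v : HeightOneSpectrum (𝓞 F)) :
    ∃ (N : ℕ) (t : 𝓞 F), N % 2 = 1 ∧ v.asIdeal ^ N = Ideal.span {t} := by
  obtain ⟨J⟩ := exists_J hq.pos h8 hF hs
  obtain ⟨c, hc⟩ := BKGen.RTwo.exists_conj hq.pos hF hs
  by_cases h : ∀ (n : ℕ) (a : 𝓞 F), v.asIdeal ^ n = Ideal.span {a} → ‖J a‖ = 1
  · exact exists_odd_power hq.pos hF hs hq J v.ne_bot h
  · refine exists_odd_power hq.pos hF hs hq (J.comp c) v.ne_bot fun n a ha => ?_
    by_contra hcon
    push Not at h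
    obtain ⟨m, b, hb, hb1⟩ := h
    exact pr_ne h8 hs hc J ((eq_pr hb hb1).symm.trans (eq_pr ha hcon))

theorem val_pow {v : HeightOneSpectrum (𝓞 F)} {N : ℕ} {t : 𝓞 F} (ht : t ≠ 0)
    (h : v.asIdeal ^ N = Ideal.span {t}) :
    v.valuation F (t : F) = WithZero.exp (-(N : ℤ)) := by
  have hI : Associates.mk v.asIdeal ≠ 0 := by
    rw [Ne, Associates.mk_eq_zero]
    exact v.ne_bot
  rw [RingOfIntegers.coe_eq_algebraMap, v.valuation_of_algebraMap, v.intValuation_if_neg ht, ← h,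
    Associates.mk_pow, Associates.count_pow hI v.associates_irreducible,
    Associates.count_self v.associates_irreducible, mul_one]

theorem val_one {v w : HeightOneSpectrum (𝓞 F)} (hvw : w ≠ v) {N : ℕ} {t : 𝓞 F}
    (h : v.asIdeal ^ N = Ideal.span {t}) : w.valuation F (t : F) = 1 := by
  have h1 : t ∉ w.asIdeal := by
    intro ht
    have h2 : v.asIdeal ^ N ≤ w.asIdeal := by
      rw [h, Ideal.span_singleton_le_iff_mem]
      exact ht
    have h3 : v.asIdeal ≤ w.asIdeal := w.isPrime.le_of_pow_le h2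
    exact hvw (HeightOneSpectrum.ext (v.isMaximal.eq_of_le w.isPrime.ne_top h3).symm)
  rw [RingOfIntegers.coe_eq_algebraMap, w.valuation_of_algebraMap]
  exact (w.intValuation_eq_one_iff).2 h1

end OPRAux

open OPRAux in
/-- Module OPR. -/
theorem stOPR : StOPR := by
  intro q F _ _ s hq h8 hF hs S v _
  obtain ⟨N, t, hN, ht⟩ := exists_power hq h8 hF hs v
  have ht0 : t ≠ 0 := by
    rintro rfl
    rw [Ideal.span_singleton_eq_bot.2 rfl] at ht
    exact pow_ne_zero N v.ne_bot ht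
  have ht0' : (t : F) ≠ 0 := by exact_mod_cast ht0
  refine ⟨Units.mk0 (t : F) ht0', ⟨N / 2, ?_⟩, fun w _ hw => ?_⟩
  · rw [Units.val_mk0, val_pow ht0 ht]
    congr 2
    have : 2 * (N / 2) + 1 = N := by omega
    exact_mod_cast this.symm
  · rw [Units.val_mk0]
    exact val_one hw ht

end BKR
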