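import Pool.Agent.Lib.MP_7c08ba_nt.R1.HSt
import Pool.Agent.Lib.MP_7c08ba_nt.Met.HHP
import Pool.Agent.Lib.MP_7c08ba_nt.Met.HHQ
import Pool.Agent.Lib.MP_7c08ba_nt.Met.HLN

set_option autoImplicit false

/-!
Module R2: reciprocity for `H²(F, 𝔽₂)` at the two places above `2` of an imaginary quadratic field in
which `2` splits (sums of two squares).
-/

noncomputable section

namespace BKR

open NumberField IsDedekindDomain BKGen
open BKOdd (Fx IsKum IsNm)
open BKMet (GQ GF pb1 pb2)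
open BKGlob2 (Cp fs sn LC)

namespace R2Aux

/-! ### Quadratic fields -/

/-- a quadratic field is `ℚ + ℚ s` with `s ^ 2` rational -/
theorem exists_gen (F : Type) [Field F] [NumberField F] (h2 : Module.finrank ℚ F = 2) :
    ∃ (s : F) (d : ℚ), s ^ 2 = (d : F) ∧ ∀ x : F, ∃ a b : ℚ, x = a + b * s := by
  obtain ⟨x, hx⟩ : ∃ x : F, ∀ a : ℚ, (a : F) ≠ x := by
    by_contra hcon
    push Not at hcon
    have h1 : Module.finrank ℚ F = 1 := by
      rw [finrank_eq_one_iff']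
      refine ⟨1, one_ne_zero, fun w => ?_⟩
      obtain ⟨a, ha⟩ := hcon w
      refine ⟨a, ?_⟩
      rw [← ha, Algebra.smul_def, mul_one]
      simp
    omega
  have hli : LinearIndependent ℚ ![(1 : F), x] := by
    rw [LinearIndependent.pair_iff]
    intro a b hab
    rw [Algebra.smul_def, Algebra.smul_def, mul_one, eq_ratCast, eq_ratCast] at hab
    have hb : b = 0 := by
      by_contra hb
      have hb' : (b : F) ≠ 0 := by exact_mod_cast hb
      apply hx (-(a / b))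
      push_cast
      field_simp
      linear_combination -hab
    subst hb
    rw [Rat.cast_zero, zero_mul, add_zero] at hab
    exact ⟨by exact_mod_cast hab, rfl⟩
  have hsp : ∀ y : F, ∃ a b : ℚ, y = a + b * x := by
    intro y
    have h3 := hli.span_eq_top_of_card_eq_finrank (by simp [h2])
    have h4 : y ∈ Submodule.span ℚ (Set.range ![(1 : F), x]) := by
      rw [h3]
      exact Submodule.mem_top
    rw [Matrix.range_cons, Matrix.range_cons, Matrix.range_empty, Set.union_empty,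
      Set.singleton_union, Submodule.mem_span_pair] at h4
    obtain ⟨a, b, hab⟩ := h4
    refine ⟨a, b, ?_⟩
    rw [← hab, Algebra.smul_def, Algebra.smul_def, mul_one, eq_ratCast, eq_ratCast]
  obtain ⟨α, β, hαβ⟩ := hsp (x ^ 2)
  refine ⟨x - β / 2, α + β ^ 2 / 4, ?_, fun y => ?_⟩
  · push_cast
    linear_combination hαβ
  · obtain ⟨a, b, hab⟩ := hsp y
    refine ⟨a + b * β / 2, b, ?_⟩
    rw [hab]
    push_cast
    ring

/-- imaginary quadratic fields -/
theorem neg_of_imag {F : Type} [Field F] [NumberField F] (hF : IsEmpty (F →+* ℝ)) {s : F} {d : ℚ}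
    (hs : s ^ 2 = (d : F)) (hx : ∀ x : F, ∃ a b : ℚ, x = a + b * s) : d < 0 := by
  by_contra hd
  push Not at hd
  have hna : Algebra.IsAlgebraic ℚ F := inferInstance
  let φ : F →+* ℂ := (IsAlgClosed.lift : F →ₐ[ℚ] ℂ).toRingHom
  have h1 : (φ s) ^ 2 = ((Real.sqrt (d : ℝ) : ℝ) : ℂ) ^ 2 := by
    rw [← map_pow, hs, map_ratCast, ← Complex.ofReal_pow, Real.sq_sqrt (by exact_mod_cast hd)]
    simp
  have h2 : (φ s).im = 0 := by
    rcases sq_eq_sq_iff_eq_or_eq_neg.1 h1 with h | h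
    · rw [h]; exact Complex.ofReal_im _
    · rw [h, Complex.neg_im, Complex.ofReal_im, neg_zero]
  have h3 : ∀ x : F, (φ x).im = 0 := by
    intro x
    obtain ⟨a, b, rfl⟩ := hx x
    rw [map_add, map_mul, map_ratCast, map_ratCast, Complex.add_im, Complex.mul_im, h2,
      Complex.ratCast_im, Complex.ratCast_im]
    ring
  exact hF.false
    { toFun := fun x => (φ x).re
      map_one' := by rw [map_one, Complex.one_re]
      map_mul' := fun x y => by rw [map_mul, Complex.mul_re, h3 x, zero_mul, sub_zero]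
      map_zero' := by rw [map_zero, Complex.zero_re]
      map_add' := fun x y => by rw [map_add, Complex.add_re] }

/-! ### Sums of two squares -/

theorem norm_one_add_sq {l : ℕ} [Fact l.Prime] (hl : l % 4 = 3) (t : ℚ_[l]) (ht : ‖t‖ ≤ 1) :
    ‖1 + t ^ 2‖ = 1 := by
  let T : ℤ_[l] := ⟨t, ht⟩
  have h1 : ‖1 + T ^ 2‖ = 1 := by
    by_contra hne
    have hlt : ‖1 + T ^ 2‖ < 1 := lt_of_le_of_ne (PadicInt.norm_le_one _) hne
    have hmem : 1 + T ^ 2 ∈ IsLocalRing.maximalIdeal ℤ_[l] := PadicInt.mem_nonunits.2 hlt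
    rw [← PadicInt.ker_toZMod, RingHom.mem_ker, map_add, map_one, map_pow] at hmem
    have hsq : IsSquare (-1 : ZMod l) :=
      ⟨PadicInt.toZMod T, by linear_combination -hmem⟩
    rw [ZMod.exists_sq_eq_neg_one_iff] at hsq
    exact hsq hl
  exact h1

theorem even_val {l : ℕ} [Fact l.Prime] (hl : l % 4 = 3) {N : ℕ} (hN : N ≠ 0) {A B : ℚ_[l]}
    (h : (N : ℚ_[l]) = A ^ 2 + B ^ 2) : Even (padicValNat l N) := by
  have key : ∀ A B : ℚ_[l], (N : ℚ_[l]) = A ^ 2 + B ^ 2 → ‖B‖ ≤ ‖A‖ →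
      Even (padicValNat l N) := by
    intro A B h hBA
    have hN' : (N : ℚ_[l]) ≠ 0 := by exact_mod_cast hN
    have hA : A ≠ 0 := by
      rintro rfl
      rw [norm_zero] at hBA
      have hB : B = 0 := norm_le_zero_iff.1 hBA
      rw [hB] at h
      apply hN'
      rw [h]
      ring
    have ht : ‖B / A‖ ≤ 1 := by
      rw [norm_div]
      exact div_le_one_of_le₀ hBA (norm_nonneg _)
    have h1 : (N : ℚ_[l]) = A ^ 2 * (1 + (B / A) ^ 2) := by
      rw [h]
      field_simp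
    have h2 : ‖(N : ℚ_[l])‖ = ‖A‖ ^ 2 := by
      rw [h1, norm_mul, norm_pow, norm_one_add_sq hl _ ht, mul_one]
    rw [Padic.norm_eq_zpow_neg_valuation hN', Padic.norm_eq_zpow_neg_valuation hA,
      ← zpow_natCast, ← zpow_mul] at h2
    have hl1 : (1 : ℝ) < l := by exact_mod_cast (Fact.out : l.Prime).one_lt
    have h3 := zpow_right_injective₀ (by linarith) hl1.ne' h2
    rw [Padic.valuation_natCast] at h3
    have h4 : (padicValNat l N : ℤ) = 2 * A.valuation := by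
      have h5 : ((2 : ℕ) : ℤ) = 2 := rfl
      rw [h5] at h3
      linarith
    have h6 : Even (padicValNat l N : ℤ) := ⟨A.valuation, by rw [h4]; ring⟩
    exact_mod_cast h6
  rcases le_total ‖B‖ ‖A‖ with h1 | h1
  · exact key A B h h1
  · exact key B A (by rw [h]; ring) h1

theorem sum_two_sq {n : ℚ} (hn : 0 < n)
    (h : ∀ (l : ℕ) [Fact l.Prime], l % 4 = 3 → ∃ A B : ℚ_[l], (n : ℚ_[l]) = A ^ 2 + B ^ 2) :
    ∃ s t : ℚ, n = s ^ 2 + t ^ 2 := by
  set N : ℕ := n.num.natAbs * n.den with hN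
  have hnum : 0 < n.num := Rat.num_pos.2 hn
  have hN0 : N ≠ 0 := mul_ne_zero (Int.natAbs_ne_zero.2 hnum.ne') n.den_nz
  have hden : (n.den : ℚ) ≠ 0 := by exact_mod_cast n.den_nz
  have hNn : (N : ℚ) = n * (n.den : ℚ) ^ 2 := by
    have h1 : ((n.num.natAbs : ℕ) : ℚ) = (n.num : ℚ) := by
      rw [← Int.cast_natCast, Int.natAbs_of_nonneg hnum.le]
    have h2 : (n.num : ℚ) = n * n.den := (Rat.mul_den_eq_num n).symm
    rw [hN]
    push_cast
    rw [h1, h2]
    ring
  have h3 : ∃ x y : ℕ, N = x ^ 2 + y ^ 2 := by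
    rw [Nat.eq_sq_add_sq_iff]
    intro q hq hq3
    have : Fact q.Prime := ⟨by first | exact hq | exact Nat.prime_of_mem_primeFactors hq⟩
    obtain ⟨A, B, hAB⟩ := h q hq3
    refine even_val hq3 hN0 (A := A * n.den) (B := B * n.den) ?_
    have h4 : (N : ℚ_[q]) = (n : ℚ_[q]) * (n.den : ℚ_[q]) ^ 2 := by exact_mod_cast hNn
    rw [h4, hAB]
    ring
  obtain ⟨x, y, hxy⟩ := h3
  refine ⟨x / n.den, y / n.den, ?_⟩
  have h5 : (N : ℚ) = x ^ 2 + y ^ 2 := by exact_mod_cast hxy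
  rw [hNn] at h5
  field_simp
  linear_combination h5

theorem neg_one_not_sq (x : ℚ_[2]) : x ^ 2 ≠ -1 := by
  intro h
  have h1 : ‖x‖ = 1 := by
    have h2 : ‖x‖ ^ 2 = 1 := by rw [← norm_pow, h, norm_neg, norm_one]
    nlinarith [norm_nonneg x]
  let X : ℤ_[2] := ⟨x, h1.le⟩
  have hX : X ^ 2 = -1 := Subtype.ext h
  have h3 := congrArg (PadicInt.toZModPow 2) hX
  rw [map_pow, map_neg, map_one] at h3
  revert h3
  generalize (PadicInt.toZModPow 2) X = y
  revert y
  decide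

/-! ### Products with the character of `-1` -/

theorem two_cases (x : ZMod 2) : x = 0 ∨ x = 1 := by
  revert x
  decide

theorem two_add (x y : ZMod 2) : x + y = 0 → y = x := by
  revert x y
  decide

theorem one_add_one : (1 : ZMod 2) + 1 = 0 := by decide

/-- The product of the character of `Y` with the character of `-1` vanishes if and only if `Y` is a
sum of two squares. -/
theorem cup_iff {k Ω : Type} [Field k] [Field Ω] [Algebra k Ω] [IsGalois k Ω] [IsAlgClosed Ω]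
    [CharZero Ω] {V : Type} [Group V] [TopologicalSpace V] [IsTopologicalGroup V]
    (e : V →* (Ω ≃ₐ[k] Ω)) (he : Topology.IsOpenEmbedding e) {χ ψ : V → ZMod 2} {Y : Ω}
    (hχ : IsKum e (-1) (-1) χ) (hψ : IsKum e (-1) Y ψ) (hY0 : Y ≠ 0) (hY : Fx e Y) :
    CC.cup ψ χ ∈ CC.B2 (1 : V →* ZMod 2) ↔ ∃ u v, Fx e u ∧ Fx e v ∧ Y = u ^ 2 + v ^ 2 := by
  have hp : Fact (Nat.Prime 2) := inferInstance
  have hζ : IsPrimitiveRoot (-1 : Ω) 2 := IsPrimitiveRoot.neg_one 0 (by norm_num)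
  have hfz : Fx e (-1 : Ω) := by
    intro v
    rw [map_neg, map_one]
  have h20 : (2 : Ω) ≠ 0 := two_ne_zero
  obtain ⟨K1, -, -, K4, K5⟩ := BKOdd.stKum BKOdd.stH90 k Ω V e he 2 (-1) hζ hfz
  obtain ⟨κ, hκZ, hκ⟩ := K1 (-1) (neg_ne_zero.2 one_ne_zero) hfz
  have hκe : κ = χ := K4 _ _ _ hκ hχ
  rw [hκe] at hκZ
  by_cases h0 : χ = 0
  · obtain ⟨i, hi, hi2⟩ := (K5 _ _ hχ).1 h0
    constructor
    · intro _
      refine ⟨(Y + 1) / 2, (Y - 1) / 2 * i, fun w => ?_, fun w => ?_, ?_⟩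
      · rw [map_div₀, map_add, hY w, map_one, map_ofNat]
      · rw [map_mul, map_div₀, map_sub, hY w, map_one, map_ofNat, hi w]
      · rw [mul_pow, hi2]
        field_simp
        ring
    · intro _
      rw [h0]
      have h1 : CC.cup ψ (0 : V → ZMod 2) = 0 := by
        funext a b
        change ψ a * 0 = 0
        rw [mul_zero]
      rw [h1]
      exact Submodule.zero_mem _
  · obtain ⟨σ, hσ⟩ : ∃ σ, χ σ = 1 := by
      by_contra hcon
      push Not at hcon
      exact h0 (funext fun v => (two_cases (χ v)).resolve_right (hcon v))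
    have hadd : ∀ g h, χ (g * h) = χ g + χ h := fun g h => by
      have := hκZ.2 g h
      simpa only [MonoidHom.one_apply, one_mul] using this
    have hone : χ 1 = 0 := by
      have h1 := hadd 1 1
      rw [mul_one] at h1
      exact left_eq_add.1 h1
    have hinv : ∀ g, χ g⁻¹ = χ g := by
      intro g
      have h1 := hadd g g⁻¹
      rw [mul_inv_cancel, hone] at h1
      exact two_add _ _ h1.symm
    let H : Subgroup V :=
      { carrier := {g | χ g = 0}
        one_mem' := hone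
        mul_mem' := by
          intro a b ha hb
          change χ (a * b) = 0
          rw [hadd, show χ a = 0 from ha, show χ b = 0 from hb, add_zero]
        inv_mem' := by
          intro a ha
          change χ a⁻¹ = 0
          rw [hinv]
          exact ha }
    have hH : ∀ g, g ∈ H ↔ χ g = 0 := fun g => Iff.rfl
    have h3 := BKOdd.stL3 BKOdd.stH90 (BKOdd.stKum BKOdd.stH90) k Ω V e he 2 (-1) hζ hfz χ hκZ H hH
      σ hσ Y hY0 hY ψ hψ
    obtain ⟨y, hy0, hy2, hy⟩ := hχ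
    have hyH : ∀ w, χ w = 0 → e w y = y := by
      intro w hw
      rw [hy w, hw, ZMod.val_zero, pow_zero, one_mul]
    have hyN : ∀ w, χ w = 1 → e w y = -y := by
      intro w hw
      rw [hy w, hw, ZMod.val_one, pow_one, neg_one_mul]
    rw [h3]
    constructor
    · rintro ⟨c, hc0, hcH, hcN⟩
      have hcc : c * e σ c = Y := by
        rw [Finset.prod_range_succ, Finset.prod_range_one, pow_zero, pow_one, map_one] at hcN
        exact hcN
      have hc : ∀ w, χ w = 0 → e w c = c := fun w hw => hcH w hw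
      have hc1 : ∀ w, χ w = 1 → e w c = e σ c := by
        intro w hw
        have h4 : e (σ⁻¹ * w) c = c := by
          apply hc
          rw [hadd, hinv, hσ, hw]
          exact one_add_one
        have h5 : w = σ * (σ⁻¹ * w) := by group
        rw [h5, map_mul, AlgEquiv.mul_apply, h4]
      have hc2 : ∀ w, χ w = 0 → e w (e σ c) = e σ c := by
        intro w hw
        rw [← AlgEquiv.mul_apply, ← map_mul]
        apply hc1
        rw [hadd, hw, hσ, zero_add]
      have hc3 : ∀ w, χ w = 1 → e w (e σ c) = c := by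
        intro w hw
        rw [← AlgEquiv.mul_apply, ← map_mul]
        apply hc
        rw [hadd, hw, hσ]
        exact one_add_one
      refine ⟨(c + e σ c) / 2, (c - e σ c) / (2 * y), fun w => ?_, fun w => ?_, ?_⟩
      · rcases two_cases (χ w) with hw | hw
        · rw [map_div₀, map_add, hc w hw, hc2 w hw, map_ofNat]
        · rw [map_div₀, map_add, hc1 w hw, hc3 w hw, map_ofNat, add_comm]
      · rcases two_cases (χ w) with hw | hw
        · rw [map_div₀, map_sub, map_mul, hc w hw, hc2 w hw, map_ofNat, hyH w hw]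
        · rw [map_div₀, map_sub, map_mul, hc1 w hw, hc3 w hw, map_ofNat, hyN w hw]
          field_simp
          ring
      · rw [← hcc, div_pow, div_pow, mul_pow, hy2]
        field_simp
        ring
    · rintro ⟨u, v, hu, hv, hYuv⟩
      have hσc : e σ (u + v * y) = u - v * y := by
        rw [map_add, map_mul, hu σ, hv σ, hyN σ hσ]
        ring
      have hprod : (u + v * y) * (u - v * y) = Y := by
        rw [hYuv]
        linear_combination (-v ^ 2) * hy2
      refine ⟨u + v * y, ?_, fun h hh => ?_, ?_⟩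
      · intro h
        rw [h, zero_mul] at hprod
        exact hY0 hprod.symm
      · rw [map_add, map_mul, hu h, hv h, hyH h hh]
      · rw [Finset.prod_range_succ, Finset.prod_range_one, pow_zero, pow_one, map_one,
          AlgEquiv.one_apply, hσc]
        exact hprod

/-! ### Completions of quadratic fields -/

section Comp

variable {F : Type} [Field F] [NumberField F] {s : F} {d : ℚ}

theorem mem_comp (hs : s ^ 2 = (d : F)) (hx : ∀ x : F, ∃ a b : ℚ, x = a + b * s) {l : ℕ}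
    [Fact l.Prime] (j : F →+* PadicAlgCl l) {y : PadicAlgCl l} (hy : y ∈ comp l j) :
    ∃ u0 u1 : ℚ_[l], y = algebraMap ℚ_[l] (PadicAlgCl l) u0 +
      algebraMap ℚ_[l] (PadicAlgCl l) u1 * j s := by
  have hθ : (j s) ^ 2 = algebraMap ℚ_[l] (PadicAlgCl l) (d : ℚ_[l]) := by
    rw [← map_pow, hs, map_ratCast, map_ratCast]
  have hle : comp l j ≤ IntermediateField.adjoin ℚ_[l] {j s} := by
    unfold comp
    rw [IntermediateField.adjoin_le_iff]
    rintro _ ⟨x, rfl⟩
    obtain ⟨a, b, rfl⟩ := hx x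
    have h1 : j s ∈ IntermediateField.adjoin ℚ_[l] {j s} :=
      IntermediateField.mem_adjoin_simple_self _ _
    rw [SetLike.mem_coe, map_add, map_mul, map_ratCast, map_ratCast]
    refine add_mem ?_ (mul_mem ?_ h1)
    · have := (IntermediateField.adjoin ℚ_[l] {j s}).algebraMap_mem (a : ℚ_[l])
      rwa [map_ratCast] at this
    · have := (IntermediateField.adjoin ℚ_[l] {j s}).algebraMap_mem (b : ℚ_[l])
      rwa [map_ratCast] at this
  have hint : IsIntegral ℚ_[l] (j s) := by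
    refine IsIntegral.of_pow (n := 2) (by norm_num) ?_
    rw [hθ]
    exact isIntegral_algebraMap
  have hy' : y ∈ (IntermediateField.adjoin ℚ_[l] {j s}).toSubalgebra := hle hy
  rw [IntermediateField.adjoin_simple_toSubalgebra_of_isAlgebraic hint.isAlgebraic] at hy'
  clear hy
  induction hy' using Algebra.adjoin_induction with
  | mem x hx' =>
    rw [Set.mem_singleton_iff] at hx'
    exact ⟨0, 1, by rw [hx']; simp⟩
  | algebraMap r => exact ⟨r, 0, by simp⟩
  | add x y _ _ h1 h2 =>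
    obtain ⟨a, b, rfl⟩ := h1
    obtain ⟨a', b', rfl⟩ := h2
    exact ⟨a + a', b + b', by rw [map_add, map_add]; ring⟩
  | mul x y _ _ h1 h2 =>
    obtain ⟨a, b, rfl⟩ := h1
    obtain ⟨a', b', rfl⟩ := h2
    refine ⟨a * a' + b * b' * d, a * b' + a' * b, ?_⟩
    rw [map_add, map_add, map_mul, map_mul, map_mul, map_mul, map_mul]
    linear_combination (algebraMap ℚ_[l] (PadicAlgCl l) b) *
      (algebraMap ℚ_[l] (PadicAlgCl l) b') * hθ

end Comp

/-- The elements fixed by the decomposition group. -/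
theorem fx_iff (hCP : BKGlob2.StCP) (F : Type) [Field F] [NumberField F] (l : ℕ) [Fact l.Prime]
    (j : AlgebraicClosure F →+* PadicAlgCl l) (y : PadicAlgCl l) :
    Fx (sn (MonoidHom.id (GF F)) j) y ↔
      y ∈ comp l (j.comp (algebraMap F (AlgebraicClosure F))) := by
  have hid : Topology.IsOpenEmbedding (MonoidHom.id (GF F)) := Topology.IsOpenEmbedding.id
  obtain ⟨-, -, -, -, h5⟩ := hCP F (AlgebraicClosure F) (GF F) (MonoidHom.id (GF F)) hid l j
  have hE : ∀ x, x ∈ (⊥ : IntermediateField F (AlgebraicClosure F)) ↔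
      Fx (MonoidHom.id (GF F)) x := by
    intro x
    rw [InfiniteGalois.mem_bot_iff_fixed]
    rfl
  obtain ⟨-, h6⟩ := h5 ⊥ hE
  rw [← h6]
  have h7 : Set.range (j.comp (algebraMap (⊥ : IntermediateField F (AlgebraicClosure F))
      (AlgebraicClosure F))) = Set.range (j.comp (algebraMap F (AlgebraicClosure F))) := by
    ext x
    constructor
    · rintro ⟨⟨w, hw⟩, rfl⟩
      obtain ⟨a, ha⟩ := IntermediateField.mem_bot.1 hw
      exact ⟨a, by rw [RingHom.comp_apply, RingHom.comp_apply, ha]; rfl⟩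
    · rintro ⟨a, rfl⟩
      exact ⟨⟨algebraMap F _ a, IntermediateField.mem_bot.2 ⟨a, rfl⟩⟩, rfl⟩
  unfold comp
  rw [h7]

theorem exists_ext {F : Type} [Field F] [NumberField F] {l : ℕ} [Fact l.Prime]
    (φ : F →+* PadicAlgCl l) : ∃ j : AlgebraicClosure F →+* PadicAlgCl l,
    j.comp (algebraMap F (AlgebraicClosure F)) = φ := by
  let _ : Algebra F (PadicAlgCl l) := φ.toAlgebra
  let j : AlgebraicClosure F →ₐ[F] PadicAlgCl l := IsAlgClosed.lift
  refine ⟨(j : AlgebraicClosure F →+* PadicAlgCl l), ?_⟩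
  ext x
  exact j.commutes x

/-- the conjugate embedding -/
theorem exists_conj {F : Type} [Field F] [NumberField F] (h2 : Module.finrank ℚ F = 2) {s : F}
    {d : ℚ} (hs : s ^ 2 = (d : F)) (hx : ∀ x : F, ∃ a b : ℚ, x = a + b * s) {l : ℕ}
    [Fact l.Prime] (φ : F →+* PadicAlgCl l) : ∃ φ' : F →+* PadicAlgCl l, φ' s = -φ s := by
  have hcard : Fintype.card (F →ₐ[ℚ] PadicAlgCl l) = 2 := by rw [AlgHom.card, h2]
  obtain ⟨f, g, hfg⟩ := Fintype.exists_pair_of_one_lt_card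
    (show 1 < Fintype.card (F →ₐ[ℚ] PadicAlgCl l) by rw [hcard]; norm_num)
  have hne : f s ≠ g s := by
    intro h
    apply hfg
    ext x
    obtain ⟨a, b, rfl⟩ := hx x
    rw [map_add, map_mul, map_add, map_mul, h, map_ratCast, map_ratCast, map_ratCast,
      map_ratCast]
  have hsq : ∀ h : F →+* PadicAlgCl l, h s ^ 2 = (d : PadicAlgCl l) := by
    intro h
    rw [← map_pow, hs, map_ratCast]
  have hf : f s ^ 2 = φ s ^ 2 := by rw [hsq φ]; exact hsq f
  have hg : g s ^ 2 = φ s ^ 2 := by rw [hsq φ]; exact hsq g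
  rcases sq_eq_sq_iff_eq_or_eq_neg.1 hf with h1 | h1
  · rcases sq_eq_sq_iff_eq_or_eq_neg.1 hg with h3 | h3
    · exact absurd (h1.trans h3.symm) hne
    · exact ⟨g, h3⟩
  · exact ⟨f, h1⟩

/-! ### The norm of the element -/

/-- the norm of a sum of two squares is a sum of two squares: the nonsplit case -/
theorem norm_sq_nonsplit {l : ℕ} [Fact l.Prime] {θ : PadicAlgCl l} {d b0 b1 : ℚ}
    (hθ : θ ^ 2 = (d : PadicAlgCl l))
    (hn : ∀ t : ℚ_[l], algebraMap ℚ_[l] (PadicAlgCl l) t ≠ θ) {u0 u1 v0 v1 : ℚ_[l]}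
    (h : (b0 : PadicAlgCl l) + b1 * θ =
      (algebraMap ℚ_[l] (PadicAlgCl l) u0 + algebraMap ℚ_[l] (PadicAlgCl l) u1 * θ) ^ 2 +
      (algebraMap ℚ_[l] (PadicAlgCl l) v0 + algebraMap ℚ_[l] (PadicAlgCl l) v1 * θ) ^ 2) :
    ∃ A B : ℚ_[l], ((b0 ^ 2 - d * b1 ^ 2 : ℚ) : ℚ_[l]) = A ^ 2 + B ^ 2 := by
  have hinj : Function.Injective (algebraMap ℚ_[l] (PadicAlgCl l)) :=
    (algebraMap ℚ_[l] (PadicAlgCl l)).injective
  have h1 : algebraMap ℚ_[l] (PadicAlgCl l)
      ((b0 : ℚ_[l]) - (u0 ^ 2 + d * u1 ^ 2 + v0 ^ 2 + d * v1 ^ 2)) +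
      algebraMap ℚ_[l] (PadicAlgCl l) ((b1 : ℚ_[l]) - 2 * (u0 * u1 + v0 * v1)) * θ = 0 := by
    simp only [map_sub, map_add, map_mul, map_pow, map_ratCast, map_ofNat]
    linear_combination h + ((algebraMap ℚ_[l] (PadicAlgCl l) u1) ^ 2 +
      (algebraMap ℚ_[l] (PadicAlgCl l) v1) ^ 2) * hθ
  have h2 : (b1 : ℚ_[l]) - 2 * (u0 * u1 + v0 * v1) = 0 := by
    by_contra hne
    have hne' : algebraMap ℚ_[l] (PadicAlgCl l) ((b1 : ℚ_[l]) - 2 * (u0 * u1 + v0 * v1)) ≠ 0 :=
      (map_ne_zero _).2 hne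
    apply hn (-((b0 : ℚ_[l]) - (u0 ^ 2 + d * u1 ^ 2 + v0 ^ 2 + d * v1 ^ 2)) /
      ((b1 : ℚ_[l]) - 2 * (u0 * u1 + v0 * v1)))
    rw [map_div₀, map_neg]
    rw [div_eq_iff hne']
    linear_combination -h1
  have h3 : (b0 : ℚ_[l]) - (u0 ^ 2 + d * u1 ^ 2 + v0 ^ 2 + d * v1 ^ 2) = 0 := by
    rw [h2, map_zero, zero_mul, add_zero] at h1
    exact (map_eq_zero _).1 h1
  refine ⟨(u0 ^ 2 - d * u1 ^ 2) - (v0 ^ 2 - d * v1 ^ 2), 2 * (u0 * v0 - d * u1 * v1), ?_⟩
  push_cast
  rw [sub_eq_zero] at h2 h3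
  rw [h2, h3]
  ring

/-- the product of two sums of two squares -/
theorem norm_sq_split {K : Type} [Field K] {x y a b a' b' : K} (h : x = a ^ 2 + b ^ 2)
    (h' : y = a' ^ 2 + b' ^ 2) : ∃ A B : K, x * y = A ^ 2 + B ^ 2 :=
  ⟨a * a' - b * b', a * b' + b * a', by rw [h, h']; ring⟩

theorem quot_sq {K : Type} [Field K] {x y n a b p q : K} (h : x = a ^ 2 + b ^ 2)
    (hn : n = p ^ 2 + q ^ 2) (hxy : x * y = n) (hx : x ≠ 0) : ∃ A B : K, y = A ^ 2 + B ^ 2 := by
  refine ⟨(p * a - q * b) / x, (p * b + q * a) / x, ?_⟩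
  have h1 : y = n * x / x ^ 2 := by
    rw [← hxy]
    field_simp
  rw [h1, div_pow, div_pow, ← add_div]
  congr 1
  rw [hn, h]
  ring

/-! ### Vanishing over the field of the fourth roots of unity -/

section Van

/-- the kernel of a character -/
def kerChar {V : Type} [Group V] [TopologicalSpace V] (χ : V → ZMod 2)
    (hχ : χ ∈ CC.Z1 (1 : V →* ZMod 2)) : Subgroup V where
  carrier := {g | χ g = 0}
  one_mem' := by
    have h1 := hχ.2 1 1
    rw [mul_one, MonoidHom.one_apply, one_mul] at h1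
    exact left_eq_add.1 h1
  mul_mem' := by
    intro a b ha hb
    change χ (a * b) = 0
    rw [hχ.2, MonoidHom.one_apply, one_mul, show χ a = 0 from ha, show χ b = 0 from hb, add_zero]
  inv_mem' := by
    intro a ha
    change χ a⁻¹ = 0
    have h0 : χ 1 = 0 := by
      have h1 := hχ.2 1 1
      rw [mul_one, MonoidHom.one_apply, one_mul] at h1
      exact left_eq_add.1 h1
    have h1 := hχ.2 a a⁻¹
    rw [mul_inv_cancel, MonoidHom.one_apply, one_mul, h0, show χ a = 0 from ha, zero_add] at h1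
    exact h1.symm

theorem kerChar_open {V : Type} [Group V] [TopologicalSpace V] (χ : V → ZMod 2)
    (hχ : χ ∈ CC.Z1 (1 : V →* ZMod 2)) : IsOpen (kerChar χ hχ : Set V) :=
  (isOpen_discrete ({0} : Set (ZMod 2))).preimage hχ.1

theorem kerChar_index {V : Type} [Group V] [TopologicalSpace V] (χ : V → ZMod 2)
    (hχ : χ ∈ CC.Z1 (1 : V →* ZMod 2)) (h0 : χ ≠ 0) : (kerChar χ hχ).index = 2 := by
  obtain ⟨σ, hσ⟩ : ∃ σ, χ σ = 1 := by
    by_contra hcon
    push Not at hcon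
    exact h0 (funext fun v => (two_cases (χ v)).resolve_right (hcon v))
  rw [Subgroup.index_eq_two_iff]
  refine ⟨σ, fun b => ?_⟩
  have h1 : χ (b * σ) = χ b + 1 := by
    rw [hχ.2, MonoidHom.one_apply, one_mul, hσ]
  change Xor (χ (b * σ) = 0) (χ b = 0)
  rw [h1]
  rcases two_cases (χ b) with h | h
  · rw [h, zero_add]
    exact Or.inr ⟨rfl, one_ne_zero⟩
  · rw [h, one_add_one]
    exact Or.inl ⟨rfl, one_ne_zero⟩

theorem pb1_Z1 {G D : Type} [Group G] [TopologicalSpace G] [Group D] [TopologicalSpace D]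
    {f : D →* G} (hf : Continuous f) {χ : G → ZMod 2} (hχ : χ ∈ CC.Z1 (1 : G →* ZMod 2)) :
    pb1 f χ ∈ CC.Z1 (1 : D →* ZMod 2) := by
  refine ⟨hχ.1.comp hf, fun a b => ?_⟩
  change χ (f (a * b)) = χ (f a) + _ * χ (f b)
  rw [map_mul, hχ.2]
  rfl

/-- A class which is trivial at the places away from `2` is trivial on the kernel of a character
which does not vanish at the places above `2`. -/
theorem van (hHP : StHP2) (hKIL : StKIL2) (hCP : BKGlob2.StCP) (F : Type) [Field F]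
    [NumberField F] (hF : IsEmpty (F →+* ℝ)) (χ : GF F → ZMod 2)
    (hχ : χ ∈ CC.Z1 (1 : GF F →* ZMod 2))
    (hχ2 : ∀ j : AlgebraicClosure F →+* PadicAlgCl 2, pb1 (fs (MonoidHom.id (GF F)) j) χ ≠ 0)
    (z : GF F → GF F → ZMod 2) (hz : z ∈ CC.Z2 (1 : GF F →* ZMod 2))
    (hloc : ∀ (l : ℕ) [Fact l.Prime], l ≠ 2 → ∀ j : AlgebraicClosure F →+* PadicAlgCl l,
      pb2 (fs (MonoidHom.id (GF F)) j) z ∈ CC.B2 (1 : Cp (MonoidHom.id (GF F)) j →* ZMod 2)) :
    (fun a b : kerChar χ hχ => z a b) ∈ CC.B2 (1 : kerChar χ hχ →* ZMod 2) := by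
  have hid : Topology.IsOpenEmbedding (MonoidHom.id (GF F)) := Topology.IsOpenEmbedding.id
  set H := kerChar χ hχ with hH
  have hHo : IsOpen (H : Set (GF F)) := kerChar_open χ hχ
  have hc : CompactSpace H := isCompact_iff_compactSpace.1 (H.isClosed_of_isOpen hHo).isCompact
  have hna : NonarchimedeanGroup H := BKOdd.nonarch_subgroup H
  refine hHP F (AlgebraicClosure F) hF H ((MonoidHom.id (GF F)).comp H.subtype)
    (hid.comp hHo.isOpenEmbedding_subtypeVal) (fun a b : H => z a b)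
    (BKGlob2.HPAux.Z2_pb (f := H.subtype) continuous_subtype_val hz) ?_
  intro l _ j
  by_cases hl : l = 2
  · subst hl
    obtain ⟨hsn, hfs, hCc, hCn, -⟩ := hCP F (AlgebraicClosure F) (GF F) (MonoidHom.id (GF F))
      hid 2 j
    have hχ' := pb1_Z1 hfs hχ
    have h1 := hKIL 2 (Cp (MonoidHom.id (GF F)) j) (sn (MonoidHom.id (GF F)) j) hsn
      (kerChar _ hχ') (kerChar_open _ hχ') (kerChar_index _ hχ' (hχ2 j))
      (pb2 (fs (MonoidHom.id (GF F)) j) z) (BKGlob2.HPAux.Z2_pb hfs hz)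
    let f : Cp ((MonoidHom.id (GF F)).comp H.subtype) j →* kerChar _ hχ' :=
      (BKGlob2.HPAux.cpSub (MonoidHom.id (GF F)) j H).codRestrict _ (fun x => x.1.1.2)
    have hf : Continuous f :=
      (BKGlob2.HPAux.continuous_cpSub (MonoidHom.id (GF F)) j H).subtype_mk _
    exact BKGlob2.HPAux.B2_pb hf h1
  · exact BKGlob2.HPAux.B2_pb (BKGlob2.HPAux.continuous_cpSub (MonoidHom.id (GF F)) j H)
      (hloc l hl j)

end Van

end R2Aux

open R2Aux in
/-- Module R2: a class in `H²(F, 𝔽₂)` which is trivial at all places but one of the two places above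
`2` is trivial. -/
theorem stR2 (hHP : StHP2) (hKIL : StKIL2) (hCP : BKGlob2.StCP) : StR2 := by
  intro F _ _ hB j0 z hz hloc hj0
  have hid : Topology.IsOpenEmbedding (MonoidHom.id (GF F)) := Topology.IsOpenEmbedding.id
  obtain ⟨s, d, hs, hx⟩ := exists_gen F hB.quad
  have hd : d < 0 := neg_of_imag hB.imag hs hx
  -- the places above `2`
  obtain ⟨g⟩ := hB.split
  have hgs : g s ^ 2 = (d : ℚ_[2]) := by rw [← map_pow, hs, map_ratCast]
  have hpl : ∀ φ : F →+* PadicAlgCl 2, ∃ t : ℚ_[2], φ s = algebraMap ℚ_[2] (PadicAlgCl 2) t ∧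
      (t = g s ∨ t = -g s) := by
    intro φ
    have h1 : φ s ^ 2 = (algebraMap ℚ_[2] (PadicAlgCl 2) (g s)) ^ 2 := by
      rw [← map_pow, hs, ← map_pow, hgs, map_ratCast, map_ratCast]
    rcases sq_eq_sq_iff_eq_or_eq_neg.1 h1 with h2 | h2
    · exact ⟨g s, h2, Or.inl rfl⟩
    · exact ⟨-g s, by rw [h2, map_neg], Or.inr rfl⟩
  have hcomp2 : ∀ (j : AlgebraicClosure F →+* PadicAlgCl 2) (y : PadicAlgCl 2),
      Fx (sn (MonoidHom.id (GF F)) j) y → ∃ t : ℚ_[2], y = algebraMap ℚ_[2] (PadicAlgCl 2) t := by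
    intro j y hy
    rw [fx_iff hCP] at hy
    obtain ⟨u0, u1, hu⟩ := mem_comp hs hx _ hy
    obtain ⟨t, ht, -⟩ := hpl (j.comp (algebraMap F (AlgebraicClosure F)))
    exact ⟨u0 + u1 * t, by rw [hu, ht, map_add, map_mul]⟩
  -- the character of `-1`
  have hfz : Fx (MonoidHom.id (GF F)) (-1 : AlgebraicClosure F) := by
    intro v
    rw [map_neg, map_one]
  have hζ : IsPrimitiveRoot (-1 : AlgebraicClosure F) 2 :=
    IsPrimitiveRoot.neg_one 0 (by norm_num)
  obtain ⟨K1, K2, -, K4, K5⟩ := BKOdd.stKum BKOdd.stH90 F (AlgebraicClosure F) (GF F)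
    (MonoidHom.id (GF F)) hid 2 (-1) hζ hfz
  obtain ⟨χ, hχZ, hχ⟩ := K1 (-1) (neg_ne_zero.2 one_ne_zero) hfz
  have hKloc : ∀ (l : ℕ) [Fact l.Prime] (j : AlgebraicClosure F →+* PadicAlgCl l)
      (a : AlgebraicClosure F) (κ : GF F → ZMod 2), IsKum (MonoidHom.id (GF F)) (-1) a κ →
      IsKum (sn (MonoidHom.id (GF F)) j) (-1) (j a) (pb1 (fs (MonoidHom.id (GF F)) j) κ) := by
    intro l _ j a κ h
    have h1 := BKGlob2.LNAux.isKum_loc (MonoidHom.id (GF F)) j h
    rwa [map_neg, map_one] at h1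
  have hχ2 : ∀ j : AlgebraicClosure F →+* PadicAlgCl 2,
      pb1 (fs (MonoidHom.id (GF F)) j) χ ≠ 0 := by
    intro j h0
    obtain ⟨hsn, -, -, -, -⟩ := hCP F (AlgebraicClosure F) (GF F) (MonoidHom.id (GF F)) hid 2 j
    have hfz' : Fx (sn (MonoidHom.id (GF F)) j) (-1 : PadicAlgCl 2) := by
      intro v
      rw [map_neg, map_one]
    have hζ' : IsPrimitiveRoot (-1 : PadicAlgCl 2) 2 :=
      IsPrimitiveRoot.neg_one 0 (by norm_num)
    obtain ⟨-, -, -, -, K5'⟩ := BKOdd.stKum BKOdd.stH90 ℚ_[2] (PadicAlgCl 2)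
      (Cp (MonoidHom.id (GF F)) j) (sn (MonoidHom.id (GF F)) j) hsn 2 (-1) hζ' hfz'
    have h1 := hKloc 2 j (-1) χ hχ
    rw [map_neg, map_one] at h1
    obtain ⟨b, hb, hb2⟩ := (K5' _ _ h1).1 h0
    obtain ⟨t, rfl⟩ := hcomp2 j b hb
    apply neg_one_not_sq t
    apply (algebraMap ℚ_[2] (PadicAlgCl 2)).injective
    rw [map_pow, hb2, map_neg, map_one]
  have hχ0 : χ ≠ 0 := by
    rintro rfl
    exact hχ2 j0 rfl
  -- the class is trivial over the field of the fourth roots of unity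
  have hvan := van hHP hKIL hCP F hB.imag χ hχZ hχ2 z hz hloc
  obtain ⟨ψ, hψ, hzψ⟩ := BKOdd.stL1 BKOdd.stH90 (BKOdd.stKum BKOdd.stH90) F (AlgebraicClosure F)
    (GF F) (MonoidHom.id (GF F)) hid 2 (-1) hζ hfz χ hχZ hχ0 (kerChar χ hχZ) (fun _ => Iff.rfl) z
    hz hvan
  obtain ⟨Y, hY0, hYf, hYk⟩ := K2 ψ hψ
  obtain ⟨b, rfl⟩ : ∃ b : F, algebraMap F (AlgebraicClosure F) b = Y := by
    have h1 : Y ∈ (⊥ : IntermediateField F (AlgebraicClosure F)) := by
      rw [InfiniteGalois.mem_bot_iff_fixed]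
      exact hYf
    exact IntermediateField.mem_bot.1 h1
  have hb : b ≠ 0 := by
    rintro rfl
    exact hY0 (map_zero _)
  obtain ⟨b0, b1, hb01⟩ := hx b
  -- local sums of two squares
  have hcup : ∀ (l : ℕ) [Fact l.Prime] (j : AlgebraicClosure F →+* PadicAlgCl l),
      (pb2 (fs (MonoidHom.id (GF F)) j) (CC.cup ψ χ) ∈
        CC.B2 (1 : Cp (MonoidHom.id (GF F)) j →* ZMod 2) ↔
      ∃ u v, Fx (sn (MonoidHom.id (GF F)) j) u ∧ Fx (sn (MonoidHom.id (GF F)) j) v ∧
        j (algebraMap F (AlgebraicClosure F) b) = u ^ 2 + v ^ 2) := by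
    intro l _ j
    obtain ⟨hsn, -, -, -, -⟩ := hCP F (AlgebraicClosure F) (GF F) (MonoidHom.id (GF F)) hid l j
    have h1 := hKloc l j (-1) χ hχ
    rw [map_neg, map_one] at h1
    exact cup_iff (sn (MonoidHom.id (GF F)) j) hsn h1 (hKloc l j _ ψ hYk) ((map_ne_zero j).2 hY0)
      (BKGlob2.LNAux.fx_loc (MonoidHom.id (GF F)) j hYf)
  have hiff : ∀ (l : ℕ) [Fact l.Prime] (j : AlgebraicClosure F →+* PadicAlgCl l),
      (pb2 (fs (MonoidHom.id (GF F)) j) z ∈
        CC.B2 (1 : Cp (MonoidHom.id (GF F)) j →* ZMod 2) ↔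
      pb2 (fs (MonoidHom.id (GF F)) j) (CC.cup ψ χ) ∈
        CC.B2 (1 : Cp (MonoidHom.id (GF F)) j →* ZMod 2)) := by
    intro l _ j
    have h2 : pb2 (fs (MonoidHom.id (GF F)) j) (z - CC.cup ψ χ) ∈
        CC.B2 (1 : Cp (MonoidHom.id (GF F)) j →* ZMod 2) :=
      BKGlob2.HPAux.B2_pb (hCP F (AlgebraicClosure F) (GF F) (MonoidHom.id (GF F)) hid l j).2.1 hzψ
    have h3 : pb2 (fs (MonoidHom.id (GF F)) j) (z - CC.cup ψ χ) =
        pb2 (fs (MonoidHom.id (GF F)) j) z - pb2 (fs (MonoidHom.id (GF F)) j) (CC.cup ψ χ) := rfl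
    rw [h3] at h2
    constructor
    · intro h
      have := (CC.B2 (1 : Cp (MonoidHom.id (GF F)) j →* ZMod 2)).sub_mem h h2
      rwa [sub_sub_cancel] at this
    · intro h
      have := (CC.B2 (1 : Cp (MonoidHom.id (GF F)) j →* ZMod 2)).add_mem h2 h
      rwa [sub_add_cancel] at this
  have hsum : ∀ (l : ℕ) [Fact l.Prime], l ≠ 2 → ∀ φ : F →+* PadicAlgCl l,
      ∃ u0 u1 v0 v1 : ℚ_[l], (b0 : PadicAlgCl l) + b1 * φ s =
      (algebraMap ℚ_[l] (PadicAlgCl l) u0 + algebraMap ℚ_[l] (PadicAlgCl l) u1 * φ s) ^ 2 +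
      (algebraMap ℚ_[l] (PadicAlgCl l) v0 + algebraMap ℚ_[l] (PadicAlgCl l) v1 * φ s) ^ 2 := by
    intro l _ hl φ
    obtain ⟨j, rfl⟩ := exists_ext φ
    obtain ⟨u, v, hu, hv, huv⟩ := (hcup l j).1 ((hiff l j).1 (hloc l hl j))
    rw [fx_iff hCP] at hu hv
    obtain ⟨u0, u1, rfl⟩ := mem_comp hs hx _ hu
    obtain ⟨v0, v1, rfl⟩ := mem_comp hs hx _ hv
    refine ⟨u0, u1, v0, v1, ?_⟩
    rw [← huv, hb01, map_add, map_mul, map_ratCast, map_ratCast, map_add, map_mul, map_ratCast,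
      map_ratCast]
    rfl
  -- the norm
  set n : ℚ := b0 ^ 2 - d * b1 ^ 2 with hn
  have hn0 : 0 < n := by
    have h1 : 0 ≤ -d * b1 ^ 2 := mul_nonneg (by linarith) (sq_nonneg _)
    rcases eq_or_ne b0 0 with h0 | h0
    · have h2 : b1 ≠ 0 := by
        rintro rfl
        apply hb
        rw [hb01, h0]
        simp
      have h3 : 0 < -d * b1 ^ 2 := mul_pos (by linarith) (by positivity)
      nlinarith [sq_nonneg b0]
    · have h3 : 0 < b0 ^ 2 := by positivity
      nlinarith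
  have hnl : ∀ (l : ℕ) [Fact l.Prime], l % 4 = 3 → ∃ A B : ℚ_[l], (n : ℚ_[l]) = A ^ 2 + B ^ 2 := by
    intro l _ hl
    have hl2 : l ≠ 2 := by
      rintro rfl
      norm_num at hl
    let φ : F →+* PadicAlgCl l := (IsAlgClosed.lift : F →ₐ[ℚ] PadicAlgCl l).toRingHom
    have hθ : φ s ^ 2 = (d : PadicAlgCl l) := by rw [← map_pow, hs, map_ratCast]
    obtain ⟨u0, u1, v0, v1, h1⟩ := hsum l hl2 φ
    by_cases hsp : ∃ t : ℚ_[l], algebraMap ℚ_[l] (PadicAlgCl l) t = φ s
    · obtain ⟨t, ht⟩ := hsp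
      obtain ⟨φ', hφ'⟩ := exists_conj hB.quad hs hx φ
      obtain ⟨u0', u1', v0', v1', h2⟩ := hsum l hl2 φ'
      rw [hφ', ← ht] at h2
      rw [← ht] at h1
      have h3 : (b0 : ℚ_[l]) + b1 * t = (u0 + u1 * t) ^ 2 + (v0 + v1 * t) ^ 2 := by
        apply (algebraMap ℚ_[l] (PadicAlgCl l)).injective
        simp only [map_add, map_mul, map_pow, map_ratCast]
        exact h1
      have h4 : (b0 : ℚ_[l]) - b1 * t = (u0' - u1' * t) ^ 2 + (v0' - v1' * t) ^ 2 := by
        apply (algebraMap ℚ_[l] (PadicAlgCl l)).injective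
        simp only [map_sub, map_add, map_mul, map_pow, map_ratCast]
        linear_combination h2
      obtain ⟨A, B, hAB⟩ := norm_sq_split h3 h4
      refine ⟨A, B, ?_⟩
      rw [← hAB, hn]
      have h5 : t ^ 2 = (d : ℚ_[l]) := by
        apply (algebraMap ℚ_[l] (PadicAlgCl l)).injective
        rw [map_pow, ht, hθ, map_ratCast]
      push_cast
      linear_combination (b1 : ℚ_[l]) ^ 2 * h5
    · push Not at hsp
      exact norm_sq_nonsplit hθ hsp h1
  obtain ⟨p, q, hpq⟩ := sum_two_sq hn0 hnl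
  -- the places above `2`
  have hfield2 : ∀ (j : AlgebraicClosure F →+* PadicAlgCl 2) (t : ℚ_[2]),
      Fx (sn (MonoidHom.id (GF F)) j) (algebraMap ℚ_[2] (PadicAlgCl 2) t) := by
    intro j t w
    exact AlgEquiv.commutes _ _
  have hval : ∀ (j : AlgebraicClosure F →+* PadicAlgCl 2) (t : ℚ_[2]),
      j (algebraMap F (AlgebraicClosure F) s) = algebraMap ℚ_[2] (PadicAlgCl 2) t →
      j (algebraMap F (AlgebraicClosure F) b) =
        algebraMap ℚ_[2] (PadicAlgCl 2) ((b0 : ℚ_[2]) + b1 * t) := by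
    intro j t ht
    rw [hb01, map_add, map_mul, map_ratCast, map_ratCast, map_add, map_mul, map_ratCast,
      map_ratCast, ht, map_add, map_mul, map_ratCast, map_ratCast]
  obtain ⟨t0, ht0, ht0'⟩ := hpl (j0.comp (algebraMap F (AlgebraicClosure F)))
  have ht02 : t0 ^ 2 = (d : ℚ_[2]) := by
    rcases ht0' with h | h
    · rw [h, hgs]
    · rw [h, neg_sq, hgs]
  have h0 : ∃ A B : ℚ_[2], (b0 : ℚ_[2]) + b1 * t0 = A ^ 2 + B ^ 2 := by
    obtain ⟨u, v, hu, hv, huv⟩ := (hcup 2 j0).1 ((hiff 2 j0).1 hj0)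
    obtain ⟨u', rfl⟩ := hcomp2 j0 u hu
    obtain ⟨v', rfl⟩ := hcomp2 j0 v hv
    refine ⟨u', v', ?_⟩
    rw [hval j0 t0 ht0] at huv
    apply (algebraMap ℚ_[2] (PadicAlgCl 2)).injective
    rw [huv, map_add, map_pow, map_pow]
  have hn2 : (n : ℚ_[2]) = p ^ 2 + q ^ 2 := by
    rw [hpq]
    push_cast
    rfl
  have hprod : ((b0 : ℚ_[2]) + b1 * t0) * (b0 - b1 * t0) = n := by
    rw [hn]
    push_cast
    linear_combination (-(b1 : ℚ_[2]) ^ 2) * ht02
  have hb0 : (b0 : ℚ_[2]) + b1 * t0 ≠ 0 := by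
    intro h
    rw [h, zero_mul] at hprod
    have h1 : (n : ℚ_[2]) ≠ 0 := by exact_mod_cast hn0.ne'
    exact h1 hprod.symm
  have h2 : ∀ j : AlgebraicClosure F →+* PadicAlgCl 2,
      pb2 (fs (MonoidHom.id (GF F)) j) z ∈
        CC.B2 (1 : Cp (MonoidHom.id (GF F)) j →* ZMod 2) := by
    intro j
    rw [hiff 2 j, hcup 2 j]
    obtain ⟨t, ht, ht'⟩ := hpl (j.comp (algebraMap F (AlgebraicClosure F)))
    have hor : t = t0 ∨ t = -t0 := by
      rcases ht' with h | h <;> rcases ht0' with h' | h'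
      · exact Or.inl (h.trans h'.symm)
      · exact Or.inr (by rw [h, h', neg_neg])
      · exact Or.inr (by rw [h, h'])
      · exact Or.inl (h.trans h'.symm)
    have key : ∃ A B : ℚ_[2], (b0 : ℚ_[2]) + b1 * t = A ^ 2 + B ^ 2 := by
      obtain ⟨A, B, hAB⟩ := h0
      rcases hor with h | h
      · exact ⟨A, B, by rw [h, hAB]⟩
      · obtain ⟨A', B', hAB'⟩ := quot_sq hAB hn2 hprod hb0
        refine ⟨A', B', ?_⟩
        rw [h, ← hAB']
        ring
    obtain ⟨A, B, hAB⟩ := key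
    refine ⟨algebraMap ℚ_[2] (PadicAlgCl 2) A, algebraMap ℚ_[2] (PadicAlgCl 2) B, hfield2 j A,
      hfield2 j B, ?_⟩
    rw [hval j t ht, hAB, map_add, map_pow, map_pow]
  -- the Hasse principle
  refine hHP F (AlgebraicClosure F) hB.imag (GF F) (MonoidHom.id (GF F)) hid z hz ?_
  intro l _ j
  by_cases hl : l = 2
  · subst hl
    exact h2 j
  · exact hloc l hl j

end BKR
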