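import Pool.Agent.Lib.MP_7c08ba_nt.R1.HSt
import Pool.Agent.Lib.MP_7c08ba_nt.Met.HHA

set_option autoImplicit false

/-!
Project R1, module RA2: a class in `H²(F, ℚ₂ / ℤ₂(χ))` which is trivial at all places but one of the
two places above `2` is trivial.
-/

noncomputable section

namespace BKR

open NumberField IsDedekindDomain BKGen BKGen.SUnits
open BKOdd (Fx IsKum chm)
open BKLoc2 (cl im cy cyL Sys IsKP IsHom)
open BKMet (QZ actA GF GQ cycF RS GS pb1 pb2)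
open BKPar (Loc1 Loc2)
open BKGlob2 (Cp fs sn LC dc SP Prin CC0 StCP StCY)

namespace RA2Aux

/-- the cyclotomic character modulo two is trivial -/
theorem chm_two {G : Type*} [Group G] (χ : G →* ℤ_[2]ˣ) : chm χ = 1 := by
  ext1 g
  have h : ∀ x : ZMod 2, IsUnit x → x = 1 := by decide
  refine h _ ?_
  have h1 : IsUnit ((Units.map ((PadicInt.toZMod (p := 2)) : ℤ_[2] →* ZMod 2) (χ g) :
      (ZMod 2)ˣ) : ZMod 2) := Units.isUnit _
  exact h1

theorem nonarchF (F : Type) [Field F] : NonarchimedeanGroup (GF F) where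
  is_nonarchimedean U hU := by
    obtain ⟨E, hE, hEU⟩ := krullTopology_mem_nhds_one_iff F (AlgebraicClosure F) U |>.1 hU
    exact ⟨⟨E.fixingSubgroup, IntermediateField.fixingSubgroup_isOpen E⟩, hEU⟩

/-- A class with coefficients `𝔽₂` whose image in the classes with coefficients `ℚ₂ / ℤ₂(χ)`
differs by a coboundary from a class `β` is trivial at every place where `β` is trivial. -/
theorem place (hCP : StCP) (hCY : StCY) (hPA : BKLoc2.StPA) (hZ1A : BKLoc2.StZ1A)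
    {F : Type} [Field F] [NumberField F] {β : GF F → GF F → QZ 2} {y : GF F → GF F → ZMod 2}
    (hy : y ∈ CC.Z2 (1 : GF F →* ZMod 2)) (hy' : β - im y ∈ BKND.B2 (actA (cycF 2 F)))
    {l : ℕ} [Fact l.Prime] (j : AlgebraicClosure F →+* PadicAlgCl l)
    (hl : pb2 (fs (MonoidHom.id (GF F)) j) β ∈
      BKND.B2 (actA ((cycF 2 F).comp (fs (MonoidHom.id (GF F)) j)))) :
    pb2 (fs (MonoidHom.id (GF F)) j) y ∈
      CC.B2 (1 : Cp (MonoidHom.id (GF F)) j →* ZMod 2) := by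
  have : NonarchimedeanGroup (GF F) := nonarchF F
  have he : Topology.IsOpenEmbedding (MonoidHom.id (GF F)) := Topology.IsOpenEmbedding.id
  have hχc : Continuous (cycF 2 F) := cyclotomicCharacter.continuous 2 F (AlgebraicClosure F)
  obtain ⟨c1, c2, c3, c4, -⟩ := hCP F (AlgebraicClosure F) (GF F) (MonoidHom.id (GF F)) he l j
  have hχ' : (cycF 2 F).comp (fs (MonoidHom.id (GF F)) j) =
      (cyL 2 l).comp (sn (MonoidHom.id (GF F)) j) := by
    ext x
    have := (hCY 2 F (AlgebraicClosure F) ℚ_[l] (PadicAlgCl l)).2 j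
      ((MonoidHom.id (GF F)) (fs (MonoidHom.id (GF F)) j x)) (sn (MonoidHom.id (GF F)) j x)
      (BKGlob2.Cp_rel (MonoidHom.id (GF F)) j x)
    exact congrArg (fun u : ℤ_[2]ˣ => (u : ℤ_[2])) this
  obtain ⟨-, -, -, pa4, -⟩ := hPA 2 (Cp (MonoidHom.id (GF F)) j)
    ((cycF 2 F).comp (fs (MonoidHom.id (GF F)) j)) (hχc.comp c2)
  rw [chm_two] at pa4
  refine pa4 ?_ _ ?_ ?_
  · obtain ⟨z₀, hz₀⟩ := (hCY 2 ℚ_[l] (PadicAlgCl l) ℚ_[l] (PadicAlgCl l)).1
    obtain ⟨-, -, -, kp, -⟩ := BKLoc2.stKPE 2 ℚ_[l] (PadicAlgCl l)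
      (Cp (MonoidHom.id (GF F)) j) (sn (MonoidHom.id (GF F)) j) c1.continuous z₀ hz₀
    rw [hχ']
    intro β hβ
    obtain ⟨a, ha, -, κ, hκ, m, hm⟩ := hZ1A 2 ℚ_[l] (PadicAlgCl l)
      (Cp (MonoidHom.id (GF F)) j) (sn (MonoidHom.id (GF F)) j) c1 z₀ hz₀ β hβ
    have hκ' := kp a κ ha hκ
    refine ⟨_, BKGlob2.HA.div_kum hκ' (m + 1), ?_⟩
    funext v
    rw [hm]
    change _ = 2 • cl 2 ((κ v : ℚ_[2]) / ((2 : ℕ) : ℚ_[2]) ^ (m + 1))
    rw [BKLoc2.PAAux.nsmul_cl]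
    congr 1
    have hpne := BKLoc2.PAAux.p_ne (p := 2)
    field_simp
    ring
  · have h0 := BKGlob2.HA.Z2_pb c2 hy
    exact h0
  · have h2 : pb2 (fs (MonoidHom.id (GF F)) j) (β - im y) ∈
        BKND.B2 (actA ((cycF 2 F).comp (fs (MonoidHom.id (GF F)) j))) :=
      BKGlob2.HA.B2_pb c2 hy'
    have h3 := sub_mem hl h2
    have h4 : pb2 (fs (MonoidHom.id (GF F)) j) β -
        pb2 (fs (MonoidHom.id (GF F)) j) (β - im y) =
        im (pb2 (fs (MonoidHom.id (GF F)) j) y) := by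
      funext a b
      change β _ _ - (β _ _ - im y _ _) = im y _ _
      rw [sub_sub_cancel]
    rwa [h4] at h3

end RA2Aux

open RA2Aux

/-- Module RA2: a class in `H²(F, ℚ₂ / ℤ₂(χ))` which is trivial at all places but one of the two
places above `2` is trivial. -/
theorem stRA2 (hR2 : StR2) (hCP : StCP) (hCY : StCY) (hPA : BKLoc2.StPA)
    (hZ1A : BKLoc2.StZ1A) : StRA2 := by
  classical
  intro F _ _ hB e z hz hl hle
  have : NonarchimedeanGroup (GF F) := nonarchF F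
  have hχc : Continuous (cycF 2 F) := cyclotomicCharacter.continuous 2 F (AlgebraicClosure F)
  obtain ⟨pa1, pa2, pa3, -, pa5⟩ := hPA 2 (GF F) (cycF 2 F) hχc
  rw [chm_two] at pa1 pa3
  by_contra hcon
  have hex : ∃ n : ℕ, 2 ^ n • z ∈ BKND.B2 (actA (cycF 2 F)) := by
    obtain ⟨n, hn⟩ := pa5 z hz
    exact ⟨n, by rw [hn]; exact zero_mem _⟩
  obtain ⟨n, hn, hmin⟩ : ∃ n : ℕ, 2 ^ (n + 1) • z ∈ BKND.B2 (actA (cycF 2 F)) ∧
      2 ^ n • z ∉ BKND.B2 (actA (cycF 2 F)) := by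
    have h0 : Nat.find hex ≠ 0 := by
      intro h
      have := Nat.find_spec hex
      rw [h, pow_zero, one_smul] at this
      exact hcon this
    obtain ⟨m, hm⟩ := Nat.exists_eq_succ_of_ne_zero h0
    refine ⟨m, ?_, Nat.find_min hex (by omega)⟩
    have := Nat.find_spec hex
    rwa [hm] at this
  have hz' : 2 ^ n • z ∈ BKND.Z2 (actA (cycF 2 F)) := nsmul_mem hz _
  obtain ⟨y, hy, hy'⟩ := pa1 _ hz' (by rw [smul_smul, ← pow_succ']; exact hn)
  refine hmin ?_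
  have hyB : y ∈ CC.B2 (1 : GF F →* ZMod 2) := by
    refine hR2 F hB e y hy (fun l _ hl2 j => ?_) ?_
    · exact place hCP hCY hPA hZ1A hy hy' j (nsmul_mem (hl l hl2 j) (2 ^ n))
    · exact place hCP hCY hPA hZ1A hy hy' e (nsmul_mem hle (2 ^ n))
  have h5 := add_mem hy' (pa3 y hyB)
  rwa [sub_add_cancel] at h5

end BKR
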