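import Pool.Agent.Lib.MP_7c08ba_nt.R1.HSt
import Pool.Agent.Lib.MP_7c08ba_nt.Met.HRQ

set_option autoImplicit false

/-!
Module RQ2: a homomorphism from the group generated by the inertia groups outside `P` to `ℤ/2` which
is invariant under the Galois group of `F` extends to the Galois group of `F`.
-/

noncomputable section

namespace BKR

open NumberField IsDedekindDomain BKGen BKGen.SUnits
open BKOdd (Fx IsKum stKum stH90)
open BKMet (GF GQ RS)
open BKPar (Loc1)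
open BKGlob2 (SP StFR StTI StPA)

namespace RQ2Aux

open BKGlob2.RQAux

lemma zmod2 : ∀ a : ZMod 2, a = 0 ∨ a = 1 := by decide

/-- the Kummer characters of two elements agree on the inertia group, if the valuation of the first
one is an odd multiple of the valuation of the second one -/
lemma kum_agree {F : Type} [Field F] {U : Subgroup (GF F)} {ζ x π : AlgebraicClosure F}
    (hζ : IsPrimitiveRoot ζ 2) {κ κ' : U → ZMod 2} (hκ : IsKum U.subtype ζ x κ)
    (hκ' : IsKum U.subtype ζ π κ') {l : ℕ} [Fact l.Prime] (hl : l ≠ 2)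
    (j : AlgebraicClosure F →+* PadicAlgCl l) (n : ℕ) (h : ‖j x‖ = ‖j π‖ ^ (2 * n + 1))
    {g : GF F} (hg : g ∈ U) (hgi : g ∈ Inert F (AlgebraicClosure F) j) :
    κ ⟨g, hg⟩ = κ' ⟨g, hg⟩ := by
  have hp2 : Fact (Nat.Prime 2) := ⟨Nat.prime_two⟩
  obtain ⟨y, hy, hyp, hyκ⟩ := hκ
  obtain ⟨z, hz, hzp, hzκ⟩ := hκ'
  have hζ1 : ζ = -1 := hζ.eq_neg_one_of_two_right
  have ht0 : z ^ (2 * n + 1) ≠ 0 := pow_ne_zero _ hz
  have hjt0 : ‖j (z ^ (2 * n + 1))‖ ≠ 0 := by
    rw [Ne, norm_eq_zero, map_eq_zero]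
    exact ht0
  have h1 : ‖j (y / z ^ (2 * n + 1))‖ = 1 := by
    have h2 : ‖j (y / z ^ (2 * n + 1))‖ ^ 2 = 1 := by
      rw [map_div₀, norm_div, div_pow, ← norm_pow, ← norm_pow, ← map_pow, ← map_pow, hyp, h,
        ← pow_mul, mul_comm (2 * n + 1) 2, pow_mul, hzp, map_pow, norm_pow]
      refine div_self ?_
      rw [← hzp, map_pow, norm_pow]
      refine pow_ne_zero _ (pow_ne_zero _ ?_)
      rw [Ne, norm_eq_zero, map_eq_zero]
      exact hz
    exact (pow_eq_one_iff_of_nonneg (norm_nonneg _) two_ne_zero).1 h2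
  have h2 := hgi _ h1.le
  have hgy : g y = ζ ^ (κ ⟨g, hg⟩).val * y := hyκ ⟨g, hg⟩
  have hgz : g z = ζ ^ (κ' ⟨g, hg⟩).val * z := hzκ ⟨g, hg⟩
  have hval : ∀ a : ZMod 2, a = 0 ∨ a = 1 := zmod2
  have hne : ∀ (s : AlgebraicClosure F), s = -1 →
      ‖j (s * (y / z ^ (2 * n + 1)) - y / z ^ (2 * n + 1))‖ = 1 := by
    intro s hs
    have h3 : j (s * (y / z ^ (2 * n + 1)) - y / z ^ (2 * n + 1)) =
        ((-1 : PadicAlgCl l) - 1) * j (y / z ^ (2 * n + 1)) := by
      rw [hs, map_sub, map_mul, map_neg, map_one]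
      ring
    rw [h3, norm_mul, h1, mul_one]
    refine norm_root_sub_one (N := 2) ?_ (by norm_num) ?_
    · intro hd
      exact hl ((Nat.prime_dvd_prime_iff_eq (Fact.out : l.Prime) Nat.prime_two).1 hd)
    · norm_num
  have hgt : g (y / z ^ (2 * n + 1)) =
      (ζ ^ (κ ⟨g, hg⟩).val / (ζ ^ (κ' ⟨g, hg⟩).val) ^ (2 * n + 1)) * (y / z ^ (2 * n + 1)) := by
    rw [map_div₀, map_pow, hgy, hgz, mul_pow, div_mul_div_comm]
  rw [hgt] at h2
  rcases hval (κ ⟨g, hg⟩) with h3 | h3 <;> rcases hval (κ' ⟨g, hg⟩) with h4 | h4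
  · rw [h3, h4]
  · exfalso
    rw [hne _ (by
      rw [h3, h4, hζ1, ZMod.val_zero, ZMod.val_one, pow_zero, pow_one,
        Odd.neg_one_pow ⟨n, rfl⟩]
      norm_num)] at h2
    exact lt_irrefl _ h2
  · exfalso
    rw [hne _ (by
      rw [h3, h4, hζ1, ZMod.val_zero, ZMod.val_one, pow_zero, pow_one, one_pow, div_one])] at h2
    exact lt_irrefl _ h2
  · rw [h3, h4]

/-- the Kummer character at one prime -/
lemma one_prime2 (hTI : StTI) (hPA : StPA) {F : Type} [Field F] [NumberField F] {P : Set ℕ}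
    (hP : ∀ l ∈ P, l.Prime) (h2P : 2 ∈ P) (hO : OPrin (SP F P)) {ζ : AlgebraicClosure F}
    (hζ : IsPrimitiveRoot ζ 2) (hζU : ∀ g : GF F, g ζ = ζ) {f : GF F → ZMod 2} (hf : Loc1 f)
    (hf1 : ∀ r ∈ RS F P, ∀ s ∈ RS F P, f (r * s) = f r + f s)
    (hf2 : ∀ g, ∀ r ∈ RS F P, f (g * r * g⁻¹) = f r)
    (v : HeightOneSpectrum (𝓞 F)) (hv : v ∉ SP F P) :
    ∃ (κ : (⊤ : Subgroup (GF F)) → ZMod 2) (c : ZMod 2),
      κ ∈ CC.Z1 (1 : (⊤ : Subgroup (GF F)) →* ZMod 2) ∧
      ∀ (l : ℕ) [Fact l.Prime], l ∉ P → ∀ (j : AlgebraicClosure F →+* PadicAlgCl l) (g : GF F),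
        g ∈ Inert F (AlgebraicClosure F) j →
        (pl (j.comp (algebraMap F (AlgebraicClosure F))) = v →
          f g = c * κ ⟨g, Subgroup.mem_top g⟩) ∧
        (pl (j.comp (algebraMap F (AlgebraicClosure F))) ≠ v → κ ⟨g, Subgroup.mem_top g⟩ = 0) := by
  have hp2 : Fact (Nat.Prime 2) := ⟨Nat.prime_two⟩
  have hGal : IsGalois F (AlgebraicClosure F) := inferInstance
  obtain ⟨x, ⟨n, hx⟩, hx'⟩ := hO v hv
  obtain ⟨π, hπ⟩ := v.valuation_exists_uniformizer F
  have hπ0 : π ≠ 0 := by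
    rintro rfl
    rw [map_zero] at hπ
    exact WithZero.exp_ne_zero hπ.symm
  have hxA : algebraMap F (AlgebraicClosure F) (x : F) ≠ 0 := by
    rw [Ne, map_eq_zero]
    exact x.ne_zero
  have hπA : algebraMap F (AlgebraicClosure F) π ≠ 0 := by
    rw [Ne, map_eq_zero]
    exact hπ0
  have hfix : ∀ (a : F) (g : GF F),
      g (algebraMap F (AlgebraicClosure F) a) = algebraMap F (AlgebraicClosure F) a :=
    fun a g => g.commutes a
  have hopen : IsOpen (((⊤ : Subgroup (GF F)) : Set (GF F))) := by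
    rw [Subgroup.coe_top]
    exact isOpen_univ
  obtain ⟨K1, -⟩ := stKum stH90 F (AlgebraicClosure F) (⊤ : Subgroup (GF F))
    (⊤ : Subgroup (GF F)).subtype hopen.isOpenEmbedding_subtypeVal 2 ζ hζ fun g => hζU g
  obtain ⟨κ, hκZ, hκ⟩ := K1 _ hxA fun g => hfix _ g
  obtain ⟨κ', hκZ', hκ'⟩ := K1 _ hπA fun g => hfix _ g
  obtain ⟨l0, hl0, j0, hj0⟩ := BKGlob2.exists_pl v
  have hl0P : l0 ∉ P := fun h => hv ⟨l0, h, by rw [← hj0]; exact l_mem_plI j0⟩
  have hl0p : l0 ≠ 2 := fun h => hl0P (h ▸ h2P)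
  have hal : Algebra.IsAlgebraic F (AlgebraicClosure F) := inferInstance
  obtain ⟨j1, hj1⟩ := exists_lift (Ω := AlgebraicClosure F) j0
  have hj1' : j1.comp (algebraMap F (AlgebraicClosure F)) = j0 := RingHom.ext hj1
  obtain ⟨c, hc⟩ := hTI 2 F ⊤ hopen ζ hζ (fun g _ => hζU g) l0 hl0p j1 _ hπA
    (fun g _ => hfix _ g) (fun y hy hyU => by
    obtain ⟨b, hb⟩ : ∃ b : F, algebraMap F (AlgebraicClosure F) b = y := by
      have h1 := (InfiniteGalois.mem_bot_iff_fixed (k := F) (K := AlgebraicClosure F) y).2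
        fun g => hyU g (Subgroup.mem_top g)
      exact h1
    obtain ⟨m, hm⟩ := norm_zpow_of_val hj0 hπ (x := b) fun h =>
      hy (by rw [← hb, h, map_zero])
    refine ⟨m, ?_⟩
    rw [← hj1, ← hj1, hb] at hm
    exact hm) κ' hκ' f hf (RS F P) (fun g hg _ => inert_mem_RS hl0P j1 hg) hf1
  have hnx : ‖j1 (algebraMap F (AlgebraicClosure F) (x : F))‖ =
      ‖j1 (algebraMap F (AlgebraicClosure F) π)‖ ^ (2 * n + 1) := by
    have h1 : (pl j0).valuation F ((x : F) / π ^ (2 * n + 1)) = 1 := by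
      rw [hj0, map_div₀, map_pow, hx, hπ, ← WithZero.exp_nsmul, ← WithZero.exp_sub]
      simp
    have h2 := norm_eq_of_val j0 h1
    rw [map_div₀, norm_div, map_pow, norm_pow] at h2
    rw [hj1, hj1]
    have h3 : ‖j0 π‖ ^ (2 * n + 1) ≠ 0 := by
      refine pow_ne_zero _ ?_
      rw [Ne, norm_eq_zero, map_eq_zero]
      exact hπ0
    exact (div_eq_one_iff_eq h3).1 h2
  refine ⟨κ, c, hκZ, fun l hl hlP j g hgi => ⟨fun hj => ?_, fun hj => ?_⟩⟩
  · have hll : l = l0 := prime_unique (v := v) hl.out hl0.out (by rw [← hj]; exact l_mem_plI _)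
      (by rw [← hj0]; exact l_mem_plI _)
    subst hll
    obtain ⟨t, ht⟩ := hPA F l (j1.comp (algebraMap F (AlgebraicClosure F)))
      (j.comp (algebraMap F (AlgebraicClosure F))) (by rw [hj1', hj0, hj])
    obtain ⟨g0, hg0'⟩ := exists_gal0 (K := F)
      ((t : PadicAlgCl l →+* PadicAlgCl l).comp j1) j fun a => ht a
    have hn : ∀ z, ‖j z‖ = ‖j1 (g0 z)‖ := fun z => by
      rw [hg0']
      exact norm_equiv t _
    have hgi' := inert_conj hn hgi
    have h1 := hc (g0 * g * g0⁻¹) (Subgroup.mem_top _) hgi'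
    rw [hf2 g0 g (inert_mem_RS hlP j hgi)] at h1
    rw [h1]
    congr 1
    rw [← kum_agree hζ hκ hκ' hl0p j1 n hnx (Subgroup.mem_top _) hgi']
    have h2 : (⟨g0 * g * g0⁻¹, Subgroup.mem_top _⟩ : (⊤ : Subgroup (GF F))) *
        ⟨g0, Subgroup.mem_top _⟩ = ⟨g0, Subgroup.mem_top _⟩ * ⟨g, Subgroup.mem_top _⟩ := by
      apply Subtype.ext
      change g0 * g * g0⁻¹ * g0 = g0 * g
      rw [inv_mul_cancel_right]
    have h3 := congrArg κ h2
    rw [hκZ.2, hκZ.2, MonoidHom.one_apply, one_mul, MonoidHom.one_apply, one_mul,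
      add_comm (κ ⟨g0, Subgroup.mem_top _⟩)] at h3
    exact add_right_cancel h3
  · have hlp : l ≠ 2 := fun h => hlP (h ▸ h2P)
    refine kum_inert hζ hκ hlp j ?_ (Subgroup.mem_top g) hgi
    exact norm_eq_of_val (j.comp (algebraMap F (AlgebraicClosure F)))
      (hx' _ (notMem_SP hP hlP _) hj)

end RQ2Aux

open RQ2Aux BKGlob2.RQAux

/-- Module RQ2 -/
theorem stRQ2 (hFR : StFR) (hTI : StTI) (hPA : StPA) : StRQ2 := by
  classical
  intro F _ _ P hPfin hP h2P hO f hf hf1 hf2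
  have hp2 : Fact (Nat.Prime 2) := ⟨Nat.prime_two⟩
  have hζ : IsPrimitiveRoot (-1 : AlgebraicClosure F) 2 := IsPrimitiveRoot.neg_one 0 (by norm_num)
  have hζU : ∀ g : GF F, g (-1 : AlgebraicClosure F) = -1 := fun g => by
    rw [map_neg, map_one]
  have hf0 : f 1 = 0 := by
    have h := hf1 1 (one_mem _) 1 (one_mem _)
    rw [mul_one] at h
    exact left_eq_add.1 h
  obtain ⟨W, hW, hfW⟩ := id hf
  obtain ⟨L, hL, hLW⟩ := hFR F W hW
  let Q : Set (HeightOneSpectrum (𝓞 F)) :=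
    {v | v ∉ SP F P ∧ ∃ l ∈ L, l.Prime ∧ (l : 𝓞 F) ∈ v.asIdeal}
  have hQ : Q.Finite := by
    have h1 : ({l ∈ L | l.Prime} : Set ℕ).Finite := hL.subset (Set.sep_subset _ _)
    refine (h1.biUnion (t := fun l => Sp F l) fun l hl => ?_).subset ?_
    · have h2 := finite_Sp F l hl.2.ne_zero
      exact Set.toFinite _
    · rintro v ⟨-, l, hl, hl', hlv⟩
      exact Set.mem_biUnion (x := l) ⟨hl, hl'⟩ hlv
  have hone := one_prime2 hTI hPA hP h2P hO hζ hζU hf hf1 hf2
  choose! κ c hκ hc using hone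
  have hQS : ∀ v ∈ hQ.toFinset, v ∉ SP F P := fun v hv => ((Set.Finite.mem_toFinset hQ).1 hv).1
  let y : GF F → ZMod 2 := fun g => ∑ v ∈ hQ.toFinset, c v * κ v ⟨g, Subgroup.mem_top g⟩
  have hyc : Continuous y := by
    refine continuous_finsetSum _ fun v hv => continuous_const.mul ?_
    exact (hκ v (hQS v hv)).1.comp (continuous_id.subtype_mk _)
  have hyadd : ∀ g h, y (g * h) = y g + y h := by
    intro g h
    change ∑ v ∈ hQ.toFinset, c v * κ v ⟨g * h, Subgroup.mem_top _⟩ = _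
    rw [← Finset.sum_add_distrib]
    refine Finset.sum_congr rfl fun v hv => ?_
    have h1 := (hκ v (hQS v hv)).2 ⟨g, Subgroup.mem_top g⟩ ⟨h, Subgroup.mem_top h⟩
    rw [MonoidHom.one_apply, one_mul] at h1
    have h2 : (⟨g, Subgroup.mem_top g⟩ : (⊤ : Subgroup (GF F))) * ⟨h, Subgroup.mem_top h⟩ =
        ⟨g * h, Subgroup.mem_top _⟩ := rfl
    rw [h2] at h1
    rw [h1, mul_add]
  have hy1 : y 1 = 0 := by
    have h := hyadd 1 1
    rw [mul_one] at h
    exact left_eq_add.1 h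
  refine ⟨y, ⟨hyc, fun g h => ?_⟩, ?_⟩
  · rw [MonoidHom.one_apply, one_mul]
    exact hyadd g h
  let T : Subgroup (GF F) :=
    { carrier := {r | r ∈ RS F P ∧ y r = f r}
      mul_mem' := by
        rintro r s ⟨hr, hr'⟩ ⟨hs, hs'⟩
        exact ⟨mul_mem hr hs, by rw [hyadd r s, hf1 r hr s hs, hr', hs']⟩
      one_mem' := ⟨one_mem _, by rw [hf0, hy1]⟩
      inv_mem' := by
        rintro r ⟨hr, hr'⟩
        have hr2 : r⁻¹ ∈ RS F P := inv_mem hr
        refine ⟨hr2, ?_⟩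
        have h1 := hyadd r r⁻¹
        have h2 := hf1 r hr r⁻¹ hr2
        rw [mul_inv_cancel, hy1] at h1
        rw [mul_inv_cancel, hf0] at h2
        rw [hr', h2] at h1
        exact (add_left_cancel h1).symm }
  have hTc : IsClosed (T : Set (GF F)) := by
    have h1 : (T : Set (GF F)) = (RS F P : Set (GF F)) ∩ {r | y r = f r} := rfl
    rw [h1]
    refine (Subgroup.isClosed_topologicalClosure _).inter (isClosed_eq hyc ?_)
    exact BKOdd.KumAux.smooth_continuous hf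
  have hRT : RS F P ≤ T := by
    refine RS_le T hTc fun l hl hlP j g hgi => ?_
    have hgR : g ∈ RS F P := inert_mem_RS hlP j hgi
    refine ⟨hgR, ?_⟩
    change ∑ v ∈ hQ.toFinset, c v * κ v ⟨g, Subgroup.mem_top g⟩ = f g
    by_cases hw : pl (j.comp (algebraMap F (AlgebraicClosure F))) ∈ Q
    · rw [Finset.sum_eq_single (pl (j.comp (algebraMap F (AlgebraicClosure F))))]
      · exact ((hc _ hw.1 l hlP j g hgi).1 rfl).symm
      · intro v hv hne
        rw [(hc v (hQS v hv) l hlP j g hgi).2 (Ne.symm hne), mul_zero]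
      · intro h
        exact absurd ((Set.Finite.mem_toFinset hQ).2 hw) h
    · have hlL : l ∉ L := fun h => hw ⟨notMem_SP hP hlP _, l, h, hl.out, l_mem_plI _⟩
      have hgW : g ∈ W := hLW l hlL j g hgi
      have h1 : f g = 0 := by
        have h2 := hfW 1 g hgW
        rwa [one_mul, hf0] at h2
      rw [h1]
      refine Finset.sum_eq_zero fun v hv => ?_
      have hne : pl (j.comp (algebraMap F (AlgebraicClosure F))) ≠ v := by
        rintro rfl
        exact hw ((Set.Finite.mem_toFinset hQ).1 hv)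
      rw [(hc v (hQS v hv) l hlP j g hgi).2 hne, mul_zero]
  exact fun r hr => (hRT hr).2

end BKR
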