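import Pool.Agent.Lib.MP_7c08ba_nt.R1.HSt
import Pool.Agent.Lib.MP_7c08ba_nt.Met.HTW
import Pool.Agent.Lib.MP_7c08ba_nt.Odd.Conv

set_option autoImplicit false

/-!
Module TW2: a two-class of `GS F P` with coefficients `𝔽₂` which is trivial at the places in `P`,
except possibly one of the places above `2`, is trivial (`p = 2` version of module TW).
-/

noncomputable section

namespace BKR

open NumberField IsDedekindDomain BKGen
open BKMet (kch GF GQ RS GS pb1 pb2)
open BKPar (Loc1 Loc2)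
open BKGlob2 (Cp fs sn dc SP)

namespace TW2Aux

/-- a continuous two-cocycle of the quotient of a profinite group is locally constant -/
theorem z2_quot {Γ : Type} [Group Γ] [TopologicalSpace Γ] [IsTopologicalGroup Γ]
    [CompactSpace Γ] [NonarchimedeanGroup Γ] (R : Subgroup Γ) [R.Normal]
    {z : Γ ⧸ R → Γ ⧸ R → ZMod 2} (hz : z ∈ CC.Z2 (1 : Γ ⧸ R →* ZMod 2)) :
    pb2 (QuotientGroup.mk' R) z ∈ CC.Z2 (1 : Γ →* ZMod 2) ∧
    z ∈ BKND.Z2 (1 : Γ ⧸ R →* AddMonoid.End (ZMod 2)) := by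
  have hcq : Continuous (QuotientGroup.mk' R) := QuotientGroup.continuous_mk
  have h1 : pb2 (QuotientGroup.mk' R) z ∈ CC.Z2 (1 : Γ →* ZMod 2) := by
    refine ⟨hz.1.comp (by fun_prop : Continuous fun x : Γ × Γ =>
      ((QuotientGroup.mk' R) x.1, (QuotientGroup.mk' R) x.2)), fun g h k => ?_⟩
    exact hz.2 (QuotientGroup.mk' R g) (QuotientGroup.mk' R h) (QuotientGroup.mk' R k)
  refine ⟨h1, ?_⟩
  obtain ⟨⟨W, hW, hw⟩, -⟩ := ((BKOdd.stConv 2 Γ).2.1 _).1 h1
  refine ⟨⟨W.map (QuotientGroup.mk' R), ?_, ?_⟩, fun g h k => ?_⟩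
  · rw [Subgroup.coe_map]
    exact QuotientGroup.isOpenMap_coe _ hW
  · rintro g h w ⟨w, hw1, rfl⟩ w' ⟨w', hw2, rfl⟩
    obtain ⟨g, rfl⟩ := QuotientGroup.mk_surjective g
    obtain ⟨h, rfl⟩ := QuotientGroup.mk_surjective h
    exact hw g h w hw1 w' hw2
  · have h2 := hz.2 g h k
    simp only [MonoidHom.one_apply, one_mul] at h2
    simp only [MonoidHom.one_apply, AddMonoid.End.coe_one, id_eq]
    linear_combination h2

/-- a locally constant coboundary is a coboundary -/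
theorem b2_of {G : Type} [Group G] [TopologicalSpace G] [IsTopologicalGroup G]
    {ρ : G →* AddMonoid.End (ZMod 2)} (hρ : ∀ g x, ρ g x = x) {z : G → G → ZMod 2}
    (hz : z ∈ BKND.B2 ρ) : z ∈ CC.B2 (1 : G →* ZMod 2) := by
  obtain ⟨β, hβ, h⟩ := hz
  refine ⟨β, (BKPar.Lift.Loc1.isLocallyConstant hβ).continuous, fun g k => ?_⟩
  have h1 := h g k
  rw [hρ] at h1
  rw [MonoidHom.one_apply, one_mul, h1]
  ring

end TW2Aux

open TW2Aux

/-- Module TW2. -/
theorem stTW2 (h1 : StR2) (h2 : StRQ2) (h3 : StUN2) : StTW2 := by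
  intro F iF iN hB e P hPf hPp h2P hO z hz hloc he
  have hna : NonarchimedeanGroup (GF F) := BKGlob2.TWAux.nonarchF F
  have hcq : Continuous (QuotientGroup.mk' (RS F P)) := QuotientGroup.continuous_mk
  have hop : Topology.IsOpenEmbedding (MonoidHom.id (GF F)) := Topology.IsOpenEmbedding.id
  obtain ⟨hz1, hz2⟩ := z2_quot (RS F P) hz
  have hz3 := h1 F hB e (pb2 (QuotientGroup.mk' (RS F P)) z) hz1 (by
    intro l hl hl2 j
    by_cases hlP : l ∈ P
    · exact hloc l hlP hl2 j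
    · have h4 := h3 F (AlgebraicClosure F) (GF F) (MonoidHom.id (GF F)) hop l hl2 j
        (GS F P) (QuotientGroup.mk' (RS F P)) hcq
        (fun v hv => (QuotientGroup.eq_one_iff v).2 (BKGlob2.TWAux.inert_mem hlP j hv))
        (ZMod 2) 1
        (fun m => ⟨1, BKGlob2.TWAux.torsion (p := 2) m⟩)
        (fun m => ⟨⊤, isOpen_univ, fun w _ => rfl⟩) z hz2
      exact b2_of (fun g x => rfl) h4) he
  obtain ⟨f, hf, hfz⟩ := ((BKOdd.stConv 2 (GF F)).2.2 _).1 hz3
  have hk : (kch (1 : GS F P →* (ZMod 2)ˣ)) = 1 := by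
    ext g
    simp [BKMet.kch_apply]
  refine b2_of (ρ := kch (1 : GS F P →* (ZMod 2)ˣ)) (fun g x => ?_)
    (BKGlob2.TWAux.main (RS F P) 1 z ?_ f hf ?_ ?_)
  · rw [BKMet.kch_apply, MonoidHom.one_apply, Units.val_one, one_mul]
  · rw [hk]
    exact hz2
  · intro g h
    have h5 := hfz g h
    rw [MonoidHom.one_apply, Units.val_one, one_mul]
    exact h5
  · intro f' hf' ha hc
    obtain ⟨y, hy, hyr⟩ := h2 F P hPf hPp h2P hO f' hf' ha (fun g r hr => by
      have := hc g r hr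
      rwa [MonoidHom.one_apply, Units.val_one, one_mul] at this)
    have hy1 := ((BKOdd.stConv 2 (GF F)).1 y).1 hy
    refine ⟨y, ⟨hy1.1, fun g h => ?_⟩, hyr⟩
    rw [BKMet.kch_apply, MonoidHom.comp_apply, MonoidHom.one_apply, Units.val_one, one_mul]
    exact hy1.2 g h

end BKR
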