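import Pool.Agent.Lib.MP_7c08ba_nt.R1.St
import Pool.Agent.Lib.MP_7c08ba_nt.Glob.Emb

set_option autoImplicit false

/-!
Module BRI: the decomposition group as a group of pairs and as a subgroup of the Galois group.
-/

noncomputable section

namespace BKR

open NumberField IsDedekindDomain BKGen BKGen.SUnits Matrix
open BKLoc2 (im cy cyL Sys IsKP IsHom)
open BKMet (QZ actA GF GQ cycF RS GS pb1 pb2)
open BKPar (Loc1 Loc2)
open BKGlob2 (Cp fs sn LC dc SP Prin CC0)
open BKOdd (chL chZ)

namespace BRIAux

variable {F : Type} [Field F] [NumberField F] (e : AlgebraicClosure F →+* PadicAlgCl 2)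

theorem fs_mem (d : Cp (MonoidHom.id (GF F)) e) :
    fs (MonoidHom.id (GF F)) e d ∈ BKPar.D F e := by
  have h : BKGlob.Cpt (F := F) (Ω := AlgebraicClosure F) e (fs (MonoidHom.id (GF F)) e d)
      (sn (MonoidHom.id (GF F)) e d) := fun x => BKGlob2.Cp_rel (MonoidHom.id (GF F)) e d x
  exact h.mem_dec

/-- the map from pairs to the decomposition group -/
def toD : Cp (MonoidHom.id (GF F)) e →* BKPar.D F e :=
  (fs (MonoidHom.id (GF F)) e).codRestrict (BKPar.D F e) (fs_mem e)

/-- the map from the decomposition group to pairs -/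
def toCp : BKPar.D F e →* Cp (MonoidHom.id (GF F)) e :=
  ((BKPar.D F e).subtype.prod (BKGlob.lift F e)).codRestrict (Cp (MonoidHom.id (GF F)) e)
    (fun d x => BKGlob.lift_spec e d x)

theorem fs_toCp (d : BKPar.D F e) : fs (MonoidHom.id (GF F)) e (toCp e d) = d := rfl

theorem coe_toD (d : Cp (MonoidHom.id (GF F)) e) :
    ((toD e d : BKPar.D F e) : GF F) = fs (MonoidHom.id (GF F)) e d := rfl

theorem continuous_toD : Continuous (toD e) := by
  refine Continuous.subtype_mk ?_ _
  exact continuous_fst.comp continuous_subtype_val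

theorem continuous_toCp : Continuous (toCp e) := by
  refine Continuous.subtype_mk ?_ _
  exact continuous_subtype_val.prodMk (BKGlob.continuous_lift e)

end BRIAux

open BRIAux

/-- Module BRI. -/
theorem stBRI : StBRI := by
  intro F _ _ e
  refine ⟨fs_mem e, fun g hg => ⟨toCp e ⟨g, hg⟩, rfl⟩, ?_⟩
  intro L _ ψ z
  constructor
  · rintro ⟨f, hf, h⟩
    refine ⟨fun g => f (toCp e g), hf.comp (continuous_toCp e), fun g k => ?_⟩
    have h1 := h (toCp e g) (toCp e k)
    rw [← map_mul] at h1
    exact h1
  · rintro ⟨f, hf, h⟩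
    refine ⟨fun g => f (toD e g), hf.comp (continuous_toD e), fun g k => ?_⟩
    have h1 := h (toD e g) (toD e k)
    rw [← map_mul] at h1
    exact h1

end BKR
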