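import Pool.Agent.Lib.MP_7c08ba_nt.R1.St
import Pool.Agent.Lib.MP_7c08ba_nt.Glob.Two
import Pool.Agent.Lib.MP_7c08ba_nt.ND.All

set_option autoImplicit false

/-!
Module DUA: local duality in dimension one.
-/

noncomputable section

namespace BKR

open Matrix

namespace DUAAux

variable {D : Type} [Group D] {L : Type} [NormedField L]

theorem inv_zero {σ : D →* GL (Fin 1) L} (h : ∃ g, σ g ≠ 1) (v : Fin 1 → L)
    (hv : ∀ g, (σ g : Matrix (Fin 1) (Fin 1) L) *ᵥ v = v) : v = 0 := by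
  obtain ⟨g, hg⟩ := h
  by_contra h0
  have hv0 : v 0 ≠ 0 := by
    intro h1
    apply h0
    funext i
    rw [Subsingleton.elim i 0, h1]
    rfl
  apply hg
  have h2 := congrFun (hv g) 0
  rw [Matrix.mulVec, dotProduct, Finset.univ_unique, Finset.sum_singleton] at h2
  have h3 : (σ g : Matrix (Fin 1) (Fin 1) L) 0 0 = 1 := by
    have h4 : (σ g : Matrix (Fin 1) (Fin 1) L) 0 0 * v 0 = 1 * v 0 := by
      rw [one_mul]
      exact h2
    exact mul_right_cancel₀ hv0 h4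
  apply Units.ext
  ext i j
  rw [Subsingleton.elim i 0, Subsingleton.elim j 0, h3]
  rfl

end DUAAux

open DUAAux in
/-- **Local duality in dimension one** -/
theorem stDUA : StDUA := by
  intro q F _ _ s hq e L _ _ _ σ σ' hσ hσ' hu hu' hdual hn hn' x hx y hy hxy hyB
  by_contra hxB
  apply hyB
  have hd : ∀ g, (σ g : Matrix (Fin 1) (Fin 1) L)ᵀ * (σ' g : Matrix (Fin 1) (Fin 1) L) =
      BKOdd.chL ((BKPar.cyc F).comp (BKPar.D F e).subtype) L g •
        (1 : Matrix (Fin 1) (Fin 1) L) := by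
    intro g
    ext i j
    rw [Subsingleton.elim i 0, Subsingleton.elim j 0, Matrix.mul_apply, Finset.univ_unique,
      Finset.sum_singleton, Matrix.transpose_apply, Matrix.smul_apply, Matrix.one_apply_eq,
      smul_eq_mul, mul_one]
    exact hdual g
  obtain ⟨h1, h2, h3⟩ := BKND.final q F s hq e L 1 σ σ' hσ hσ' hu hu' hd (inv_zero hn')
  obtain ⟨h4, h5⟩ := BKGlob.finrank_H1_le hσ h1 h2 (inv_zero hn)
  refine h3 y hy fun x' hx' => (BKGlob.mem_CB2_iff _ _).2 ?_
  change BKOdd.cupV σ' x' y ∈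
    CC.B2 (BKOdd.chL ((BKPar.cyc F).comp (BKPar.D F e).subtype) L)
  have hcl : ((BKOdd.B1 σ).submoduleOf (BKOdd.Z1 σ)).mkQ ⟨x, hx⟩ ≠ 0 := by
    intro h6
    rw [Submodule.mkQ_apply, Submodule.Quotient.mk_eq_zero] at h6
    exact hxB h6
  have h6 : Module.finrank L (BKOdd.H1 σ) = 1 := by
    have h7 : 0 < Module.finrank L (BKOdd.H1 σ) := Module.finrank_pos_iff_exists_ne_zero.2 ⟨_, hcl⟩
    omega
  obtain ⟨a, ha⟩ := (finrank_eq_one_iff_of_nonzero' _ hcl).1 h6
    (((BKOdd.B1 σ).submoduleOf (BKOdd.Z1 σ)).mkQ ⟨x', hx'⟩)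
  rw [← map_smul, Submodule.mkQ_apply, Submodule.mkQ_apply, Submodule.Quotient.eq] at ha
  obtain ⟨v, hv⟩ := ha
  have h7 : x' = a • x - BKOdd.cob σ v := by
    have h8 : BKOdd.cob σ v = a • x - x' := hv
    rw [h8, sub_sub_cancel]
  have h8 : BKOdd.cupV σ' x' y = a • BKOdd.cupV σ' x y - BKOdd.cupV σ' (BKOdd.cob σ v) y := by
    rw [h7]
    funext g h
    simp only [BKOdd.cupV, Pi.sub_apply, Pi.smul_apply, sub_dotProduct, smul_dotProduct]
  rw [h8]
  refine Submodule.sub_mem _ (Submodule.smul_mem _ a ?_) (BKOdd.cup_cob_left hd v hy)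
  have h9 : BKOdd.cupV σ' x y =
      fun g h => x g 0 * ((σ' g : Matrix (Fin 1) (Fin 1) L) 0 0 * y h 0) := by
    funext g h
    simp only [BKOdd.cupV, dotProduct, Matrix.mulVec, Finset.univ_unique, Finset.sum_singleton]
    rfl
  rw [h9]
  exact hxy

end BKR
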