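import Pool.Agent.Lib.MP_7c08ba_nt.R1.St

set_option autoImplicit false

/-!
Module EUN: a nontrivial class in `H¹(G, ℚ₂(ρ))` from the Euler characteristic with coefficients in
`ℤ/2`.
-/

noncomputable section

namespace BKR

namespace EUNAux

variable {G : Type} [Group G] [TopologicalSpace G]

theorem cont_mod : Continuous (PadicInt.toZMod : ℤ_[2] →+* ZMod 2) := by
  rw [continuous_def]
  intro s _
  have h : (PadicInt.toZMod : ℤ_[2] → ZMod 2) ⁻¹' s =
      ⋃ x ∈ (PadicInt.toZMod : ℤ_[2] → ZMod 2) ⁻¹' s, Metric.ball x 1 := by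
    ext y
    simp only [Set.mem_preimage, Set.mem_iUnion, Metric.mem_ball, exists_prop]
    constructor
    · intro hy
      exact ⟨y, hy, by rw [dist_self]; exact one_pos⟩
    · rintro ⟨x, hx, hd⟩
      have h1 : PadicInt.toZMod (y - x) = 0 := by
        rw [← RingHom.mem_ker, PadicInt.ker_toZMod, IsLocalRing.mem_maximalIdeal,
          mem_nonunits_iff, PadicInt.isUnit_iff]
        rw [dist_eq_norm] at hd
        exact ne_of_lt hd
      rw [map_sub, sub_eq_zero] at h1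
      change PadicInt.toZMod y ∈ s
      rw [h1]
      exact hx
  rw [h]
  exact isOpen_biUnion fun x _ => Metric.isOpen_ball

theorem mod_eq_zero {x : ℤ_[2]} : PadicInt.toZMod x = 0 ↔ (2 : ℤ_[2]) ∣ x := by
  rw [← RingHom.mem_ker, PadicInt.ker_toZMod, PadicInt.maximalIdeal_eq_span_p,
    Ideal.mem_span_singleton]
  norm_num

theorem two_pow_ne (k : ℕ) : (2 : ℤ_[2]) ^ k ≠ 0 := pow_ne_zero _ two_ne_zero

theorem emb_pow (k : ℕ) :
    Topology.IsClosedEmbedding (fun x : ℤ_[2] => (2 : ℤ_[2]) ^ k * x) :=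
  Continuous.isClosedEmbedding (continuous_const.mul continuous_id)
    (mul_right_injective₀ (two_pow_ne k))

theorem closed_dvd (k : ℕ) : IsClosed {x : ℤ_[2] | (2 : ℤ_[2]) ^ k ∣ x} := by
  have h : {x : ℤ_[2] | (2 : ℤ_[2]) ^ k ∣ x} = Set.range (fun x : ℤ_[2] => (2 : ℤ_[2]) ^ k * x) := by
    ext x
    constructor
    · rintro ⟨y, hy⟩
      exact ⟨y, hy.symm⟩
    · rintro ⟨y, hy⟩
      exact ⟨y, hy.symm⟩
  rw [h]
  exact (emb_pow k).isClosed_range

/-- division of continuous functions -/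
theorem exists_div {X : Type} [TopologicalSpace X] (k : ℕ) (f : X → ℤ_[2]) (hf : Continuous f)
    (h : ∀ g, (2 : ℤ_[2]) ^ k ∣ f g) : ∃ f' : X → ℤ_[2], Continuous f' ∧ ∀ g, f g = 2 ^ k * f' g := by
  choose f' hf' using h
  refine ⟨f', ?_, hf'⟩
  rw [(emb_pow k).isInducing.continuous_iff]
  have : (fun x : ℤ_[2] => (2 : ℤ_[2]) ^ k * x) ∘ f' = f := by
    funext g
    exact (hf' g).symm
  rw [this]
  exact hf

/-- cochains which are cocycles modulo `2 ^ k` -/
def WW (a : G → ℤ_[2]) (k : ℕ) : AddSubgroup (G → ℤ_[2]) where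
  carrier := {f | Continuous f ∧ ∀ g h, (2 : ℤ_[2]) ^ k ∣ f g + a g * f h - f (g * h)}
  zero_mem' := ⟨continuous_const, fun g h => by
    simp only [Pi.zero_apply, mul_zero, add_zero, sub_zero]
    exact dvd_zero _⟩
  add_mem' := by
    rintro f f' ⟨hf1, hf2⟩ ⟨hf1', hf2'⟩
    refine ⟨hf1.add hf1', fun g h => ?_⟩
    have := dvd_add (hf2 g h) (hf2' g h)
    simp only [Pi.add_apply]
    convert this using 1
    ring
  neg_mem' := by
    rintro f ⟨hf1, hf2⟩
    refine ⟨hf1.neg, fun g h => ?_⟩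
    have := (dvd_neg).2 (hf2 g h)
    simp only [Pi.neg_apply]
    convert this using 1
    ring

/-- cochains divisible by `2 ^ k` -/
def PK (G : Type) [Group G] [TopologicalSpace G] (k : ℕ) : AddSubgroup (G → ℤ_[2]) where
  carrier := {f | Continuous f ∧ ∀ g, (2 : ℤ_[2]) ^ k ∣ f g}
  zero_mem' := ⟨continuous_const, fun g => dvd_zero _⟩
  add_mem' := by
    rintro f f' ⟨hf1, hf2⟩ ⟨hf1', hf2'⟩
    exact ⟨hf1.add hf1', fun g => dvd_add (hf2 g) (hf2' g)⟩
  neg_mem' := by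
    rintro f ⟨hf1, hf2⟩
    exact ⟨hf1.neg, fun g => (dvd_neg).2 (hf2 g)⟩

theorem mem_WW {a : G → ℤ_[2]} {k : ℕ} {f : G → ℤ_[2]} : f ∈ WW a k ↔ Continuous f ∧
    ∀ g h, (2 : ℤ_[2]) ^ k ∣ f g + a g * f h - f (g * h) := Iff.rfl

theorem mem_PK {k : ℕ} {f : G → ℤ_[2]} : f ∈ PK G k ↔ Continuous f ∧
    ∀ g, (2 : ℤ_[2]) ^ k ∣ f g := Iff.rfl

theorem PK_le_WW (a : G → ℤ_[2]) (k : ℕ) : PK G k ≤ WW a k := by
  rintro f ⟨hf1, hf2⟩
  exact ⟨hf1, fun g h => dvd_sub (dvd_add (hf2 g) ((hf2 h).mul_left _)) (hf2 _)⟩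

theorem WW_anti (a : G → ℤ_[2]) {k m : ℕ} (h : k ≤ m) : WW a m ≤ WW a k := by
  rintro f ⟨hf1, hf2⟩
  exact ⟨hf1, fun g l => (pow_dvd_pow 2 h).trans (hf2 g l)⟩

theorem PK_anti {k m : ℕ} (h : k ≤ m) : PK G m ≤ PK G k := by
  rintro f ⟨hf1, hf2⟩
  exact ⟨hf1, fun g => (pow_dvd_pow 2 h).trans (hf2 g)⟩

/-- multiplication by `2 ^ k` -/
def sm (G : Type) (k : ℕ) : (G → ℤ_[2]) →+ (G → ℤ_[2]) where
  toFun f g := 2 ^ k * f g
  map_zero' := by
    funext g
    simp
  map_add' f f' := by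
    funext g
    simp only [Pi.add_apply]
    ring

omit [Group G] [TopologicalSpace G] in
theorem sm_inj (k : ℕ) : Function.Injective (sm G k) := by
  intro f f' h
  funext g
  exact mul_left_cancel₀ (two_pow_ne k) (congrFun h g)

theorem map_WW (a : G → ℤ_[2]) (k j : ℕ) : (WW a j).map (sm G k) = WW a (k + j) ⊓ PK G k := by
  ext f
  constructor
  · rintro ⟨f', ⟨hf1, hf2⟩, rfl⟩
    refine ⟨⟨continuous_const.mul hf1, fun g h => ?_⟩, continuous_const.mul hf1, fun g => ⟨_, rfl⟩⟩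
    have h1 : sm G k f' g + a g * sm G k f' h - sm G k f' (g * h) =
        2 ^ k * (f' g + a g * f' h - f' (g * h)) := by
      change 2 ^ k * f' g + a g * (2 ^ k * f' h) - 2 ^ k * f' (g * h) = _
      ring
    rw [h1, pow_add]
    exact mul_dvd_mul_left _ (hf2 g h)
  · rintro ⟨⟨hf1, hf2⟩, _, hf3⟩
    obtain ⟨f', hc, hf'⟩ := exists_div k f hf1 hf3
    refine ⟨f', ⟨hc, fun g h => ?_⟩, ?_⟩
    · have h1 := hf2 g h
      rw [hf' g, hf' h, hf' (g * h), pow_add] at h1
      have h2 : 2 ^ k * f' g + a g * (2 ^ k * f' h) - 2 ^ k * f' (g * h) =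
          2 ^ k * (f' g + a g * f' h - f' (g * h)) := by ring
      rw [h2] at h1
      exact (mul_dvd_mul_iff_left (two_pow_ne k)).1 h1
    · funext g
      exact (hf' g).symm

theorem map_PK (k j : ℕ) : (PK G j).map (sm G k) = PK G (k + j) := by
  ext f
  constructor
  · rintro ⟨f', ⟨hf1, hf2⟩, rfl⟩
    refine ⟨continuous_const.mul hf1, fun g => ?_⟩
    rw [pow_add]
    exact mul_dvd_mul_left _ (hf2 g)
  · rintro ⟨hf1, hf2⟩
    obtain ⟨f', hc, hf'⟩ := exists_div k f hf1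
      (fun g => (pow_dvd_pow 2 (Nat.le_add_right k j)).trans (hf2 g))
    refine ⟨f', ⟨hc, fun g => ?_⟩, ?_⟩
    · have h1 := hf2 g
      rw [hf' g, pow_add] at h1
      exact (mul_dvd_mul_iff_left (two_pow_ne k)).1 h1
    · funext g
      exact (hf' g).symm

theorem count (a : G → ℤ_[2]) (k j : ℕ) : (PK G (k + j)).relIndex (WW a (k + j)) =
    (PK G j).relIndex (WW a j) * (PK G k).relIndex (WW a (k + j)) := by
  have h1 : PK G (k + j) ≤ WW a (k + j) ⊓ PK G k :=
    le_inf (PK_le_WW a _) (PK_anti (Nat.le_add_right k j))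
  rw [← AddSubgroup.relIndex_mul_relIndex _ _ _ h1 inf_le_left, AddSubgroup.inf_relIndex_left,
    ← map_WW, ← map_PK, AddSubgroup.relIndex_map_map_of_injective _ _ (sm_inj k)]

theorem count2 (a : G → ℤ_[2]) (k : ℕ) : (PK G k).relIndex (WW a k) =
    (PK G k).relIndex (WW a (k + 1)) * (WW a (k + 1) ⊔ PK G k).relIndex (WW a k) := by
  rw [← AddSubgroup.relIndex_mul_relIndex _ _ _ (le_sup_right : PK G k ≤ WW a (k + 1) ⊔ PK G k)
    (sup_le (WW_anti a (Nat.le_succ k)) (PK_le_WW a k)), AddSubgroup.relIndex_sup_right]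

/-- reduction modulo `2` -/
def red (G : Type) : (G → ℤ_[2]) →+ (G → ZMod 2) where
  toFun f g := PadicInt.toZMod (f g)
  map_zero' := by
    funext g
    simp
  map_add' f f' := by
    funext g
    simp only [Pi.add_apply, map_add]

theorem relIndex_one (a : G → ℤ_[2]) (m : ℕ) :
    (PK G 1).relIndex (WW a m) = Nat.card ((WW a m).map (red G)) := by
  rw [← AddSubgroup.relIndex_ker, ← AddSubgroup.inf_relIndex_right,
    ← AddSubgroup.inf_relIndex_right (red G).ker]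
  congr 1
  ext f
  constructor
  · rintro ⟨hf1, hf2⟩
    refine ⟨?_, hf2⟩
    change red G f = 0
    funext g
    have := hf1.2 g
    rw [pow_one] at this
    exact mod_eq_zero.2 this
  · rintro ⟨hf1, hf2⟩
    refine ⟨⟨hf2.1, fun g => ?_⟩, hf2⟩
    rw [pow_one]
    exact mod_eq_zero.1 (congrFun (AddMonoidHom.mem_ker.1 hf1) g)

/-- lift from `ℤ/2` -/
theorem exists_lift {X : Type} [TopologicalSpace X] (u : X → ZMod 2) (hu : Continuous u) :
    ∃ f : X → ℤ_[2], Continuous f ∧ ∀ g, PadicInt.toZMod (f g) = u g := by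
  refine ⟨fun g => ((u g).val : ℤ_[2]), ?_, fun g => ?_⟩
  · exact (continuous_of_discreteTopology (f := fun x : ZMod 2 => ((x.val : ℕ) : ℤ_[2]))).comp hu
  · rw [map_natCast, ZMod.natCast_zmod_val]

theorem map_one_eq (a : G → ℤ_[2]) (ha : ∀ g, PadicInt.toZMod (a g) = 1) :
    (WW a 1).map (red G) = (CC.Z1 (1 : G →* ZMod 2)).toAddSubgroup := by
  ext u
  constructor
  · rintro ⟨f, ⟨hf1, hf2⟩, rfl⟩
    refine ⟨cont_mod.comp hf1, fun g h => ?_⟩
    have h1 := hf2 g h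
    rw [pow_one] at h1
    have h2 := mod_eq_zero.2 h1
    rw [map_sub, map_add, map_mul, ha, one_mul, sub_eq_zero] at h2
    change PadicInt.toZMod (f (g * h)) = PadicInt.toZMod (f g) + 1 * PadicInt.toZMod (f h)
    rw [one_mul, h2]
  · rintro ⟨hu1, hu2⟩
    obtain ⟨f, hf1, hf2⟩ := exists_lift u hu1
    refine ⟨f, ⟨hf1, fun g h => ?_⟩, funext hf2⟩
    rw [pow_one]
    apply mod_eq_zero.1
    rw [map_sub, map_add, map_mul, ha, one_mul, sub_eq_zero, hf2, hf2, hf2, hu2]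
    change u g + u h = u g + 1 * u h
    rw [one_mul]

/-- the connecting homomorphism -/
theorem exists_theta (a : G → ℤ_[2]) (ha : Continuous a) (ham : ∀ g h, a (g * h) = a g * a h)
    (ha1 : ∀ g, PadicInt.toZMod (a g) = 1) [IsTopologicalGroup G] (k : ℕ) :
    ∃ θ : WW a k →+ (G → G → ZMod 2), (∀ f, θ f ∈ CC.Z2 (1 : G →* ZMod 2)) ∧
      ∀ f : WW a k, θ f ∈ CC.B2 (1 : G →* ZMod 2) → (f : G → ℤ_[2]) ∈ WW a (k + 1) ⊔ PK G k := by
  have h0 : ∀ f : WW a k, ∃ c : G × G → ℤ_[2], Continuous c ∧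
      ∀ x : G × G, (f : G → ℤ_[2]) x.1 + a x.1 * (f : G → ℤ_[2]) x.2 -
        (f : G → ℤ_[2]) (x.1 * x.2) = 2 ^ k * c x := by
    intro f
    refine exists_div k _ ?_ (fun x => f.2.2 x.1 x.2)
    exact ((f.2.1.comp continuous_fst).add ((ha.comp continuous_fst).mul
      (f.2.1.comp continuous_snd))).sub (f.2.1.comp continuous_mul)
  choose c hc1 hc2 using h0
  have hadd : ∀ f f' : WW a k, ∀ x, c (f + f') x = c f x + c f' x := by
    intro f f' x
    apply mul_left_cancel₀ (two_pow_ne k)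
    rw [← hc2, mul_add, ← hc2, ← hc2, AddSubgroup.coe_add]
    simp only [Pi.add_apply]
    ring
  refine ⟨AddMonoidHom.mk' (fun f g h => PadicInt.toZMod (c f (g, h))) ?_, fun f => ?_,
    fun f hf => ?_⟩
  · intro f f'
    funext g h
    simp only [Pi.add_apply]
    rw [hadd, map_add]
  · refine ⟨cont_mod.comp (hc1 f), fun g h l => ?_⟩
    change 1 * PadicInt.toZMod (c f (h, l)) + PadicInt.toZMod (c f (g, h * l)) =
      PadicInt.toZMod (c f (g * h, l)) + PadicInt.toZMod (c f (g, h))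
    rw [← ha1 g, ← map_mul, ← map_add, ← map_add]
    congr 1
    apply mul_left_cancel₀ (two_pow_ne k)
    have e1 := hc2 f (h, l)
    have e2 := hc2 f (g, h * l)
    have e3 := hc2 f (g * h, l)
    have e4 := hc2 f (g, h)
    simp only at e1 e2 e3 e4
    rw [mul_assoc] at e3
    rw [ham] at e3
    linear_combination (-(a g)) * e1 - e2 + e3 + e4
  · obtain ⟨e, he1, he2⟩ := hf
    obtain ⟨E, hE1, hE2⟩ := exists_lift e he1
    have h1 : (f : G → ℤ_[2]) - sm G k E ∈ WW a (k + 1) := by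
      refine ⟨f.2.1.sub (continuous_const.mul hE1), fun g h => ?_⟩
      have e4 := hc2 f (g, h)
      simp only at e4
      have h2 : ((f : G → ℤ_[2]) - sm G k E) g + a g * ((f : G → ℤ_[2]) - sm G k E) h -
          ((f : G → ℤ_[2]) - sm G k E) (g * h) =
          2 ^ k * (c f (g, h) - (E g + a g * E h - E (g * h))) := by
        change ((f : G → ℤ_[2]) g - 2 ^ k * E g) + a g * ((f : G → ℤ_[2]) h - 2 ^ k * E h) -
          ((f : G → ℤ_[2]) (g * h) - 2 ^ k * E (g * h)) = _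
        linear_combination e4
      rw [h2, pow_succ]
      apply mul_dvd_mul_left
      apply mod_eq_zero.1
      have h3 := he2 g h
      change PadicInt.toZMod (c f (g, h)) = e g + 1 * e h - e (g * h) at h3
      rw [map_sub, map_sub, map_add, map_mul, ha1, hE2, hE2, hE2, h3, sub_self]
    have h2 : sm G k E ∈ PK G k := ⟨continuous_const.mul hE1, fun g => ⟨_, rfl⟩⟩
    have h3 : (f : G → ℤ_[2]) = ((f : G → ℤ_[2]) - sm G k E) + sm G k E := by
      rw [sub_add_cancel]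
    rw [h3]
    exact AddSubgroup.add_mem_sup h1 h2

theorem relIndex_le (a : G → ℤ_[2]) (ha : Continuous a) (ham : ∀ g h, a (g * h) = a g * a h)
    (ha1 : ∀ g, PadicInt.toZMod (a g) = 1) [IsTopologicalGroup G] (k r : ℕ)
    (h1 : (CC.B2 (1 : G →* ZMod 2)).toAddSubgroup.relIndex
      (CC.Z2 (1 : G →* ZMod 2)).toAddSubgroup ≠ 0)
    (h2 : (CC.B2 (1 : G →* ZMod 2)).toAddSubgroup.relIndex
      (CC.Z2 (1 : G →* ZMod 2)).toAddSubgroup ≤ 2 ^ r) :
    (WW a (k + 1) ⊔ PK G k).relIndex (WW a k) ≤ 2 ^ r := by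
  obtain ⟨θ, hθ1, hθ2⟩ := exists_theta a ha ham ha1 k
  have h3 : (CC.B2 (1 : G →* ZMod 2)).toAddSubgroup.comap θ ≤
      (WW a (k + 1) ⊔ PK G k).addSubgroupOf (WW a k) := by
    intro f hf
    exact hθ2 f hf
  have h4 : θ.range ≤ (CC.Z2 (1 : G →* ZMod 2)).toAddSubgroup := by
    rintro _ ⟨f, rfl⟩
    exact hθ1 f
  have h5 : ((CC.B2 (1 : G →* ZMod 2)).toAddSubgroup.comap θ).index ≤ 2 ^ r := by
    rw [AddSubgroup.index_comap]
    exact (AddSubgroup.relIndex_le_of_le_right h4 h1).trans h2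
  have h6 : ((CC.B2 (1 : G →* ZMod 2)).toAddSubgroup.comap θ).index ≠ 0 := by
    rw [AddSubgroup.index_comap]
    exact fun h => h1 (AddSubgroup.relIndex_eq_zero_of_le_right h4 h)
  refine le_trans ?_ h5
  exact Nat.le_of_dvd (Nat.pos_of_ne_zero h6) (AddSubgroup.index_dvd_of_le h3)

theorem exists_small (ε : ℝ) (hε : 0 < ε) : ∃ m : ℕ, ‖(2 : ℤ_[2]) ^ (m + 1)‖ < ε := by
  have h1 : Filter.Tendsto (fun m : ℕ => ‖(2 : ℤ_[2]) ^ (m + 1)‖) Filter.atTop (nhds 0) := by
    have h2 : ∀ m : ℕ, ‖(2 : ℤ_[2]) ^ (m + 1)‖ = (1 / 2 : ℝ) ^ (m + 1) := by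
      intro m
      rw [norm_pow]
      congr 1
      have := PadicInt.norm_p (p := 2)
      norm_num at this ⊢
      exact this
    simp_rw [h2]
    exact (tendsto_pow_atTop_nhds_zero_of_lt_one (by norm_num) (by norm_num)).comp
      (Filter.tendsto_add_atTop_nat 1)
  exact (h1.eventually (gt_mem_nhds hε)).exists

/-- limits -/
theorem exists_limit (a : G → ℤ_[2]) (hfin : ∀ k, (PK G k).relIndex (WW a k) ≠ 0)
    (u : G → ZMod 2) (hu : ∀ k, u ∈ (WW a k).map (red G)) :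
    ∃ x : G → ℤ_[2], Continuous x ∧ (∀ g h, x (g * h) = x g + a g * x h) ∧ red G x = u := by
  let D : ℕ → Set (G → ℤ_[2]) := fun m =>
    {x | ∃ f ∈ WW a (m + 1), red G f = u ∧ ∀ g, (2 : ℤ_[2]) ^ (m + 1) ∣ x g - f g}
  have hne : ∀ m, (D m).Nonempty := by
    intro m
    obtain ⟨f, hf, hfu⟩ := hu (m + 1)
    exact ⟨f, f, hf, hfu, fun g => by rw [sub_self]; exact dvd_zero _⟩
  have hanti : ∀ m, D (m + 1) ⊆ D m := by
    rintro m x ⟨f, hf, hfu, hx⟩
    exact ⟨f, WW_anti a (Nat.le_succ _) hf, hfu,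
      fun g => (pow_dvd_pow 2 (Nat.le_succ (m + 1))).trans (hx g)⟩
  have hclosed : ∀ m, IsClosed (D m) := by
    intro m
    have hq : Finite (WW a (m + 1) ⧸ (PK G (m + 1)).addSubgroupOf (WW a (m + 1))) :=
      Nat.finite_of_card_ne_zero (hfin (m + 1))
    have he : D m = ⋃ q : {q : WW a (m + 1) ⧸ (PK G (m + 1)).addSubgroupOf (WW a (m + 1)) //
        red G (q.out : G → ℤ_[2]) = u}, ⋂ g, {x : G → ℤ_[2] |
          (2 : ℤ_[2]) ^ (m + 1) ∣ x g - (q.1.out : G → ℤ_[2]) g} := by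
      ext x
      simp only [Set.mem_iUnion, Set.mem_iInter]
      constructor
      · rintro ⟨f, hf, hfu, hx⟩
        let q : WW a (m + 1) ⧸ (PK G (m + 1)).addSubgroupOf (WW a (m + 1)) :=
          QuotientAddGroup.mk ⟨f, hf⟩
        have h1 : (QuotientAddGroup.mk q.out :
            WW a (m + 1) ⧸ (PK G (m + 1)).addSubgroupOf (WW a (m + 1))) =
            QuotientAddGroup.mk ⟨f, hf⟩ := QuotientAddGroup.out_eq' q
        rw [QuotientAddGroup.eq] at h1
        have h2 : ∀ g, (2 : ℤ_[2]) ^ (m + 1) ∣ -(q.out : G → ℤ_[2]) g + f g := by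
          have h3 := (AddSubgroup.mem_addSubgroupOf.1 h1).2
          exact h3
        have h4 : red G (q.out : G → ℤ_[2]) = u := by
          rw [← hfu]
          funext g
          change PadicInt.toZMod ((q.out : G → ℤ_[2]) g) = PadicInt.toZMod (f g)
          rw [← sub_eq_zero, ← map_sub, mod_eq_zero]
          have h5 : (2 : ℤ_[2]) ∣ -(q.out : G → ℤ_[2]) g + f g :=
            (dvd_pow_self 2 (Nat.succ_ne_zero m)).trans (h2 g)
          have h6 := (dvd_neg).2 h5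
          rwa [neg_add, neg_neg, ← sub_eq_add_neg] at h6
        refine ⟨⟨q, h4⟩, fun g => ?_⟩
        have h5 := dvd_add (hx g) (h2 g)
        change (2 : ℤ_[2]) ^ (m + 1) ∣ x g - (q.out : G → ℤ_[2]) g
        convert h5 using 1
        ring
      · rintro ⟨⟨q, hq⟩, hx⟩
        exact ⟨q.out, q.out.2, hq, hx⟩
    rw [he]
    refine isClosed_iUnion_of_finite fun q => isClosed_iInter fun g => ?_
    exact (closed_dvd (m + 1)).preimage
      (((continuous_apply g).sub continuous_const : Continuous fun x : G → ℤ_[2] =>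
        x g - (q.1.out : G → ℤ_[2]) g))
  obtain ⟨x, hx⟩ := IsCompact.nonempty_iInter_of_sequence_nonempty_isCompact_isClosed D hanti hne
    (hclosed 0).isCompact hclosed
  rw [Set.mem_iInter] at hx
  have hz : ∀ y : ℤ_[2], (∀ m : ℕ, (2 : ℤ_[2]) ^ (m + 1) ∣ y) → y = 0 := by
    intro y hy
    by_contra hne
    obtain ⟨m, hm⟩ := exists_small ‖y‖ (norm_pos_iff.2 hne)
    obtain ⟨t, ht⟩ := hy m
    rw [ht, norm_mul] at hm
    have h4 := PadicInt.norm_le_one t
    have h5 := norm_nonneg ((2 : ℤ_[2]) ^ (m + 1))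
    nlinarith
  refine ⟨x, ?_, fun g h => ?_, ?_⟩
  · rw [Metric.continuous_iff']
    intro g ε hε
    obtain ⟨m, hm⟩ := exists_small (ε / 3) (by positivity)
    obtain ⟨f, hf, _, hxf⟩ := hx m
    have h1 := (Metric.continuous_iff'.1 hf.1) g (ε / 3) (by positivity)
    have h2 : ∀ y, ‖x y - f y‖ < ε / 3 := by
      intro y
      obtain ⟨t, ht⟩ := hxf y
      rw [ht, norm_mul]
      have h4 := PadicInt.norm_le_one t
      have h5 := norm_nonneg ((2 : ℤ_[2]) ^ (m + 1))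
      nlinarith
    filter_upwards [h1] with y hy
    rw [dist_eq_norm] at hy ⊢
    have h3 : x y - x g = (x y - f y) + (f y - f g) - (x g - f g) := by ring
    rw [h3]
    have h6 := norm_sub_le ((x y - f y) + (f y - f g)) (x g - f g)
    have h7 := norm_add_le (x y - f y) (f y - f g)
    have h8 := h2 y
    have h9 := h2 g
    linarith
  · rw [← sub_eq_zero]
    apply hz
    intro m
    obtain ⟨f, hf, _, hxf⟩ := hx m
    have h1 := hf.2 g h
    have h2 := dvd_sub (hxf (g * h)) (dvd_add (hxf g) ((hxf h).mul_left (a g)))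
    have h3 := dvd_sub h2 h1
    convert h3 using 1
    ring
  · obtain ⟨f, hf, hfu, hxf⟩ := hx 0
    rw [← hfu]
    funext g
    change PadicInt.toZMod (x g) = PadicInt.toZMod (f g)
    rw [← sub_eq_zero, ← map_sub, mod_eq_zero]
    have := hxf g
    rwa [zero_add, pow_one] at this

/-- two liftable independent homomorphisms -/
theorem exists_pair (a : G → ℤ_[2]) (ha : Continuous a) (ham : ∀ g h, a (g * h) = a g * a h)
    (ha1 : ∀ g, PadicInt.toZMod (a g) = 1) [IsTopologicalGroup G] (d r : ℕ)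
    (h0 : Nat.card (CC.Z1 (1 : G →* ZMod 2)) = 2 ^ d)
    (h1 : (CC.B2 (1 : G →* ZMod 2)).toAddSubgroup.relIndex
      (CC.Z2 (1 : G →* ZMod 2)).toAddSubgroup ≠ 0)
    (h2 : (CC.B2 (1 : G →* ZMod 2)).toAddSubgroup.relIndex
      (CC.Z2 (1 : G →* ZMod 2)).toAddSubgroup ≤ 2 ^ r) (hdr : r + 2 ≤ d) :
    ∃ u v : G → ZMod 2, u ≠ 0 ∧ v ≠ 0 ∧ u ≠ v ∧ (∀ k, u ∈ (WW a k).map (red G)) ∧
      (∀ k, v ∈ (WW a k).map (red G)) ∧ ∀ k, (PK G k).relIndex (WW a k) ≠ 0 := by
  have hw1 : (PK G 1).relIndex (WW a 1) = 2 ^ d := by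
    rw [relIndex_one, map_one_eq a ha1]
    exact h0
  have hP : (PK G 0).relIndex (WW a 0) = 1 := by
    rw [AddSubgroup.relIndex_eq_one]
    rintro f ⟨hf, _⟩
    exact ⟨hf, fun g => by rw [pow_zero]; exact one_dvd _⟩
  have hle := fun k => relIndex_le a ha ham ha1 k r h1 h2
  have hstep : ∀ k, (PK G (k + 1)).relIndex (WW a (k + 1)) =
      2 ^ d * (PK G k).relIndex (WW a (k + 1)) := by
    intro k
    rw [count a k 1, hw1]
  have hfin : ∀ k, (PK G k).relIndex (WW a k) ≠ 0 := by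
    intro k
    induction k with
    | zero => rw [hP]; exact one_ne_zero
    | succ k ih =>
      rw [hstep]
      refine mul_ne_zero (pow_ne_zero _ two_ne_zero) fun h => ih ?_
      rw [count2, h, zero_mul]
  have hcard : ∀ k, 4 ≤ Nat.card ((WW a (k + 1)).map (red G)) := by
    intro k
    rw [← relIndex_one]
    have e1 := hstep k
    have e2 := count a 1 k
    rw [add_comm 1 k] at e2
    rw [count2 a k] at e2
    have hx : (PK G k).relIndex (WW a (k + 1)) ≠ 0 := fun h => hfin k (by rw [count2, h, zero_mul])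
    have e3 : (WW a (k + 1) ⊔ PK G k).relIndex (WW a k) * (PK G 1).relIndex (WW a (k + 1)) =
        2 ^ d := by
      apply Nat.eq_of_mul_eq_mul_left (Nat.pos_of_ne_zero hx)
      rw [← mul_assoc, ← e2, e1, mul_comm]
    by_contra hcon
    have h4 : (PK G 1).relIndex (WW a (k + 1)) ≤ 3 := by omega
    have h5 : 2 ^ d ≤ 2 ^ r * 3 := by
      rw [← e3]
      exact Nat.mul_le_mul (hle k) h4
    have h6 : 2 ^ (r + 2) ≤ 2 ^ d := Nat.pow_le_pow_right (by norm_num) hdr
    rw [pow_add] at h6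
    have h7 : 0 < 2 ^ r := by positivity
    omega
  -- the images stabilise
  have hJfin : ∀ k, Finite ((WW a (k + 1)).map (red G)) := by
    intro k
    refine Nat.finite_of_card_ne_zero ?_
    have := hcard k
    omega
  obtain ⟨m, hm⟩ : ∃ m, ∀ k, Nat.card ((WW a (m + 1)).map (red G)) ≤
      Nat.card ((WW a (k + 1)).map (red G)) := by
    let S : Set ℕ := Set.range fun k => Nat.card ((WW a (k + 1)).map (red G))
    have hS : S.Nonempty := ⟨_, 0, rfl⟩
    obtain ⟨m, hm⟩ := Nat.sInf_mem hS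
    refine ⟨m, fun k => ?_⟩
    have hm' : Nat.card ((WW a (m + 1)).map (red G)) = sInf S := hm
    rw [hm']
    exact Nat.sInf_le ⟨k, rfl⟩
  have hall : ∀ u ∈ (WW a (m + 1)).map (red G), ∀ k, u ∈ (WW a k).map (red G) := by
    intro u hu k
    have h3 : (WW a (max (m + 1) (k + 1))).map (red G) ≤ (WW a (m + 1)).map (red G) :=
      AddSubgroup.map_mono (WW_anti a (le_max_left _ _))
    have h4 : (WW a (max (m + 1) (k + 1))).map (red G) = (WW a (m + 1)).map (red G) := by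
      have := hJfin m
      have h5 : max (m + 1) (k + 1) = max m k + 1 := by omega
      rw [h5] at h3 ⊢
      exact AddSubgroup.eq_of_le_of_card_ge h3 (hm (max m k))
    rw [← h4] at hu
    exact AddSubgroup.map_mono (WW_anti a (by omega)) hu
  have h3 : 2 < Nat.card ((WW a (m + 1)).map (red G)) := by
    have := hcard m
    omega
  have := hJfin m
  have := Fintype.ofFinite ((WW a (m + 1)).map (red G))
  rw [Nat.card_eq_fintype_card] at h3
  obtain ⟨x, y, z, hxy, hxz, hyz⟩ := Fintype.two_lt_card_iff.1 h3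
  have key : ∀ b c : (WW a (m + 1)).map (red G), b ≠ 0 → c ≠ 0 → b ≠ c →
      ∃ u v : G → ZMod 2, u ≠ 0 ∧ v ≠ 0 ∧ u ≠ v ∧ (∀ k, u ∈ (WW a k).map (red G)) ∧
      (∀ k, v ∈ (WW a k).map (red G)) ∧ ∀ k, (PK G k).relIndex (WW a k) ≠ 0 := by
    intro b c hb hc hbc
    exact ⟨b, c, fun h => hb (Subtype.ext h), fun h => hc (Subtype.ext h),
      fun h => hbc (Subtype.ext h), hall b b.2, hall c c.2, hfin⟩
  by_cases hx : x = 0
  · exact key y z (fun h => hxy (hx.trans h.symm)) (fun h => hxz (hx.trans h.symm)) hyz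
  · by_cases hy : y = 0
    · exact key x z hx (fun h => hyz (hy.trans h.symm)) hxz
    · exact key x y hx hy hxy

/-- a continuous character with values in `ℚ₂` has integral values -/
theorem norm_eq_one [CompactSpace G] (ρ : G →* Matrix.GeneralLinearGroup (Fin 1) ℚ_[2])
    (hρ : Continuous ρ) (g : G) : ‖(ρ g : Matrix (Fin 1) (Fin 1) ℚ_[2]) 0 0‖ = 1 := by
  have hmul : ∀ g h, (ρ (g * h) : Matrix (Fin 1) (Fin 1) ℚ_[2]) 0 0 =
      (ρ g : Matrix (Fin 1) (Fin 1) ℚ_[2]) 0 0 * (ρ h : Matrix (Fin 1) (Fin 1) ℚ_[2]) 0 0 := by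
    intro g h
    rw [map_mul, Matrix.GeneralLinearGroup.coe_mul, Matrix.mul_apply, Fin.sum_univ_one]
  have hone : (ρ 1 : Matrix (Fin 1) (Fin 1) ℚ_[2]) 0 0 = 1 := by
    rw [map_one, Matrix.GeneralLinearGroup.coe_one, Matrix.one_apply_eq]
  have hcont : Continuous fun g => (ρ g : Matrix (Fin 1) (Fin 1) ℚ_[2]) 0 0 :=
    (Units.continuous_val.comp hρ).matrix_elem 0 0
  obtain ⟨B, hB⟩ := (isCompact_range hcont.norm).bddAbove
  have hle : ∀ g, ‖(ρ g : Matrix (Fin 1) (Fin 1) ℚ_[2]) 0 0‖ ≤ 1 := by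
    intro g
    by_contra hcon
    rw [not_le] at hcon
    obtain ⟨n, hn⟩ := pow_unbounded_of_one_lt B hcon
    have h1 : ∀ n : ℕ, (ρ (g ^ n) : Matrix (Fin 1) (Fin 1) ℚ_[2]) 0 0 =
        (ρ g : Matrix (Fin 1) (Fin 1) ℚ_[2]) 0 0 ^ n := by
      intro n
      induction n with
      | zero => rw [pow_zero, pow_zero, hone]
      | succ n ih => rw [pow_succ, hmul, ih, pow_succ]
    have h2 := hB (Set.mem_range_self (g ^ n))
    simp only [h1, norm_pow] at h2
    linarith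
  apply le_antisymm (hle g)
  have h1 := hmul g g⁻¹
  rw [mul_inv_cancel, hone] at h1
  have h2 := congrArg norm h1
  rw [norm_one, norm_mul] at h2
  have h3 := hle g⁻¹
  have h4 := norm_nonneg ((ρ g : Matrix (Fin 1) (Fin 1) ℚ_[2]) 0 0)
  nlinarith

/-- two multiples of one function are dependent modulo `2` -/
theorem dep {X : Type} (b : X → ℚ_[2]) (x y : X → ℤ_[2]) (c e : ℚ_[2])
    (hx : ∀ g, (x g : ℚ_[2]) = b g * c) (hy : ∀ g, (y g : ℚ_[2]) = b g * e)
    (hle : ‖c‖ ≤ ‖e‖) (hy0 : red X y ≠ 0) : red X x = 0 ∨ red X x = red X y := by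
  have he : e ≠ 0 := by
    rintro rfl
    apply hy0
    funext g
    have h1 : (y g : ℚ_[2]) = 0 := by rw [hy, mul_zero]
    have h2 : y g = 0 := Subtype.coe_injective h1
    change PadicInt.toZMod (y g) = 0
    rw [h2, map_zero]
  have ht : ‖c / e‖ ≤ 1 := by
    rw [norm_div]
    exact div_le_one_of_le₀ hle (norm_nonneg _)
  let t : ℤ_[2] := ⟨c / e, ht⟩
  have h1 : ∀ g, x g = t * y g := by
    intro g
    apply Subtype.coe_injective
    change (x g : ℚ_[2]) = (c / e) * (y g : ℚ_[2])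
    rw [hx, hy]
    field_simp
  have h2 : PadicInt.toZMod t = 0 ∨ PadicInt.toZMod t = 1 := by
    generalize PadicInt.toZMod t = w
    revert w
    decide
  rcases h2 with h2 | h2
  · left
    funext g
    change PadicInt.toZMod (x g) = 0
    rw [h1, map_mul, h2, zero_mul]
  · right
    funext g
    change PadicInt.toZMod (x g) = PadicInt.toZMod (y g)
    rw [h1, map_mul, h2, one_mul]

end EUNAux

open EUNAux in
theorem stEUN : StEUN := by
  intro G _ _ _ _ _ ρ hρ d r h0 h1 h2 hdr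
  have hmul : ∀ g h, (ρ (g * h) : Matrix (Fin 1) (Fin 1) ℚ_[2]) 0 0 =
      (ρ g : Matrix (Fin 1) (Fin 1) ℚ_[2]) 0 0 * (ρ h : Matrix (Fin 1) (Fin 1) ℚ_[2]) 0 0 := by
    intro g h
    rw [map_mul, Matrix.GeneralLinearGroup.coe_mul, Matrix.mul_apply, Fin.sum_univ_one]
  have hcont : Continuous fun g => (ρ g : Matrix (Fin 1) (Fin 1) ℚ_[2]) 0 0 :=
    (Units.continuous_val.comp hρ).matrix_elem 0 0
  let a : G → ℤ_[2] := fun g =>
    ⟨(ρ g : Matrix (Fin 1) (Fin 1) ℚ_[2]) 0 0, (norm_eq_one ρ hρ g).le⟩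
  have ha : Continuous a := hcont.subtype_mk _
  have ham : ∀ g h, a (g * h) = a g * a h := fun g h => Subtype.ext (hmul g h)
  have ha1 : ∀ g, PadicInt.toZMod (a g) = 1 := by
    intro g
    have h3 : PadicInt.toZMod (a g) ≠ 0 := by
      rw [Ne, ← RingHom.mem_ker, PadicInt.ker_toZMod, IsLocalRing.mem_maximalIdeal,
        mem_nonunits_iff, not_not, PadicInt.isUnit_iff]
      exact norm_eq_one ρ hρ g
    generalize PadicInt.toZMod (a g) = w at h3
    revert w
    decide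
  obtain ⟨u, v, hu0, hv0, huv, hu, hv, hfin⟩ := exists_pair a ha ham ha1 d r h0 h1 h2 hdr
  obtain ⟨x, hx1, hx2, hx3⟩ := exists_limit a hfin u hu
  obtain ⟨y, hy1, hy2, hy3⟩ := exists_limit a hfin v hv
  by_contra hcon
  push Not at hcon
  have key : ∀ z : G → ℤ_[2], Continuous z → (∀ g h, z (g * h) = z g + a g * z h) →
      ∃ c : ℚ_[2], ∀ g, (z g : ℚ_[2]) = ((ρ g : Matrix (Fin 1) (Fin 1) ℚ_[2]) 0 0 - 1) * c := by
    intro z hz1 hz2
    have h3 : (fun g => (fun _ => (z g : ℚ_[2]) : Fin 1 → ℚ_[2])) ∈ BKOdd.Z1 ρ := by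
      refine ⟨continuous_pi fun _ => continuous_subtype_val.comp hz1, fun g h => ?_⟩
      funext i
      rw [Pi.add_apply, Matrix.mulVec, dotProduct, Fin.sum_univ_one, Subsingleton.elim i 0]
      change ((z (g * h) : ℤ_[2]) : ℚ_[2]) = (z g : ℚ_[2]) + (a g : ℚ_[2]) * (z h : ℚ_[2])
      rw [hz2]
      push_cast
      rfl
    obtain ⟨w, hw⟩ := hcon _ h3
    refine ⟨w 0, fun g => ?_⟩
    have h4 := congrFun (congrFun hw g) 0
    rw [BKOdd.cob_apply, Pi.sub_apply, Matrix.mulVec, dotProduct, Fin.sum_univ_one] at h4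
    change _ = (z g : ℚ_[2]) at h4
    rw [← h4]
    ring
  obtain ⟨c, hc⟩ := key x hx1 hx2
  obtain ⟨e, he⟩ := key y hy1 hy2
  rcases le_total ‖c‖ ‖e‖ with h | h
  · rcases dep _ x y c e hc he h (by rw [hy3]; exact hv0) with h' | h'
    · exact hu0 (by rw [← hx3, h'])
    · exact huv (by rw [← hx3, h', hy3])
  · rcases dep _ y x e c he hc h (by rw [hx3]; exact hu0) with h' | h'
    · exact hv0 (by rw [← hy3, h'])
    · exact huv (by rw [← hx3, ← h', hy3])

end BKR
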