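import Pool.Agent.Lib.MP_7c08ba_nt.R1.St
import Pool.Agent.Lib.MP_7c08ba_nt.Met.LRL
import Pool.Agent.Lib.MP_7c08ba_nt.Met.HAR
import Pool.Agent.Lib.MP_7c08ba_nt.Met.HCJ
import Pool.Agent.Lib.MP_7c08ba_nt.Met.HCP
import Pool.Agent.Lib.MP_7c08ba_nt.Met.FDESC

set_option autoImplicit false
set_option linter.unusedSectionVars false

/-!
Module ISO: the restriction of a global cocycle at `e` and its conjugate are orthogonal.
-/

noncomputable section

namespace BKR

open NumberField IsDedekindDomain BKGen BKGen.SUnits Matrix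
open BKLoc2 (im cy cyL Sys IsKP IsHom)
open BKMet (QZ actA GF GQ cycF RS GS pb1 pb2)
open BKPar (Loc1 Loc2)
open BKGlob2 (Cp fs sn LC dc SP Prin CC0)
open BKOdd (chL chZ)

namespace ISOAux

/-! ### One dimensional cocycles -/

section Alg

variable {G : Type*} [Group G] [TopologicalSpace G]
variable {L : Type*} [NormedField L]

/-- the entry of a one dimensional representation -/
def ent (V : G →* GL (Fin 1) L) : G →* L where
  toFun g := (V g : Matrix (Fin 1) (Fin 1) L) 0 0
  map_one' := by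
    rw [map_one, Units.val_one, Matrix.one_apply_eq]
  map_mul' g h := by
    rw [map_mul, Units.val_mul, Matrix.mul_apply, Fin.sum_univ_one]

theorem ent_apply (V : G →* GL (Fin 1) L) (g : G) :
    ent V g = (V g : Matrix (Fin 1) (Fin 1) L) 0 0 := rfl

theorem continuous_ent {V : G →* GL (Fin 1) L} (hV : Continuous V) : Continuous (ent V) := by
  have h1 : Continuous fun g => (V g : Matrix (Fin 1) (Fin 1) L) := Units.continuous_val.comp hV
  exact h1.matrix_elem 0 0

theorem mulVec_zero' (V : G →* GL (Fin 1) L) (g : G) (a : Fin 1 → L) :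
    (V g : Matrix (Fin 1) (Fin 1) L).mulVec a 0 = ent V g * a 0 := by
  rw [Matrix.mulVec, dotProduct, Fin.sum_univ_one, ent_apply]

theorem coc {V : G →* GL (Fin 1) L} {x : G → Fin 1 → L} (hx : x ∈ BKOdd.Z1 V) (g h : G) :
    x (g * h) 0 = x g 0 + ent V g * x h 0 := by
  rw [hx.2 g h, Pi.add_apply, mulVec_zero']

theorem coc_cont {V : G →* GL (Fin 1) L} {x : G → Fin 1 → L} (hx : x ∈ BKOdd.Z1 V) :
    Continuous fun g => x g 0 := (continuous_apply 0).comp hx.1

/-- the cup product is a cocycle -/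
theorem cup_mem {v w χ : G →* L} {ξ η : G → L} (hξ : Continuous ξ) (hη : Continuous η)
    (hw : Continuous w) (hξ' : ∀ g h, ξ (g * h) = ξ g + v g * ξ h)
    (hη' : ∀ g h, η (g * h) = η g + w g * η h) (hχ : ∀ g, v g * w g = χ g) :
    (fun g h => ξ g * (w g * η h)) ∈ CC.Z2 χ := by
  refine ⟨?_, fun g h k => ?_⟩
  · exact (hξ.comp continuous_fst).mul ((hw.comp continuous_fst).mul (hη.comp continuous_snd))
  · simp only [hξ', hη', map_mul, ← hχ]
    ring

/-- anticommutativity -/
theorem cup_comm [IsTopologicalGroup G] {v w χ : G →* L} {ξ η : G → L} (hξ : Continuous ξ)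
    (hη : Continuous η) (hξ' : ∀ g h, ξ (g * h) = ξ g + v g * ξ h)
    (hη' : ∀ g h, η (g * h) = η g + w g * η h) (hχ : ∀ g, v g * w g = χ g) :
    (fun g h => ξ g * (w g * η h) + η g * (v g * ξ h)) ∈ CC.B2 χ := by
  refine ⟨fun g => -(ξ g * η g), (hξ.mul hη).neg, fun g h => ?_⟩
  simp only [hξ', hη', ← hχ]
  ring

end Alg

/-! ### Linear forms -/

section Lin

variable {G : Type*} [Group G] [TopologicalSpace G]
variable {L : Type*} [NormedField L] [NormedAlgebra ℚ_[2] L] [FiniteDimensional ℚ_[2] L]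
  (χ : G →* ℤ_[2]ˣ)

theorem chL_apply (g : G) :
    chL χ L g = algebraMap ℚ_[2] L (((χ g : ℤ_[2]ˣ) : ℤ_[2]) : ℚ_[2]) := rfl

theorem chL_self (g : G) : chL χ ℚ_[2] g = (((χ g : ℤ_[2]ˣ) : ℤ_[2]) : ℚ_[2]) := rfl

theorem form_mul (lam : L →ₗ[ℚ_[2]] ℚ_[2]) (g : G) (y : L) :
    lam (chL χ L g * y) = chL χ ℚ_[2] g * lam y := by
  rw [chL_apply, chL_self, ← Algebra.smul_def, map_smul, smul_eq_mul]

theorem form_Z2 (lam : L →ₗ[ℚ_[2]] ℚ_[2]) {z : G → G → L} (hz : z ∈ CC.Z2 (chL χ L)) :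
    (fun g h => lam (z g h)) ∈ CC.Z2 (chL χ ℚ_[2]) := by
  refine ⟨(LinearMap.continuous_of_finiteDimensional lam).comp hz.1, fun g h k => ?_⟩
  have h1 := congrArg lam (hz.2 g h k)
  rw [map_add, map_add, form_mul] at h1
  exact h1

theorem form_B2 (lam : L →ₗ[ℚ_[2]] ℚ_[2]) {z : G → G → L} (hz : z ∈ CC.B2 (chL χ L)) :
    (fun g h => lam (z g h)) ∈ CC.B2 (chL χ ℚ_[2]) := by
  obtain ⟨f, hf, h⟩ := hz
  refine ⟨fun g => lam (f g), (LinearMap.continuous_of_finiteDimensional lam).comp hf,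
    fun g k => ?_⟩
  change lam (z g k) = _
  rw [h, map_sub, map_add, form_mul]

theorem of_forms {z : G → G → L}
    (h : ∀ lam : L →ₗ[ℚ_[2]] ℚ_[2], (fun g h => lam (z g h)) ∈ CC.B2 (chL χ ℚ_[2])) :
    z ∈ CC.B2 (chL χ L) := by
  classical
  let b := Module.finBasis ℚ_[2] L
  choose f hf hf' using fun i => h (b.coord i)
  refine ⟨fun g => ∑ i, f i g • b i, ?_, fun g k => ?_⟩
  · exact continuous_finsetSum _ fun i _ => (hf i).smul continuous_const
  · have h1 : z g k = ∑ i, (b.coord i (z g k)) • b i := (b.sum_repr (z g k)).symm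
    rw [h1, Finset.mul_sum, ← Finset.sum_add_distrib, ← Finset.sum_sub_distrib]
    refine Finset.sum_congr rfl fun i _ => ?_
    have h2 : b.coord i (z g k) = f i g + chL χ ℚ_[2] g * f i k - f i (g * k) := hf' i g k
    rw [h2, sub_smul, add_smul, mul_smul, chL_self, chL_apply, ← Algebra.smul_def]

end Lin

/-! ### Complex conjugation -/

theorem cc_RS {F : Type} [Field F] {c₀ : AlgebraicClosure F ≃+* AlgebraicClosure F}
    {cc : GF F →* GF F} (hcc : CC0 c₀ cc) (hcont : Continuous cc)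
    (P : Set ℕ) : ∀ r ∈ RS F P, cc r ∈ RS F P := by
  have hcl : IsClosed (RS F P : Set (GF F)) := Subgroup.isClosed_topologicalClosure _
  have hsub : BKMet.InertAway F P ⊆ ((RS F P).comap cc : Subgroup (GF F)) := by
    rintro g ⟨l, hl', j, hl, hg⟩
    refine Subgroup.le_topologicalClosure _ (Subgroup.subset_normalClosure ?_)
    refine ⟨l, hl', j.comp (c₀.symm : AlgebraicClosure F →+* AlgebraicClosure F), hl, ?_⟩
    intro x hx
    have h1 := hg (c₀.symm x) hx
    have h2 : cc g x = c₀ (g (c₀.symm x)) := by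
      rw [← hcc.eq, RingEquiv.apply_symm_apply]
    have h3 : (c₀.symm : AlgebraicClosure F →+* AlgebraicClosure F) (cc g x - x) =
        g (c₀.symm x) - c₀.symm x := by
      rw [map_sub, h2]
      change c₀.symm (c₀ (g (c₀.symm x))) - c₀.symm x = _
      rw [RingEquiv.symm_apply_apply]
    rw [RingHom.comp_apply, h3]
    exact h1
  have hn : ((RS F P).comap cc).Normal := (BKMet.instNormalRS F P).comap cc
  exact BKMet.FDESC.RS_le ((RS F P).comap cc) (hcl.preimage hcont) hsub

end ISOAux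

open ISOAux in
/-- Module ISO. -/
theorem stISO (hRCQ : StRCQ) (hUN2 : StUN2) : StISO := by
  intro q F _ _ s hF hB c₀ cc hcc P hPf hPp hP2 L _ _ _ V hV hVR hVV x hx hxR hxl e
  classical
  obtain ⟨hcont, hinv, -, -, -⟩ := (BKGlob2.stCJ F hB.quad hB.imag c₀ hcc.conj).2 cc hcc
  have hcp : ∀ (l : ℕ) [Fact l.Prime] (j : AlgebraicClosure F →+* PadicAlgCl l),
      Continuous (fs (MonoidHom.id (GF F)) j) ∧ CompactSpace (Cp (MonoidHom.id (GF F)) j) ∧
      NonarchimedeanGroup (Cp (MonoidHom.id (GF F)) j) := by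
    intro l _ j
    have h := BKGlob2.stCP F (AlgebraicClosure F) (GF F) (MonoidHom.id (GF F))
      Topology.IsOpenEmbedding.id l j
    exact ⟨h.2.1, h.2.2.1, h.2.2.2.1⟩
  -- the functions
  set v : GF F →* L := ent V with hv
  set w : GF F →* L := (ent V).comp cc with hw
  set ξ : GF F → L := fun g => x g 0 with hξ
  set η : GF F → L := fun g => x (cc g) 0 with hη
  have hvc : Continuous v := continuous_ent hV
  have hwc : Continuous w := hvc.comp hcont
  have hξc : Continuous ξ := coc_cont hx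
  have hηc : Continuous η := hξc.comp hcont
  have hξ' : ∀ g h, ξ (g * h) = ξ g + v g * ξ h := coc hx
  have hη' : ∀ g h, η (g * h) = η g + w g * η h := fun g h => by
    change x (cc (g * h)) 0 = _
    rw [map_mul]
    exact coc hx _ _
  have hχ : ∀ g, v g * w g = chL (cycF 2 F) L g := hVV
  set z : GF F → GF F → L := fun g h => ξ g * (w g * η h) with hz
  have hzZ : z ∈ CC.Z2 (chL (cycF 2 F) L) := cup_mem hξc hηc hwc hξ' hη' hχ
  have hwcc : ∀ g, w (cc g) = v g := fun g => by
    change ent V (cc (cc g)) = _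
    rw [hinv]
  have hηcc : ∀ g, η (cc g) = ξ g := fun g => by
    change x (cc (cc g)) 0 = _
    rw [hinv]
  have hzc : (fun g h => z g h + z (cc g) (cc h)) ∈ CC.B2 (chL (cycF 2 F) L) := by
    have h1 := cup_comm hξc hηc hξ' hη' hχ
    have h2 : (fun g h => z g h + z (cc g) (cc h)) =
        fun g h => ξ g * (w g * η h) + η g * (v g * ξ h) := by
      funext g h
      change ξ g * (w g * η h) + ξ (cc g) * (w (cc g) * η (cc h)) = _
      rw [hwcc, hηcc]
    rw [h2]
    exact h1
  -- the cocycle is trivial on `RS F P`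
  have hRcc := cc_RS hcc hcont P
  have hξR : ∀ r ∈ RS F P, ξ r = 0 := fun r hr => by
    change x r 0 = 0
    rw [hxR r hr]
    rfl
  have hηR : ∀ r ∈ RS F P, η r = 0 := fun r hr => hξR _ (hRcc r hr)
  have hwR : ∀ r ∈ RS F P, w r = 1 := fun r hr => by
    change (V (cc r) : Matrix (Fin 1) (Fin 1) L) 0 0 = 1
    rw [hVR _ (hRcc r hr), Units.val_one, Matrix.one_apply_eq]
  have hzR : ∀ g k, ∀ r ∈ RS F P, ∀ r' ∈ RS F P, z (g * r) (k * r') = z g k := by
    intro g k r hr r' hr'
    change ξ (g * r) * (w (g * r) * η (k * r')) = ξ g * (w g * η k)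
    rw [hξ', hη', map_mul, hξR r hr, hηR r' hr', hwR r hr, mul_zero, mul_zero, add_zero,
      add_zero, mul_one]
  -- the character of `GS F P`
  have hχcont : Continuous (cycF 2 F) := cyclotomicCharacter.continuous 2 F (AlgebraicClosure F)
  have hχ1 : ∀ r ∈ RS F P, cycF 2 F r = 1 :=
    BKMet.FDESC.eq_one_of_RS _ hχcont (BKMet.FDESC.cycF_inert hP2)
  set χS : GS F P →* ℤ_[2]ˣ := QuotientGroup.lift (RS F P) (cycF 2 F) hχ1 with hχS
  have hχS' : ∀ g : GF F, χS (QuotientGroup.mk g) = cycF 2 F g := fun g => rfl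
  have hcompact : CompactSpace (GS F P) := by
    change CompactSpace (GF F ⧸ RS F P)
    infer_instance
  have hnonarch : NonarchimedeanGroup (GS F P) := BKOdd.nonarch_quotient (RS F P)
  -- the local conditions
  have hloc : ∀ lam : L →ₗ[ℚ_[2]] ℚ_[2], ∀ (l : ℕ) [Fact l.Prime], l ≠ 2 →
      ∀ j : AlgebraicClosure F →+* PadicAlgCl l, ∀ m : ℕ,
      pb2 (fs (MonoidHom.id (GF F)) j) (fun g h => BKLoc2.cl 2 (lam (z g h) / 2 ^ m)) ∈
        BKND.B2 (actA ((cycF 2 F).comp (fs (MonoidHom.id (GF F)) j))) := by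
    intro lam l _ hl2 j m
    obtain ⟨hfs, hD1, hD2⟩ := hcp l j
    have hlamc : Continuous lam := LinearMap.continuous_of_finiteDimensional lam
    by_cases hlP : l ∈ P
    · obtain ⟨a, ha⟩ := hxl l hlP hl2 j
      have ha' : ∀ d, ξ (fs (MonoidHom.id (GF F)) j d) =
          v (fs (MonoidHom.id (GF F)) j d) * a 0 - a 0 := by
        intro d
        have h1 := congrFun (congrFun ha d) 0
        change (V (fs (MonoidHom.id (GF F)) j d) : Matrix (Fin 1) (Fin 1) L).mulVec a 0 - a 0 =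
          x (fs (MonoidHom.id (GF F)) j d) 0 at h1
        rw [mulVec_zero'] at h1
        exact h1.symm
      have hβ : Continuous fun d : Cp (MonoidHom.id (GF F)) j =>
          lam (a 0 * η (fs (MonoidHom.id (GF F)) j d)) / 2 ^ m :=
        (hlamc.comp (continuous_const.mul (hηc.comp hfs))).div_const _
      have h1 := BKMet.LRL.mem_B2 (p := 2) ((cycF 2 F).comp (fs (MonoidHom.id (GF F)) j)) hβ
      have h2 : pb2 (fs (MonoidHom.id (GF F)) j) (fun g h => BKLoc2.cl 2 (lam (z g h) / 2 ^ m)) =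
          fun g h => BKLoc2.cl 2 (lam (a 0 * η (fs (MonoidHom.id (GF F)) j g)) / 2 ^ m +
            BKMet.LRL.kap ((cycF 2 F).comp (fs (MonoidHom.id (GF F)) j)) g *
              (lam (a 0 * η (fs (MonoidHom.id (GF F)) j h)) / 2 ^ m) -
            lam (a 0 * η (fs (MonoidHom.id (GF F)) j (g * h))) / 2 ^ m) := by
        funext g h
        change BKLoc2.cl 2 (lam (z (fs (MonoidHom.id (GF F)) j g)
          (fs (MonoidHom.id (GF F)) j h)) / 2 ^ m) = _
        congr 1
        have h3 : z (fs (MonoidHom.id (GF F)) j g) (fs (MonoidHom.id (GF F)) j h) =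
            a 0 * η (fs (MonoidHom.id (GF F)) j g) +
            chL (cycF 2 F) L (fs (MonoidHom.id (GF F)) j g) *
              (a 0 * η (fs (MonoidHom.id (GF F)) j h)) -
            a 0 * η (fs (MonoidHom.id (GF F)) j (g * h)) := by
          change ξ _ * (w _ * η _) = _
          rw [map_mul, hη', ha', ← hχ]
          ring
        rw [h3, map_sub, map_add, form_mul]
        have h4 : chL (cycF 2 F) ℚ_[2] (fs (MonoidHom.id (GF F)) j g) =
            BKMet.LRL.kap ((cycF 2 F).comp (fs (MonoidHom.id (GF F)) j)) g := rfl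
        rw [h4]
        ring
      rw [h2]
      exact h1
    · obtain ⟨f, hf, hf'⟩ := BKOdd.exists_desc₂ (RS F P) (fun g h => lam (z g h) / 2 ^ m)
        ((hlamc.comp hzZ.1).div_const _) (fun g k r hr r' hr' => by rw [hzR g k r hr r' hr'])
      have hfZ : (fun g h => BKLoc2.cl 2 (f g h)) ∈ BKND.Z2 (actA χS) := by
        refine BKMet.LRL.mem_Z2 χS hf ?_
        intro g h k
        obtain ⟨g, rfl⟩ := QuotientGroup.mk_surjective g
        obtain ⟨h, rfl⟩ := QuotientGroup.mk_surjective h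
        obtain ⟨k, rfl⟩ := QuotientGroup.mk_surjective k
        rw [← QuotientGroup.mk_mul, ← QuotientGroup.mk_mul, hf', hf', hf', hf']
        have h1 := (form_Z2 (cycF 2 F) lam hzZ).2 g h k
        have h2 : chL (cycF 2 F) ℚ_[2] g = BKMet.LRL.kap χS (QuotientGroup.mk g) := rfl
        rw [h2] at h1
        linear_combination h1 / 2 ^ m
      have h1 := hUN2 F (AlgebraicClosure F) (GF F) (MonoidHom.id (GF F))
        Topology.IsOpenEmbedding.id l hl2 j (GS F P) (QuotientGroup.mk' (RS F P))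
        QuotientGroup.continuous_mk
        (fun v hv => (QuotientGroup.eq_one_iff v).2 (BKGlob2.AR.inert_mem hlP j hv)) (QZ 2)
        (actA χS) BKGlob2.AR.qz_tors (BKGlob2.AR.sm_actA 2 χS hχS') _ hfZ
      have e1 : actA ((cycF 2 F).comp (fs (MonoidHom.id (GF F)) j)) =
          (actA χS).comp ((QuotientGroup.mk' (RS F P)).comp (fs (MonoidHom.id (GF F)) j)) := by
        refine MonoidHom.ext fun d => AddMonoidHom.ext fun x => ?_
        rfl
      have e2 : pb2 (fs (MonoidHom.id (GF F)) j) (fun g h => BKLoc2.cl 2 (lam (z g h) / 2 ^ m)) =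
          pb2 ((QuotientGroup.mk' (RS F P)).comp (fs (MonoidHom.id (GF F)) j))
            (fun g h => BKLoc2.cl 2 (f g h)) := by
        funext g h
        change BKLoc2.cl 2 (lam (z (fs (MonoidHom.id (GF F)) j g)
          (fs (MonoidHom.id (GF F)) j h)) / 2 ^ m) =
          BKLoc2.cl 2 (f (QuotientGroup.mk (fs (MonoidHom.id (GF F)) j g))
            (QuotientGroup.mk (fs (MonoidHom.id (GF F)) j h)))
        rw [hf']
      rw [e1, e2]
      exact h1
  -- conclusion
  obtain ⟨hfs, -, -⟩ := hcp 2 e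
  change pb2 (fs (MonoidHom.id (GF F)) e) z ∈ _
  refine of_forms ((cycF 2 F).comp (fs (MonoidHom.id (GF F)) e)) fun lam => ?_
  have h1 := hRCQ q F s hF hB c₀ cc hcc e _ (form_Z2 (cycF 2 F) lam hzZ) (fun l _ hl2 j m =>
    hloc lam l hl2 j m)
  have h2 : (fun g h => lam (z (fs (MonoidHom.id (GF F)) e g) (fs (MonoidHom.id (GF F)) e h)) +
      lam (z (cc (fs (MonoidHom.id (GF F)) e g)) (cc (fs (MonoidHom.id (GF F)) e h)))) ∈
      CC.B2 (chL ((cycF 2 F).comp (fs (MonoidHom.id (GF F)) e)) ℚ_[2]) := by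
    obtain ⟨f, hf, hf'⟩ := form_B2 (cycF 2 F) lam hzc
    refine ⟨fun d => f (fs (MonoidHom.id (GF F)) e d), hf.comp hfs, fun g h => ?_⟩
    have h3 := hf' (fs (MonoidHom.id (GF F)) e g) (fs (MonoidHom.id (GF F)) e h)
    have h4 : lam (z (fs (MonoidHom.id (GF F)) e g) (fs (MonoidHom.id (GF F)) e h) +
        z (cc (fs (MonoidHom.id (GF F)) e g)) (cc (fs (MonoidHom.id (GF F)) e h))) =
        f (fs (MonoidHom.id (GF F)) e g) + chL (cycF 2 F) ℚ_[2] (fs (MonoidHom.id (GF F)) e g) *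
          f (fs (MonoidHom.id (GF F)) e h) -
        f (fs (MonoidHom.id (GF F)) e g * fs (MonoidHom.id (GF F)) e h) := h3
    rw [map_add, ← map_mul] at h4
    exact h4
  have h3 := Submodule.smul_mem _ (1 / 2 : ℚ_[2]) (Submodule.add_mem _ h1 h2)
  have h4 : (fun g h => lam (pb2 (fs (MonoidHom.id (GF F)) e) z g h)) =
      (1 / 2 : ℚ_[2]) • ((pb2 (fs (MonoidHom.id (GF F)) e) (fun g h => lam (z g h)) -
        pb2 (cc.comp (fs (MonoidHom.id (GF F)) e)) (fun g h => lam (z g h))) +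
      fun g h => lam (z (fs (MonoidHom.id (GF F)) e g) (fs (MonoidHom.id (GF F)) e h)) +
      lam (z (cc (fs (MonoidHom.id (GF F)) e g)) (cc (fs (MonoidHom.id (GF F)) e h)))) := by
    funext g h
    change lam (z (fs (MonoidHom.id (GF F)) e g) (fs (MonoidHom.id (GF F)) e h)) =
      (1 / 2 : ℚ_[2]) * ((lam (z (fs (MonoidHom.id (GF F)) e g) (fs (MonoidHom.id (GF F)) e h)) -
        lam (z (cc (fs (MonoidHom.id (GF F)) e g)) (cc (fs (MonoidHom.id (GF F)) e h)))) +
      (lam (z (fs (MonoidHom.id (GF F)) e g) (fs (MonoidHom.id (GF F)) e h)) +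
      lam (z (cc (fs (MonoidHom.id (GF F)) e g)) (cc (fs (MonoidHom.id (GF F)) e h)))))
    ring
  rw [h4]
  exact h3

end BKR
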