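import Pool.Agent.Lib.MP_7c08ba_nt.R1.St
import Pool.Agent.Lib.MP_7c08ba_nt.Odd.LineL
import Pool.Agent.Lib.MP_7c08ba_nt.Met.LN4

set_option autoImplicit false

/-!
Module LOQ: `H²(D, ℚ₂(χ))` for an open subgroup `D` of the Galois group of `ℚ₂`.
-/

noncomputable section

namespace BKR

open Filter Topology
open BKOdd (chL chZ chm Fx)
open BKLoc2 (im cl cy cyL Sys IsKP IsHom)
open BKMet (QZ actA GF GQ)
open BKPar (Loc1 Loc2)

namespace LOQAux

section Int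

variable {p : ℕ} [Fact p.Prime] {G : Type*} [Group G] [TopologicalSpace G] {κ : G →* ℤ_[p]}

/-- a class whose reduction is trivial is divisible by `p` -/
theorem step0 [CompactSpace G] [IsTopologicalGroup G] (hκ : Continuous κ)
    (z : G → G → ℤ_[p]) (hz : z ∈ CC.Z2 κ)
    (hB : (fun g h => PadicInt.toZMod (z g h)) ∈
      CC.B2 (((PadicInt.toZMod (p := p)) : ℤ_[p] →* ZMod p).comp κ)) :
    ∃ (b : G → ℤ_[p]) (z' : G → G → ℤ_[p]), Continuous b ∧ z' ∈ CC.Z2 κ ∧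
      ∀ g h, z g h = (b g + κ g * b h - b (g * h)) + p * z' g h := by
  obtain ⟨f, hf, hfz⟩ := hB
  let b : G → ℤ_[p] := fun g => (((f g).val : ℕ) : ℤ_[p])
  have hb : Continuous b := by
    have h1 : Continuous fun x : ZMod p => ((x.val : ℕ) : ℤ_[p]) := continuous_of_discreteTopology
    exact h1.comp hf
  have hr : ∀ g h, PadicInt.toZMod (z g h - (b g + κ g * b h - b (g * h))) = 0 := by
    intro g h
    have e1 := hfz g h
    simp only [MonoidHom.comp_apply] at e1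
    change PadicInt.toZMod (z g h) =
      f g + PadicInt.toZMod (κ g) * f h - f (g * h) at e1
    simp only [b, map_sub, map_add, map_mul, BKOdd.Lift.rp_val]
    linear_combination e1
  choose z' hz' using fun g h => BKOdd.Lift.rp_eq_zero (hr g h)
  have hp0 : (p : ℤ_[p]) ≠ 0 := by exact_mod_cast (Fact.out : p.Prime).ne_zero
  refine ⟨b, z', hb, ⟨?_, ?_⟩, fun g h => ?_⟩
  · apply BKOdd.Lift.continuous_of_coe
    have hp' : ((p : ℤ_[p]) : ℚ_[p]) ≠ 0 := by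
      intro h
      exact hp0 (PadicInt.ext h)
    have h1 : (fun x : G × G => ((z' x.1 x.2 : ℤ_[p]) : ℚ_[p])) =
        fun x : G × G => (((z x.1 x.2 -
          (b x.1 + κ x.1 * b x.2 - b (x.1 * x.2)) : ℤ_[p])) : ℚ_[p]) /
          ((p : ℤ_[p]) : ℚ_[p]) := by
      funext x
      rw [eq_div_iff hp', mul_comm, ← PadicInt.coe_mul]
      congr 1
      exact (hz' x.1 x.2).symm
    rw [h1]
    have h2 : Continuous fun x : G × G =>
        z x.1 x.2 - (b x.1 + κ x.1 * b x.2 - b (x.1 * x.2)) := by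
      refine hz.1.sub ?_
      fun_prop
    exact (continuous_subtype_val.comp h2).div_const _
  · intro g h k
    have h1 := hz.2 g h k
    apply mul_left_cancel₀ hp0
    rw [mul_add, mul_add, ← mul_assoc, mul_comm (p : ℤ_[p]) (κ g), mul_assoc, ← hz', ← hz', ← hz',
      ← hz']
    simp only [map_mul, mul_assoc]
    linear_combination h1
  · rw [← hz']
    ring

/-- successive approximation -/
theorem iter0 (P : (G → G → ℤ_[p]) → Prop)
    (H : ∀ z, P z → ∃ (b : G → ℤ_[p]) (z' : G → G → ℤ_[p]), Continuous b ∧ P z' ∧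
      ∀ g h, z g h = (b g + κ g * b h - b (g * h)) + p * z' g h) :
    ∀ z, P z → ∃ b : G → ℤ_[p], Continuous b ∧
      ∀ g h, z g h = b g + κ g * b h - b (g * h) := by
  intro z hz
  have H' : ∀ z : {z // P z}, ∃ (b : G → ℤ_[p]) (z' : {z // P z}),
      Continuous b ∧ ∀ g h, z.1 g h = (b g + κ g * b h - b (g * h)) + p * z'.1 g h := by
    intro z
    obtain ⟨b, z', h1, h2, h3⟩ := H z.1 z.2
    exact ⟨b, ⟨z', h2⟩, h1, h3⟩
  choose B N hB hN using H'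
  set zs : ℕ → {z // P z} := fun n => N^[n] ⟨z, hz⟩ with hzs
  have hgeo : Summable fun n : ℕ => ((p : ℝ)⁻¹) ^ n :=
    summable_geometric_of_lt_one BKOdd.Lift.inv_nonneg' BKOdd.Lift.inv_lt_one
  have hnorm : ∀ n g, ‖(p : ℤ_[p]) ^ n * B (zs n) g‖ ≤ ((p : ℝ)⁻¹) ^ n := by
    intro n g
    rw [norm_mul, BKOdd.Lift.norm_p_pow]
    exact mul_le_of_le_one_right (by positivity) (PadicInt.norm_le_one _)
  have hBs : ∀ g, Summable fun n => (p : ℤ_[p]) ^ n * B (zs n) g := fun g =>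
    Summable.of_norm_bounded (g := fun n => ((p : ℝ)⁻¹) ^ n) hgeo (fun n => hnorm n g)
  have key : ∀ m g h, z g h =
      ((∑ n ∈ Finset.range m, (p : ℤ_[p]) ^ n * B (zs n) g) +
        κ g * (∑ n ∈ Finset.range m, (p : ℤ_[p]) ^ n * B (zs n) h) -
        (∑ n ∈ Finset.range m, (p : ℤ_[p]) ^ n * B (zs n) (g * h))) +
      p ^ m * (zs m).1 g h := by
    intro m
    induction m with
    | zero => intro g h; simp [hzs]
    | succ m ih =>
      intro g h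
      have h1 := ih g h
      have h2 := hN (zs m) g h
      have h3 : zs (m + 1) = N (zs m) := by
        simp only [hzs]
        exact Function.iterate_succ_apply' N m _
      rw [h3]
      simp only [Finset.sum_range_succ] at h1 h2 ⊢
      rw [pow_succ]
      linear_combination h1 + (p : ℤ_[p]) ^ m * h2
  refine ⟨fun g => ∑' n, (p : ℤ_[p]) ^ n * B (zs n) g, ?_, ?_⟩
  · exact continuous_tsum (u := fun n => ((p : ℝ)⁻¹) ^ n) (fun n => continuous_const.mul (hB _))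
      hgeo hnorm
  · intro g h
    have t2 := fun g => (hBs g).hasSum.tendsto_sum_nat
    have t3 : Tendsto (fun m => (p : ℤ_[p]) ^ m * (zs m).1 g h) atTop (𝓝 0) := by
      rw [tendsto_zero_iff_norm_tendsto_zero]
      refine squeeze_zero (fun _ => norm_nonneg _) (g := fun n => ((p : ℝ)⁻¹) ^ n) ?_
        (tendsto_pow_atTop_nhds_zero_of_lt_one BKOdd.Lift.inv_nonneg' BKOdd.Lift.inv_lt_one)
      intro n
      rw [norm_mul, BKOdd.Lift.norm_p_pow]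
      exact mul_le_of_le_one_right (by positivity) (PadicInt.norm_le_one _)
    have t4 := (((t2 g).add ((t2 h).const_mul (κ g))).sub (t2 (g * h))).add t3
    rw [add_zero] at t4
    have t5 : Tendsto (fun _ : ℕ => z g h) atTop (𝓝 (z g h)) := tendsto_const_nhds
    refine tendsto_nhds_unique t5 (t4.congr ?_)
    intro m
    exact (key m g h).symm

/-- a class is trivial or a power of `p` times a class whose reduction is not trivial -/
theorem dich [CompactSpace G] [IsTopologicalGroup G] (hκ : Continuous κ)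
    (w : G → G → ℤ_[p]) (hw : w ∈ CC.Z2 κ) :
    (∃ b : G → ℤ_[p], Continuous b ∧ ∀ g h, w g h = b g + κ g * b h - b (g * h)) ∨
    ∃ (n : ℕ) (b : G → ℤ_[p]) (z₀ : G → G → ℤ_[p]), Continuous b ∧ z₀ ∈ CC.Z2 κ ∧
      (fun g h => PadicInt.toZMod (z₀ g h)) ∉
        CC.B2 (((PadicInt.toZMod (p := p)) : ℤ_[p] →* ZMod p).comp κ) ∧
      ∀ g h, w g h = (b g + κ g * b h - b (g * h)) + (p : ℤ_[p]) ^ n * z₀ g h := by
  by_cases hcon : ∃ (n : ℕ) (b : G → ℤ_[p]) (z₀ : G → G → ℤ_[p]), Continuous b ∧ z₀ ∈ CC.Z2 κ ∧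
      (fun g h => PadicInt.toZMod (z₀ g h)) ∉
        CC.B2 (((PadicInt.toZMod (p := p)) : ℤ_[p] →* ZMod p).comp κ) ∧
      ∀ g h, w g h = (b g + κ g * b h - b (g * h)) + (p : ℤ_[p]) ^ n * z₀ g h
  · exact Or.inr hcon
  left
  refine iter0 (κ := κ) (fun z => z ∈ CC.Z2 κ ∧ ∀ (n : ℕ) (b : G → ℤ_[p])
    (z₀ : G → G → ℤ_[p]), Continuous b → z₀ ∈ CC.Z2 κ →
      (∀ g h, z g h = (b g + κ g * b h - b (g * h)) + (p : ℤ_[p]) ^ n * z₀ g h) →
      (fun g h => PadicInt.toZMod (z₀ g h)) ∈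
        CC.B2 (((PadicInt.toZMod (p := p)) : ℤ_[p] →* ZMod p).comp κ)) ?_ w ⟨hw, ?_⟩
  · rintro z ⟨hz, hz1⟩
    obtain ⟨b, z', hb, hz', he⟩ := step0 hκ z hz (hz1 0 0 z continuous_const hz (fun g h => by
      simp))
    refine ⟨b, z', hb, ⟨hz', ?_⟩, he⟩
    intro n c z₀ hc hz₀ hce
    refine hz1 (n + 1) (fun g => b g + p * c g) z₀ (hb.add (continuous_const.mul hc)) hz₀ ?_
    intro g h
    rw [he g h, hce g h, pow_succ]
    ring
  · intro n b z₀ hb hz₀ he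
    by_contra h
    exact hcon ⟨n, b, z₀, hb, hz₀, h, he⟩

/-- the same with rational coefficients -/
theorem dichQ [CompactSpace G] [IsTopologicalGroup G] (hκ : Continuous κ)
    (z : G → G → ℚ_[p]) (hz : Continuous fun x : G × G => z x.1 x.2)
    (hz1 : ∀ g h k, (κ g : ℚ_[p]) * z h k + z g (h * k) = z (g * h) k + z g h) :
    (∃ f : G → ℚ_[p], Continuous f ∧ ∀ g h, z g h = f g + (κ g : ℚ_[p]) * f h - f (g * h)) ∨
    ∃ (N n : ℕ) (f : G → ℚ_[p]) (z₀ : G → G → ℤ_[p]), Continuous f ∧ z₀ ∈ CC.Z2 κ ∧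
      (fun g h => PadicInt.toZMod (z₀ g h)) ∉
        CC.B2 (((PadicInt.toZMod (p := p)) : ℤ_[p] →* ZMod p).comp κ) ∧
      ∀ g h, (p : ℚ_[p]) ^ N * z g h =
        (f g + (κ g : ℚ_[p]) * f h - f (g * h)) + (p : ℚ_[p]) ^ n * (z₀ g h : ℚ_[p]) := by
  have hp0 : (p : ℚ_[p]) ≠ 0 := by exact_mod_cast (Fact.out : p.Prime).ne_zero
  obtain ⟨M, hM⟩ : ∃ M : ℝ, ∀ x : G × G, ‖z x.1 x.2‖ ≤ M := by
    obtain ⟨M, hM⟩ := (isCompact_range hz).isBounded.exists_norm_le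
    exact ⟨M, fun x => hM _ ⟨x, rfl⟩⟩
  obtain ⟨N, hN⟩ : ∃ N : ℕ, ((p : ℝ)⁻¹) ^ N * M ≤ 1 := by
    have h1 : Tendsto (fun N : ℕ => ((p : ℝ)⁻¹) ^ N * M) atTop (𝓝 (0 * M)) :=
      (tendsto_pow_atTop_nhds_zero_of_lt_one BKOdd.Lift.inv_nonneg'
        BKOdd.Lift.inv_lt_one).mul_const M
    rw [zero_mul] at h1
    obtain ⟨N, hN⟩ := (h1.eventually_le_const one_pos).exists
    exact ⟨N, hN⟩
  have hb : ∀ g h, ‖(p : ℚ_[p]) ^ N * z g h‖ ≤ 1 := by
    intro g h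
    rw [norm_mul, norm_pow, Padic.norm_p]
    exact (mul_le_mul_of_nonneg_left (hM (g, h)) (by positivity)).trans hN
  let w : G → G → ℤ_[p] := fun g h => ⟨(p : ℚ_[p]) ^ N * z g h, hb g h⟩
  have hw : w ∈ CC.Z2 κ := by
    refine ⟨BKOdd.Lift.continuous_of_coe (continuous_const.mul hz), fun g h k => ?_⟩
    apply PadicInt.ext
    change ((κ g : ℤ_[p]) : ℚ_[p]) * ((p : ℚ_[p]) ^ N * z h k) +
      (p : ℚ_[p]) ^ N * z g (h * k) = (p : ℚ_[p]) ^ N * z (g * h) k + (p : ℚ_[p]) ^ N * z g h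
    linear_combination (p : ℚ_[p]) ^ N * hz1 g h k
  rcases dich hκ w hw with ⟨b, hbc, hbw⟩ | ⟨n, b, z₀, hbc, hz₀, hn, hbw⟩
  · left
    refine ⟨fun g => ((p : ℚ_[p]) ^ N)⁻¹ * (b g : ℚ_[p]),
      continuous_const.mul (continuous_subtype_val.comp hbc), fun g h => ?_⟩
    have h1 := congrArg (fun x : ℤ_[p] => (x : ℚ_[p])) (hbw g h)
    simp only [w, PadicInt.coe_add, PadicInt.coe_mul, PadicInt.coe_sub] at h1
    have h2 : ((p : ℚ_[p]) ^ N) ≠ 0 := pow_ne_zero _ hp0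
    field_simp
    linear_combination h1
  · right
    refine ⟨N, n, fun g => (b g : ℚ_[p]), z₀, continuous_subtype_val.comp hbc, hz₀, hn,
      fun g h => ?_⟩
    have h1 := congrArg (fun x : ℤ_[p] => (x : ℚ_[p])) (hbw g h)
    simp only [w, PadicInt.coe_add, PadicInt.coe_mul, PadicInt.coe_sub, PadicInt.coe_pow,
      PadicInt.coe_natCast] at h1
    exact h1

end Int

theorem chm_two {V : Type*} [Group V] (χ : V →* ℤ_[2]ˣ) : chm χ = 1 := by
  ext g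
  have h1 : IsUnit (chm χ g) := by
    change IsUnit (PadicInt.toZMod (((χ g : ℤ_[2]ˣ) : ℤ_[2])))
    exact (χ g).isUnit.map _
  have h2 : ∀ x : ZMod 2, x = 0 ∨ x = 1 := by decide
  rcases h2 (chm χ g) with h | h
  · rw [h] at h1
    exact absurd h1 (by simp)
  · rw [h, MonoidHom.one_apply]

/-- divisibility of one-cocycles -/
theorem div_Z1 (h4 : BKLoc2.StZ1A) (h5 : BKLoc2.StKPE) (p l : ℕ) [hp : Fact p.Prime]
    [Fact l.Prime] (D : Type) [Group D] [TopologicalSpace D] [IsTopologicalGroup D]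
    [CompactSpace D] [NonarchimedeanGroup D] (e : D →* GQ l) (he : Topology.IsOpenEmbedding e) :
    ∀ β ∈ BKND.Z1 (actA ((cyL p l).comp e)), ∃ β' ∈ BKND.Z1 (actA ((cyL p l).comp e)),
      β = p • β' := by
  intro β hβ
  obtain ⟨z, hz⟩ := BKLoc2.N4Aux.exists_sys p (PadicAlgCl l)
  obtain ⟨a, ha, -, κ, hκ, n, hn⟩ := h4 p ℚ_[l] (PadicAlgCl l) D e he z hz β hβ
  obtain ⟨-, -, -, hκ1, -, -⟩ := h5 p ℚ_[l] (PadicAlgCl l) D e he.continuous z hz
  have hk := hκ1 a κ ha hκ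
  refine ⟨fun v => BKLoc2.SCAux.fm (n + 1) (κ v), ⟨BKPar.Lift.Loc1.of_isLocallyConstant
    ((BKLoc2.SCAux.fm_locallyConstant (n + 1)).comp_continuous hk.1), fun g h => ?_⟩, ?_⟩
  · change BKLoc2.SCAux.fm (n + 1) (κ (g * h)) = _
    rw [hk.2 g h, BKLoc2.SCAux.fm_add, BKMet.actA_apply, BKLoc2.SCAux.fm_smul]
    rfl
  · funext v
    rw [hn v]
    have h6 := BKLoc2.SCAux.fm_pow n 1 (κ v)
    rw [pow_one] at h6
    exact h6.symm

theorem locConst_cl {p : ℕ} [Fact p.Prime] : IsLocallyConstant (cl p) := by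
  rw [IsLocallyConstant.iff_eventually_eq]
  intro x
  filter_upwards [Metric.ball_mem_nhds x one_pos] with y hy
  rw [Metric.mem_ball, dist_eq_norm] at hy
  unfold BKLoc2.cl
  rw [Submodule.Quotient.eq]
  exact ⟨⟨y - x, hy.le⟩, rfl⟩

theorem coe_chL {V : Type*} [Group V] (χ : V →* ℤ_[2]ˣ) (g : V) :
    chL χ ℚ_[2] g = ((chZ χ g : ℤ_[2]) : ℚ_[2]) := rfl

end LOQAux

open LOQAux in
/-- Module LOQ -/
theorem stLOQ (h1 : StLNX2) (h2 : BKLoc2.StPA) (h3 : BKLoc2.StZ1A) (h4 : BKLoc2.StKPE) :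
    StLOQ := by
  intro D _ _ _ _ _ e he
  obtain ⟨zs, hzs⟩ := BKLoc2.N4Aux.exists_sys 2 (PadicAlgCl 2)
  have hχ : Continuous ((cyL 2 2).comp e) :=
    (h4 2 ℚ_[2] (PadicAlgCl 2) D e he.continuous zs hzs).1
  set χ : D →* ℤ_[2]ˣ := (cyL 2 2).comp e with hχd
  have hκ : Continuous (chZ χ) := Units.continuous_val.comp hχ
  have hp0 : ((2 : ℕ) : ℚ_[2]) ≠ 0 := by
    exact_mod_cast (two_ne_zero : (2 : ℕ) ≠ 0)
  -- a nontrivial class is a multiple of a class with nontrivial reduction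
  have hd : ∀ z ∈ CC.Z2 (chL χ ℚ_[2]), z ∉ CC.B2 (chL χ ℚ_[2]) →
      ∃ (N n : ℕ) (f : D → ℚ_[2]) (z₀ : D → D → ℤ_[2]), Continuous f ∧ z₀ ∈ CC.Z2 (chZ χ) ∧
      (fun g h => PadicInt.toZMod (z₀ g h)) ∉ CC.B2 (chm χ) ∧
      ∀ g h, ((2 : ℕ) : ℚ_[2]) ^ N * z g h =
        (f g + (chZ χ g : ℚ_[2]) * f h - f (g * h)) + ((2 : ℕ) : ℚ_[2]) ^ n * (z₀ g h : ℚ_[2]) := by
    intro z hz hzn
    rcases dichQ hκ z hz.1 (fun g h k => hz.2 g h k) with ⟨f, hf, hfz⟩ | h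
    · exact absurd ⟨f, hf, hfz⟩ hzn
    · exact h
  refine ⟨fun z hz hzn z' hz' => ?_, fun z hz hm => ?_⟩
  · obtain ⟨N, n, f, z₀, hf, hz₀, hn, hfz⟩ := hd z hz hzn
    have hred : (fun g h => PadicInt.toZMod (z₀ g h)) ∈ CC.Z2 (chm χ) := by
      refine ⟨BKOdd.Lift.continuous_rp.comp hz₀.1, fun g h k => ?_⟩
      have := congrArg (PadicInt.toZMod (p := 2)) (hz₀.2 g h k)
      rw [map_add, map_mul, map_add] at this
      exact this
    obtain ⟨a, f', hf', hfz'⟩ := BKOdd.LineL.line_rat (κ := chZ χ) hκ hz₀ (by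
      intro w hw
      have hw' : w ∈ CC.Z2 (chm χ) := hw
      rw [chm_two χ] at hw' hred hn
      obtain ⟨a, ha⟩ := h1 2 D e he _ hred w hw' hn
      refine ⟨a, ?_⟩
      rw [← chm_two χ] at ha
      exact ha) z' hz'.1 (fun g h k => hz'.2 g h k)
    refine ⟨a * (((2 : ℕ) : ℚ_[2]) ^ n)⁻¹ * ((2 : ℕ) : ℚ_[2]) ^ N,
      fun g => f' g - a * (((2 : ℕ) : ℚ_[2]) ^ n)⁻¹ * f g,
      hf'.sub (continuous_const.mul hf), fun g h => ?_⟩
    have e1 := hfz g h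
    have e2 := hfz' g h
    have e3 : (((2 : ℕ) : ℚ_[2]) ^ n) ≠ 0 := pow_ne_zero _ hp0
    have e4 : (((2 : ℕ) : ℚ_[2]) ^ n)⁻¹ * ((2 : ℕ) : ℚ_[2]) ^ n = 1 := inv_mul_cancel₀ e3
    rw [coe_chL]
    simp only [Pi.sub_apply, Pi.smul_apply, smul_eq_mul]
    linear_combination e2 - a * (((2 : ℕ) : ℚ_[2]) ^ n)⁻¹ * e1 + a * (z₀ g h : ℚ_[2]) * (-e4)
  · by_contra hzn
    obtain ⟨N, n, f, z₀, hf, hz₀, hn, hfz⟩ := hd z hz hzn
    apply hn
    have hred : (fun g h => PadicInt.toZMod (z₀ g h)) ∈ CC.Z2 (chm χ) := by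
      refine ⟨BKOdd.Lift.continuous_rp.comp hz₀.1, fun g h k => ?_⟩
      have := congrArg (PadicInt.toZMod (p := 2)) (hz₀.2 g h k)
      rw [map_add, map_mul, map_add] at this
      exact this
    obtain ⟨-, -, -, hP, -⟩ := h2 2 D χ hχ
    refine hP (div_Z1 h3 h4 2 2 D e he) _ hred ?_
    have e3 : (((2 : ℕ) : ℚ_[2]) ^ (n + 1)) ≠ 0 := pow_ne_zero _ hp0
    have hA := (BKND.B2 (actA χ)).nsmul_mem (hm (n + 1)) (2 ^ N)
    have hB : (fun g h => cl 2 (f g / ((2 : ℕ) : ℚ_[2]) ^ (n + 1) + (chZ χ g : ℚ_[2]) *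
        (f h / ((2 : ℕ) : ℚ_[2]) ^ (n + 1)) - f (g * h) / ((2 : ℕ) : ℚ_[2]) ^ (n + 1))) ∈
        BKND.B2 (actA χ) := by
      refine ⟨fun g => cl 2 (f g / ((2 : ℕ) : ℚ_[2]) ^ (n + 1)),
        BKPar.Lift.Loc1.of_isLocallyConstant
          (locConst_cl.comp_continuous (hf.div_const _)), fun g h => ?_⟩
      rw [BKMet.actA_apply, BKLoc2.SCAux.cl_smul, ← BKLoc2.SCAux.cl_sub,
        ← BKLoc2.SCAux.cl_add]
      refine congrArg (cl 2) ?_
      change _ = ((chZ χ g : ℤ_[2]) : ℚ_[2]) * _ - _ + _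
      ring
    have hC := (BKND.B2 (actA χ)).sub_mem hA hB
    have hE : im (fun g h => PadicInt.toZMod (z₀ g h)) =
        2 ^ N • (fun g h => cl 2 (z g h / 2 ^ (n + 1))) -
        (fun g h => cl 2 (f g / ((2 : ℕ) : ℚ_[2]) ^ (n + 1) + (chZ χ g : ℚ_[2]) *
        (f h / ((2 : ℕ) : ℚ_[2]) ^ (n + 1)) - f (g * h) / ((2 : ℕ) : ℚ_[2]) ^ (n + 1))) := by
      funext g h
      rw [BKLoc2.PAAux.im_eq, ← BKLoc2.PAAux.j_toZMod]
      simp only [Pi.sub_apply, Pi.smul_apply]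
      rw [BKLoc2.SCAux.cl_nsmul, ← BKLoc2.SCAux.cl_sub]
      congr 1
      have e1 := hfz g h
      have e5 : ((2 : ℕ) : ℚ_[2]) ^ (n + 1) = ((2 : ℕ) : ℚ_[2]) ^ n * ((2 : ℕ) : ℚ_[2]) :=
        pow_succ _ _
      push_cast at e1 e3 e5 hp0 ⊢
      field_simp
      linear_combination -e1 * 2
    rw [hE]
    exact hC

end BKR
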