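import Pool.Agent.Lib.MP_7c08ba_nt.R1.St
import Pool.Agent.Lib.MP_7c08ba_nt.Met.GPA
import Pool.Agent.Lib.MP_7c08ba_nt.Met.HCP
import Pool.Agent.Lib.MP_7c08ba_nt.Met.HFRB
import Pool.Agent.Lib.MP_7c08ba_nt.Met.HCY
import Pool.Agent.Lib.MP_7c08ba_nt.Odd.Place

set_option autoImplicit false

/-!
The Selmer groups of the canonical Hecke characters in rank one, module NIN: the hypothesis of VAN
for the places which do not split.
-/

noncomputable section

namespace BKR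

open NumberField IsDedekindDomain BKGen BKGen.SUnits Matrix
open BKLoc2 (im cy cyL Sys IsKP IsHom)
open BKMet (QZ actA GF GQ cycF RS GS pb1 pb2)
open BKPar (Loc1 Loc2)
open BKGlob2 (Cp fs sn LC dc SP Prin CC0)
open BKOdd (chL chZ)

namespace NINAux

theorem nonarchF (F : Type) [Field F] : NonarchimedeanGroup (GF F) where
  is_nonarchimedean U hU := by
    rw [krullTopology_mem_nhds_one_iff] at hU
    obtain ⟨E, hE, hEU⟩ := hU
    exact ⟨⟨E.fixingSubgroup, IntermediateField.fixingSubgroup_isOpen E⟩, hEU⟩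

section

variable {F : Type} [Field F] [NumberField F] {l : ℕ} [Fact l.Prime]

/-- two embeddings with the same place are conjugate -/
theorem conjugate (j j' : AlgebraicClosure F →+* PadicAlgCl l)
    (h : pl (j.comp (algebraMap F (AlgebraicClosure F))) =
      pl (j'.comp (algebraMap F (AlgebraicClosure F)))) :
    ∃ (g : GF F) (s : GQ l), ∀ x, j' x = s (j (g x)) := by
  obtain ⟨s, hs⟩ := BKGlob2.stPA F l _ _ h
  obtain ⟨g, hg⟩ := BKOdd.exists_gal ((s : PadicAlgCl l →+* PadicAlgCl l).comp j) j'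
    fun a => hs a
  exact ⟨g, s, hg⟩

/-- the cyclotomic character is not trivial on an open subgroup -/
theorem cyc_ne (hl2 : l ≠ 2) (j : AlgebraicClosure F →+* PadicAlgCl l)
    (W : Subgroup (Cp (MonoidHom.id (GF F)) j))
    (hW : IsOpen (W : Set (Cp (MonoidHom.id (GF F)) j))) :
    ∃ w ∈ W, cycF 2 F (fs (MonoidHom.id (GF F)) j w) ≠ 1 := by
  have hl : l.Prime := Fact.out
  have hna : NonarchimedeanGroup (GF F) := nonarchF F
  have : IsGalois F (AlgebraicClosure F) := inferInstance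
  obtain ⟨hsn, hfs, hcomp, hnaC, -⟩ := BKGlob2.stCP F (AlgebraicClosure F) (GF F)
    (MonoidHom.id (GF F)) Topology.IsOpenEmbedding.id l j
  have hcW : CompactSpace W := isCompact_iff_compactSpace.1 (W.isClosed_of_isOpen hW).isCompact
  obtain ⟨φ, f, hf0, hφ, -⟩ := BKGlob2.stFRB l W ((sn (MonoidHom.id (GF F)) j).comp W.subtype)
    (hsn.comp hW.isOpenEmbedding_subtypeVal)
  refine ⟨φ, φ.2, fun h1 => ?_⟩
  have hcyc : cyL 2 l (sn (MonoidHom.id (GF F)) j φ) = 1 := by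
    rw [← h1]
    exact ((BKGlob2.stCY 2 F (AlgebraicClosure F) ℚ_[l] (PadicAlgCl l)).2 j _ _
      fun y => BKGlob2.Cp_rel (MonoidHom.id (GF F)) j φ y).symm
  have hndvd : ∀ n : ℕ, ¬ l ∣ 2 ^ n := fun n h =>
    hl2 ((Nat.prime_dvd_prime_iff_eq hl Nat.prime_two).1 (hl.dvd_of_dvd_pow h))
  obtain ⟨N, hN⟩ : ∃ N, N = l ^ f - 1 := ⟨_, rfl⟩
  have hlf : 1 < l ^ f := Nat.one_lt_pow hf0 hl.one_lt
  have hne : NeZero (((2 ^ (N + 1) : ℕ)) : PadicAlgCl l) := ⟨by
    rw [Nat.cast_ne_zero]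
    exact pow_ne_zero _ two_ne_zero⟩
  obtain ⟨ξ, hξ⟩ := HasEnoughRootsOfUnity.exists_primitiveRoot (PadicAlgCl l) (2 ^ (N + 1))
  have h2 : sn (MonoidHom.id (GF F)) j φ ξ = ξ ^ l ^ f := hφ _ (hndvd (N + 1)) ξ hξ.pow_eq_one
  have h3 : sn (MonoidHom.id (GF F)) j φ ξ =
      ξ ^ (((cyL 2 l (sn (MonoidHom.id (GF F)) j φ) : ℤ_[2]ˣ) : ℤ_[2]).toZModPow (N + 1)).val :=
    BKOdd.CycLAux.act (N + 1) ξ hξ.pow_eq_one
      (MulSemiringAction.toRingAut (GQ l) (PadicAlgCl l) (sn (MonoidHom.id (GF F)) j φ))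
  have hF1 : Fact (1 < 2 ^ (N + 1)) := ⟨Nat.one_lt_pow (Nat.succ_ne_zero N) one_lt_two⟩
  rw [hcyc, Units.val_one, map_one, ZMod.val_one, pow_one, h2] at h3
  have h4 : ξ ^ N = 1 := by
    have h5 : ξ ≠ 0 := hξ.ne_zero (pow_ne_zero _ two_ne_zero)
    have h6 : ξ ^ N * ξ = 1 * ξ := by
      rw [← pow_succ, hN, Nat.sub_add_cancel hlf.le, h3, one_mul]
    exact mul_right_cancel₀ h5 h6
  have h5 := Nat.le_of_dvd (by omega) (hξ.dvd_of_pow_eq_one N h4)
  have h6 : N < 2 ^ N := Nat.lt_two_pow_self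
  rw [pow_succ] at h5
  omega

/-- the cyclotomic character and complex conjugation -/
theorem cyc_cc {c₀ : AlgebraicClosure F ≃+* AlgebraicClosure F} {cc : GF F →* GF F}
    (hcc : CC0 c₀ cc) (g : GF F) : cycF 2 F (cc g) = cycF 2 F g := by
  apply BKOdd.CycLAux.eq_of (Ω := AlgebraicClosure F)
  intro n ξ hξ
  obtain ⟨y, hy⟩ : ∃ y, y = c₀ ξ := ⟨_, rfl⟩
  have hξy : c₀ y = ξ := by rw [hy, hcc.conj.1]
  have hyn : y ^ 2 ^ n = 1 := by rw [hy, ← map_pow, hξ.pow_eq_one, map_one]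
  have h1 : cc g ξ = ξ ^ (((cycF 2 F (cc g) : ℤ_[2]ˣ) : ℤ_[2]).toZModPow n).val :=
    BKOdd.CycLAux.act n ξ hξ.pow_eq_one (MulSemiringAction.toRingAut (GF F) (AlgebraicClosure F)
      (cc g))
  have h2 : g y = y ^ (((cycF 2 F g : ℤ_[2]ˣ) : ℤ_[2]).toZModPow n).val :=
    BKOdd.CycLAux.act n y hyn (MulSemiringAction.toRingAut (GF F) (AlgebraicClosure F) g)
  have h3 : cc g ξ = c₀ (g y) := by rw [← hξy, hcc.eq]
  rw [← h1, h3, h2, map_pow, hξy]

/-- complex conjugation on the decomposition group of a place which does not split -/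
theorem exists_theta {c₀ : AlgebraicClosure F ≃+* AlgebraicClosure F} {cc : GF F →* GF F}
    (hcc : CC0 c₀ cc) (j : AlgebraicClosure F →+* PadicAlgCl l)
    (h : pl (j.comp (algebraMap F (AlgebraicClosure F))) =
      pl ((j.comp (c₀ : AlgebraicClosure F →+* AlgebraicClosure F)).comp
        (algebraMap F (AlgebraicClosure F)))) :
    ∃ (g : GF F) (θ : Cp (MonoidHom.id (GF F)) j →* Cp (MonoidHom.id (GF F)) j), Continuous θ ∧
      ∀ d, fs (MonoidHom.id (GF F)) j (θ d) = g * cc (fs (MonoidHom.id (GF F)) j d) * g⁻¹ := by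
  obtain ⟨g, s, hgs⟩ := conjugate j (j.comp (c₀ : AlgebraicClosure F →+* AlgebraicClosure F)) h
  have hgs' : ∀ x, j (c₀ x) = s (j (g x)) := hgs
  have hc : ∀ (a : GF F) x, c₀ (cc a x) = a (c₀ x) := by
    intro a x
    have h1 := hcc.eq a (c₀ x)
    rw [hcc.conj.1] at h1
    rw [h1, hcc.conj.1]
  have hmem : ∀ d : Cp (MonoidHom.id (GF F)) j,
      (g * cc (fs (MonoidHom.id (GF F)) j d) * g⁻¹, s⁻¹ * sn (MonoidHom.id (GF F)) j d * s) ∈
        Cp (MonoidHom.id (GF F)) j := by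
    intro d z
    change j (g (cc (fs (MonoidHom.id (GF F)) j d) (g⁻¹ z))) =
      s⁻¹ (sn (MonoidHom.id (GF F)) j d (s (j z)))
    have h1 := hgs' (cc (fs (MonoidHom.id (GF F)) j d) (g⁻¹ z))
    have h2 := hgs' (g⁻¹ z)
    have h3 : g (g⁻¹ z) = z := by
      rw [← AlgEquiv.mul_apply, mul_inv_cancel, AlgEquiv.one_apply]
    have h4 := BKGlob2.Cp_rel (MonoidHom.id (GF F)) j d (c₀ (g⁻¹ z))
    rw [MonoidHom.id_apply] at h4
    rw [h3] at h2
    rw [hc, h4, h2] at h1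
    rw [h1, ← AlgEquiv.mul_apply s⁻¹ s, inv_mul_cancel, AlgEquiv.one_apply]
  obtain ⟨θ, hθ⟩ : ∃ θ : Cp (MonoidHom.id (GF F)) j →* Cp (MonoidHom.id (GF F)) j,
      ∀ d, ((θ d : Cp (MonoidHom.id (GF F)) j) : GF F × GQ l) =
        (g * cc (fs (MonoidHom.id (GF F)) j d) * g⁻¹,
          s⁻¹ * sn (MonoidHom.id (GF F)) j d * s) :=
    ⟨{ toFun := fun d => ⟨_, hmem d⟩
       map_one' := by
        apply Subtype.ext
        change (_, _) = (1 : GF F × GQ l)
        rw [map_one, map_one, map_one, mul_one, mul_one, mul_inv_cancel, inv_mul_cancel]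
        rfl
       map_mul' := fun a b => by
        apply Subtype.ext
        refine Prod.ext ?_ ?_
        · change g * cc (fs (MonoidHom.id (GF F)) j (a * b)) * g⁻¹ =
            (g * cc (fs (MonoidHom.id (GF F)) j a) * g⁻¹) *
              (g * cc (fs (MonoidHom.id (GF F)) j b) * g⁻¹)
          rw [map_mul, map_mul]
          group
        · change s⁻¹ * sn (MonoidHom.id (GF F)) j (a * b) * s =
            (s⁻¹ * sn (MonoidHom.id (GF F)) j a * s) * (s⁻¹ * sn (MonoidHom.id (GF F)) j b * s)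
          rw [map_mul]
          group }, fun _ => rfl⟩
  refine ⟨g, θ, ?_, fun d => ?_⟩
  · have hna : NonarchimedeanGroup (GF F) := nonarchF F
    have : IsGalois F (AlgebraicClosure F) := inferInstance
    obtain ⟨hsn, -⟩ := BKGlob2.stCP F (AlgebraicClosure F) (GF F)
      (MonoidHom.id (GF F)) Topology.IsOpenEmbedding.id l j
    rw [hsn.isEmbedding.continuous_iff]
    have h1 : (sn (MonoidHom.id (GF F)) j : Cp (MonoidHom.id (GF F)) j → GQ l) ∘ θ =
        fun d => s⁻¹ * sn (MonoidHom.id (GF F)) j d * s := by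
      funext d
      exact congrArg Prod.snd (hθ d)
    rw [h1]
    exact (continuous_const.mul hsn.continuous).mul continuous_const
  · exact congrArg Prod.fst (hθ d)

end

end NINAux

open NINAux in
/-- Module NIN -/
theorem stNIN : StNIN := by
  intro F _ _ c₀ cc hcc l _ hl2 j hj L _ _ _ V hV hVcc W hW
  obtain ⟨g, θ, hθc, hθ⟩ := exists_theta hcc j hj
  obtain ⟨vF, hvF⟩ : ∃ vF : GF F → L, vF = fun g => (V g : Matrix (Fin 1) (Fin 1) L) 0 0 :=
    ⟨_, rfl⟩
  have hvFm : ∀ g h, vF (g * h) = vF g * vF h := by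
    intro g h
    simp only [hvF, map_mul, Units.val_mul, Matrix.mul_apply, Fin.sum_univ_one]
  have hvF1 : vF 1 = 1 := by
    simp only [hvF, map_one, Units.val_one, Matrix.one_apply_eq]
  have hvFc : ∀ g, vF g * vF (cc g) = chL (cycF 2 F) L g := by
    intro g
    rw [hvF]
    exact hVcc g
  have hconj : ∀ d, vF (fs (MonoidHom.id (GF F)) j (θ d)) =
      vF (cc (fs (MonoidHom.id (GF F)) j d)) := by
    intro d
    have h1 : vF g * vF g⁻¹ = 1 := by rw [← hvFm, mul_inv_cancel, hvF1]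
    rw [hθ, hvFm, hvFm]
    linear_combination (vF (cc (fs (MonoidHom.id (GF F)) j d))) * h1
  have hchθ : ∀ d, cycF 2 F (fs (MonoidHom.id (GF F)) j (θ d)) =
      cycF 2 F (fs (MonoidHom.id (GF F)) j d) := by
    intro d
    rw [hθ, map_mul, map_mul, cyc_cc hcc, map_inv, mul_comm (cycF 2 F g), mul_assoc,
      mul_inv_cancel, mul_one]
  obtain ⟨W', hW'⟩ : ∃ W' : Subgroup (Cp (MonoidHom.id (GF F)) j), W' = W ⊓ W.comap θ :=
    ⟨_, rfl⟩
  have hW'o : IsOpen (W' : Set (Cp (MonoidHom.id (GF F)) j)) := by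
    rw [hW', Subgroup.coe_inf]
    exact hW.inter (hW.preimage hθc)
  obtain ⟨w, hw, hw1⟩ := cyc_ne hl2 j W' hW'o
  rw [hW'] at hw
  obtain ⟨hwW, hwθ⟩ := Subgroup.mem_inf.1 hw
  rw [Subgroup.mem_comap] at hwθ
  have hinj : ∀ g : GF F, chL (cycF 2 F) L g = 1 → cycF 2 F g = 1 := by
    intro g hg
    have h1 : algebraMap ℚ_[2] L (((cycF 2 F g : ℤ_[2]ˣ) : ℤ_[2]) : ℚ_[2]) =
        algebraMap ℚ_[2] L 1 := by
      rw [map_one]
      exact hg
    have h2 := (algebraMap ℚ_[2] L).injective h1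
    apply Units.ext
    rw [Units.val_one]
    exact PadicInt.ext (h2.trans PadicInt.coe_one.symm)
  have hchLθ : chL (cycF 2 F) L (fs (MonoidHom.id (GF F)) j (θ w)) =
      chL (cycF 2 F) L (fs (MonoidHom.id (GF F)) j w) := by
    change algebraMap ℚ_[2] L (((cycF 2 F _ : ℤ_[2]ˣ) : ℤ_[2]) : ℚ_[2]) =
      algebraMap ℚ_[2] L (((cycF 2 F _ : ℤ_[2]ˣ) : ℤ_[2]) : ℚ_[2])
    rw [hchθ]
  refine ⟨?_, ?_⟩
  · by_contra hcon
    push Not at hcon
    have h1 : ∀ w ∈ W, vF (fs (MonoidHom.id (GF F)) j w) = 1 := by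
      intro w hw
      simp only [hvF, hcon w hw, Units.val_one, Matrix.one_apply_eq]
    apply hw1
    apply hinj
    rw [← hvFc, ← hconj, h1 w hwW, h1 _ hwθ, one_mul]
  · by_contra hcon
    push Not at hcon
    have h1 : ∀ w ∈ W, vF (fs (MonoidHom.id (GF F)) j w) =
        chL (cycF 2 F) L (fs (MonoidHom.id (GF F)) j w) := by
      intro w hw
      rw [hvF]
      exact hcon w hw
    apply hw1
    apply hinj
    have h2 := hvFc (fs (MonoidHom.id (GF F)) j w)
    rw [← hconj, h1 w hwW, h1 _ hwθ, hchLθ] at h2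
    have h3 : chL (cycF 2 F) L (fs (MonoidHom.id (GF F)) j w) ≠ 0 := by
      change algebraMap ℚ_[2] L (((cycF 2 F _ : ℤ_[2]ˣ) : ℤ_[2]) : ℚ_[2]) ≠ 0
      rw [Ne, map_eq_zero_iff _ (algebraMap ℚ_[2] L).injective]
      exact fun h => Units.ne_zero (cycF 2 F (fs (MonoidHom.id (GF F)) j w))
        (PadicInt.ext (h.trans PadicInt.coe_zero.symm))
    exact mul_left_cancel₀ h3 (h2.trans (mul_one _).symm)

end BKR
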