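import Pool.Agent.Lib.MP_7c08ba_nt.R1.St
import Pool.Agent.Lib.MP_7c08ba_nt.Met.HPN
import Pool.Agent.Lib.MP_7c08ba_nt.Quad

set_option autoImplicit false

/-!
The Selmer groups of the canonical Hecke characters in rank one, module NSP: the odd primes which
divide `q D` do not split.
-/

noncomputable section

namespace BKR

open NumberField IsDedekindDomain BKGen BKGen.SUnits

namespace NSPAux

open Polynomial in
/-- If `a` is not a square, the two square roots of `a` are conjugate. -/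
theorem exists_conj {l : ℕ} [Fact l.Prime] {a : ℚ_[l]} (ha : ∀ b : ℚ_[l], b ^ 2 ≠ a)
    {α : PadicAlgCl l} (hα : α ^ 2 = algebraMap ℚ_[l] (PadicAlgCl l) a) :
    ∃ t : PadicAlgCl l ≃ₐ[ℚ_[l]] PadicAlgCl l, t α = -α := by
  have hirr : Irreducible (X ^ 2 - C a : ℚ_[l][X]) :=
    X_pow_sub_C_irreducible_of_prime Nat.prime_two ha
  have hmon : (X ^ 2 - C a : ℚ_[l][X]).Monic := monic_X_pow_sub_C a two_ne_zero
  have h1 : ∀ β : PadicAlgCl l, β ^ 2 = algebraMap ℚ_[l] (PadicAlgCl l) a →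
      minpoly ℚ_[l] β = X ^ 2 - C a := by
    intro β hβ
    refine (minpoly.eq_of_irreducible_of_monic hirr ?_ hmon).symm
    simp [hβ]
  have h2 : IsConjRoot ℚ_[l] (-α) α := by
    change minpoly ℚ_[l] (-α) = minpoly ℚ_[l] α
    rw [h1 α hα, h1 (-α) (by rw [neg_sq, hα])]
  exact isConjRoot_iff_exists_algEquiv.1 h2

/-- `-q` is not a square in `ℚ_l`. -/
theorem not_sq {l q : ℕ} [hl : Fact l.Prime]
    (h : l = q ∨ ¬ IsSquare (((-q : ℤ)) : ZMod l)) (b : ℚ_[l]) : b ^ 2 ≠ -(q : ℚ_[l]) := by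
  intro hb
  have hn : ‖b‖ ≤ 1 := by
    have h1 : ‖b‖ ^ 2 ≤ 1 := by
      rw [← norm_pow, hb, norm_neg]
      exact_mod_cast Padic.norm_int_le_one (p := l) (q : ℤ)
    exact (sq_le_one_iff₀ (norm_nonneg _)).1 h1
  let z : ℤ_[l] := ⟨b, hn⟩
  have hz : z ^ 2 = -(q : ℤ_[l]) := by
    apply Subtype.ext
    change b ^ 2 = ((-(q : ℤ_[l]) : ℤ_[l]) : ℚ_[l])
    rw [hb]
    push_cast
    rfl
  rcases h with rfl | h
  · have h1 : ‖z‖ < 1 := by
      have h2 : ‖z‖ ^ 2 < 1 := by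
        rw [← norm_pow, hz, norm_neg]
        exact PadicInt.norm_lt_one_iff_dvd _ |>.2 dvd_rfl
      exact (sq_lt_one_iff₀ (norm_nonneg _)).1 h2
    obtain ⟨w, hw⟩ := (PadicInt.norm_lt_one_iff_dvd z).1 h1
    have hl0 : (l : ℤ_[l]) ≠ 0 := by exact_mod_cast hl.out.ne_zero
    have h3 : (l : ℤ_[l]) * w ^ 2 = -1 := by
      apply mul_left_cancel₀ hl0
      rw [hw] at hz
      linear_combination hz
    have h4 : ‖(-1 : ℤ_[l])‖ < 1 := (PadicInt.norm_lt_one_iff_dvd _).2 ⟨w ^ 2, h3.symm⟩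
    rw [norm_neg, norm_one] at h4
    exact lt_irrefl _ h4
  · apply h
    refine ⟨PadicInt.toZMod z, ?_⟩
    rw [← sq, ← map_pow, hz]
    push_cast
    rw [map_neg, map_natCast]

end NSPAux

theorem stNSP : StNSP := by
  intro q F _ _ s hq h8 hF hs l _ hl h j j'
  have hq0 : 0 < q := hq.pos
  have hj : ∀ i : F →+* PadicAlgCl l, i s ^ 2 = -(q : PadicAlgCl l) := by
    intro i
    rw [← map_pow, hs, map_neg, map_natCast]
  obtain ⟨t, ht⟩ : ∃ t : PadicAlgCl l ≃ₐ[ℚ_[l]] PadicAlgCl l, j' s = t (j s) := by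
    have h1 : (j' s - j s) * (j' s + j s) = 0 := by
      linear_combination hj j' - hj j
    rcases mul_eq_zero.1 h1 with h2 | h2
    · exact ⟨AlgEquiv.refl, by
        change j' s = j s
        linear_combination h2⟩
    · obtain ⟨t, ht⟩ := NSPAux.exists_conj (a := -(q : ℚ_[l])) (NSPAux.not_sq h) (α := j s) (by
        rw [hj j, map_neg, map_natCast])
      refine ⟨t, ?_⟩
      rw [ht]
      linear_combination h2
  refine BKGlob2.PNAux.pl_eq j j' t fun x => ?_
  obtain ⟨a, b, rfl⟩ := Pool.Agent.Lib.MP_7c08ba_nt.exists_coords hq0 hF hs x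
  rw [map_add, map_mul, map_ratCast, map_ratCast, map_add, map_mul, map_ratCast, map_ratCast,
    map_add, map_mul, map_ratCast, map_ratCast, ht]

end BKR
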