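import Pool.Agent.Lib.MP_7c08ba_nt.R1.St
import Pool.Agent.Lib.MP_7c08ba_nt.Met.LRL
import Pool.Agent.Lib.MP_7c08ba_nt.Met.HHA
import Pool.Agent.Lib.MP_7c08ba_nt.Met.HCJ
import Pool.Agent.Lib.MP_7c08ba_nt.Glob.Inert
import Pool.Agent.Lib.MP_7c08ba_nt.Par.Adm
import Pool.Agent.Lib.MP_7c08ba_nt.Par.CycR
import Pool.Agent.Lib.MP_7c08ba_nt.Par.Sq

set_option autoImplicit false

/-!
The Selmer groups of the canonical Hecke characters in rank one, module RCQ: the reciprocity law with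
coefficients `ℚ₂(χ)`.
-/

noncomputable section

namespace BKR

open NumberField IsDedekindDomain BKGen BKGen.SUnits Matrix
open BKLoc2 (im cy cyL Sys IsKP IsHom)
open BKMet (QZ actA GF GQ cycF RS GS pb1 pb2)
open BKPar (Loc1 Loc2)
open BKGlob2 (Cp fs sn LC dc SP Prin CC0)
open BKOdd (chL chZ)
open BKMet.LRL (kap)

namespace RCQAux

/-! ### Descent to a quotient -/

section Desc

variable {V : Type} [Group V] [TopologicalSpace V] [IsTopologicalGroup V] (N : Subgroup V)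
  [N.Normal] {χ : V →* ℤ_[2]ˣ}

/-- the action on the quotient -/
def rho (h : ∀ r ∈ N, χ r = 1) : V ⧸ N →* AddMonoid.End (QZ 2) :=
  QuotientGroup.lift N (actA χ) fun r hr => by
    ext x
    change ((χ r : ℤ_[2]ˣ) : ℤ_[2]) • x = x
    rw [h r hr, Units.val_one, one_smul]

theorem rho_mk (h : ∀ r ∈ N, χ r = 1) (g : V) (x : QZ 2) :
    rho N h (QuotientGroup.mk' N g) x = actA χ g x := rfl

theorem rho_comp (h : ∀ r ∈ N, χ r = 1) {D : Type} [Group D] (f : D →* V) :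
    (rho N h).comp ((QuotientGroup.mk' N).comp f) = actA (χ.comp f) := rfl

/-- descent of two-cochains -/
def ds (α : V → V → QZ 2) : V ⧸ N → V ⧸ N → QZ 2 := fun x y => α x.out y.out

variable {N}

theorem ds_mk {α : V → V → QZ 2} (hα : ∀ g h, ∀ r ∈ N, ∀ r' ∈ N, α (g * r) (h * r') = α g h)
    (g h : V) : ds N α (QuotientGroup.mk' N g) (QuotientGroup.mk' N h) = α g h := by
  obtain ⟨r, hr⟩ := QuotientGroup.mk_out_eq_mul N g
  obtain ⟨r', hr'⟩ := QuotientGroup.mk_out_eq_mul N h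
  change α (QuotientGroup.mk g : V ⧸ N).out (QuotientGroup.mk h : V ⧸ N).out = α g h
  rw [hr, hr', hα g h r r.2 r' r'.2]

theorem ds_mem (hχ : ∀ r ∈ N, χ r = 1) {α : V → V → QZ 2}
    (hα : ∀ g h, ∀ r ∈ N, ∀ r' ∈ N, α (g * r) (h * r') = α g h)
    (hz : α ∈ BKND.Z2 (actA χ)) : ds N α ∈ BKND.Z2 (rho N hχ) := by
  obtain ⟨⟨W, hW, hW'⟩, hc⟩ := hz
  refine ⟨⟨W.map (QuotientGroup.mk' N), ?_, ?_⟩, ?_⟩
  · exact QuotientGroup.isOpenMap_coe _ hW
  · rintro x y _ ⟨w, hw, rfl⟩ _ ⟨w', hw', rfl⟩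
    obtain ⟨g, rfl⟩ := QuotientGroup.mk'_surjective N x
    obtain ⟨h, rfl⟩ := QuotientGroup.mk'_surjective N y
    rw [← map_mul, ← map_mul, ds_mk hα, ds_mk hα, hW' g h w hw w' hw']
  · intro x y z
    obtain ⟨g, rfl⟩ := QuotientGroup.mk'_surjective N x
    obtain ⟨h, rfl⟩ := QuotientGroup.mk'_surjective N y
    obtain ⟨k, rfl⟩ := QuotientGroup.mk'_surjective N z
    rw [← map_mul, ← map_mul, ds_mk hα, ds_mk hα, ds_mk hα, ds_mk hα, rho_mk]
    exact hc g h k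

theorem rho_smooth [CompactSpace V] [NonarchimedeanGroup V] (hc : Continuous χ)
    (hχ : ∀ r ∈ N, χ r = 1) (m : QZ 2) :
    ∃ W : Subgroup (V ⧸ N), IsOpen (W : Set (V ⧸ N)) ∧ ∀ w ∈ W, rho N hχ w m = m := by
  obtain ⟨W, hW, hW'⟩ := BKLoc2.PAAux.smooth_act hc (BKND.Loc1.const (G := V) m)
  refine ⟨W.map (QuotientGroup.mk' N), QuotientGroup.isOpenMap_coe _ hW, ?_⟩
  rintro _ ⟨w, hw, rfl⟩
  exact hW' w hw 1

end Desc

/-! ### Cocycles with coefficients `ℚ₂` -/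

section Coc

variable {D G : Type} [Group D] [TopologicalSpace D] [Group G] [TopologicalSpace G]

theorem Z2_pb {χ : G →* ℤ_[2]ˣ} {f : D →* G} (hf : Continuous f) {z : G → G → ℚ_[2]}
    (hz : z ∈ CC.Z2 (chL χ ℚ_[2])) : pb2 f z ∈ CC.Z2 (chL (χ.comp f) ℚ_[2]) := by
  refine ⟨hz.1.comp ((hf.comp continuous_fst).prodMk (hf.comp continuous_snd)), ?_⟩
  intro g h k
  have h1 := hz.2 (f g) (f h) (f k)
  rw [← map_mul, ← map_mul] at h1
  exact h1

theorem B2_pb {χ : G →* ℤ_[2]ˣ} {f : D →* G} (hf : Continuous f) {z : G → G → ℚ_[2]}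
    (hz : z ∈ CC.B2 (chL χ ℚ_[2])) : pb2 f z ∈ CC.B2 (chL (χ.comp f) ℚ_[2]) := by
  obtain ⟨β, hβ, hz⟩ := hz
  refine ⟨fun d => β (f d), hβ.comp hf, ?_⟩
  intro g h
  have h1 := hz (f g) (f h)
  rw [← map_mul] at h1
  exact h1

variable [CompactSpace D] [NonarchimedeanGroup D]

/-- the class modulo `ℤ₂` of a cocycle, divided by `2 ^ m` -/
theorem cl_mem_Z2 (χ : D →* ℤ_[2]ˣ) {z : D → D → ℚ_[2]} (hz : z ∈ CC.Z2 (chL χ ℚ_[2])) (m : ℕ) :
    (fun g h => BKLoc2.cl 2 (z g h / 2 ^ m)) ∈ BKND.Z2 (actA χ) := by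
  refine BKMet.LRL.mem_Z2 χ (Z := fun g h => z g h / 2 ^ m) (hz.1.div_const _) ?_
  intro g h k
  have h1 : kap χ g * z h k + z g (h * k) = z (g * h) k + z g h := hz.2 g h k
  rw [← mul_div_assoc, ← add_div, ← add_div, h1]

theorem cl_mem_B2 (χ : D →* ℤ_[2]ˣ) {z : D → D → ℚ_[2]} (hz : z ∈ CC.B2 (chL χ ℚ_[2])) (m : ℕ) :
    (fun g h => BKLoc2.cl 2 (z g h / 2 ^ m)) ∈ BKND.B2 (actA χ) := by
  obtain ⟨β, hβ, hz⟩ := hz
  have h1 := BKMet.LRL.mem_B2 χ (hβ.div_const (2 ^ m))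
  have h2 : (fun g h => BKLoc2.cl 2 (z g h / 2 ^ m)) = fun g h =>
      BKMet.cl 2 (β g / 2 ^ m + kap χ g * (β h / 2 ^ m) - β (g * h) / 2 ^ m) := by
    funext g h
    have h3 : z g h = β g + kap χ g * β h - β (g * h) := hz g h
    change BKMet.cl 2 (z g h / 2 ^ m) = _
    rw [h3]
    congr 1
    ring
  rw [h2]
  exact h1

end Coc

/-! ### Number fields -/

section NF

variable {F : Type} [Field F]

/-- the cyclotomic character is invariant under complex conjugation -/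
theorem cyc_conj {c₀ : AlgebraicClosure F ≃+* AlgebraicClosure F} {cc : GF F →* GF F}
    (h : CC0 c₀ cc) (g : GF F) : cycF 2 F (cc g) = cycF 2 F g := by
  have h1 : MulSemiringAction.toRingAut (GF F) (AlgebraicClosure F) (cc g) =
      (c₀ : RingAut (AlgebraicClosure F)) *
        MulSemiringAction.toRingAut (GF F) (AlgebraicClosure F) g *
        (c₀ : RingAut (AlgebraicClosure F))⁻¹ := by
    refine RingEquiv.ext fun x => ?_
    have h2 := h.eq g (c₀.symm x)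
    rw [RingEquiv.apply_symm_apply] at h2
    exact h2
  change cyclotomicCharacter (AlgebraicClosure F) 2 _ = cyclotomicCharacter (AlgebraicClosure F) 2 _
  rw [h1, map_mul, map_mul, map_inv, mul_comm, inv_mul_cancel_left]

/-- inertia at `l ≠ 2` is contained in `R` -/
theorem inert_R [NumberField F] {l : ℕ} [Fact l.Prime] (hl : l ≠ 2)
    (j : AlgebraicClosure F →+* PadicAlgCl l) {g : GF F}
    (hg : g ∈ Inert F (AlgebraicClosure F) j) : g ∈ BKPar.R F := by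
  refine BKPar.inert_le_R (BKGen.Genus.primeOf j) inferInstance ?_ (BKGlob.inert_of_Inert j hg)
  intro h
  rw [BKGen.Genus.mem_primeOf] at h
  have h1 : ‖(((2 : ℕ) : PadicAlgCl l))‖ = 1 := norm_natCast_one (fun h2 => hl
    ((Nat.prime_dvd_prime_iff_eq Fact.out Nat.prime_two).1 h2))
  have h2 : j ((2 : 𝓞 (AlgebraicClosure F)) : AlgebraicClosure F) = ((2 : ℕ) : PadicAlgCl l) := by
    rw [Nat.cast_ofNat]
    exact map_ofNat j 2
  rw [h2, h1] at h
  exact lt_irrefl _ h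

end NF

end RCQAux

open RCQAux in
theorem stRCQ (hRA : StRA2) (hZE : StZ1E) (hLOQ : StLOQ) (hUN : StUN2) (hCP : BKGlob2.StCP)
    (hCY : BKGlob2.StCY) : StRCQ := by
  intro q F _ _ s hF hB c₀ cc hcc e z hz hloc
  have hcomp : CompactSpace (GF F) := inferInstance
  have hR : (BKPar.R F).Normal := BKPar.normal_R
  obtain ⟨hχc, hχR⟩ := BKPar.stCycR BKPar.stAdm (BKPar.stSq BKPar.stAdm) F
  have hccc : Continuous cc := ((BKGlob2.stCJ F hB.quad hB.imag c₀ hcc.conj).2 cc hcc).1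
  have hχcc : (cycF 2 F).comp cc = cycF 2 F := MonoidHom.ext fun g => cyc_conj hcc g
  have hid : Topology.IsOpenEmbedding (MonoidHom.id (GF F)) := Topology.IsOpenEmbedding.id
  obtain ⟨z₁, hz₁, hinv, hne, hconj⟩ := hZE q F s hF c₀ cc hcc e
  obtain ⟨hsn, hfs, hcp, hna, -⟩ := hCP F (AlgebraicClosure F) (GF F) (MonoidHom.id (GF F)) hid 2 e
  have hcy : (cyL 2 2).comp (sn (MonoidHom.id (GF F)) e) =
      (cycF 2 F).comp (fs (MonoidHom.id (GF F)) e) := by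
    refine MonoidHom.ext fun d => ?_
    exact ((hCY 2 F (AlgebraicClosure F) ℚ_[2] (PadicAlgCl 2)).2 e
      (fs (MonoidHom.id (GF F)) e d) (sn (MonoidHom.id (GF F)) e d)
      (BKGlob2.Cp_rel (MonoidHom.id (GF F)) e d)).symm
  obtain ⟨hL1, hL2⟩ := hLOQ (Cp (MonoidHom.id (GF F)) e) (sn (MonoidHom.id (GF F)) e) hsn
  rw [hcy] at hL1 hL2
  obtain ⟨a, ha⟩ := hL1 _ (Z2_pb hfs hz₁) hne _ (Z2_pb hfs hz)
  have hw : z - a • z₁ ∈ CC.Z2 (chL (cycF 2 F) ℚ_[2]) := sub_mem hz (Submodule.smul_mem _ _ hz₁)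
  have hα : ∀ m : ℕ, (fun g h => BKLoc2.cl 2 ((z - a • z₁) g h / 2 ^ m)) ∈
      BKND.B2 (actA (cycF 2 F)) := by
    intro m
    refine hRA F hB e _ (cl_mem_Z2 _ hw m) ?_ ?_
    · intro l _ hl j
      have e1 := hloc l hl j m
      have hw1 := cl_mem_Z2 _ (Submodule.smul_mem _ a hz₁) m
      have hw2 : ∀ g h, ∀ r ∈ BKPar.R F, ∀ r' ∈ BKPar.R F,
          BKLoc2.cl 2 ((a • z₁) (g * r) (h * r') / 2 ^ m) =
            BKLoc2.cl 2 ((a • z₁) g h / 2 ^ m) := by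
        intro g h r hr r' hr'
        change BKLoc2.cl 2 (a * z₁ (g * r) (h * r') / 2 ^ m) =
          BKLoc2.cl 2 (a * z₁ g h / 2 ^ m)
        rw [hinv g h r hr r' hr']
      have e2 := hUN F (AlgebraicClosure F) (GF F) (MonoidHom.id (GF F)) hid l hl j
        (GF F ⧸ BKPar.R F) (QuotientGroup.mk' (BKPar.R F)) QuotientGroup.continuous_mk
        (fun v hv => (QuotientGroup.eq_one_iff v).2 (inert_R hl j hv)) (QZ 2)
        (rho (BKPar.R F) hχR) (fun x => BKLoc2.PAAux.exists_pow x)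
        (fun x => rho_smooth hχc hχR x) _ (ds_mem hχR hw2 hw1)
      have e3 : pb2 ((QuotientGroup.mk' (BKPar.R F)).comp (fs (MonoidHom.id (GF F)) j))
          (ds (BKPar.R F) fun g h => BKLoc2.cl 2 ((a • z₁) g h / 2 ^ m)) =
          pb2 (fs (MonoidHom.id (GF F)) j) fun g h => BKLoc2.cl 2 ((a • z₁) g h / 2 ^ m) := by
        funext d d'
        exact ds_mk hw2 _ _
      rw [e3] at e2
      have e4 : pb2 (fs (MonoidHom.id (GF F)) j)
          (fun g h => BKLoc2.cl 2 ((z - a • z₁) g h / 2 ^ m)) =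
          pb2 (fs (MonoidHom.id (GF F)) j) (fun g h => BKLoc2.cl 2 (z g h / 2 ^ m)) -
          pb2 (fs (MonoidHom.id (GF F)) j) (fun g h => BKLoc2.cl 2 ((a • z₁) g h / 2 ^ m)) := by
        funext d d'
        change BKMet.cl 2 ((z _ _ - (a • z₁) _ _) / 2 ^ m) = BKMet.cl 2 _ - BKMet.cl 2 _
        rw [sub_div, BKMet.LRL.cl_sub]
      rw [e4]
      exact sub_mem e1 e2
    · exact cl_mem_B2 _ ha m
  have hfc : Continuous (cc.comp (fs (MonoidHom.id (GF F)) e)) := hccc.comp hfs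
  have hχf : (cycF 2 F).comp (cc.comp (fs (MonoidHom.id (GF F)) e)) =
      (cycF 2 F).comp (fs (MonoidHom.id (GF F)) e) := by
    rw [← MonoidHom.comp_assoc, hχcc]
  have h1 : pb2 (cc.comp (fs (MonoidHom.id (GF F)) e)) (z - a • z₁) ∈
      CC.B2 (chL ((cycF 2 F).comp (fs (MonoidHom.id (GF F)) e)) ℚ_[2]) := by
    refine hL2 _ ?_ fun m => ?_
    · have := Z2_pb hfc hw
      rwa [hχf] at this
    · have := BKGlob2.HA.B2_pb hfc (hα m)
      have h5 : (actA (cycF 2 F)).comp (cc.comp (fs (MonoidHom.id (GF F)) e)) =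
          actA ((cycF 2 F).comp (cc.comp (fs (MonoidHom.id (GF F)) e))) := rfl
      rw [h5, hχf] at this
      exact this
  have h2 : pb2 (fs (MonoidHom.id (GF F)) e) (fun g h => z₁ (cc g) (cc h) - z₁ g h) ∈
      CC.B2 (chL ((cycF 2 F).comp (fs (MonoidHom.id (GF F)) e)) ℚ_[2]) := B2_pb hfs hconj
  have h3 : pb2 (fs (MonoidHom.id (GF F)) e) z - pb2 (cc.comp (fs (MonoidHom.id (GF F)) e)) z =
      (pb2 (fs (MonoidHom.id (GF F)) e) z - a • pb2 (fs (MonoidHom.id (GF F)) e) z₁) -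
      pb2 (cc.comp (fs (MonoidHom.id (GF F)) e)) (z - a • z₁) -
      a • pb2 (fs (MonoidHom.id (GF F)) e) (fun g h => z₁ (cc g) (cc h) - z₁ g h) := by
    funext d d'
    set x := fs (MonoidHom.id (GF F)) e d with hx
    set y := fs (MonoidHom.id (GF F)) e d' with hy
    change z x y - z (cc x) (cc y) = (z x y - a * z₁ x y) -
      (z (cc x) (cc y) - a * z₁ (cc x) (cc y)) - a * (z₁ (cc x) (cc y) - z₁ x y)
    ring
  rw [h3]
  exact sub_mem (sub_mem ha h1) (Submodule.smul_mem _ _ h2)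

end BKR
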