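import Pool.Agent.Lib.MP_7c08ba_nt.R1.St
import Pool.Agent.Lib.MP_7c08ba_nt.Met.HTI
import Pool.Agent.Lib.MP_7c08ba_nt.Met.HRQ
import Pool.Agent.Lib.MP_7c08ba_nt.Odd.CycL
import Pool.Agent.Lib.MP_7c08ba_nt.Odd.Desc

set_option autoImplicit false

/-!
Module TAM: homomorphisms from an open subgroup of the inertia group at `l ≠ 2` to `ℚ₂` are
multiples of the Kummer cocycle of `l`.
-/

noncomputable section

namespace BKR

open NumberField IsDedekindDomain BKGen BKGen.SUnits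
open BKLoc2 (cl cy Sys IsKP)
open BKMet (QZ actA actA_apply GF GQ)
open BKPar (Loc1)
open BKOdd (Fx)
open BKGlob2.TIAux

namespace TAMAux

theorem cl_eq_iff (x y : ℚ_[2]) : cl 2 x = cl 2 y ↔ ‖x - y‖ ≤ 1 := by
  unfold cl
  rw [Submodule.Quotient.eq, LinearMap.mem_range]
  constructor
  · rintro ⟨a, ha⟩
    rw [← ha]
    exact PadicInt.norm_le_one a
  · intro h
    exact ⟨⟨x - y, h⟩, rfl⟩

variable {l : ℕ} [Fact l.Prime]

theorem not_dvd_two (hl : l ≠ 2) : ¬ l ∣ 2 := fun h =>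
  hl ((Nat.prime_dvd_prime_iff_eq (Fact.out : l.Prime) Nat.prime_two).mp h)

theorem fix_two (hl : l ≠ 2) {S : Set (PadicAlgCl l)} (τ : PadicAlgCl l ≃ₐ[Lf S] PadicAlgCl l)
    {n : ℕ} {ξ : PadicAlgCl l} (h : ξ ^ (2 ^ n) = 1) : τ ξ = ξ := by
  refine fix_tame τ ⟨2 ^ n, fun h1 => ?_, h⟩
  exact not_dvd_two hl ((Fact.out : l.Prime).dvd_of_dvd_pow h1)

theorem cy_one (hl : l ≠ 2) {S : Set (PadicAlgCl l)} (τ : PadicAlgCl l ≃ₐ[Lf S] PadicAlgCl l) :
    cy 2 (Lf S) (PadicAlgCl l) τ = 1 := by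
  have hc0 : CharZero (PadicAlgCl l) := charZero_of_injective_algebraMap
    (algebraMap ℚ_[l] (PadicAlgCl l)).injective
  rw [← map_one (cy 2 (Lf S) (PadicAlgCl l))]
  refine BKOdd.CycLAux.eq_of (p := 2) (Ω := PadicAlgCl l) _ _ fun n ξ hξ => ?_
  have h1 := BKOdd.CycLAux.act (p := 2) n ξ hξ.pow_eq_one
    (MulSemiringAction.toRingAut (PadicAlgCl l ≃ₐ[Lf S] PadicAlgCl l) (PadicAlgCl l) τ)
  have h2 := BKOdd.CycLAux.act (p := 2) n ξ hξ.pow_eq_one
    (MulSemiringAction.toRingAut (PadicAlgCl l ≃ₐ[Lf S] PadicAlgCl l) (PadicAlgCl l) 1)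
  have h3 : τ ξ = ξ := fix_two hl τ hξ.pow_eq_one
  exact h1.symm.trans (h3.trans h2)

/-- limits -/
theorem eq_zero_of_le {x : ℚ_[2]} (h : ∀ n : ℕ, ‖x‖ ≤ (1 / 2) ^ n) : x = 0 := by
  rw [← norm_eq_zero]
  refine le_antisymm ?_ (norm_nonneg _)
  refine ge_of_tendsto' (tendsto_pow_atTop_nhds_zero_of_lt_one (by norm_num) (by norm_num)) h

theorem lin {G : Type} (X : G → ℚ_[2]) (K : G → ℤ_[2]) {e : ℚ_[2]} (he : e ≠ 0)
    (h : ∀ n : ℕ, ∃ s : ℚ_[2], ∀ τ, ‖e * X τ - s * (K τ : ℚ_[2])‖ ≤ (1 / 2) ^ n) :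
    ∃ c : ℚ_[2], ∀ τ, X τ = c * (K τ : ℚ_[2]) := by
  by_cases h0 : ∃ τ₀, (K τ₀ : ℚ_[2]) ≠ 0
  · obtain ⟨τ₀, h0⟩ := h0
    refine ⟨X τ₀ / (K τ₀ : ℚ_[2]), fun τ => ?_⟩
    have h1 : e * (X τ * (K τ₀ : ℚ_[2]) - X τ₀ * (K τ : ℚ_[2])) = 0 := by
      refine eq_zero_of_le fun n => ?_
      obtain ⟨s, hs⟩ := h n
      have e1 : e * (X τ * (K τ₀ : ℚ_[2]) - X τ₀ * (K τ : ℚ_[2])) =
          (e * X τ - s * (K τ : ℚ_[2])) * (K τ₀ : ℚ_[2]) -
            (e * X τ₀ - s * (K τ₀ : ℚ_[2])) * (K τ : ℚ_[2]) := by ring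
      rw [e1]
      have h2 : ∀ (a : ℚ_[2]) (b : ℤ_[2]), ‖a‖ ≤ (1 / 2) ^ n → ‖a * (b : ℚ_[2])‖ ≤ (1 / 2) ^ n := by
        intro a b ha
        rw [norm_mul]
        calc ‖a‖ * ‖(b : ℚ_[2])‖ ≤ ‖a‖ * 1 :=
              mul_le_mul_of_nonneg_left (PadicInt.norm_le_one b) (norm_nonneg _)
          _ ≤ (1 / 2) ^ n := by rw [mul_one]; exact ha
      rw [sub_eq_add_neg]
      refine (IsUltrametricDist.norm_add_le_max _ _).trans ?_
      rw [norm_neg]
      exact max_le (h2 _ _ (hs τ)) (h2 _ _ (hs τ₀))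
    have h3 := (mul_eq_zero.mp h1).resolve_left he
    rw [div_mul_eq_mul_div, eq_div_iff h0]
    exact sub_eq_zero.mp h3
  · push Not at h0
    refine ⟨0, fun τ => ?_⟩
    have h1 : e * X τ = 0 := by
      refine eq_zero_of_le fun n => ?_
      obtain ⟨s, hs⟩ := h n
      have := hs τ
      rwa [h0 τ, mul_zero, sub_zero] at this
    rw [zero_mul]
    exact (mul_eq_zero.mp h1).resolve_left he

/-- comparison of Kummer cocycles -/
theorem kum_eq (hl : l ≠ 2) {S : Set (PadicAlgCl l)} (τ : PadicAlgCl l ≃ₐ[Lf S] PadicAlgCl l)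
    {z : ℕ → PadicAlgCl l} (hz : Sys 2 z) {a : PadicAlgCl l} (ha0 : a ≠ 0) (ha : τ a = a)
    {y Y : ℕ → PadicAlgCl l} (hy0 : y 0 = a) (hy : ∀ n, y (n + 1) ^ 2 = y n)
    (hY0 : Y 0 = (l : PadicAlgCl l)) (hY : ∀ n, Y (n + 1) ^ 2 = Y n) {e m : ℤ}
    (hem : ‖a‖ ^ e = ‖(l : PadicAlgCl l)‖ ^ m) {κa K : ℤ_[2]}
    (h1 : ∀ n, τ (y n) = z n ^ (PadicInt.toZModPow n κa).val * y n)
    (h2 : ∀ n, τ (Y n) = z n ^ (PadicInt.toZModPow n K).val * Y n) :
    (e : ℤ_[2]) * κa = (m : ℤ_[2]) * K := by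
  have hc0 : CharZero (PadicAlgCl l) := charZero_of_injective_algebraMap
    (algebraMap ℚ_[l] (PadicAlgCl l)).injective
  have hl0 : (l : PadicAlgCl l) ≠ 0 := Nat.cast_ne_zero.mpr (Fact.out : l.Prime).ne_zero
  have hyn : ∀ n, y n ≠ 0 := by
    intro n
    induction n with
    | zero => rw [hy0]; exact ha0
    | succ n ih =>
      intro h
      rw [← hy n, h] at ih
      exact ih (by norm_num)
  have hYn : ∀ n, Y n ≠ 0 := by
    intro n
    induction n with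
    | zero => rw [hY0]; exact hl0
    | succ n ih =>
      intro h
      rw [← hY n, h] at ih
      exact ih (by norm_num)
  set u : ℕ → PadicAlgCl l := fun n => y n ^ e / Y n ^ m with hu
  have hu2 : ∀ n, u (n + 1) ^ 2 = u n := by
    intro n
    simp only [hu]
    rw [div_pow, ← zpow_natCast (y (n + 1) ^ e), ← zpow_natCast (Y (n + 1) ^ m), ← zpow_mul,
      ← zpow_mul, mul_comm e, mul_comm m, zpow_mul, zpow_mul, zpow_natCast, zpow_natCast, hy, hY]
  have hu0 : ‖u 0‖ = 1 := by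
    simp only [hu]
    rw [norm_div, norm_zpow, norm_zpow, hy0, hY0, hem, div_self]
    exact zpow_ne_zero _ (norm_ne_zero_iff.mpr hl0)
  have hun : ∀ n, ‖u n‖ = 1 := by
    intro n
    induction n with
    | zero => exact hu0
    | succ n ih =>
      rw [← hu2 n, norm_pow] at ih
      exact (pow_eq_one_iff_of_nonneg (norm_nonneg _) two_ne_zero).mp ih
  have hτu : ∀ n, τ (u n) = u n := by
    intro n
    induction n with
    | zero =>
      simp only [hu]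
      rw [map_div₀, map_zpow₀, map_zpow₀, hy0, hY0, ha, map_natCast]
    | succ n ih => exact tau_root τ (not_dvd_two hl) (hu2 n) ih (hun (n + 1))
  refine PadicInt.ext_of_toZModPow.1 fun n => ?_
  have hne : NeZero (2 ^ n) := ⟨pow_ne_zero _ two_ne_zero⟩
  set A : ℕ := (PadicInt.toZModPow n κa).val with hA
  set B : ℕ := (PadicInt.toZModPow n K).val with hB
  have hzn : z n ≠ 0 := (hz.prim n).ne_zero (pow_ne_zero _ two_ne_zero)
  have h3 : z n ^ ((A : ℤ) * e - (B : ℤ) * m) = 1 := by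
    have h4 := hτu n
    simp only [hu] at h4
    rw [map_div₀, map_zpow₀, map_zpow₀, h1 n, h2 n, mul_zpow, mul_zpow, ← zpow_natCast (z n) A,
      ← zpow_natCast (z n) B, ← zpow_mul, ← zpow_mul] at h4
    have h5 : y n ^ e ≠ 0 := zpow_ne_zero _ (hyn n)
    have h6 : Y n ^ m ≠ 0 := zpow_ne_zero _ (hYn n)
    have h7 : z n ^ ((B : ℤ) * m) ≠ 0 := zpow_ne_zero _ hzn
    rw [zpow_sub₀ hzn, div_eq_one_iff_eq h7]
    rw [div_eq_div_iff (mul_ne_zero h7 h6) h6] at h4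
    have h8 : (z n ^ ((A : ℤ) * e) - z n ^ ((B : ℤ) * m)) * (y n ^ e * Y n ^ m) = 0 := by
      linear_combination h4
    exact sub_eq_zero.mp ((mul_eq_zero.mp h8).resolve_right (mul_ne_zero h5 h6))
  have h4 := ((hz.prim n).zpow_eq_one_iff_dvd _).mp h3
  have h5 := (ZMod.intCast_zmod_eq_zero_iff_dvd ((A : ℤ) * e - (B : ℤ) * m) (2 ^ n)).mpr h4
  push_cast at h5
  rw [hA, hB, ZMod.natCast_zmod_val, ZMod.natCast_zmod_val] at h5
  rw [map_mul, map_mul, map_intCast, map_intCast]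
  linear_combination h5

variable {F : Type} [Field F] [NumberField F] (V : Subgroup (GF F))
  (j : AlgebraicClosure F →+* PadicAlgCl l)

/-- the absolute values of the elements of `Lf (SV V j)` -/
theorem exists_exp (hV : IsOpen (V : Set (GF F))) :
    ∃ e : ℤ, e ≠ 0 ∧ ∀ a ∈ Lf (SV V j), a ≠ 0 →
      ∃ m : ℤ, ‖a‖ ^ e = ‖(l : PadicAlgCl l)‖ ^ m := by
  have hc0 : CharZero (PadicAlgCl l) := charZero_of_injective_algebraMap
    (algebraMap ℚ_[l] (PadicAlgCl l)).injective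
  have hl0 : (l : PadicAlgCl l) ≠ 0 := Nat.cast_ne_zero.mpr (Fact.out : l.Prime).ne_zero
  have hVcl : IsClosed (V : Set (GF F)) := V.isClosed_of_isOpen hV
  have hfix : (IntermediateField.fixedField V).fixingSubgroup = V :=
    InfiniteGalois.fixingSubgroup_fixedField (⟨V, hVcl⟩ : ClosedSubgroup (GF F))
  let E : IntermediateField F (AlgebraicClosure F) := IntermediateField.fixedField V
  have hEfd : FiniteDimensional F E := by
    rw [← InfiniteGalois.isOpen_iff_finite]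
    change IsOpen ((IntermediateField.fixedField V).fixingSubgroup : Set (GF F))
    rw [hfix]
    exact hV
  have hEnf : NumberField E := NumberField.of_module_finite F E
  let jE : E →+* PadicAlgCl l := j.comp (algebraMap E (AlgebraicClosure F))
  obtain ⟨π, hπ⟩ := (pl jE).valuation_exists_uniformizer E
  have hlE : ((l : ℕ) : E) ≠ 0 := by
    have : CharZero E := charZero_of_injective_algebraMap (algebraMap F E).injective
    exact Nat.cast_ne_zero.mpr (Fact.out : l.Prime).ne_zero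
  obtain ⟨e, he⟩ := BKGlob2.RQAux.norm_zpow_of_val (j := jE) rfl hπ hlE
  rw [map_natCast] at he
  refine ⟨e, ?_, ?_⟩
  · rintro rfl
    rw [zpow_zero] at he
    exact absurd he norm_l_lt.ne
  · intro a ha ha0
    obtain ⟨z, hz, haz⟩ := norm_adjoin_tame (SV V j) ha
    obtain ⟨b, hb⟩ := norm_comp jE (y := z) hz
    have hb0 : b ≠ 0 := by
      rintro rfl
      rw [map_zero, norm_zero] at hb
      rw [hb] at haz
      exact ha0 (norm_eq_zero.mp haz)
    obtain ⟨m, hm⟩ := BKGlob2.RQAux.norm_zpow_of_val (j := jE) rfl hπ hb0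
    refine ⟨m, ?_⟩
    rw [haz, hb, hm, he, ← zpow_mul, ← zpow_mul, mul_comm]

end TAMAux

open TAMAux

/-- Module TAM. -/
theorem stTAM (hZ : BKLoc2.StZ1A) : StTAM := by
  intro F _ _ l _ hl j V hV x hx hadd z hz κ hκ
  have hc0 : CharZero (PadicAlgCl l) := charZero_of_injective_algebraMap
    (algebraMap ℚ_[l] (PadicAlgCl l)).injective
  let G := PadicAlgCl l ≃ₐ[Lf (SV V j)] PadicAlgCl l
  let X : G → ℚ_[2] := fun τ => x (res V j hV τ)
  let K : G → ℤ_[2] := fun τ => κ (res V j hV τ)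
  have hXc : Continuous X := hx.comp (continuous_res V j hV)
  have hXadd : ∀ g h : G, X (g * h) = X g + X h := by
    intro g h
    change x (res V j hV (g * h)) = x (res V j hV g) + x (res V j hV h)
    rw [map_mul]
    exact hadd _ (res_inert V j hV g) _ (res_inert V j hV h) (res_mem V j hV g) (res_mem V j hV h)
  obtain ⟨e, he0, he⟩ := exists_exp V j hV
  have he2 : (e : ℚ_[2]) ≠ 0 := Int.cast_ne_zero.mpr he0
  obtain ⟨Y, hY0, hY, hYκ⟩ := hκ
  have hz' : Sys 2 (fun n => j (z n)) :=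
    ⟨fun n => (hz.prim n).map_of_injective j.injective, fun n => by rw [← map_pow, hz.pow]⟩
  have key : ∃ c : ℚ_[2], ∀ τ, X τ = c * (K τ : ℚ_[2]) := by
    refine lin X K he2 fun n => ?_
    let β : G → QZ 2 := fun τ => cl 2 (X τ / 2 ^ n)
    have h2n : (2 : ℚ_[2]) ^ n ≠ 0 := pow_ne_zero _ two_ne_zero
    have hβ : β ∈ BKND.Z1 (actA ((cy 2 (Lf (SV V j)) (PadicAlgCl l)).comp (MonoidHom.id G))) := by
      refine ⟨?_, ?_⟩
      · have hU : {τ : G | ‖X τ / 2 ^ n‖ < 1} ∈ nhds (1 : G) := by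
          have h1 : IsOpen {τ : G | ‖X τ / 2 ^ n‖ < 1} :=
            isOpen_lt (hXc.div_const _).norm continuous_const
          refine h1.mem_nhds ?_
          have h2 : X 1 = 0 := by
            have h3 := hXadd 1 1
            rw [mul_one] at h3
            exact left_eq_add.1 h3
          change ‖X 1 / 2 ^ n‖ < 1
          rw [h2, zero_div, norm_zero]
          exact one_pos
        have hna : NonarchimedeanGroup G := BKOdd.nonarch_gal
        obtain ⟨W, hW⟩ := NonarchimedeanGroup.is_nonarchimedean _ hU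
        refine ⟨W.toSubgroup, W.isOpen', fun g w hw => ?_⟩
        change cl 2 (X (g * w) / 2 ^ n) = cl 2 (X g / 2 ^ n)
        rw [cl_eq_iff, hXadd, add_div, add_sub_cancel_left]
        exact (hW hw).le
      · intro g h
        rw [actA_apply]
        change cl 2 (X (g * h) / 2 ^ n) = cl 2 (X g / 2 ^ n) +
          ((cy 2 (Lf (SV V j)) (PadicAlgCl l) g : ℤ_[2]ˣ) : ℤ_[2]) • cl 2 (X h / 2 ^ n)
        rw [cy_one hl g, Units.val_one, one_smul, hXadd, add_div]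
        rfl
    obtain ⟨a, ha0, haF, κa, ⟨y, hy0, hy, hyκ⟩, n', hn'⟩ := hZ 2 (Lf (SV V j)) (PadicAlgCl l) G
      (MonoidHom.id G) Topology.IsOpenEmbedding.id _ hz' β hβ
    have haL : a ∈ Lf (SV V j) := by
      have h3 : a ∈ Set.range (algebraMap (Lf (SV V j)) (PadicAlgCl l)) := by
        rw [InfiniteGalois.mem_range_algebraMap_iff_fixed]
        exact haF
      obtain ⟨w, hw⟩ := h3
      rw [← hw]
      exact w.2
    obtain ⟨m, hm⟩ := he a haL ha0
    refine ⟨2 ^ n * (m : ℚ_[2]) / 2 ^ n', fun τ => ?_⟩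
    have h4 : (e : ℤ_[2]) * κa τ = (m : ℤ_[2]) * K τ := by
      refine kum_eq hl τ hz' ha0 (haF τ) hy0 hy (Y := fun n => j (Y n)) ?_ ?_ hm
        (fun n => hyκ n τ) ?_
      · change j (Y 0) = _
        rw [hY0, map_natCast]
      · intro n
        change j (Y (n + 1)) ^ 2 = j (Y n)
        rw [← map_pow, hY]
      · intro n
        change τ (j (Y n)) = _
        rw [← res_spec V j hV τ (Y n)]
        have h5 := hYκ n (res V j hV τ)
        change (res V j hV τ) (Y n) = z n ^ (PadicInt.toZModPow n (κ (res V j hV τ))).val * Y n at h5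
        rw [h5, map_mul, map_pow]
    have h5 : (e : ℚ_[2]) * (κa τ : ℚ_[2]) = (m : ℚ_[2]) * (K τ : ℚ_[2]) := by
      have := congrArg (fun t : ℤ_[2] => (t : ℚ_[2])) h4
      push_cast at this
      exact this
    have h6 : ‖X τ / 2 ^ n - (κa τ : ℚ_[2]) / 2 ^ n'‖ ≤ 1 := (cl_eq_iff _ _).mp (hn' τ)
    have h7 : (e : ℚ_[2]) * X τ - 2 ^ n * (m : ℚ_[2]) / 2 ^ n' * (K τ : ℚ_[2]) =
        2 ^ n * ((e : ℚ_[2]) * (X τ / 2 ^ n - (κa τ : ℚ_[2]) / 2 ^ n')) := by
      have h8 : 2 ^ n * (m : ℚ_[2]) / 2 ^ n' * (K τ : ℚ_[2]) =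
          2 ^ n / 2 ^ n' * ((m : ℚ_[2]) * (K τ : ℚ_[2])) := by ring
      rw [h8, ← h5]
      field_simp
    rw [h7, norm_mul, norm_mul, norm_pow]
    have h8 : ‖(2 : ℚ_[2])‖ = 1 / 2 := by
      have := Padic.norm_p (p := 2)
      rw [one_div]
      exact_mod_cast this
    rw [h8]
    have h9 : ‖(e : ℚ_[2])‖ ≤ 1 := Padic.norm_int_le_one e
    calc (1 / 2 : ℝ) ^ n * (‖(e : ℚ_[2])‖ * ‖X τ / 2 ^ n - (κa τ : ℚ_[2]) / 2 ^ n'‖)
        ≤ (1 / 2 : ℝ) ^ n * (1 * 1) := by gcongr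
      _ = (1 / 2 : ℝ) ^ n := by ring
  obtain ⟨c, hc⟩ := key
  refine ⟨c, fun g hi hg => ?_⟩
  obtain ⟨τ, rfl⟩ := exists_tau V j hV g hg hi
  exact hc τ

end BKR
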