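import Pool.Agent.Lib.MP_7c08ba_nt.R1.St
import Pool.Agent.Lib.MP_7c08ba_nt.Met.HUN

set_option autoImplicit false

/-!
The Selmer groups of the canonical Hecke characters in rank one, module VAN: vanishing of `H¹` at
`l ≠ 2`.
-/

noncomputable section

namespace BKR

open NumberField IsDedekindDomain BKGen BKGen.SUnits Matrix
open BKLoc2 (im cy cyL Sys IsKP IsHom)
open BKMet (QZ actA GF GQ cycF RS GS pb1 pb2)
open BKPar (Loc1 Loc2)
open BKGlob2 (Cp fs sn LC dc SP Prin CC0)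
open BKOdd (chL chZ)

namespace VANAux

/-- A cocycle with values in a one dimensional module which vanishes on the set `I` and for which a
normal open subgroup `W` is topologically generated by `φ` and `I` is a coboundary. -/
theorem core {D : Type} [Group D] [TopologicalSpace D] [CompactSpace D]
    [NonarchimedeanGroup D] {L : Type} [NormedField L] (v : D →* L) (hv : Continuous v)
    (X : D → L) (hX : Continuous X) (hc : ∀ g h, X (g * h) = X g + v g * X h) (W : Subgroup D)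
    (hN : W.Normal) (I : Set W) (hI1 : ∀ i ∈ I, v (i : D) = 1)
    (hI0 : ∀ i ∈ I, X (i : D) = 0) (φ : W)
    (hφ : ∀ W' : Subgroup W, IsOpen (W' : Set W) → ∀ d : W, ∃ (n : ℕ) (i : W), i ∈ I ∧
      ∃ w ∈ W', d = φ ^ n * i * w)
    (hw : ∃ w ∈ W, v w ≠ 1) : ∃ m : L, ∀ g, X g = v g * m - m := by
  obtain ⟨B, hB⟩ := (isCompact_range hv).isBounded.exists_norm_le
  have hB' : ∀ g, ‖v g‖ ≤ B := fun g => hB _ ⟨g, rfl⟩
  have hB0 : 0 ≤ B := (norm_nonneg _).trans (hB' 1)
  -- small open subgroups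
  have hsmall : ∀ (f : D → L), Continuous f → f 1 = 0 → ∀ ε : ℝ, 0 < ε →
      ∃ W' : Subgroup W, IsOpen (W' : Set W) ∧ ∀ w ∈ W', ‖f (w : D)‖ < ε := by
    intro f hf hf1 ε hε
    have h1 : {g : D | ‖f g‖ < ε} ∈ nhds (1 : D) := by
      refine (isOpen_lt hf.norm continuous_const).mem_nhds ?_
      simpa [hf1] using hε
    obtain ⟨O, hO⟩ := NonarchimedeanGroup.is_nonarchimedean _ h1
    refine ⟨(O : Subgroup D).comap W.subtype, ?_, fun w hw => hO hw⟩
    exact O.isOpen.preimage continuous_subtype_val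
  have hφ1 : v (φ : D) ≠ 1 := by
    intro h1
    obtain ⟨w0, hw0, hne⟩ := hw
    obtain ⟨W', hW', hsm⟩ := hsmall (fun g => v g - 1) (hv.sub continuous_const)
      (by simp) ‖v w0 - 1‖ (norm_pos_iff.2 (sub_ne_zero.2 hne))
    obtain ⟨n, i, hi, w, hwW, hd⟩ := hφ W' hW' ⟨w0, hw0⟩
    have h2 : w0 = (φ : D) ^ n * i * w := by
      have := congrArg (fun d : W => (d : D)) hd
      simpa using this
    have h3 : v w0 = v (w : D) := by
      rw [h2, map_mul, map_mul, map_pow, h1, hI1 i hi, one_pow, one_mul, one_mul]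
    have h4 := hsm w hwW
    rw [← h3] at h4
    exact lt_irrefl _ h4
  obtain ⟨m, hm⟩ : ∃ m : L, m = X (φ : D) / (v (φ : D) - 1) := ⟨_, rfl⟩
  have hmm : X (φ : D) = v (φ : D) * m - m := by
    rw [hm]
    have := sub_ne_zero.2 hφ1
    field_simp
  obtain ⟨Y, hY⟩ : ∃ Y : D → L, Y = fun g => X g - (v g * m - m) := ⟨_, rfl⟩
  have hYc : ∀ g h, Y (g * h) = Y g + v g * Y h := by
    intro g h
    simp only [hY, hc, map_mul]
    ring
  have hYφ : Y (φ : D) = 0 := by
    simp only [hY, hmm, sub_self]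
  have hYI : ∀ i ∈ I, Y (i : D) = 0 := by
    intro i hi
    simp only [hY, hI0 i hi, hI1 i hi]
    ring
  have hY1 : Y 1 = 0 := by
    have h1 := hYc 1 1
    rw [mul_one, map_one, one_mul] at h1
    linear_combination -h1
  have hYp : ∀ n : ℕ, Y ((φ : D) ^ n) = 0 := by
    intro n
    induction n with
    | zero => rw [pow_zero, hY1]
    | succ n ih => rw [pow_succ, hYc, ih, hYφ, mul_zero, add_zero]
  have hYcont : Continuous Y := by
    rw [hY]
    exact hX.sub ((hv.mul continuous_const).sub continuous_const)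
  have hYW : ∀ d : D, d ∈ W → Y d = 0 := by
    intro d hdW
    by_contra hne
    have hpos : 0 < ‖Y d‖ / (B + 1) := div_pos (norm_pos_iff.2 hne) (by linarith)
    obtain ⟨W', hW', hsm⟩ := hsmall Y hYcont hY1 _ hpos
    obtain ⟨n, i, hi, w, hwW, hd⟩ := hφ W' hW' ⟨d, hdW⟩
    have h2 : d = (φ : D) ^ n * i * w := by
      have := congrArg (fun d : W => (d : D)) hd
      simpa using this
    have h3 : Y d = v ((φ : D) ^ n) * Y (w : D) := by
      rw [h2, hYc, hYc, hYp, hYI i hi, map_mul, hI1 i hi]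
      ring
    have h4 : ‖Y d‖ ≤ B * ‖Y (w : D)‖ := by
      rw [h3, norm_mul]
      exact mul_le_mul_of_nonneg_right (hB' _) (norm_nonneg _)
    have h5 := hsm w hwW
    rw [lt_div_iff₀ (by linarith)] at h5
    nlinarith [norm_nonneg (Y (w : D))]
  refine ⟨m, fun g => ?_⟩
  obtain ⟨w, hwW, hw1⟩ := hw
  have h1 : Y (w * g) = v w * Y g := by
    rw [hYc, hYW w hwW, zero_add]
  have h2 : Y (w * g) = Y g := by
    have h3 : w * g = g * (g⁻¹ * w * g) := by group
    have h4 : g⁻¹ * w * g ∈ W := by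
      have := hN.conj_mem w hwW g⁻¹
      simpa using this
    rw [h3, hYc, hYW _ h4, mul_zero, add_zero]
  have h3 : (v w - 1) * Y g = 0 := by
    rw [sub_mul, ← h1, h2]
    ring
  have h4 : Y g = 0 := (mul_eq_zero.1 h3).resolve_left (sub_ne_zero.2 hw1)
  simp only [hY] at h4
  linear_combination h4

theorem nonarchF (F : Type) [Field F] : NonarchimedeanGroup (GF F) where
  is_nonarchimedean U hU := by
    rw [krullTopology_mem_nhds_one_iff] at hU
    obtain ⟨E, hE, hEU⟩ := hU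
    exact ⟨⟨E.fixingSubgroup, IntermediateField.fixingSubgroup_isOpen E⟩, hEU⟩

theorem norm_gal {l : ℕ} [Fact l.Prime] (g : GQ l) (x : PadicAlgCl l) : ‖g x‖ = ‖x‖ :=
  (spectralNorm_eq_of_equiv g x).symm

/-- conjugates of inertia elements -/
theorem inert_conj {l : ℕ} [Fact l.Prime] (t i : GQ l)
    (hi : i ∈ Inert ℚ_[l] (PadicAlgCl l) (RingHom.id (PadicAlgCl l))) :
    t * i * t⁻¹ ∈ Inert ℚ_[l] (PadicAlgCl l) (RingHom.id (PadicAlgCl l)) := by
  intro x hx
  have h1 := hi (t⁻¹ x) (by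
    rw [RingHom.id_apply, norm_gal]
    exact hx)
  rw [RingHom.id_apply] at h1 ⊢
  have h2 : (t * i * t⁻¹) x - x = t (i (t⁻¹ x) - t⁻¹ x) := by
    rw [map_sub, AlgEquiv.mul_apply, AlgEquiv.mul_apply]
    congr 1
    rw [← AlgEquiv.mul_apply, mul_inv_cancel, AlgEquiv.one_apply]
  rw [h2, norm_gal]
  exact h1

section

variable {F : Type} [Field F] {l : ℕ} [Fact l.Prime] (j : AlgebraicClosure F →+* PadicAlgCl l)

/-- inertia elements of the decomposition group -/
theorem inert_fs (d : Cp (MonoidHom.id (GF F)) j)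
    (hd : sn (MonoidHom.id (GF F)) j d ∈
      Inert ℚ_[l] (PadicAlgCl l) (RingHom.id (PadicAlgCl l))) :
    fs (MonoidHom.id (GF F)) j d ∈ Inert F (AlgebraicClosure F) j := by
  intro x hx
  have h1 := hd (j x) hx
  have h2 : j (fs (MonoidHom.id (GF F)) j d x) = sn (MonoidHom.id (GF F)) j d (j x) :=
    BKGlob2.Cp_rel (MonoidHom.id (GF F)) j d x
  rw [RingHom.id_apply] at h1
  rw [map_sub, h2]
  exact h1

end

end VANAux

open VANAux in
/-- Module VAN -/
theorem stVAN (hTAM : StTAM) (hFRB : BKGlob2.StFRB) (hCP : BKGlob2.StCP) (hCY : BKGlob2.StCY)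
    (hKPE : BKLoc2.StKPE) : StVAN := by
  intro F _ _ l _ hl2 j L _ _ _ V hV hin hW x hx
  have h2 : Nat.Prime 2 := Nat.prime_two
  have hl : l.Prime := Fact.out
  have hna : NonarchimedeanGroup (GF F) := nonarchF F
  have : IsGalois F (AlgebraicClosure F) := inferInstance
  obtain ⟨hsn, hfs, hcomp, hnaC, -⟩ := hCP F (AlgebraicClosure F) (GF F) (MonoidHom.id (GF F))
    Topology.IsOpenEmbedding.id l j
  obtain ⟨⟨z, hz⟩, -⟩ := hCY 2 F (AlgebraicClosure F) F (AlgebraicClosure F)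
  have hcyc : ∀ d, cycF 2 F (fs (MonoidHom.id (GF F)) j d) =
      cyL 2 l (sn (MonoidHom.id (GF F)) j d) := fun d =>
    (hCY 2 F (AlgebraicClosure F) ℚ_[l] (PadicAlgCl l)).2 j _ _
      fun y => BKGlob2.Cp_rel (MonoidHom.id (GF F)) j d y
  obtain ⟨-, -, hex, hco, -, -⟩ := hKPE 2 F (AlgebraicClosure F) (GF F) (MonoidHom.id (GF F))
    continuous_id z hz
  have hl0 : (l : AlgebraicClosure F) ≠ 0 := Nat.cast_ne_zero.2 hl.ne_zero
  obtain ⟨κ, hκ⟩ := hex (l : AlgebraicClosure F) hl0 (fun g => map_natCast _ l)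
  obtain ⟨hκc, hκm⟩ := hco _ κ hl0 hκ
  obtain ⟨hxc, hxm⟩ := hx
  -- scalars
  obtain ⟨vF, hvF⟩ : ∃ vF : GF F → L, vF = fun g => (V g : Matrix (Fin 1) (Fin 1) L) 0 0 :=
    ⟨_, rfl⟩
  have hvFm : ∀ g h, vF (g * h) = vF g * vF h := by
    intro g h
    simp only [hvF, map_mul, Units.val_mul, Matrix.mul_apply, Fin.sum_univ_one]
  have hvF1 : vF 1 = 1 := by
    simp only [hvF, map_one, Units.val_one, Matrix.one_apply_eq]
  have hvFc : Continuous vF := by
    rw [hvF]
    exact ((Units.continuous_val.comp hV).matrix_elem 0 0)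
  have hvFV : ∀ g, vF g = 1 → V g = 1 := by
    intro g hg
    refine Units.ext (Matrix.ext fun a b => ?_)
    have ha : a = 0 := Subsingleton.elim _ _
    have hb : b = 0 := Subsingleton.elim _ _
    rw [ha, hb, Units.val_one, Matrix.one_apply_eq]
    simpa only [hvF] using hg
  obtain ⟨XF, hXF⟩ : ∃ XF : GF F → L, XF = fun g => x g 0 := ⟨_, rfl⟩
  have hXFm : ∀ g h, XF (g * h) = XF g + vF g * XF h := by
    intro g h
    simp only [hXF, hvF, hxm, Pi.add_apply, Matrix.mulVec, dotProduct, Fin.sum_univ_one]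
  have hXFc : Continuous XF := by
    rw [hXF]
    exact (continuous_apply 0).comp hxc
  have hXF1 : XF 1 = 0 := by
    have h1 := hXFm 1 1
    rw [mul_one, hvF1, one_mul] at h1
    linear_combination -h1
  -- the open normal subgroup
  have hball : {g : GF F | ‖vF g - 1‖ < ‖(2 : L)‖} ∈ nhds (1 : GF F) := by
    refine (isOpen_lt (hvFc.sub continuous_const).norm continuous_const).mem_nhds ?_
    show ‖vF 1 - 1‖ < ‖(2 : L)‖
    rw [hvF1, sub_self, norm_zero]
    have : CharZero L := charZero_of_injective_algebraMap (algebraMap ℚ_[2] L).injective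
    exact norm_pos_iff.2 two_ne_zero
  obtain ⟨E, hEf, hEn, hE⟩ := (krullTopology_mem_nhds_one_iff_of_normal F (AlgebraicClosure F)
    _).1 hball
  obtain ⟨N, hNdef⟩ : ∃ N : Subgroup (GF F), N = E.fixingSubgroup := ⟨_, rfl⟩
  have hNn : N.Normal := by
    rw [hNdef, ← IntermediateField.restrictNormalHom_ker E]
    infer_instance
  have hNo : IsOpen (N : Set (GF F)) := by
    rw [hNdef]
    exact IntermediateField.fixingSubgroup_isOpen E
  have hN1 : ∀ g ∈ N, g ∈ Inert F (AlgebraicClosure F) j → vF g = 1 := by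
    intro g hg hgi
    have h1 : ‖vF g - 1‖ < ‖(2 : L)‖ := hE (hNdef ▸ hg)
    rcases hin g hgi with h3 | h3
    · simp only [hvF, h3, Units.val_one, Matrix.one_apply_eq]
    · exfalso
      have h4 : vF g = -1 := by
        simp only [hvF, h3, Units.val_neg, Units.val_one, Matrix.neg_apply, Matrix.one_apply_eq]
      rw [h4] at h1
      have h5 : (-1 - 1 : L) = -2 := by norm_num
      rw [h5, norm_neg] at h1
      exact lt_irrefl _ h1
  -- the cocycle on inertia
  have hC : ∃ C : L, ∀ g ∈ Inert F (AlgebraicClosure F) j, g ∈ N →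
      XF g = ((κ g : ℤ_[2]) : ℚ_[2]) • C := by
    have b := Module.finBasis ℚ_[2] L
    have h1 : ∀ i, ∃ c : ℚ_[2], ∀ g ∈ Inert F (AlgebraicClosure F) j, g ∈ N →
        b.coord i (XF g) = c * (κ g : ℚ_[2]) := by
      intro i
      refine hTAM F l hl2 j N hNo (fun g => b.coord i (XF g)) ?_ ?_ z hz κ hκ
      · exact (LinearMap.continuous_of_finiteDimensional (b.coord i)).comp hXFc
      · intro g hg h hh hgN _
        rw [hXFm, hN1 g hgN hg, one_mul, map_add]
    choose c hc using h1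
    refine ⟨∑ i, c i • b i, fun g hg hgN => ?_⟩
    rw [← b.sum_repr (XF g), Finset.smul_sum]
    refine Finset.sum_congr rfl fun i _ => ?_
    have h2 := hc i g hg hgN
    rw [Module.Basis.coord_apply] at h2
    rw [h2, smul_smul, mul_comm]
  obtain ⟨C, hC⟩ := hC
  -- the cyclotomic character on inertia
  have hndvd : ∀ n : ℕ, ¬ l ∣ 2 ^ n := fun n h =>
    hl2 ((Nat.prime_dvd_prime_iff_eq hl h2).1 (hl.dvd_of_dvd_pow h))
  obtain ⟨-, -, -, -, hroot, -⟩ := hFRB l (Cp (MonoidHom.id (GF F)) j)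
    (sn (MonoidHom.id (GF F)) j) hsn
  have hcyi : ∀ i, sn (MonoidHom.id (GF F)) j i ∈
      Inert ℚ_[l] (PadicAlgCl l) (RingHom.id (PadicAlgCl l)) →
      cycF 2 F (fs (MonoidHom.id (GF F)) j i) = 1 := by
    intro i hi
    rw [hcyc]
    refine BKGlob2.UNAux.cyL_eq _ 1 _ ?_ fun n ξ hξ => ?_
    · rw [Units.val_one, Nat.cast_one]
    · rw [pow_one]
      exact hroot (2 ^ n) (hndvd n) ξ hξ _ hi
  -- the cocycle vanishes on inertia
  obtain ⟨f, hf⟩ : ∃ f : Cp (MonoidHom.id (GF F)) j →* GF F, f = fs (MonoidHom.id (GF F)) j :=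
    ⟨_, rfl⟩
  obtain ⟨t, ht⟩ : ∃ t : Cp (MonoidHom.id (GF F)) j →* GQ l, t = sn (MonoidHom.id (GF F)) j :=
    ⟨_, rfl⟩
  rw [← hf] at hfs hcyc hcyi hW ⊢
  rw [← ht] at hsn hcyi
  obtain ⟨W, hWdef⟩ : ∃ W : Subgroup (Cp (MonoidHom.id (GF F)) j), W = N.comap f := ⟨_, rfl⟩
  have hWo : IsOpen (W : Set (Cp (MonoidHom.id (GF F)) j)) := by
    rw [hWdef]
    exact hNo.preimage hfs
  have hWn : W.Normal := by
    rw [hWdef]
    exact hNn.comap f
  have hinf : ∀ d, t d ∈ Inert ℚ_[l] (PadicAlgCl l) (RingHom.id (PadicAlgCl l)) →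
      f d ∈ Inert F (AlgebraicClosure F) j := by
    intro d hd
    rw [hf]
    exact inert_fs j d (ht ▸ hd)
  obtain ⟨⟨w1, hw1, hw1'⟩, ⟨w2, hw2, hw2'⟩⟩ := hW W hWo
  have hX0 : ∀ i ∈ W, t i ∈ Inert ℚ_[l] (PadicAlgCl l) (RingHom.id (PadicAlgCl l)) →
      XF (f i) = 0 := by
    intro i hi hit
    have hiN : f i ∈ N := by
      rw [hWdef] at hi
      exact hi
    have hvi : vF (f i) = 1 := hN1 _ hiN (hinf i hit)
    have hconj : t (w2 * i * w2⁻¹) ∈
        Inert ℚ_[l] (PadicAlgCl l) (RingHom.id (PadicAlgCl l)) := by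
      rw [map_mul, map_mul, map_inv]
      exact inert_conj _ _ hit
    have hcN : f (w2 * i * w2⁻¹) ∈ N := by
      have := hWn.conj_mem i hi w2
      rw [hWdef] at this
      exact this
    have h3 := hC _ (hinf _ hconj) hcN
    have h4 := hC _ (hinf i hit) hiN
    have h5 : XF (f (w2 * i * w2⁻¹)) = vF (f w2) * XF (f i) := by
      have h6 : XF (f w2) + vF (f w2) * XF (f w2)⁻¹ = 0 := by
        rw [← hXFm, mul_inv_cancel, hXF1]
      rw [map_mul, map_mul, map_inv, hXFm, hXFm, hvFm, hvi]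
      linear_combination h6
    have h7 : κ (f (w2 * i * w2⁻¹)) = ((cycF 2 F (f w2) : ℤ_[2]ˣ) : ℤ_[2]) * κ (f i) := by
      have h8 : ∀ g h : GF F, κ (g * h) = κ g + ((cycF 2 F g : ℤ_[2]ˣ) : ℤ_[2]) * κ h := hκm
      have h9 : κ 1 = 0 := by
        have := h8 1 1
        rw [mul_one, map_one, Units.val_one, one_mul] at this
        linear_combination -this
      have h10 : κ (f w2) + ((cycF 2 F (f w2) : ℤ_[2]ˣ) : ℤ_[2]) * κ (f w2)⁻¹ = 0 := by
        rw [← h8, mul_inv_cancel, h9]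
      rw [map_mul, map_mul, map_inv, h8, h8, map_mul, hcyi i hit, mul_one]
      linear_combination h10
    rw [h5, h7, h4] at h3
    have h11 : chL (cycF 2 F) L (f w2) =
        algebraMap ℚ_[2] L (((cycF 2 F (f w2) : ℤ_[2]ˣ) : ℤ_[2]) : ℚ_[2]) := rfl
    have h12 : (vF (f w2) - chL (cycF 2 F) L (f w2)) *
        (((κ (f i) : ℤ_[2]) : ℚ_[2]) • C) = 0 := by
      rw [sub_mul, h3, h11, PadicInt.coe_mul, mul_smul, Algebra.smul_def
        (((cycF 2 F (f w2) : ℤ_[2]ˣ) : ℤ_[2]) : ℚ_[2]), sub_self]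
    rw [h4]
    refine (mul_eq_zero.1 h12).resolve_left (sub_ne_zero.2 ?_)
    simpa only [hvF] using hw2'
  -- the group `W`
  have hcW : CompactSpace W := isCompact_iff_compactSpace.1 (W.isClosed_of_isOpen hWo).isCompact
  obtain ⟨φ, -, -, -, -, hgen⟩ := hFRB l W (t.comp W.subtype)
    (hsn.comp hWo.isOpenEmbedding_subtypeVal)
  obtain ⟨v, hv⟩ : ∃ v : Cp (MonoidHom.id (GF F)) j →* L, ∀ d, v d = vF (f d) :=
    ⟨{ toFun := fun d => vF (f d)
       map_one' := by rw [map_one, hvF1]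
       map_mul' := fun a b => by rw [map_mul, hvFm] }, fun _ => rfl⟩
  obtain ⟨m, hm⟩ := core v (by
      have : (v : Cp (MonoidHom.id (GF F)) j → L) = fun d => vF (f d) := funext hv
      rw [this]
      exact hvFc.comp hfs) (fun d => XF (f d)) (hXFc.comp hfs)
    (fun g h => by rw [map_mul, hXFm, hv]) W hWn
    {i | t i ∈ Inert ℚ_[l] (PadicAlgCl l) (RingHom.id (PadicAlgCl l))}
    (fun i hi => by
      rw [hv]
      refine hN1 _ ?_ (hinf _ hi)
      exact (show ∀ d, d ∈ W → f d ∈ N from fun d hd => by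
        rw [hWdef] at hd
        exact hd) i i.2)
    (fun i hi => hX0 i i.2 hi) φ (fun W' hW' d => hgen W' hW' d)
    ⟨w1, hw1, fun h => hw1' (hvFV _ (by rw [← hv, h]))⟩
  refine ⟨fun _ => m, ?_⟩
  funext d a
  have ha : a = 0 := Subsingleton.elim _ _
  subst ha
  have h3 := hm d
  rw [hv] at h3
  have h4 : x (f d) 0 = XF (f d) := by rw [hXF]
  rw [h4, h3, BKOdd.cob_apply, hvF]
  simp only [Pi.sub_apply, Matrix.mulVec, dotProduct, Fin.sum_univ_one, MonoidHom.comp_apply]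

end BKR
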