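import Pool.Agent.Lib.MP_7c08ba_nt.R1.NBRI
import Pool.Agent.Lib.MP_7c08ba_nt.Glob.Two
import Pool.Agent.Lib.MP_7c08ba_nt.Met.HPL
import Pool.Agent.Lib.MP_7c08ba_nt.Met.HCY
import Pool.Agent.Lib.MP_7c08ba_nt.Met.HCJ
import Pool.Agent.Lib.MP_7c08ba_nt.Met.LCYP
import Pool.Agent.Lib.MP_7c08ba_nt.Met.LKPE

set_option autoImplicit false

/-!
The Selmer groups of the canonical Hecke characters in rank one, module Z1E: a global class which is
unramified outside `2`, invariant under complex conjugation and not trivial at the place `e`.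
-/

noncomputable section

namespace BKR

open NumberField IsDedekindDomain BKGen BKGen.SUnits Matrix
open Pool.Agent.Lib.MP_7c08ba_nt
open BKLoc2 (im cy cyL Sys IsKP IsHom)
open BKMet (QZ actA GF GQ cycF RS GS pb1 pb2)
open BKPar (Loc1 Loc2)
open BKGlob2 (Cp fs sn LC dc SP Prin CC0)
open BKOdd (chL chZ Fx)

namespace Z1EAux

/-! ### Characters as representations -/

section Rep

variable {G : Type} [Group G]

/-- the representation of dimension one given by a character -/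
def r1 (ψ : G →* ℤ_[2]ˣ) : G →* GL (Fin 1) ℚ_[2] :=
  (Units.map ((Matrix.scalar (Fin 1) : ℚ_[2] →+* Matrix (Fin 1) (Fin 1) ℚ_[2]) :
    ℚ_[2] →* Matrix (Fin 1) (Fin 1) ℚ_[2])).comp
  ((Units.map ((PadicInt.Coe.ringHom (p := 2)) : ℤ_[2] →* ℚ_[2])).comp ψ)

theorem r1_apply (ψ : G →* ℤ_[2]ˣ) (g : G) :
    (r1 ψ g : Matrix (Fin 1) (Fin 1) ℚ_[2]) =
      ((((ψ g : ℤ_[2]ˣ) : ℤ_[2]) : ℚ_[2])) • (1 : Matrix (Fin 1) (Fin 1) ℚ_[2]) := by
  have h : (r1 ψ g : Matrix (Fin 1) (Fin 1) ℚ_[2]) =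
      Matrix.scalar (Fin 1) ((((ψ g : ℤ_[2]ˣ) : ℤ_[2]) : ℚ_[2])) := rfl
  rw [h]
  ext i j
  rw [Subsingleton.elim i 0, Subsingleton.elim j 0]
  simp

theorem r1_mulVec (ψ : G →* ℤ_[2]ˣ) (g : G) (v : Fin 1 → ℚ_[2]) :
    (r1 ψ g : Matrix (Fin 1) (Fin 1) ℚ_[2]) *ᵥ v =
      fun i => ((((ψ g : ℤ_[2]ˣ) : ℤ_[2]) : ℚ_[2])) * v i := by
  rw [r1_apply, Matrix.smul_mulVec, Matrix.one_mulVec]
  rfl

theorem continuous_r1 [TopologicalSpace G] {ψ : G →* ℤ_[2]ˣ} (h : Continuous ψ) :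
    Continuous (r1 ψ) := by
  have h1 : Continuous (Units.map ((PadicInt.Coe.ringHom (p := 2)) : ℤ_[2] →* ℚ_[2])) :=
    Continuous.units_map _ continuous_subtype_val
  have h2 : Continuous (Units.map ((Matrix.scalar (Fin 1) :
      ℚ_[2] →+* Matrix (Fin 1) (Fin 1) ℚ_[2]) : ℚ_[2] →* Matrix (Fin 1) (Fin 1) ℚ_[2])) := by
    refine Continuous.units_map _ ?_
    exact Continuous.matrix_diagonal (continuous_pi fun _ => continuous_id)
  exact h2.comp (h1.comp h)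

theorem resUni_of {L : Type} [NormedField L] (V : G →* GL (Fin 1) L)
    (h : ∀ g, ‖1 - (V g : Matrix (Fin 1) (Fin 1) L) 0 0‖ < 1) : BKPar.ResUni V := by
  intro g i
  have h1 : (V g : Matrix (Fin 1) (Fin 1) L).charpoly - (Polynomial.X - 1) ^ 1 =
      Polynomial.C (1 - (V g : Matrix (Fin 1) (Fin 1) L) 0 0) := by
    rw [Matrix.charpoly, Matrix.det_unique, pow_one, Fin.default_eq_zero,
      Matrix.charmatrix_apply_eq]
    rw [_root_.map_sub, _root_.map_one]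
    ring
  rw [h1, Polynomial.coeff_C]
  split_ifs
  · exact h g
  · simp

theorem norm_one_sub_unit (u : ℤ_[2]ˣ) : ‖(1 : ℚ_[2]) - ((u : ℤ_[2]) : ℚ_[2])‖ < 1 := by
  have h1 : (1 : ℚ_[2]) - ((u : ℤ_[2]) : ℚ_[2]) = ((1 - (u : ℤ_[2]) : ℤ_[2]) : ℚ_[2]) := by
    push_cast
    rfl
  rw [h1, ← PadicInt.norm_def]
  have h2 : PadicInt.toZMod (1 - (u : ℤ_[2])) = (0 : ZMod 2) := by
    rw [map_sub, map_one]
    have h3 : IsUnit (PadicInt.toZMod (u : ℤ_[2]) : ZMod 2) := u.isUnit.map _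
    have h4 : ∀ x : ZMod 2, IsUnit x → 1 - x = 0 := by decide
    exact h4 _ h3
  rw [PadicInt.norm_lt_one_iff_dvd]
  rw [← RingHom.mem_ker, PadicInt.ker_toZMod, PadicInt.maximalIdeal_eq_span_p,
    Ideal.mem_span_singleton] at h2
  exact h2

theorem resUni_r1 (ψ : G →* ℤ_[2]ˣ) : BKPar.ResUni (r1 ψ) := by
  refine resUni_of _ fun g => ?_
  rw [r1_apply]
  simpa using norm_one_sub_unit (ψ g)

theorem resUni_one {L : Type} [NormedField L] : BKPar.ResUni (1 : G →* GL (Fin 1) L) := by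
  refine resUni_of _ fun g => ?_
  simp

end Rep

/-! ### Eighth roots of unity -/

/-- an automorphism which acts on the eighth roots of unity by the fifth power moves `√2` -/
theorem move_sqrt_two {Ω : Type} [Field Ω] [CharZero Ω] {g : Ω → Ω}
    (hadd : ∀ a b, g (a + b) = g a + g b) (hneg : ∀ a, g (-a) = -g a)
    (hinv : ∀ a, g a⁻¹ = (g a)⁻¹) {w y : Ω} (hw : IsPrimitiveRoot w 8) (hy : y ^ 2 = 2)
    (hg : g w = w ^ 5) : g y = -y := by
  have h0 : w ≠ 0 := hw.ne_zero (by norm_num)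
  have h4 : w ^ 4 = -1 := by
    have h8 : w ^ 8 = 1 := hw.pow_eq_one
    have h1 : (w ^ 4 - 1) * (w ^ 4 + 1) = 0 := by linear_combination h8
    rcases mul_eq_zero.1 h1 with h2 | h2
    · exact absurd (sub_eq_zero.1 h2) (hw.pow_ne_one_of_pos_of_lt (by norm_num) (by norm_num))
    · exact eq_neg_of_add_eq_zero_left h2
  have hwi : w⁻¹ = -w ^ 3 := by
    apply inv_eq_of_mul_eq_one_right
    linear_combination -h4
  have hsq : (w + w⁻¹) ^ 2 = 2 := by
    rw [hwi]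
    linear_combination (w ^ 2 - 2) * h4
  have hgw : g (w + w⁻¹) = -(w + w⁻¹) := by
    rw [hadd, hinv, hg, ← inv_pow, hwi]
    linear_combination (w - w ^ 3 * (w ^ 8 - w ^ 4 + 1)) * h4
  have h5 : y ^ 2 = (w + w⁻¹) ^ 2 := by rw [hy, hsq]
  rcases sq_eq_sq_iff_eq_or_eq_neg.1 h5 with h6 | h6
  · rw [h6]
    exact hgw
  · rw [h6, hneg, hgw]

/-! ### Elements of the decomposition group -/

section Loc

variable {q : ℕ} {F : Type} [Field F] [NumberField F] {s : F}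

/-- The cyclotomic character of the decomposition group is surjective. -/
theorem exists_cyc (hq : BKPar.FieldHyp q F s) (e : AlgebraicClosure F →+* PadicAlgCl 2)
    (u : ℤ_[2]ˣ) : ∃ g : BKPar.D F e, cycF 2 F (g : GF F) = u := by
  obtain ⟨j, hj⟩ := BKPar.exists_embedding hq e
  obtain ⟨r, hr, hr'⟩ := BKGlob2.HPL.exists_map j e (fun x => (hj x).symm)
  obtain ⟨t, ht⟩ := BKLoc2.stCyP 2 u
  have h1 : BKGlob.Cpt (F := F) (Ω := AlgebraicClosure F) e (r t) t := fun x => hr' t x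
  refine ⟨⟨r t, h1.mem_dec⟩, ?_⟩
  have h2 := (BKGlob2.stCY 2 F (AlgebraicClosure F) ℚ_[2] (PadicAlgCl 2)).2 e (r t) t (hr' t)
  exact h2.trans ht

/-- The Kummer cocycle of `2` is not trivial. -/
theorem exists_class (hq : BKPar.FieldHyp q F s) (e : AlgebraicClosure F →+* PadicAlgCl 2) :
    ∃ y ∈ BKPar.Z1 ((r1 (cycF 2 F)).comp (BKPar.D F e).subtype),
      y ∉ BKPar.B1 ((r1 (cycF 2 F)).comp (BKPar.D F e).subtype) := by
  obtain ⟨z, hz⟩ := (BKGlob2.stCY 2 F (AlgebraicClosure F) F (AlgebraicClosure F)).1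
  obtain ⟨h1, h2, h3, h4, -, -⟩ := BKLoc2.stKPE 2 F (AlgebraicClosure F) (BKPar.D F e)
    (BKPar.D F e).subtype continuous_subtype_val z hz
  obtain ⟨κ, hκ⟩ := h3 2 two_ne_zero (fun v => map_ofNat _ _)
  obtain ⟨hκc, hκm⟩ := h4 2 κ two_ne_zero hκ
  obtain ⟨y, hy0, hy, hyκ⟩ := hκ
  refine ⟨fun g _ => (κ g : ℚ_[2]), ⟨?_, fun g h => ?_⟩, ?_⟩
  · exact continuous_pi fun _ => continuous_subtype_val.comp hκc
  · rw [MonoidHom.comp_apply, r1_mulVec]
    funext i
    have h5 := congrArg (fun a : ℤ_[2] => (a : ℚ_[2])) (hκm g h)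
    simp only [PadicInt.coe_add, PadicInt.coe_mul] at h5
    exact h5
  · rintro ⟨v, hv⟩
    have h5 : ∀ g : BKPar.D F e, (κ g : ℚ_[2]) =
        (((cycF 2 F (g : GF F) : ℤ_[2]ˣ) : ℤ_[2]) : ℚ_[2]) * v 0 - v 0 := by
      intro g
      have h6 := congrFun (congrFun hv g) 0
      change (((r1 (cycF 2 F) (g : GF F) : GL (Fin 1) ℚ_[2]) :
        Matrix (Fin 1) (Fin 1) ℚ_[2]) *ᵥ v - v) 0 = (κ g : ℚ_[2]) at h6
      rw [← h6, r1_mulVec]
      rfl
    obtain ⟨h, hh⟩ := exists_cyc hq e (-1)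
    have hu5 : IsUnit (5 : ℤ_[2]) := by
      rw [PadicInt.isUnit_iff]
      exact_mod_cast (PadicInt.norm_natCast_eq_one_iff (p := 2) (n := 5)).2 (by norm_num)
    obtain ⟨g, hg⟩ := exists_cyc hq e hu5.unit
    have hκh := h5 h
    have hκg := h5 g
    rw [hh] at hκh
    rw [hg, IsUnit.unit_spec] at hκg
    have h7 : κ g = 2 * (-κ h) := by
      apply Subtype.coe_injective
      change (κ g : ℚ_[2]) = ((2 * (-κ h) : ℤ_[2]) : ℚ_[2])
      rw [Units.val_neg, Units.val_one] at hκh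
      push_cast at hκh hκg ⊢
      have h5' : ((5 : ℤ_[2]) : ℚ_[2]) = 5 := rfl
      have h2' : ((2 : ℤ_[2]) : ℚ_[2]) = 2 := rfl
      rw [h5'] at hκg
      rw [h2']
      linear_combination hκg + 2 * hκh
    have h8 : PadicInt.toZModPow (p := 2) 1 (κ g) = 0 := by
      rw [h7, map_mul, map_ofNat]
      have : (2 : ZMod (2 ^ 1)) = 0 := by decide
      rw [this, zero_mul]
    have h9 := hyκ 1 g
    rw [h8, ZMod.val_zero, pow_zero, one_mul] at h9
    have h10 := h2 3 g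
    have h11 : cy 2 F (AlgebraicClosure F) ((BKPar.D F e).subtype g) = hu5.unit := hg
    have h12 : (PadicInt.toZModPow (p := 2) 3 (5 : ℤ_[2])).val = 5 := by
      rw [map_ofNat]
      rfl
    rw [h11, IsUnit.unit_spec, h12] at h10
    have h13 := move_sqrt_two (g := (BKPar.D F e).subtype g) (fun a b => map_add _ a b)
      (fun a => map_neg _ a) (fun a => map_inv₀ _ a) (hz.prim 3) ((hy 0).trans hy0) h10
    rw [h9] at h13
    have h14 : (2 : AlgebraicClosure F) * y 1 = 0 := by linear_combination h13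
    have h15 : y 1 = 0 := (mul_eq_zero.1 h14).resolve_left two_ne_zero
    have h16 := hy 0
    rw [zero_add, h15, hy0] at h16
    norm_num at h16

/-- A cup product which is not trivial. -/
theorem exists_cup (hq : BKPar.FieldHyp q F s) (e : AlgebraicClosure F →+* PadicAlgCl 2) :
    ∃ x ∈ BKPar.Z1 (1 : BKPar.D F e →* GL (Fin 1) ℚ_[2]),
    ∃ y ∈ BKPar.Z1 ((r1 (cycF 2 F)).comp (BKPar.D F e).subtype),
      (fun g h : BKPar.D F e => x g 0 *
        ((((cycF 2 F (g : GF F) : ℤ_[2]ˣ) : ℤ_[2]) : ℚ_[2]) * y h 0)) ∉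
        CC.B2 (chL ((cycF 2 F).comp (BKPar.D F e).subtype) ℚ_[2]) := by
  obtain ⟨y, hy, hyB⟩ := exists_class hq e
  have hc : Continuous ((r1 (cycF 2 F)).comp (BKPar.D F e).subtype) :=
    (continuous_r1 (BKPar.stCycR BKPar.stAdm (BKPar.stSq BKPar.stAdm) F).1).comp
      continuous_subtype_val
  have hfin := (BKND.final q F s hq e ℚ_[2] 1 1 ((r1 (cycF 2 F)).comp (BKPar.D F e).subtype)
    continuous_const hc resUni_one (resUni_r1 ((cycF 2 F).comp (BKPar.D F e).subtype)) ?_ ?_).2.2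
    y hy
  · by_contra hcon
    push Not at hcon
    apply hyB
    apply hfin
    intro x hx
    rw [BKGlob.mem_CB2_iff]
    have h1 := hcon x hx y hy
    have h2 : (fun g h : BKPar.D F e => x g ⬝ᵥ
        (((r1 (cycF 2 F)).comp (BKPar.D F e).subtype) g : Matrix (Fin 1) (Fin 1) ℚ_[2]) *ᵥ y h) =
        (fun g h : BKPar.D F e => x g 0 *
        ((((cycF 2 F (g : GF F) : ℤ_[2]ˣ) : ℤ_[2]) : ℚ_[2]) * y h 0)) := by
      funext g h
      rw [MonoidHom.comp_apply, r1_mulVec, dotProduct, Finset.univ_unique, Finset.sum_singleton]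
      rfl
    rw [h2]
    exact h1
  · intro g
    rw [MonoidHom.comp_apply, r1_apply, MonoidHom.one_apply, Units.val_one, Matrix.transpose_one,
      Matrix.one_mul]
    rfl
  · intro v hv
    obtain ⟨g, hg⟩ := exists_cyc hq e (-1)
    have h1 := hv g
    rw [MonoidHom.comp_apply, r1_mulVec] at h1
    funext i
    have h2 := congrFun h1 i
    change (((cycF 2 F (g : GF F) : ℤ_[2]ˣ) : ℤ_[2]) : ℚ_[2]) * v i = v i at h2
    rw [hg, Units.val_neg, Units.val_one] at h2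
    push_cast at h2
    have h3 : (2 : ℚ_[2]) * v i = 0 := by linear_combination -h2
    exact (mul_eq_zero.1 h3).resolve_left two_ne_zero

/-- Complex conjugation induces an automorphism of `F`. -/
theorem exists_sig (hq : BKPar.FieldHyp q F s) {c₀ : AlgebraicClosure F ≃+* AlgebraicClosure F}
    {cc : GF F →* GF F} (hcc : CC0 c₀ cc) : ∃ (σ : F ≃+* F) (hcs : BKPar.ConjHyp s c₀ σ),
      cc = BKPar.conj c₀ σ hcs.h := by
  obtain ⟨σ, hσ⟩ := BKGlob2.CJAux.exists_sig hq.hF c₀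
  have h1 : σ s = -s := by
    have h2 : (σ s) ^ 2 = s ^ 2 := by
      rw [← map_pow, hq.hs, map_neg, map_natCast]
    rcases sq_eq_sq_iff_eq_or_eq_neg.1 h2 with h3 | h3
    · exfalso
      obtain ⟨a, ha⟩ := hcc.conj.2
      apply ha
      rw [hσ]
      congr 1
      obtain ⟨b, c, rfl⟩ := exists_coords hq.hq0 hq.hF hq.hs a
      rw [map_add, map_mul, h3, map_ratCast, map_ratCast]
    · exact h3
  refine ⟨(σ : F ≃+* F), ⟨hσ, h1, hcc.conj.1⟩, ?_⟩
  ext g x
  obtain ⟨z, rfl⟩ := c₀.surjective x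
  rw [hcc.eq g z]
  change c₀ (g z) = c₀ (g (c₀.symm (c₀ z)))
  rw [RingEquiv.symm_apply_apply]

end Loc

end Z1EAux

open Z1EAux in
/-- Module Z1E. -/
theorem stZ1E : StZ1E := by
  intro q F _ _ s hq c₀ cc hcc e
  obtain ⟨x, hx, y, hy, hxy⟩ := exists_cup hq e
  obtain ⟨σ, hcs, rfl⟩ := exists_sig hq hcc
  have hadm := BKPar.stAdm F
  have hR : (BKPar.R F).Normal := hadm.1
  obtain ⟨hχc, hχR⟩ := BKPar.stCycR BKPar.stAdm (BKPar.stSq BKPar.stAdm) F
  obtain ⟨-, -, hloc, -, -⟩ := BKPar.count' q F s hq e hR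
  have hext := BKPar.stExt (AbsGal F) (BKPar.R F) (BKPar.D F e) hR hadm.2.1
    (BKPar.isClosed_D F e) (BKPar.stDR BKPar.stAdm q F s hq e) hloc ℚ_[2]
    (BKPar.norm_two_lt ℚ_[2]) 1
  obtain ⟨X, hX, hXR, hXx⟩ := hext 1 continuous_const resUni_one (fun r _ => rfl) x hx
  obtain ⟨Y, hY, hYR, hYy⟩ := hext (r1 (cycF 2 F)) (continuous_r1 hχc) (resUni_r1 _)
    (fun r hr => by
      have h1 : cycF 2 F r = 1 := hχR r hr
      apply Units.ext
      rw [r1_apply, h1]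
      simp) y hy
  have hXm : ∀ g h, X (g * h) 0 = X g 0 + X h 0 := by
    intro g h
    rw [hX.2 g h, MonoidHom.one_apply, Units.val_one, Matrix.one_mulVec]
    rfl
  have hYm : ∀ g h, Y (g * h) 0 = Y g 0 +
      (((cycF 2 F g : ℤ_[2]ˣ) : ℤ_[2]) : ℚ_[2]) * Y h 0 := by
    intro g h
    rw [hY.2 g h, r1_mulVec]
    rfl
  set c : GF F → ℚ_[2] := fun g => (((cycF 2 F g : ℤ_[2]ˣ) : ℤ_[2]) : ℚ_[2]) with hc
  have hcm : ∀ g h, c (g * h) = c g * c h := by
    intro g h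
    simp only [hc, map_mul, Units.val_mul, PadicInt.coe_mul]
  have hcv : Continuous (fun g : GF F => ((cycF 2 F g : ℤ_[2]ˣ) : ℤ_[2])) :=
    Units.continuous_val.comp hχc
  have hcc' : Continuous c := continuous_subtype_val.comp hcv
  have hcR : ∀ r ∈ BKPar.R F, c r = 1 := by
    intro r hr
    have h1 : cycF 2 F r = 1 := hχR r hr
    simp only [hc, h1, Units.val_one, PadicInt.coe_one]
  have hcont : Continuous (fun p : GF F × GF F => X p.1 0 * (c p.1 * Y p.2 0)) := by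
    have h1 : Continuous fun g => X g 0 := (continuous_apply 0).comp hX.1
    have h2 : Continuous fun g => Y g 0 := (continuous_apply 0).comp hY.1
    exact (h1.comp continuous_fst).mul ((hcc'.comp continuous_fst).mul (h2.comp continuous_snd))
  have hinv : ∀ g h : GF F, ∀ r ∈ BKPar.R F, ∀ r' ∈ BKPar.R F,
      X (g * r) 0 * (c (g * r) * Y (h * r') 0) = X g 0 * (c g * Y h 0) := by
    intro g h r hr r' hr'
    rw [hXm, hYm, hXR r hr, hYR r' hr', hcm, hcR r hr]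
    simp
  refine ⟨fun g h => X g 0 * (c g * Y h 0), ⟨hcont, ?_⟩, hinv, ?_, ?_⟩
  · intro g h k
    have h1 : chL (cycF 2 F) ℚ_[2] g = c g := rfl
    simp only [h1, hXm, hYm, hcm]
    change c g * (X h 0 * (c h * Y k 0)) + X g 0 * (c g * (Y h 0 + c h * Y k 0)) =
      (X g 0 + X h 0) * (c g * c h * Y k 0) + X g 0 * (c g * Y h 0)
    ring
  · intro hB
    apply hxy
    have h1 := ((stBRI F e).2.2 ℚ_[2] (chL (cycF 2 F) ℚ_[2])
      (fun g h => X g 0 * (c g * Y h 0))).1 hB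
    have h2 : (fun g h : BKPar.D F e => X (g : GF F) 0 * (c g * Y (h : GF F) 0)) =
        fun g h : BKPar.D F e => x g 0 *
        ((((cycF 2 F (g : GF F) : ℤ_[2]ˣ) : ℤ_[2]) : ℚ_[2]) * y h 0) := by
      funext g h
      rw [hXx g, hYy h]
    rw [← h2]
    exact h1
  · have h1 := (BKPar.h2part BKPar.stAdm (BKPar.stLine BKPar.stShapiro
      (BKPar.stGysin BKPar.stShapiro)) BKPar.stLift (BKPar.stSq BKPar.stAdm) BKPar.count'
      (BKPar.stConj BKPar.stAdm) (BKPar.stCycR BKPar.stAdm (BKPar.stSq BKPar.stAdm))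
      (BKPar.stCyc BKPar.stAdm (BKPar.stSq BKPar.stAdm)) hq e c₀ σ hcs ℚ_[2]).2
      (fun g h => X g 0 * (c g * Y h 0)) ?_ hinv
    · exact (BKGlob.mem_CB2_iff _ _).1 h1
    · refine ⟨hcont, fun g h k => ?_⟩
      have h1 : BKPar.chi (BKPar.cyc F) ℚ_[2] g = c g := rfl
      simp only [h1, hXm, hYm, hcm]
      change c g * (X h 0 * (c h * Y k 0)) - (X g 0 + X h 0) * (c g * c h * Y k 0) +
        X g 0 * (c g * (Y h 0 + c h * Y k 0)) - X g 0 * (c g * Y h 0) = 0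
      ring

end BKR
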