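import Pool.Agent.Lib.MP_7c08ba_nt.Met.GEG
import Pool.Agent.Lib.MP_7c08ba_nt.Met.GHerb
import Pool.Agent.Lib.MP_7c08ba_nt.Met.GLA
import Pool.Agent.Lib.MP_7c08ba_nt.Met.GLB
import Pool.Agent.Lib.MP_7c08ba_nt.Met.GLD
import Pool.Agent.Lib.MP_7c08ba_nt.Met.GLE
import Pool.Agent.Lib.MP_7c08ba_nt.Met.GNA1
import Pool.Agent.Lib.MP_7c08ba_nt.Met.GNA2
import Pool.Agent.Lib.MP_7c08ba_nt.Met.GNA3
import Pool.Agent.Lib.MP_7c08ba_nt.Met.GNA4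
import Pool.Agent.Lib.MP_7c08ba_nt.Met.GPA
import Pool.Agent.Lib.MP_7c08ba_nt.Met.GPB
import Pool.Agent.Lib.MP_7c08ba_nt.Met.GPC
import Pool.Agent.Lib.MP_7c08ba_nt.Met.GPD
import Pool.Agent.Lib.MP_7c08ba_nt.Met.GSA
import Pool.Agent.Lib.MP_7c08ba_nt.Met.HCDO
import Pool.Agent.Lib.MP_7c08ba_nt.Met.HCP
import Pool.Agent.Lib.MP_7c08ba_nt.Met.HCY
import Pool.Agent.Lib.MP_7c08ba_nt.Met.HFRB
import Pool.Agent.Lib.MP_7c08ba_nt.Met.LKPE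
import Pool.Agent.Lib.MP_7c08ba_nt.Met.LPA
import Pool.Agent.Lib.MP_7c08ba_nt.Met.LZ1A
import Pool.Agent.Lib.MP_7c08ba_nt.Met.LLST
import Pool.Agent.Lib.MP_7c08ba_nt.Met.LNT
import Pool.Agent.Lib.MP_7c08ba_nt.Met.LLNX
import Pool.Agent.Lib.MP_7c08ba_nt.Met.HCJ
import Pool.Agent.Lib.MP_7c08ba_nt.Met.HFR
import Pool.Agent.Lib.MP_7c08ba_nt.R1.GEA
import Pool.Agent.Lib.MP_7c08ba_nt.R1.GEB
import Pool.Agent.Lib.MP_7c08ba_nt.R1.GEC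
import Pool.Agent.Lib.MP_7c08ba_nt.R1.GED
import Pool.Agent.Lib.MP_7c08ba_nt.R1.GEE
import Pool.Agent.Lib.MP_7c08ba_nt.R1.GEF
import Pool.Agent.Lib.MP_7c08ba_nt.R1.GFF
import Pool.Agent.Lib.MP_7c08ba_nt.R1.GFI
import Pool.Agent.Lib.MP_7c08ba_nt.R1.GFP
import Pool.Agent.Lib.MP_7c08ba_nt.R1.GFS
import Pool.Agent.Lib.MP_7c08ba_nt.R1.GFT
import Pool.Agent.Lib.MP_7c08ba_nt.R1.GHN
import Pool.Agent.Lib.MP_7c08ba_nt.R1.GSB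
import Pool.Agent.Lib.MP_7c08ba_nt.R1.HCHT2
import Pool.Agent.Lib.MP_7c08ba_nt.R1.HCVF
import Pool.Agent.Lib.MP_7c08ba_nt.R1.HH1N
import Pool.Agent.Lib.MP_7c08ba_nt.R1.HHP2
import Pool.Agent.Lib.MP_7c08ba_nt.R1.HLAM2
import Pool.Agent.Lib.MP_7c08ba_nt.R1.HLNX2
import Pool.Agent.Lib.MP_7c08ba_nt.R1.HOPR
import Pool.Agent.Lib.MP_7c08ba_nt.R1.HRA2
import Pool.Agent.Lib.MP_7c08ba_nt.R1.HTW2
import Pool.Agent.Lib.MP_7c08ba_nt.R1.HUN2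
import Pool.Agent.Lib.MP_7c08ba_nt.R1.NBRI
import Pool.Agent.Lib.MP_7c08ba_nt.R1.NDUA
import Pool.Agent.Lib.MP_7c08ba_nt.R1.NEUN
import Pool.Agent.Lib.MP_7c08ba_nt.R1.NLOQ
import Pool.Agent.Lib.MP_7c08ba_nt.R1.NNSP
import Pool.Agent.Lib.MP_7c08ba_nt.R1.NRCQ
import Pool.Agent.Lib.MP_7c08ba_nt.R1.NVAN
import Pool.Agent.Lib.MP_7c08ba_nt.R1.GEX
import Pool.Agent.Lib.MP_7c08ba_nt.R1.HKIL2
import Pool.Agent.Lib.MP_7c08ba_nt.R1.HHQ2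
import Pool.Agent.Lib.MP_7c08ba_nt.R1.HR2
import Pool.Agent.Lib.MP_7c08ba_nt.R1.HRQ2
import Pool.Agent.Lib.MP_7c08ba_nt.R1.HH2N
import Pool.Agent.Lib.MP_7c08ba_nt.R1.NTAM
import Pool.Agent.Lib.MP_7c08ba_nt.R1.NNIN
import Pool.Agent.Lib.MP_7c08ba_nt.R1.NZ1E
import Pool.Agent.Lib.MP_7c08ba_nt.R1.NISO
import Pool.Agent.Lib.MP_7c08ba_nt.R1.FinC
import Pool.Agent.Lib.MP_7c08ba_nt.Met.HLN
import Pool.Agent.Lib.MP_7c08ba_nt.Met.HNB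
import Pool.Agent.Lib.MP_7c08ba_nt.Met.HTI

set_option autoImplicit false

/-!
Selmer groups of dimension one: assembly of the modules.
-/

noncomputable section

namespace BKR

namespace All

theorem ns1 : BKGlob2.StPC := BKGlob2.stPC BKGlob2.stPA BKGlob2.stLA
theorem lb : BKGlob2.StLB := BKGlob2.stLB BKGlob2.stNA3 (BKLoc2.stNT BKLoc2.stLsT)
theorem eg : BKGlob2.StEG := BKGlob2.stEG BKGlob2.stSA
theorem pd : BKGlob2.StPD := BKGlob2.stPD BKGlob2.stLE BKGlob2.stPB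
theorem nb : BKGlob2.StNB := BKGlob2.stNB BKGlob2.stNA3
theorem ln : BKGlob2.StLN := BKGlob2.stLN BKGlob2.stCP nb BKGlob2.stNA1
theorem z1a : BKLoc2.StZ1A := BKLoc2.stZ1A BKLoc2.stKPE
theorem ti : BKGlob2.StTI := BKGlob2.stTI (BKOdd.stKum BKOdd.stH90)

theorem eb : StEB := stEB BKGlob2.stPA stEA
theorem ec : StEC := stEC BKGlob2.stPA stEA
theorem ee : StEE := stEE BKGlob2.stHerb stSB stEA eb ec stED
theorem ef : StEF := stEF stEA eb ec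
theorem fi : StFI := stFI ee stEX lb BKGlob2.stNA1 BKGlob2.stNA3 BKGlob2.stNA4
theorem ff : StFF := stFF fi ef eg stEX pd BKGlob2.stNA2 BKGlob2.stNA3 BKGlob2.stNA4
theorem ft : StFT := stFT ff stEA stEX BKGlob2.stLD BKGlob2.stPA BKGlob2.stPB stSB
theorem fp : StFP := stFP fi BKGlob2.stNA1 BKGlob2.stNA2 BKGlob2.stPB BKGlob2.stSA
theorem fs : StFS := stFS ef fp ft BKGlob2.stNA2 BKGlob2.stNA3 BKGlob2.stNA4 ns1 stSB
theorem hn : StHN :=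
  stHN ee eg stEX fs lb BKGlob2.stPB BKGlob2.stNA1 BKGlob2.stNA3 BKGlob2.stNA4

theorem hq2 : StHQ2 := stHQ2 ln hn nb BKGlob2.stCP
theorem hp2 : StHP2 := stHP2 hq2
theorem lnx2 : StLNX2 := stLNX2 stCHT2 BKLoc2.LNXAux.chain
theorem kil2 : StKIL2 := stKIL2 lnx2 stCHT2 BKLoc2.LNXAux.chain
theorem un2 : StUN2 := stUN2 BKGlob2.stCDO BKGlob2.stFRB BKGlob2.stCP stLAM2
theorem rq2 : StRQ2 := stRQ2 BKGlob2.stFR ti BKGlob2.stPA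
theorem cvf : StCVF := stCVF BKGlob2.stPA
theorem r2 : StR2 := stR2 hp2 kil2 BKGlob2.stCP
theorem ra2 : StRA2 := stRA2 r2 BKGlob2.stCP BKGlob2.stCY BKLoc2.stPA z1a
theorem tw2 : StTW2 := stTW2 r2 rq2 un2
theorem h1n : StH1N := stH1N stSB
theorem h2n : StH2N := stH2N tw2 lnx2 BKGlob2.stCP cvf
theorem tam : StTAM := stTAM z1a
theorem van : StVAN := stVAN tam BKGlob2.stFRB BKGlob2.stCP BKGlob2.stCY BKLoc2.stKPE
theorem loq : StLOQ := stLOQ lnx2 BKLoc2.stPA z1a BKLoc2.stKPE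
theorem rcq : StRCQ := stRCQ ra2 stZ1E loq un2 BKGlob2.stCP BKGlob2.stCY
theorem iso : StISO := stISO rcq un2

end All

/-- **The Selmer groups of dimension one**, without hypotheses. -/
theorem stOne' : StOne :=
  stOne stOPR All.h1n All.h2n stEUN All.van stNIN stNSP All.iso stBRI stDUA

end BKR
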