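import Pool.Agent.Lib.MP_7c08ba_nt.R1.GSt
import Pool.Agent.Lib.MP_7c08ba_nt.Met.GSB

set_option autoImplicit false

/-!
Project R1, module SB: the group of `S`-units of a totally complex field with a primitive `p`-th
root of unity.
-/

namespace BKR

open NumberField IsDedekindDomain Polynomial BKGen BKGen.SUnits

/-- Module SB: the group of `S`-units of a totally complex field with a primitive `p`-th root of
unity. -/
theorem stSB : StSB := by
  intro p hp E _ _ hK ζ hζ S
  have hfact : Fact p.Prime := ⟨hp⟩
  have hr := rank_of_isEmpty E hK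
  have hS : Nat.card ((S : Set (HeightOneSpectrum (𝓞 E)))) = S.card := by
    rw [Nat.card_coe_set_eq, Set.ncard_coe_finset]
  have hF : Finite ((S : Set (HeightOneSpectrum (𝓞 E)))) := inferInstance
  refine ⟨finite_sunits E _, ?_, ?_, BKGlob2.SBAux.two_dvd hK⟩
  · rw [finrank_sunits, hS]
    omega
  · have h := card_sunits E p hζ (S : Set (HeightOneSpectrum (𝓞 E)))
    rw [hS] at h
    rw [Subgroup.index, h]
    congr 1
    omega

end BKR
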