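import Pool.Agent.Lib.MP_7c08ba_nt.Met.GStmts

set_option autoImplicit false

/-!
The Hasse norm theorem for Kummer extensions of prime degree `p` of totally complex number fields,
`p = 2` included: statements of the modules (copies of the statements in `Met/GStmts.lean`, with the
hypothesis `p ≠ 2` replaced by the hypothesis that the field has no real embedding).
-/

noncomputable section

namespace BKR

open NumberField IsDedekindDomain Polynomial BKGen BKGen.SUnits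
open BKGlob2 (IsPw Nm Pw toC toU chr emb kv loc Prin UPw diag PS Over Above nrm)

/-- Module SB: the group of `S`-units of a totally complex field with a primitive `p`-th root of
unity. -/
def StSB : Prop :=
  ∀ (p : ℕ), p.Prime → ∀ (E : Type) [Field E] [NumberField E], IsEmpty (E →+* ℝ) → ∀ (ζ : E),
    IsPrimitiveRoot ζ p → ∀ S : Finset (HeightOneSpectrum (𝓞 E)),
    Module.Finite ℤ (Additive ((S : Set (HeightOneSpectrum (𝓞 E))).unit E)) ∧
    Module.finrank ℤ (Additive ((S : Set (HeightOneSpectrum (𝓞 E))).unit E)) + 1 =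
      Module.finrank ℚ E / 2 + S.card ∧
    (powMonoidHom p : (S : Set (HeightOneSpectrum (𝓞 E))).unit E →*
      (S : Set (HeightOneSpectrum (𝓞 E))).unit E).range.index =
        p ^ (Module.finrank ℚ E / 2 + S.card) ∧
    2 ∣ Module.finrank ℚ E

/-! ### Kummer extensions of number fields -/

section Ext

variable {E N : Type} [Field E] [NumberField E] [Field N] [NumberField N] [Algebra E N]

/-- `N = E(α)`, `α ^ p = a`, `a` is not a `p`-th power in the totally complex field `E`, which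
contains the primitive `p`-th root of unity `ζ` -/
structure Kum (p : ℕ) (ζ : E) (a : Eˣ) (α : N) : Prop where
  prime : p.Prime
  imag : IsEmpty (E →+* ℝ)
  root : IsPrimitiveRoot ζ p
  notpw : ¬ IsPw p (a : E)
  pow : α ^ p = algebraMap E N (a : E)
  top : IntermediateField.adjoin E {α} = ⊤

end Ext

/-- Module EX: existence of the Kummer extension. -/
def StEX : Prop :=
  ∀ (p : ℕ), p.Prime → ∀ (E : Type) [Field E] [NumberField E], IsEmpty (E →+* ℝ) → ∀ (ζ : E),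
    IsPrimitiveRoot ζ p → ∀ a : Eˣ, ¬ IsPw p (a : E) →
    ∃ (N : Type) (_ : Field N) (_ : NumberField N) (_ : Algebra E N) (α : N), Kum p ζ a α

/-- Module EA: the Galois group. -/
def StEA : Prop :=
  ∀ (p : ℕ) (E N : Type) [Field E] [NumberField E] [Field N] [NumberField N] [Algebra E N]
    (ζ : E) (a : Eˣ) (α : N), Kum p ζ a α →
    IsGalois E N ∧ Module.finrank E N = p ∧
    (∃ σ : N ≃ₐ[E] N, σ α = algebraMap E N ζ * α ∧ (∀ τ : N ≃ₐ[E] N, ∃ i < p, τ = σ ^ i) ∧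
      σ ^ p = 1) ∧
    ∀ c : E, IsPw p (algebraMap E N c) → ∃ (i : ℕ) (d : E), c = (a : E) ^ i * d ^ p

/-- Module EB: the number of primes above a prime. -/
def StEB : Prop :=
  ∀ (p : ℕ) (E N : Type) [Field E] [NumberField E] [Field N] [NumberField N] [Algebra E N]
    (ζ : E) (a : Eˣ) (α : N), Kum p ζ a α → ∀ v : HeightOneSpectrum (𝓞 E),
    (IsPw p ((loc v a : (kv v)ˣ) : kv v) → Nat.card {w : HeightOneSpectrum (𝓞 N) // Over v w} = p) ∧
    (¬ IsPw p ((loc v a : (kv v)ˣ) : kv v) →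
      Nat.card {w : HeightOneSpectrum (𝓞 N) // Over v w} = 1)

/-- Module EC: unramified primes. -/
def StEC : Prop :=
  ∀ (p : ℕ) (E N : Type) [Field E] [NumberField E] [Field N] [NumberField N] [Algebra E N]
    (ζ : E) (a : Eˣ) (α : N), Kum p ζ a α → ∀ v : HeightOneSpectrum (𝓞 E),
    (IsPw p ((loc v a : (kv v)ˣ) : kv v) ∨ (p : 𝓞 E) ∉ v.asIdeal ∧ UPw p v a) →
    ∀ w : HeightOneSpectrum (𝓞 N), Over v w → ∀ x : E,
      w.valuation N (algebraMap E N x) = v.valuation E x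

/-- Module ED: the first cohomology of the `S`-units. -/
def StED : Prop :=
  ∀ (p : ℕ) (E N : Type) [Field E] [NumberField E] [Field N] [NumberField N] [Algebra E N]
    (ζ : E) (a : Eˣ) (α : N), Kum p ζ a α → ∀ (S : Set (HeightOneSpectrum (𝓞 E))), Prin S →
    (∀ v ∉ S, ∀ w : HeightOneSpectrum (𝓞 N), Over v w → ∀ x : E,
      w.valuation N (algebraMap E N x) = v.valuation E x) →
    ∀ σ : N ≃ₐ[E] N, (∀ τ : N ≃ₐ[E] N, ∃ i < p, τ = σ ^ i) →
    ∀ u ∈ (Above N S).unit N, nrm E N u = 1 →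
      ∃ y ∈ (Above N S).unit N, u * y = Units.map (σ : N →* N) y

/-- Module EE: the number of `S`-units modulo norms of `S`-units (from HERB, SB, EA, EB, EC,
ED). -/
def StEE : Prop :=
  ∀ (p : ℕ) (E N : Type) [Field E] [NumberField E] [Field N] [NumberField N] [Algebra E N]
    (ζ : E) (a : Eˣ) (α : N), Kum p ζ a α → ∀ (S : Finset (HeightOneSpectrum (𝓞 E))),
    Prin (S : Set (HeightOneSpectrum (𝓞 E))) →
    (∀ v ∉ S, IsPw p ((loc v a : (kv v)ˣ) : kv v) ∨ (p : 𝓞 E) ∉ v.asIdeal ∧ UPw p v a) →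
    ((((Above N (S : Set (HeightOneSpectrum (𝓞 E)))).unit N).map (nrm E N)).relIndex
      ((S : Set (HeightOneSpectrum (𝓞 E))).unit E)) * p =
      p ^ Nat.card {v : S // ¬ IsPw p ((loc v.1 a : (kv v.1)ˣ) : kv v.1)}

/-- Module EF: `S`-units of `E` and norms. -/
def StEF : Prop :=
  ∀ (p : ℕ) (E N : Type) [Field E] [NumberField E] [Field N] [NumberField N] [Algebra E N]
    (ζ : E) (a : Eˣ) (α : N), Kum p ζ a α → ∀ (S : Finset (HeightOneSpectrum (𝓞 E))),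
    Prin (Above N (S : Set (HeightOneSpectrum (𝓞 E)))) →
    ∀ y : Eˣ, (∀ v ∉ S, v.valuation E (y : E) = 1 ∨ IsPw p ((loc v a : (kv v)ˣ) : kv v)) →
    ∃ u ∈ (S : Set (HeightOneSpectrum (𝓞 E))).unit E, ∃ n : Nˣ, y = u * nrm E N n

/-! ### The two inequalities -/

/-- Module FI, the first inequality (from EE, EX, LB, NA1, NA3, NA4). -/
def StFI : Prop :=
  ∀ (p : ℕ), p.Prime → ∀ (E : Type) [Field E] [NumberField E], IsEmpty (E →+* ℝ) → ∀ (ζ : E),
    IsPrimitiveRoot ζ p → ∀ a : Eˣ, ¬ IsPw p (a : E) →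
    ∀ (S : Finset (HeightOneSpectrum (𝓞 E))), Prin (S : Set (HeightOneSpectrum (𝓞 E))) →
    (∀ v ∉ S, IsPw p ((loc v a : (kv v)ˣ) : kv v) ∨ (p : 𝓞 E) ∉ v.asIdeal ∧ UPw p v a) →
    PS p S a ≠ ⊤

/-- Module FF: an element which is a `p`-th power at almost all places is a `p`-th power (from FI,
EF, EG, EX, PD, NA2, NA3, NA4). -/
def StFF : Prop :=
  ∀ (p : ℕ), p.Prime → ∀ (E : Type) [Field E] [NumberField E], IsEmpty (E →+* ℝ) → ∀ (ζ : E),
    IsPrimitiveRoot ζ p → ∀ (a : Eˣ) (T : Finset (HeightOneSpectrum (𝓞 E))),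
    (∀ v ∉ T, IsPw p ((loc v a : (kv v)ˣ) : kv v)) → IsPw p (a : E)

/-- Module FT: the auxiliary primes (from FF for `E(a^{1/p})`, EA, EX, LD, PA, PB, SB). -/
def StFT : Prop :=
  ∀ (p : ℕ), p.Prime → ∀ (E : Type) [Field E] [NumberField E], IsEmpty (E →+* ℝ) → ∀ (ζ : E),
    IsPrimitiveRoot ζ p → ∀ (S : Finset (HeightOneSpectrum (𝓞 E))),
    (∀ v, (p : 𝓞 E) ∈ v.asIdeal → v ∈ S) →
    ∀ a ∈ (S : Set (HeightOneSpectrum (𝓞 E))).unit E, ¬ IsPw p (a : E) →
    ∃ T : Finset (HeightOneSpectrum (𝓞 E)), Disjoint S T ∧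
      T.card + 1 = Module.finrank ℚ E / 2 + S.card ∧
      (∀ v ∈ T, IsPw p ((loc v a : (kv v)ˣ) : kv v)) ∧
      (∀ u ∈ (S : Set (HeightOneSpectrum (𝓞 E))).unit E,
        (∀ v ∈ T, IsPw p ((loc v u : (kv v)ˣ) : kv v)) →
        ∃ (i : ℕ) (c : E), (u : E) = (a : E) ^ i * c ^ p) ∧
      ∀ x : ∀ v : HeightOneSpectrum (𝓞 E), (kv v)ˣ,
        (∀ v ∈ T, ‖(((x v : (kv v)ˣ) : kv v) : PadicAlgCl (chr v))‖ = 1) →
        ∃ u ∈ (S : Set (HeightOneSpectrum (𝓞 E))).unit E,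
          ∀ v ∈ T, IsPw p (((x v * (loc v u)⁻¹ : (kv v)ˣ)) : kv v)

/-- Module FP: `(S ∪ T)`-units which are `p`-th powers at the places in `S` (from FI, NA1, NA2, PB,
SA). -/
def StFP : Prop :=
  ∀ (p : ℕ), p.Prime → ∀ (E : Type) [Field E] [NumberField E], IsEmpty (E →+* ℝ) → ∀ (ζ : E),
    IsPrimitiveRoot ζ p → ∀ (S T : Finset (HeightOneSpectrum (𝓞 E))), Disjoint S T →
    (∀ v, (p : 𝓞 E) ∈ v.asIdeal → v ∈ S) → Prin (S : Set (HeightOneSpectrum (𝓞 E))) →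
    (∀ x : ∀ v : HeightOneSpectrum (𝓞 E), (kv v)ˣ,
      (∀ v ∈ T, ‖(((x v : (kv v)ˣ) : kv v) : PadicAlgCl (chr v))‖ = 1) →
      ∃ u ∈ (S : Set (HeightOneSpectrum (𝓞 E))).unit E,
        ∀ v ∈ T, IsPw p (((x v * (loc v u)⁻¹ : (kv v)ˣ)) : kv v)) →
    ∀ x : Eˣ, (∀ v ∉ S, v ∉ T → v.valuation E (x : E) = 1) →
      (∀ v ∈ S, IsPw p ((loc v x : (kv v)ˣ) : kv v)) → IsPw p (x : E)

/-- Module FS, the second inequality (from EF, EG, FP, FT, LA, NA2, NA3, NA4, PC, SB). -/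
def StFS : Prop :=
  ∀ (p : ℕ) (E N : Type) [Field E] [NumberField E] [Field N] [NumberField N] [Algebra E N]
    (ζ : E) (a : Eˣ) (α : N), Kum p ζ a α → ∀ (S : Finset (HeightOneSpectrum (𝓞 E))),
    Prin (S : Set (HeightOneSpectrum (𝓞 E))) →
    Prin (Above N (S : Set (HeightOneSpectrum (𝓞 E)))) →
    (∀ v, (p : 𝓞 E) ∈ v.asIdeal → v ∈ S) → a ∈ (S : Set (HeightOneSpectrum (𝓞 E))).unit E →
    (PS p S a).index ≠ 0 ∧ (PS p S a).index ≤ p

/-- Module HN, **the Hasse norm theorem** (from EE, EG, EX, FS, LB, NA1, NA3, NA5). -/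
def StHN : Prop :=
  ∀ (p : ℕ), p.Prime → ∀ (E : Type) [Field E] [NumberField E], IsEmpty (E →+* ℝ) → ∀ (ζ : E),
    IsPrimitiveRoot ζ p → ∀ a b : Eˣ,
    (∀ v : HeightOneSpectrum (𝓞 E), loc v b ∈ Nm p (kv v) ((loc v a : (kv v)ˣ) : kv v)) →
    b ∈ Nm p E (a : E)

end BKR
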