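import Pool.Agent.Lib.MP_7c08ba_nt.R1.HSt
import Pool.Agent.Lib.MP_7c08ba_nt.Met.HHQ

set_option autoImplicit false

/-!
The Hasse principle for `H²(V, ℤ/2)`, one step, over totally complex fields.
-/

noncomputable section

namespace BKR

open NumberField IsDedekindDomain BKGen
open BKOdd (Fx IsKum IsNm)
open BKMet (GQ pb2)
open BKGlob2 (Cp fs sn LC Nm toU toC)


open BKGlob2.HQ in
/-- Module HQ2: the Hasse principle for `p = 2`, one step. -/
theorem stHQ2 (hLN : BKGlob2.StLN) (hHN : StHN) (hNB : BKGlob2.StNB) (hCP : BKGlob2.StCP) :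
    StHQ2 := by
  intro k Ω _ _ _ _ _ _ _ hreal V _ _ _ _ _ e he H hn ho hi z hz hlc hH
  have hp : Fact (Nat.Prime 2) := inferInstance
  have hζ : IsPrimitiveRoot (-1 : Ω) 2 := IsPrimitiveRoot.neg_one 0 (by norm_num)
  have hfz : Fx e (-1 : Ω) := by
    intro v
    rw [map_neg, map_one]
  obtain ⟨χ, hχ, hχH, σ, hσ⟩ := exists_char H hn ho hi
  have hχ0 : χ ≠ 0 := by
    rintro rfl
    exact zero_ne_one hσ
  obtain ⟨ψ, hψ, hzψ⟩ := BKOdd.stL1 BKOdd.stH90 (BKOdd.stKum BKOdd.stH90) k Ω V e he 2 (-1) hζ hfz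
    χ hχ hχ0 H hχH z hz hH
  obtain ⟨-, kum2, -, -, -⟩ := BKOdd.stKum BKOdd.stH90 k Ω V e he 2 (-1) hζ hfz
  obtain ⟨Y, hY0, hYf, hYk⟩ := kum2 ψ hψ
  obtain ⟨X, hX0, hXf, hXk⟩ := kum2 χ hχ
  -- the fixed field
  let E : IntermediateField k Ω := IntermediateField.fixedField e.range
  have hE : ∀ x, x ∈ E ↔ Fx e x := by
    intro x
    rw [IntermediateField.mem_fixedField_iff]
    constructor
    · intro h v
      exact h (e v) ⟨v, rfl⟩
    · rintro h _ ⟨v, rfl⟩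
      exact h v
  have halg : Algebra.IsAlgebraic k Ω := inferInstance
  have halgE : Algebra.IsAlgebraic E Ω := Algebra.IsAlgebraic.tower_top (K := k) E
  have hEN : NumberField E := by
    have : Algebra.IsAlgebraic ℚ Ω := Algebra.IsAlgebraic.trans ℚ k Ω
    let j : Ω →+* PadicAlgCl 2 := (IsAlgClosed.lift : Ω →ₐ[ℚ] PadicAlgCl 2).toRingHom
    exact ((hCP k Ω V e he 2 j).2.2.2.2 E hE).1
  have hEr : IsEmpty (E →+* ℝ) := ⟨fun f => hreal.false (f.comp (algebraMap k E))⟩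
  let X' : Eˣ := Units.mk0 ⟨X, (hE X).2 hXf⟩ (fun h => hX0 (congrArg Subtype.val h))
  let Y' : Eˣ := Units.mk0 ⟨Y, (hE Y).2 hYf⟩ (fun h => hY0 (congrArg Subtype.val h))
  have hζE : (-1 : Ω) ∈ E := (hE (-1)).2 hfz
  have hζ' : IsPrimitiveRoot (⟨(-1 : Ω), hζE⟩ : E) 2 :=
    IsPrimitiveRoot.of_map_of_injective (f := algebraMap E Ω) hζ (algebraMap E Ω).injective
  -- local conditions
  have hloc : ∀ (l : ℕ) [Fact l.Prime] (j : Ω →+* PadicAlgCl l),
      toU (j.comp (algebraMap E Ω)) Y' ∈ Nm 2 (comp l (j.comp (algebraMap E Ω)))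
        (toC (j.comp (algebraMap E Ω)) (X' : E)) := by
    intro l _ j
    refine hLN 2 k Ω V e he (-1) hζ E hE hζE X' Y' χ ψ hXk hYk l j ?_
    have h1 := hlc l j
    have h2 : pb2 (fs e j) (z - CC.cup ψ χ) ∈ CC.B2 (1 : Cp e j →* ZMod 2) :=
      pb2_mem (fs e j) (hCP k Ω V e he l j).2.1 hzψ
    have h3 := (CC.B2 (1 : Cp e j →* ZMod 2)).sub_mem h1 h2
    convert h3 using 1
    funext a b
    change CC.cup ψ χ (fs e j a) (fs e j b) = z (fs e j a) (fs e j b) -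
      (z (fs e j a) (fs e j b) - CC.cup ψ χ (fs e j a) (fs e j b))
    ring
  have hN : Y' ∈ Nm 2 E (X' : E) := by
    refine hHN 2 Fact.out E hEr _ hζ' X' Y' fun v => ?_
    let : Algebra E (PadicAlgCl (BKGlob2.chr v)) := (BKGlob2.emb v).toAlgebra
    let j' : Ω →ₐ[E] PadicAlgCl (BKGlob2.chr v) := IsAlgClosed.lift
    have hj : (j' : Ω →+* PadicAlgCl (BKGlob2.chr v)).comp (algebraMap E Ω) = BKGlob2.emb v := by
      ext x
      exact j'.commutes x
    have h1 := hloc (BKGlob2.chr v) (j' : Ω →+* PadicAlgCl (BKGlob2.chr v))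
    rw [hj] at h1
    exact h1
  have hIs : IsNm e 2 H σ Y :=
    (hNB 2 k Ω V e he (-1) hζ E hE hζE X' Y' χ hXk H hχH σ hσ).2 hN
  have hcup := (BKOdd.stL3 BKOdd.stH90 (BKOdd.stKum BKOdd.stH90) k Ω V e he 2 (-1) hζ hfz χ hχ H
    hχH σ hσ Y hY0 hYf ψ hYk).2 hIs
  have := (CC.B2 (1 : V →* ZMod 2)).add_mem hzψ hcup
  rwa [sub_add_cancel] at this

end BKR
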