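import Pool.Agent.Lib.MP_7c08ba_nt.R1.GSt
import Pool.Agent.Lib.MP_7c08ba_nt.Met.HStmts

set_option autoImplicit false

/-!
The Hasse principle for `H²` over totally complex fields, `p = 2`, and the extension of invariant
homomorphisms: statements of the modules (most of them are copies of statements in `Met/HStmts.lean`
and `Met/LocStmts.lean`).
-/

noncomputable section

namespace BKR

open NumberField IsDedekindDomain BKGen BKGen.SUnits
open BKOdd (Fx IsKum chm)
open BKLoc2 (cl im cy cyL Sys IsKP IsHom)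
open BKMet (QZ actA GF GQ cycF RS GS pb1 pb2)
open BKPar (Loc1 Loc2)
open BKGlob2 (Cp fs sn LC dc SP Prin CC0)

/-! ### Local fields -/

/-- Module CHT2: the chain theorem for `p = 2`, `l ≠ 2` (copy of CHT; in `exists_norm` for `p = 2`:
the norm group has index `2` and the group of squares has index `4`). -/
def StCHT2 : Prop :=
  ∀ (l : ℕ) [Fact l.Prime], l ≠ 2 → ∀ (V : Type) [Group V]
    [TopologicalSpace V] [IsTopologicalGroup V] (e : V →* GQ l), Topology.IsOpenEmbedding e →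
    BKOdd.LineP 2 V ∧ BKOdd.NonDeg 2 V

/-- Module LNX2: the second cohomology of open subgroups of the Galois group of `ℚ_l` with
coefficients `𝔽₂` has at most two elements (from CHT2, and CHAIN of `Odd` for `l = 2`; copy of
LNX). -/
def StLNX2 : Prop :=
  ∀ (l : ℕ) [Fact l.Prime] (V : Type) [Group V]
    [TopologicalSpace V] [IsTopologicalGroup V] [CompactSpace V] [NonarchimedeanGroup V]
    (e : V →* GQ l), Topology.IsOpenEmbedding e →
    ∀ z ∈ CC.Z2 (1 : V →* ZMod 2), ∀ z' ∈ CC.Z2 (1 : V →* ZMod 2),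
      z ∉ CC.B2 (1 : V →* ZMod 2) → ∃ a : ZMod 2, z' - a • z ∈ CC.B2 (1 : V →* ZMod 2)

/-- Module KIL2: a two-class with coefficients `𝔽₂` of an open subgroup `V` of the Galois group of
`ℚ_l` is trivial on every open subgroup of index two (from LNX2, CHT2 and CHAIN: `χ` has a partner
`ψ` with nontrivial `χ ∪ ψ`, and every class is a multiple of `χ ∪ ψ`). -/
def StKIL2 : Prop :=
  ∀ (l : ℕ) [Fact l.Prime] (V : Type) [Group V]
    [TopologicalSpace V] [IsTopologicalGroup V] [CompactSpace V] [NonarchimedeanGroup V]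
    (e : V →* GQ l), Topology.IsOpenEmbedding e → ∀ H : Subgroup V, IsOpen (H : Set V) →
    H.index = 2 → ∀ z ∈ CC.Z2 (1 : V →* ZMod 2),
    (fun a b : H => z a b) ∈ CC.B2 (1 : H →* ZMod 2)

/-! ### The Hasse principle -/

/-- Module HQ2: the Hasse principle for `p = 2`, one step (copy of HQ; from HN). -/
def StHQ2 : Prop :=
  ∀ (k Ω : Type) [Field k] [NumberField k] [Field Ω]
    [Algebra k Ω] [IsGalois k Ω] [IsAlgClosed Ω] [CharZero Ω], IsEmpty (k →+* ℝ) →
    ∀ (V : Type) [Group V]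
    [TopologicalSpace V] [IsTopologicalGroup V] [CompactSpace V] [NonarchimedeanGroup V]
    (e : V →* (Ω ≃ₐ[k] Ω)), Topology.IsOpenEmbedding e →
    ∀ H : Subgroup V, H.Normal → IsOpen (H : Set V) → H.index = 2 →
    ∀ z ∈ CC.Z2 (1 : V →* ZMod 2), LC e z → (fun a b : H => z a b) ∈ CC.B2 (1 : H →* ZMod 2) →
    z ∈ CC.B2 (1 : V →* ZMod 2)

/-- Module HP2: the Hasse principle for `H²(V, ℤ/2)` (copy of HP; from HQ2 and TR of `Odd`). -/
def StHP2 : Prop :=
  ∀ (k Ω : Type) [Field k] [NumberField k] [Field Ω] [Algebra k Ω]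
    [IsGalois k Ω] [IsAlgClosed Ω] [CharZero Ω], IsEmpty (k →+* ℝ) → ∀ (V : Type) [Group V]
    [TopologicalSpace V] [IsTopologicalGroup V] [CompactSpace V] [NonarchimedeanGroup V]
    (e : V →* (Ω ≃ₐ[k] Ω)), Topology.IsOpenEmbedding e →
    ∀ z ∈ CC.Z2 (1 : V →* ZMod 2), LC e z → z ∈ CC.B2 (1 : V →* ZMod 2)

/-- Module LAM2: a logarithm on the `2`-adic units. -/
def StLAM2 : Prop :=
  ∃ lam : ℤ_[2]ˣ → ℤ_[2], Continuous lam ∧ (∀ u v, lam (u * v) = lam u + lam v) ∧
    ∀ u, lam u = 0 ↔ u ^ 2 = 1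

/-- Module UN2: unramified classes are trivial at `l ≠ 2` (copy of UN; from CDO, FRB, CP and
LAM2). -/
def StUN2 : Prop :=
  ∀ (k Ω : Type) [Field k] [NumberField k] [Field Ω]
    [Algebra k Ω] [IsGalois k Ω] [IsAlgClosed Ω] [CharZero Ω] (V : Type) [Group V]
    [TopologicalSpace V] [IsTopologicalGroup V] [CompactSpace V] [NonarchimedeanGroup V]
    (e : V →* (Ω ≃ₐ[k] Ω)), Topology.IsOpenEmbedding e →
    ∀ (l : ℕ) [Fact l.Prime], l ≠ 2 → ∀ j : Ω →+* PadicAlgCl l,
    ∀ (G : Type) [Group G] [TopologicalSpace G] (π : V →* G), Continuous π →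
    (∀ v, e v ∈ Inert k Ω j → π v = 1) →
    ∀ (M : Type) [AddCommGroup M] (ρ : G →* AddMonoid.End M),
    (∀ m : M, ∃ n : ℕ, 2 ^ n • m = 0) →
    (∀ m : M, ∃ W : Subgroup G, IsOpen (W : Set G) ∧ ∀ w ∈ W, ρ w m = m) →
    ∀ z ∈ BKND.Z2 ρ, pb2 (π.comp (fs e j)) z ∈ BKND.B2 (ρ.comp (π.comp (fs e j)))

/-- The class of every prime outside `S` has odd order modulo the primes in `S`. -/
def OPrin {E : Type} [Field E] [NumberField E] (S : Set (HeightOneSpectrum (𝓞 E))) : Prop :=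
  ∀ v ∉ S, ∃ x : Eˣ, (∃ n : ℕ, v.valuation E (x : E) = WithZero.exp (-(2 * n + 1 : ℕ) : ℤ)) ∧
    ∀ w ∉ S, w ≠ v → w.valuation E (x : E) = 1

/-- Module OPR: the class number of `ℚ(√-q)` is odd (library). -/
def StOPR : Prop :=
  ∀ (q : ℕ) (F : Type) [Field F] [NumberField F] (s : F), q.Prime → q % 8 = 7 →
    Module.finrank ℚ F = 2 → s ^ 2 = -(q : F) → ∀ S : Set (HeightOneSpectrum (𝓞 F)), OPrin S

/-- Module RQ2: a homomorphism from `RS F P` to `ℤ/2` which is invariant under `GF F` extends to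
`GF F` (copy of RQ for `U = ⊤`, `E = F`, with `OPrin` in place of `Prin`: the uniformizer `π` of TI at
the place `v` is any element of `F` of valuation `1`, and the Kummer characters of `π` and of the
element `x` of `OPrin` agree on the inertia group, since the valuation of `x` is odd; from FR, TI, PA,
PB and KUM). -/
def StRQ2 : Prop :=
  ∀ (F : Type) [Field F] [NumberField F] (P : Set ℕ), P.Finite → (∀ l ∈ P, l.Prime) → 2 ∈ P →
    OPrin (SP F P) → ∀ f : GF F → ZMod 2, Loc1 f →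
    (∀ r ∈ RS F P, ∀ s ∈ RS F P, f (r * s) = f r + f s) →
    (∀ g, ∀ r ∈ RS F P, f (g * r * g⁻¹) = f r) →
    ∃ y ∈ CC.Z1 (1 : GF F →* ZMod 2), ∀ r ∈ RS F P, y r = f r

/-! ### Places -/

/-- Module CVF: cocycles with coefficients `𝔽₂` are trivial at a place or not independently of the
embedding: `j' = t ∘ j ∘ g` (from PA of `GStmts` and CV of `HStmts`). -/
def StCVF : Prop :=
  ∀ (F : Type) [Field F] [NumberField F] (l : ℕ) [Fact l.Prime]
    (j j' : AlgebraicClosure F →+* PadicAlgCl l),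
    pl (j.comp (algebraMap F (AlgebraicClosure F))) =
      pl (j'.comp (algebraMap F (AlgebraicClosure F))) →
    (∃ (g : GF F) (t : GQ l), ∀ x, j' x = t (j (g x))) ∧
    (∀ z ∈ CC.Z2 (1 : GF F →* ZMod 2),
      pb2 (fs (MonoidHom.id (GF F)) j) z ∈ CC.B2 (1 : Cp (MonoidHom.id (GF F)) j →* ZMod 2) →
      pb2 (fs (MonoidHom.id (GF F)) j') z ∈ CC.B2 (1 : Cp (MonoidHom.id (GF F)) j' →* ZMod 2)) ∧
    ∀ P : Set ℕ, ∀ z ∈ CC.Z2 (1 : GS F P →* ZMod 2),
      pb2 (dc P j) z ∈ CC.B2 (1 : Cp (MonoidHom.id (GF F)) j →* ZMod 2) →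
      pb2 (dc P j') z ∈ CC.B2 (1 : Cp (MonoidHom.id (GF F)) j' →* ZMod 2)

/-- `F` is an imaginary quadratic field in which `2` splits. -/
structure Base (F : Type) [Field F] [NumberField F] : Prop where
  quad : Module.finrank ℚ F = 2
  imag : IsEmpty (F →+* ℝ)
  split : Nonempty (F →+* ℚ_[2])

/-- Module R2: a class in `H²(F, 𝔽₂)` which is trivial at all places but one of the two places above
`2` is trivial. Proof: it becomes trivial over `F(i)` by KIL2 and HP2; hence it is the product of the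
characters of `-1` and of an element `b` of `F` (L1 of `Odd`). At the primes `l ≡ 3 (mod 4)` the
valuation of the norm `N b` is even (LN of `HStmts`), hence the odd part of `N b > 0` is `1`
modulo `4`, up to squares, so that `-1` is a norm residue at both places above `2` or at none of
them. -/
def StR2 : Prop :=
  ∀ (F : Type) [Field F] [NumberField F], Base F → ∀ e : AlgebraicClosure F →+* PadicAlgCl 2,
    ∀ z ∈ CC.Z2 (1 : GF F →* ZMod 2),
    (∀ (l : ℕ) [Fact l.Prime], l ≠ 2 → ∀ j : AlgebraicClosure F →+* PadicAlgCl l,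
      pb2 (fs (MonoidHom.id (GF F)) j) z ∈ CC.B2 (1 : Cp (MonoidHom.id (GF F)) j →* ZMod 2)) →
    pb2 (fs (MonoidHom.id (GF F)) e) z ∈ CC.B2 (1 : Cp (MonoidHom.id (GF F)) e →* ZMod 2) →
    z ∈ CC.B2 (1 : GF F →* ZMod 2)

/-- Module RA2: the same with coefficients `ℚ₂ / ℤ₂(χ)` (from R2 and PA, Z1A of `LocStmts`, CP, CY;
by induction on `n` with `2 ^ n • α = 0`: if `2 • α` is a coboundary then `α` is the image of a class
with coefficients `𝔽₂`, by PA; the groups `Z¹(ℚ₂ / ℤ₂(χ))` are divisible, by Z1A, hence this class is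
trivial wherever `α` is trivial). -/
def StRA2 : Prop :=
  ∀ (F : Type) [Field F] [NumberField F], Base F → ∀ e : AlgebraicClosure F →+* PadicAlgCl 2,
    ∀ α ∈ BKND.Z2 (actA (cycF 2 F)),
    (∀ (l : ℕ) [Fact l.Prime], l ≠ 2 → ∀ j : AlgebraicClosure F →+* PadicAlgCl l,
      pb2 (fs (MonoidHom.id (GF F)) j) α ∈
        BKND.B2 (actA ((cycF 2 F).comp (fs (MonoidHom.id (GF F)) j)))) →
    pb2 (fs (MonoidHom.id (GF F)) e) α ∈
      BKND.B2 (actA ((cycF 2 F).comp (fs (MonoidHom.id (GF F)) e))) →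
    α ∈ BKND.B2 (actA (cycF 2 F))

/-- Module TW2: a two-class of `GS F P` which is trivial at the places in `P`, except possibly one of
the places above `2`, is trivial (from R2, RQ2, UN2; copy of TW). -/
def StTW2 : Prop :=
  ∀ (F : Type) [Field F] [NumberField F], Base F → ∀ e : AlgebraicClosure F →+* PadicAlgCl 2,
    ∀ P : Set ℕ, P.Finite → (∀ l ∈ P, l.Prime) → 2 ∈ P → OPrin (SP F P) →
    ∀ z ∈ CC.Z2 (1 : GS F P →* ZMod 2),
    (∀ (l : ℕ) [Fact l.Prime], l ∈ P → l ≠ 2 → ∀ j : AlgebraicClosure F →+* PadicAlgCl l,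
      pb2 (dc P j) z ∈ CC.B2 (1 : Cp (MonoidHom.id (GF F)) j →* ZMod 2)) →
    pb2 (dc P e) z ∈ CC.B2 (1 : Cp (MonoidHom.id (GF F)) e →* ZMod 2) →
    z ∈ CC.B2 (1 : GS F P →* ZMod 2)

/-! ### Numbers of classes -/

/-- Module H1N: the number of homomorphisms from `GS F P` to `ℤ/2` (Kummer theory and SB: an element
of `F` with even valuations outside `P` is an `S`-unit times a square, by `OPrin`). -/
def StH1N : Prop :=
  ∀ (F : Type) [Field F] [NumberField F], Module.finrank ℚ F = 2 → IsEmpty (F →+* ℝ) →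
    ∀ P : Set ℕ, P.Finite → (∀ l ∈ P, l.Prime) → 2 ∈ P → OPrin (SP F P) →
    Nat.card (CC.Z1 (1 : GS F P →* ZMod 2)) = 2 ^ (Nat.card (SP F P) + 1)

/-- Module H2N: the number of classes in `H²(GS F P, 𝔽₂)` (from TW2, LNX2, CP, CVF): there is one
class at most for every place above `P` but one of the two places above `2`. -/
def StH2N : Prop :=
  ∀ (F : Type) [Field F] [NumberField F], Base F →
    ∀ P : Set ℕ, P.Finite → (∀ l ∈ P, l.Prime) → 2 ∈ P → OPrin (SP F P) →
    (CC.B2 (1 : GS F P →* ZMod 2)).toAddSubgroup.relIndex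
      (CC.Z2 (1 : GS F P →* ZMod 2)).toAddSubgroup ≠ 0 ∧
    (CC.B2 (1 : GS F P →* ZMod 2)).toAddSubgroup.relIndex
      (CC.Z2 (1 : GS F P →* ZMod 2)).toAddSubgroup ≤ 2 ^ (Nat.card (SP F P) - 1)

end BKR
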