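import Pool.Agent.Lib.MP_7c08ba_nt.R1.HSt
import Pool.Agent.Lib.MP_7c08ba_nt.Odd.CycL

set_option autoImplicit false

/-!
Selmer groups of dimension one, module UN2: unramified classes are trivial at `l ≠ 2`.
-/

noncomputable section

namespace BKR

open BKGen
open BKLoc2 (cy cyL IsHom)
open BKMet (GQ pb2)
open BKGlob2 (Cp fs sn StCDO StFRB StCP Cp_rel)

namespace UN2Aux

variable {p l : ℕ} [Fact p.Prime] [Fact l.Prime]

/-- the value of the cyclotomic character from the action on the roots of unity -/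
lemma cyL_eq (g : GQ l) (N : ℕ) (w : ℤ_[p]ˣ) (hw : ((w : ℤ_[p]ˣ) : ℤ_[p]) = N)
    (h : ∀ (n : ℕ) (ξ : PadicAlgCl l), ξ ^ p ^ n = 1 → g ξ = ξ ^ N) : cyL p l g = w := by
  apply BKOdd.CycLAux.eq_of (Ω := PadicAlgCl l)
  intro n ξ hξ
  have h1 : g ξ = ξ ^ (((cyL p l g : ℤ_[p]ˣ) : ℤ_[p]).toZModPow n).val :=
    BKOdd.CycLAux.act n ξ hξ.pow_eq_one
      (MulSemiringAction.toRingAut (GQ l) (PadicAlgCl l) g)
  rw [← h1, h n ξ hξ.pow_eq_one, hw, map_natCast, ZMod.val_natCast, hξ.eq_orderOf,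
    pow_mod_orderOf]

end UN2Aux

open UN2Aux in
/-- Module UN2 -/
theorem stUN2 (hCDO : StCDO) (hFRB : StFRB) (hCP : StCP) (hLam : StLAM2) : StUN2 := by
  intro k Ω _ _ _ _ _ _ _ V _ _ _ _ _ e he l _ hl2 j G _ _ π hπ hI M _ ρ htor hsm z hz
  have hl : l.Prime := Fact.out
  obtain ⟨hsn, hfs, hcomp, hna, -⟩ := hCP k Ω V e he l j
  obtain ⟨φ, f, hf0, hφ, hin, hgen⟩ := hFRB l (Cp e j) (sn e j) hsn
  obtain ⟨lam, hcont, hmul, hzero⟩ := hLam
  have h1 : lam 1 = 0 := (hzero 1).2 (one_pow 2)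
  have hpow : ∀ (u : ℤ_[2]ˣ) (n : ℕ), lam (u ^ n) = n * lam u := by
    intro u n
    induction n with
    | zero => rw [pow_zero, h1, Nat.cast_zero, zero_mul]
    | succ n ih => rw [pow_succ, hmul, ih, Nat.cast_succ]; ring
  have hndvd : ∀ n : ℕ, ¬ l ∣ 2 ^ n := fun n h =>
    hl2 ((Nat.prime_dvd_prime_iff_eq hl Nat.prime_two).1 (hl.dvd_of_dvd_pow h))
  -- the unit `l`
  have hlu : IsUnit (l : ℤ_[2]) := by
    rw [PadicInt.isUnit_iff]
    by_contra h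
    have h2 : ‖((l : ℤ) : ℤ_[2])‖ < 1 := by
      rw [Int.cast_natCast]
      exact lt_of_le_of_ne (PadicInt.norm_le_one _) h
    rw [PadicInt.norm_int_lt_one_iff_dvd, Int.natCast_dvd_natCast] at h2
    exact hl2 ((Nat.prime_dvd_prime_iff_eq Nat.prime_two hl).1 h2).symm
  obtain ⟨u, hu⟩ := hlu
  have hcφ : cyL 2 l (sn e j φ) = u ^ f := by
    refine cyL_eq _ (l ^ f) _ ?_ fun n ξ hξ => hφ (2 ^ n) (hndvd n) ξ hξ
    rw [Units.val_pow_eq_pow_val, hu, Nat.cast_pow]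
  have hci : ∀ i, sn e j i ∈ Inert ℚ_[l] (PadicAlgCl l) (RingHom.id (PadicAlgCl l)) →
      cyL 2 l (sn e j i) = 1 := by
    intro i hi
    refine cyL_eq _ 1 _ ?_ fun n ξ hξ => ?_
    · rw [Units.val_one, Nat.cast_one]
    · rw [pow_one]
      exact hin (2 ^ n) (hndvd n) ξ hξ _ hi
  refine hCDO 2 (Cp e j)
    {c | sn e j c ∈ Inert ℚ_[l] (PadicAlgCl l) (RingHom.id (PadicAlgCl l))} φ
    (fun c => lam (cyL 2 l (sn e j c))) ⟨?_, fun g h => ?_⟩ (fun i hi => ?_) ?_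
    (fun W hW d => ?_) G (π.comp (fs e j)) (hπ.comp hfs) (fun i hi => ?_) M ρ htor hsm z hz
  · exact hcont.comp
      ((cyclotomicCharacter.continuous 2 ℚ_[l] (PadicAlgCl l)).comp hsn.continuous)
  · rw [map_mul, map_mul, hmul]
  · rw [hci i hi, h1]
  · rw [hcφ, hpow]
    refine mul_ne_zero (Nat.cast_ne_zero.2 hf0) fun h => ?_
    rw [hzero, Units.ext_iff, Units.val_pow_eq_pow_val, hu, Units.val_one] at h
    have h2 : l ^ 2 = 1 := by exact_mod_cast h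
    rcases Nat.pow_eq_one.1 h2 with h3 | h3
    · exact hl.one_lt.ne' h3
    · omega
  · obtain ⟨n, i, hi, w, hw, hd⟩ := hgen W hW d
    exact ⟨n, i, hi, w, hw, hd⟩
  · refine hI _ fun x hx => ?_
    have h3 := hi (j x) hx
    rw [RingHom.id_apply] at h3
    rw [map_sub, Cp_rel]
    exact h3

end BKR
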